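import Mathlib

set_option autoImplicit false

namespace Pool.Agent.Helper150.Iid

open MeasureTheory
open scoped ENNReal

noncomputable section

/-- The torus `𝕋^d = (ℝ/ℤ)^d`, with Lebesgue measure `volume` of total mass one. -/
abbrev Tor (d : ℕ) : Type := Fin d → UnitAddCircle

/-- The Fourier coefficient `\hat f(h) = ∫ f(x) exp(-2πi⟨h,x⟩) dx`. -/
def fc {d : ℕ} (f : Tor d → ℝ) (h : Fin d → ℤ) : ℂ :=
  ∫ x : Tor d, (∏ j, fourier (-h j) (x j)) * (f x : ℂ)

/-- The weight `∏_j (1 + |h_j|²)^k`. -/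
def wt {d : ℕ} (k : ℝ) (h : Fin d → ℤ) : ℝ := ∏ j, (1 + (h j : ℝ) ^ 2) ^ k

/-- The unit ball of `H^{k,mix}(𝕋^d)`, `k > 1/2` (whose elements are continuous functions):
`∑_h |\hat f(h)|² ∏_j (1 + |h_j|²)^k ≤ 1`. -/
def ball (d : ℕ) (k : ℝ) : Set (Tor d → ℝ) :=
  {f | Continuous f ∧ (Summable fun h => ‖fc f h‖ ^ 2 * wt k h) ∧
    ∑' h, ‖fc f h‖ ^ 2 * wt k h ≤ 1}

/-- A randomized algorithm based on at most `n` function values: a random point configuration
`P` (repetitions are allowed, so the number of different points is at most `n`) on a probability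
space, and for each `ω` an arbitrary map `φ ω` applied to the function values. -/
structure RandAlg (d n : ℕ) where
  /-- The sample space. -/
  Ω : Type
  /-- Its sigma-algebra. -/
  mΩ : MeasurableSpace Ω
  /-- The probability measure. -/
  μ : Measure Ω
  /-- It is a probability measure. -/
  prob : IsProbabilityMeasure μ
  /-- The random points. -/
  P : Ω → Fin n → Tor d
  /-- The random points are measurable. -/
  measP : Measurable P
  /-- The random reconstruction map. -/
  φ : Ω → (Fin n → ℝ) → ℝ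

/-- Upper integral. -/
def upperInt {Ω : Type} [MeasurableSpace Ω] (μ : Measure Ω) (F : Ω → ℝ≥0∞) : ℝ≥0∞ :=
  ⨅ (g : Ω → ℝ≥0∞) (_ : Measurable g) (_ : F ≤ g), ∫⁻ ω, g ω ∂μ

/-- The worst case error, for a fixed `ω`, on the unit ball. -/
def RandAlg.wce {d n : ℕ} (A : RandAlg d n) (k : ℝ) (ω : A.Ω) : ℝ≥0∞ :=
  ⨆ f ∈ ball d k, ENNReal.ofReal |(∫ x, f x) - A.φ ω (fun i => f (A.P ω i))|

/-- The uniform error `e^unif(A) = E sup_{‖f‖ ≤ 1} |S(f) - A(f)|` (upper integral). -/
def RandAlg.errUnif {d n : ℕ} (A : RandAlg d n) (k : ℝ) : ℝ≥0∞ :=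
  letI := A.mΩ
  upperInt A.μ (A.wce k)

/-- The points of `A` are `n` independent uniformly distributed points. -/
def RandAlg.IsIid {d n : ℕ} (A : RandAlg d n) : Prop :=
  letI := A.mΩ
  A.μ.map A.P = Measure.pi (fun _ : Fin n => (volume : Measure (Tor d)))

/-- `e^unif(𝒫_n)`: optimal uniform error of algorithms based on `n` i.i.d. uniform points. -/
def eIid (d : ℕ) (k : ℝ) (n : ℕ) : ℝ≥0∞ :=
  ⨅ (A : RandAlg d n) (_ : A.IsIid), A.errUnif k

/-- `e^unif(n)`: optimal uniform error of algorithms based on arbitrary random point sets with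
at most `n` points. -/
def eOpt (d : ℕ) (k : ℝ) (n : ℕ) : ℝ≥0∞ :=
  ⨅ (A : RandAlg d n), A.errUnif k

end

end Pool.Agent.Helper150.Iid
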