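import Mathlib
import Pool.Agent.Helper150.Iid.Defs

set_option autoImplicit false

namespace Pool.Agent.Helper150.Iid

open MeasureTheory
open scoped ContDiff

noncomputable section

/-- The function on the circle given by a (periodic) function on the line. -/
def cf (U : ℝ → ℝ) (t : UnitAddCircle) : ℝ := U (AddCircle.equivIco (1 : ℝ) 0 t : ℝ)

/-- For periodic `U`, `cf U` is the induced function. -/
theorem cf_coe {U : ℝ → ℝ} (hU : Function.Periodic U 1) (x : ℝ) : cf U (x : UnitAddCircle) = U x := by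
  unfold cf
  have h1 : (AddCircle.equivIco (1 : ℝ) 0 ((x : ℝ) : AddCircle (1 : ℝ)) : ℝ) = Int.fract (x / 1) * 1 :=
    AddCircle.coe_equivIco_mk_apply (1 : ℝ) x
  have h2 : (AddCircle.equivIco (1 : ℝ) 0 ((x : ℝ) : UnitAddCircle) : ℝ) = x - ⌊x⌋ := by
    refine h1.trans ?_
    rw [div_one, mul_one]
    rfl
  rw [h2]
  have h3 := hU.sub_int_mul_eq (x := x) ⌊x⌋
  rw [mul_one] at h3
  exact h3

theorem cf_continuous {U : ℝ → ℝ} (hU : Function.Periodic U 1) (hc : Continuous U) :
    Continuous (cf U) := by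
  have hq : Topology.IsQuotientMap (fun x : ℝ => (x : UnitAddCircle)) := isQuotientMap_quotient_mk'
  rw [hq.continuous_iff]
  have : (cf U ∘ fun x : ℝ => (x : UnitAddCircle)) = U := by
    funext x
    exact cf_coe hU x
  rw [this]
  exact hc

theorem vol_circle : (volume : Measure UnitAddCircle) = AddCircle.haarAddCircle := by
  have h := AddCircle.volume_eq_smul_haarAddCircle (T := (1 : ℝ))
  rw [h]
  simp

theorem vol_eq (d : ℕ) : (volume : Measure (Tor d)) =
    Measure.pi (fun _ : Fin d => (AddCircle.haarAddCircle : Measure UnitAddCircle)) := by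
  rw [volume_pi, vol_circle]

/-- The volume on the circle is the Haar probability measure; so Mathlib's coefficient. -/
theorem fc_eq {d : ℕ} (f : Tor d → ℝ) (h : Fin d → ℤ) :
    fc f h = UnitAddTorus.mFourierCoeff (fun x : UnitAddTorus (Fin d) => (f x : ℂ)) h := by
  have hm := vol_eq d
  unfold fc
  rw [hm]
  unfold UnitAddTorus.mFourierCoeff
  rfl

/-- Parseval. -/
theorem parseval {d : ℕ} (f : Tor d → ℝ) (hf : Continuous f) :
    HasSum (fun h : Fin d → ℤ => ‖fc f h‖ ^ 2) (∫ x, (f x) ^ 2) := by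
  have hc : Continuous (fun x : UnitAddTorus (Fin d) => (f x : ℂ)) :=
    Complex.continuous_ofReal.comp hf
  let F : C(UnitAddTorus (Fin d), ℂ) := ⟨fun x => (f x : ℂ), hc⟩
  let μ : Measure (UnitAddTorus (Fin d)) :=
    Measure.pi (fun _ : Fin d => (AddCircle.haarAddCircle : Measure UnitAddCircle))
  have key := UnitAddTorus.hasSum_sq_mFourierCoeff (d := Fin d)
    (ContinuousMap.toLp (E := ℂ) 2 μ ℂ F)
  have h1 : ∀ i, UnitAddTorus.mFourierCoeff (ContinuousMap.toLp (E := ℂ) 2 μ ℂ F) i = fc f i := by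
    intro i
    rw [fc_eq]
    exact UnitAddTorus.mFourierCoeff_toLp F i
  simp only [h1] at key
  rw [vol_eq d]
  convert key using 1
  apply integral_congr_ae
  have h2 : (ContinuousMap.toLp (E := ℂ) 2 μ ℂ F) =ᵐ[μ] F := ContinuousMap.coeFn_toLp μ F
  filter_upwards [h2] with x hx
  rw [hx]
  show f x ^ 2 = ‖((f x : ℝ) : ℂ)‖ ^ 2
  rw [Complex.norm_real, Real.norm_eq_abs, sq_abs]

/-- one dimensional coefficient -/
def fone (U : ℝ → ℝ) (n : ℤ) : ℂ := ∫ x : UnitAddCircle, fourier (-n) x * (cf U x : ℂ)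

theorem fone_eq {U : ℝ → ℝ} (hU : Function.Periodic U 1) (n : ℤ) :
    fone U n = ∫ x in (0 : ℝ)..(0 + 1), fourier (-n) (x : UnitAddCircle) * (U x : ℂ) := by
  unfold fone
  rw [← UnitAddCircle.intervalIntegral_preimage 0]
  simp only [cf_coe hU]

theorem periodic_deriv {U : ℝ → ℝ} (hU : Function.Periodic U 1) : Function.Periodic (deriv U) 1 := by
  intro x
  have h1 : (fun y => U (y + 1)) = U := by
    funext y; exact hU y
  calc deriv U (x + 1) = deriv (fun y => U (y + 1)) x := by rw [deriv_comp_add_const]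
    _ = deriv U x := by rw [h1]

theorem fone_deriv {U : ℝ → ℝ} (hU : Function.Periodic U 1) (hd : ContDiff ℝ ∞ U) (n : ℤ) :
    fone (deriv U) n = (2 * Real.pi * Complex.I * (n : ℂ)) * fone U n := by
  rw [fone_eq hU, fone_eq (periodic_deriv hU)]
  have hdiff : Differentiable ℝ U := hd.differentiable (by simp)
  have hcd : Continuous (deriv U) := hd.continuous_deriv (by simp)
  have hfc : Continuous (fun x : ℝ => (fourier (-n) (x : UnitAddCircle) : ℂ)) :=
    (fourier (-n)).continuous.comp (AddCircle.continuous_mk' (1 : ℝ))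
  have hibp := intervalIntegral.integral_mul_deriv_eq_deriv_mul (a := (0 : ℝ)) (b := 0 + 1)
    (u := fun x : ℝ => (fourier (-n) (x : UnitAddCircle) : ℂ))
    (v := fun x : ℝ => (U x : ℂ))
    (u' := fun x : ℝ => (-2 * Real.pi * Complex.I * n / (1 : ℝ) * fourier (-n) (x : UnitAddCircle) : ℂ))
    (v' := fun x : ℝ => ((deriv U x : ℝ) : ℂ))
    (fun x _ => hasDerivAt_fourier_neg (1 : ℝ) n x)
    (fun x _ => (hdiff x).hasDerivAt.ofReal_comp)
    ((continuous_const.mul hfc).intervalIntegrable _ _)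
    ((Complex.continuous_ofReal.comp hcd).intervalIntegrable _ _)
  rw [hibp]
  have e1 : (((0 + 1 : ℝ)) : UnitAddCircle) = ((0 : ℝ) : UnitAddCircle) := by
    rw [zero_add]
    exact (AddCircle.coe_period (1 : ℝ)).trans rfl
  have e2 : U (0 + 1) = U 0 := hU 0
  rw [e1, e2, sub_self, zero_sub, ← intervalIntegral.integral_neg, ← intervalIntegral.integral_const_mul]
  congr 1
  funext x
  push_cast
  ring

theorem fone_iter {U : ℝ → ℝ} (hU : Function.Periodic U 1) (hd : ContDiff ℝ ∞ U) (n : ℤ) (p : ℕ) :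
    Function.Periodic (iteratedDeriv p U) 1 ∧ ContDiff ℝ ∞ (iteratedDeriv p U) ∧
    fone (iteratedDeriv p U) n = (2 * Real.pi * Complex.I * (n : ℂ)) ^ p * fone U n := by
  induction p with
  | zero =>
    rw [iteratedDeriv_zero]
    exact ⟨hU, hd, by simp⟩
  | succ p ih =>
    obtain ⟨h1, h2, h3⟩ := ih
    rw [iteratedDeriv_succ]
    refine ⟨periodic_deriv h1, ?_, ?_⟩
    · exact ((contDiff_infty_iff_deriv).1 h2).2
    · rw [fone_deriv h1 h2, h3, pow_succ]
      ring

theorem integrable_tor {d : ℕ} (F : Tor d → ℂ) (hF : Continuous F) : Integrable F := by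
  exact hF.integrable_of_hasCompactSupport (HasCompactSupport.of_compactSpace F)

theorem fc_tensor {ι : Type} (s : Finset ι) (c : ι → ℝ) (U V : ι → ℝ → ℝ)
    (cU : ∀ b, Continuous (U b)) (cV : ∀ b, Continuous (V b))
    (pU : ∀ b, Function.Periodic (U b) 1) (pV : ∀ b, Function.Periodic (V b) 1)
    (h : Fin 2 → ℤ) :
    fc (d := 2) (fun x => ∑ b ∈ s, c b * cf (U b) (x 0) * cf (V b) (x 1)) h =
      ∑ b ∈ s, (c b : ℂ) * (fone (U b) (h 0) * fone (V b) (h 1)) := by
  unfold fc
  have e1 : ∀ x : Tor 2, (∏ j, fourier (-h j) (x j)) *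
      ((∑ b ∈ s, c b * cf (U b) (x 0) * cf (V b) (x 1) : ℝ) : ℂ) =
      ∑ b ∈ s, (c b : ℂ) * ((fourier (-h 0) (x 0) * (cf (U b) (x 0) : ℂ)) *
        (fourier (-h 1) (x 1) * (cf (V b) (x 1) : ℂ))) := by
    intro x
    rw [Fin.prod_univ_two]
    push_cast
    rw [Finset.mul_sum]
    apply Finset.sum_congr rfl
    intro b _
    ring
  simp only [e1]
  rw [integral_finsetSum]
  · apply Finset.sum_congr rfl
    intro b _
    rw [integral_const_mul]
    congr 1
    have key := integral_fintype_prod_volume_eq_prod (ι := Fin 2) (𝕜 := ℂ) (E := fun _ => UnitAddCircle)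
      (f := ![fun x => fourier (-h 0) x * (cf (U b) x : ℂ), fun x => fourier (-h 1) x * (cf (V b) x : ℂ)])
    simp only [Fin.prod_univ_two] at key
    exact key
  · intro b _
    apply integrable_tor
    have c1 := cf_continuous (pU b) (cU b)
    have c2 := cf_continuous (pV b) (cV b)
    have p0 : Continuous (fun x : Tor 2 => x 0) := continuous_apply (0 : Fin 2)
    have p1 : Continuous (fun x : Tor 2 => x 1) := continuous_apply (1 : Fin 2)
    have a1 : Continuous (fun x : UnitAddCircle => (fourier (-h 0) x : ℂ)) :=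
      (fourier (-h 0)).continuous
    have a2 : Continuous (fun x : UnitAddCircle => (fourier (-h 1) x : ℂ)) :=
      (fourier (-h 1)).continuous
    have b1 : Continuous (fun x : UnitAddCircle => ((cf (U b) x : ℝ) : ℂ)) :=
      Complex.continuous_ofReal.comp c1
    have b2 : Continuous (fun x : UnitAddCircle => ((cf (V b) x : ℝ) : ℂ)) :=
      Complex.continuous_ofReal.comp c2
    have d1 : Continuous (fun x : UnitAddCircle => (fourier (-h 0) x : ℂ) * ((cf (U b) x : ℝ) : ℂ)) :=
      a1.mul b1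
    have d2 : Continuous (fun x : UnitAddCircle => (fourier (-h 1) x : ℂ) * ((cf (V b) x : ℝ) : ℂ)) :=
      a2.mul b2
    exact continuous_const.mul ((d1.comp p0).mul (d2.comp p1))

/-- TARGET: Fourier coefficients of derivatives of tensor sums. -/
theorem fc_deriv {ι : Type} (s : Finset ι) (c : ι → ℝ) (U V : ι → ℝ → ℝ)
    (hU : ∀ b, ContDiff ℝ ∞ (U b)) (hV : ∀ b, ContDiff ℝ ∞ (V b))
    (pU : ∀ b, Function.Periodic (U b) 1) (pV : ∀ b, Function.Periodic (V b) 1)
    (p q : ℕ) (h : Fin 2 → ℤ) :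
    fc (d := 2) (fun x => ∑ b ∈ s, c b * cf (iteratedDeriv p (U b)) (x 0) *
        cf (iteratedDeriv q (V b)) (x 1)) h =
      (2 * Real.pi * Complex.I * (h 0 : ℂ)) ^ p * (2 * Real.pi * Complex.I * (h 1 : ℂ)) ^ q *
        fc (d := 2) (fun x => ∑ b ∈ s, c b * cf (U b) (x 0) * cf (V b) (x 1)) h := by
  rw [fc_tensor s c U V (fun b => (hU b).continuous) (fun b => (hV b).continuous) pU pV,
    fc_tensor s c (fun b => iteratedDeriv p (U b)) (fun b => iteratedDeriv q (V b))
      (fun b => (fone_iter (pU b) (hU b) 0 p).2.1.continuous)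
      (fun b => (fone_iter (pV b) (hV b) 0 q).2.1.continuous)
      (fun b => (fone_iter (pU b) (hU b) 0 p).1)
      (fun b => (fone_iter (pV b) (hV b) 0 q).1), Finset.mul_sum]
  apply Finset.sum_congr rfl
  intro b _
  rw [(fone_iter (pU b) (hU b) (h 0) p).2.2, (fone_iter (pV b) (hV b) (h 1) q).2.2]
  ring

/-- TARGET: the resulting Parseval identity. -/
theorem parseval_deriv {ι : Type} (s : Finset ι) (c : ι → ℝ) (U V : ι → ℝ → ℝ)
    (hU : ∀ b, ContDiff ℝ ∞ (U b)) (hV : ∀ b, ContDiff ℝ ∞ (V b))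
    (pU : ∀ b, Function.Periodic (U b) 1) (pV : ∀ b, Function.Periodic (V b) 1)
    (p q : ℕ) :
    HasSum (fun h : Fin 2 → ℤ => (2 * Real.pi * (h 0 : ℝ)) ^ (2 * p) *
        (2 * Real.pi * (h 1 : ℝ)) ^ (2 * q) *
        ‖fc (d := 2) (fun x => ∑ b ∈ s, c b * cf (U b) (x 0) * cf (V b) (x 1)) h‖ ^ 2)
      (∫ x : Tor 2, (∑ b ∈ s, c b * cf (iteratedDeriv p (U b)) (x 0) *
        cf (iteratedDeriv q (V b)) (x 1)) ^ 2) := by
  have hcont : Continuous (fun x : Tor 2 => ∑ b ∈ s, c b * cf (iteratedDeriv p (U b)) (x 0) *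
        cf (iteratedDeriv q (V b)) (x 1)) := by
    apply continuous_finsetSum
    intro b _
    have c1 := cf_continuous (fone_iter (pU b) (hU b) 0 p).1 (fone_iter (pU b) (hU b) 0 p).2.1.continuous
    have c2 := cf_continuous (fone_iter (pV b) (hV b) 0 q).1 (fone_iter (pV b) (hV b) 0 q).2.1.continuous
    exact (continuous_const.mul (c1.comp (continuous_apply 0))).mul (c2.comp (continuous_apply 1))
  have key := parseval _ hcont
  convert key using 1
  funext h
  rw [fc_deriv s c U V hU hV pU pV p q h]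
  have hn : ∀ (m : ℤ) (k : ℕ), (2 * Real.pi * (m : ℝ)) ^ (2 * k) =
      (‖(2 * Real.pi * Complex.I * (m : ℂ)) ^ k‖) ^ 2 := by
    intro m k
    have h1 : ‖(2 * Real.pi * Complex.I * (m : ℂ))‖ ^ 2 = (2 * Real.pi * (m : ℝ)) ^ 2 := by
      rw [norm_mul, norm_mul, norm_mul, Complex.norm_I, Complex.norm_real, Complex.norm_intCast,
        Real.norm_eq_abs]
      have h2 : ‖(2 : ℂ)‖ = 2 := by simp
      rw [h2, mul_one, mul_pow, mul_pow, mul_pow, mul_pow, sq_abs, sq_abs]
    rw [norm_pow, ← pow_mul, mul_comm k 2, pow_mul, pow_mul, h1]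
  rw [hn, hn, norm_mul, norm_mul]
  ring

end

end Pool.Agent.Helper150.Iid
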