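import Mathlib
import Pool.Agent.Helper150.Iid.Cf

set_option autoImplicit false

namespace Pool.Agent.Helper150.Iid

open MeasureTheory
open scoped ContDiff

noncomputable section

/-- `1`-periodic bump of scale `1/K` around `x0` with (even) profile `B`. -/
def pb (B : ℝ → ℝ) (K x0 : ℝ) (x : ℝ) : ℝ := B (K * Real.sin (Real.pi * (x - x0)))

/-- Profile of the bumps in the second variable (and of the isolated bumps): even, smooth,
equal to one on `[-4/5, 4/5]`, positive exactly on `(-1, 1)`. -/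
def bb (t : ℝ) : ℝ := Real.smoothTransition (25 / 9 * (1 - t ^ 2))

/-- Profile of the bumps in the first variable: even, smooth, supported in `[-1, 1]`. -/
def AA (t : ℝ) : ℝ := expNegInvGlue (1 - t ^ 2) / 2

/-- The function of the first variable: the normalised derivative of `pb AA K x0`. -/
def psi (K x0 : ℝ) (x : ℝ) : ℝ :=
  deriv AA (K * Real.sin (Real.pi * (x - x0))) * Real.cos (Real.pi * (x - x0))

/-- Its values at the midpoints of the subcells. -/
def xi (Q l : ℕ) (d : Fin Q) : ℝ :=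
  psi ((Q : ℝ) ^ l) (1 / 2 / (Q : ℝ) ^ l) ((((d : ℕ) : ℝ) + 1 / 2) / Q / (Q : ℝ) ^ l)

/-- The weights of the second variable at level `l`. -/
def bw (Q R l : ℕ) (m : Fin (2 * Q ^ (R + 1))) (t : UnitAddCircle) : ℝ :=
  if (m : ℕ) < 2 * Q ^ (R + 1 - l) then
    cf (pb bb ((Q : ℝ) ^ (R + 1 - l)) (((m : ℕ) : ℝ) / (2 * (Q : ℝ) ^ (R + 1 - l)))) t else 0

/-- The `l`-th base `Q` digit of a point of the circle. -/
def dig (Q : ℕ) (hQ : 0 < Q) (l : ℕ) (t : UnitAddCircle) : Fin Q :=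
  ⟨⌊(Q : ℝ) ^ (l + 1) * (AddCircle.equivIco (1 : ℝ) 0 t : ℝ)⌋₊ % Q, Nat.mod_lt _ hQ⟩

end

end Pool.Agent.Helper150.Iid
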