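import Mathlib

set_option autoImplicit false

namespace Pool.Agent.Helper150.Iid

noncomputable section

/-- Uniform average over `Fin n → Fin Q`. -/
def Ex {n Q : ℕ} (F : (Fin n → Fin Q) → ℝ) : ℝ := (∑ d, F d) / (Q : ℝ) ^ n

variable {n Q : ℕ}

theorem Ex_add (F G : (Fin n → Fin Q) → ℝ) : Ex (fun d => F d + G d) = Ex F + Ex G := by
  simp [Ex, Finset.sum_add_distrib, add_div]

theorem Ex_sub (F G : (Fin n → Fin Q) → ℝ) : Ex (fun d => F d - G d) = Ex F - Ex G := by
  simp [Ex, Finset.sum_sub_distrib, sub_div]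

theorem Ex_const_mul (c : ℝ) (F : (Fin n → Fin Q) → ℝ) : Ex (fun d => c * F d) = c * Ex F := by
  simp [Ex, ← Finset.mul_sum, mul_div_assoc]

theorem Ex_mul_const (c : ℝ) (F : (Fin n → Fin Q) → ℝ) : Ex (fun d => F d * c) = Ex F * c := by
  simp only [Ex, ← Finset.sum_mul]
  ring

theorem Ex_sum {ι : Type*} (s : Finset ι) (F : ι → (Fin n → Fin Q) → ℝ) :
    Ex (fun d => ∑ i ∈ s, F i d) = ∑ i ∈ s, Ex (F i) := by
  simp only [Ex]
  rw [Finset.sum_comm, Finset.sum_div]

theorem Ex_const (hQ : 0 < Q) (c : ℝ) : Ex (fun _ : Fin n → Fin Q => c) = c := by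
  have : (Q : ℝ) ^ n ≠ 0 := by positivity
  simp only [Ex, Finset.sum_const, Finset.card_univ, Fintype.card_fun, Fintype.card_fin,
    nsmul_eq_mul]
  push_cast
  field_simp

theorem Ex_mono {F G : (Fin n → Fin Q) → ℝ} (h : ∀ d, F d ≤ G d) : Ex F ≤ Ex G := by
  unfold Ex
  exact div_le_div_of_nonneg_right (Finset.sum_le_sum fun d _ => h d) (by positivity)

theorem Ex_nonneg {F : (Fin n → Fin Q) → ℝ} (h : ∀ d, 0 ≤ F d) : 0 ≤ Ex F := by
  unfold Ex
  exact div_nonneg (Finset.sum_nonneg fun d _ => h d) (by positivity)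

/-- Averages of products over different coordinates factor. -/
theorem Ex_prod (F : Fin n → Fin Q → ℝ) :
    Ex (fun d => ∏ v, F v (d v)) = ∏ v, ((∑ a, F v a) / Q) := by
  unfold Ex
  rw [← Fintype.piFinset_univ, ← Finset.prod_univ_sum, Finset.prod_div_distrib]
  simp

theorem Ex_single (hQ : 0 < Q) (i : Fin n) (f : Fin Q → ℝ) :
    Ex (fun d => f (d i)) = (∑ a, f a) / Q := by
  have h := Ex_prod (n := n) (Q := Q) (fun v a => if v = i then f a else 1)
  have h1 : ∀ d : Fin n → Fin Q, (∏ v, (if v = i then f (d v) else 1)) = f (d i) := by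
    intro d
    rw [Finset.prod_ite_eq' Finset.univ i (fun v => f (d v))]
    simp
  simp only [h1] at h
  rw [h, Finset.prod_eq_single i]
  · simp
  · intro b _ hb
    have hQ' : (Q : ℝ) ≠ 0 := by positivity
    simp [hb, hQ']
  · simp

theorem Ex_pair (hQ : 0 < Q) {i j : Fin n} (hij : i ≠ j) (f g : Fin Q → ℝ) :
    Ex (fun d => f (d i) * g (d j)) = ((∑ a, f a) / Q) * ((∑ a, g a) / Q) := by
  have h := Ex_prod (n := n) (Q := Q) (fun v a => if v = i then f a else if v = j then g a else 1)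
  have hQ' : (Q : ℝ) ≠ 0 := by positivity
  have h1 : ∀ d : Fin n → Fin Q,
      (∏ v, (if v = i then f (d v) else if v = j then g (d v) else 1)) = f (d i) * g (d j) := by
    intro d
    rw [← Finset.mul_prod_erase Finset.univ _ (Finset.mem_univ i),
      ← Finset.mul_prod_erase (Finset.univ.erase i) _
        (Finset.mem_erase.2 ⟨hij.symm, Finset.mem_univ j⟩)]
    rw [Finset.prod_eq_one]
    · simp [hij.symm]
    · intro v hv
      have hv1 := Finset.ne_of_mem_erase hv
      have hv2 := Finset.ne_of_mem_erase (Finset.mem_of_mem_erase hv)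
      simp [hv1, hv2]
  simp only [h1] at h
  rw [h, ← Finset.mul_prod_erase Finset.univ _ (Finset.mem_univ i),
      ← Finset.mul_prod_erase (Finset.univ.erase i) _
        (Finset.mem_erase.2 ⟨hij.symm, Finset.mem_univ j⟩)]
  rw [Finset.prod_eq_one]
  · simp [hij.symm]
  · intro v hv
    have hv1 := Finset.ne_of_mem_erase hv
    have hv2 := Finset.ne_of_mem_erase (Finset.mem_of_mem_erase hv)
    simp [hv1, hv2, hQ']

theorem Ex_cov (hQ : 0 < Q) (ξ : Fin Q → ℝ) (h0 : ∑ a, ξ a = 0) (i j : Fin n) :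
    Ex (fun d => ξ (d i) * ξ (d j)) = if i = j then (∑ a, ξ a ^ 2) / Q else 0 := by
  by_cases hij : i = j
  · subst hij
    rw [if_pos rfl]
    have := Ex_single hQ i (fun a => ξ a ^ 2)
    simp only [sq] at this ⊢
    exact this
  · rw [if_neg hij, Ex_pair hQ hij, h0]
    simp

theorem Ex_eq (hQ : 0 < Q) {i j : Fin n} (hij : i ≠ j) :
    Ex (fun d : Fin n → Fin Q => if d i = d j then (1 : ℝ) else 0) = 1 / Q := by
  have hQ' : (Q : ℝ) ≠ 0 := by positivity
  have h1 : ∀ d : Fin n → Fin Q, (if d i = d j then (1 : ℝ) else 0) =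
      ∑ a, (if d i = a then (1 : ℝ) else 0) * (if d j = a then (1 : ℝ) else 0) := by
    intro d
    rw [Finset.sum_eq_single (d i)]
    · by_cases h : d i = d j
      · simp [h]
      · simp [h, Ne.symm h]
    · intro b _ hb
      simp [Ne.symm hb]
    · simp
  simp only [h1]
  rw [Ex_sum]
  have h2 : ∀ a : Fin Q, Ex (fun d : Fin n → Fin Q => (if d i = a then (1 : ℝ) else 0) *
      (if d j = a then (1 : ℝ) else 0)) = (1 / Q) * (1 / Q) := by
    intro a
    rw [Ex_pair hQ hij (fun b => if b = a then (1 : ℝ) else 0) (fun b => if b = a then (1 : ℝ) else 0)]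
    simp
  simp only [h2]
  simp only [Finset.sum_const, Finset.card_univ, Fintype.card_fin, nsmul_eq_mul]
  field_simp

end

end Pool.Agent.Helper150.Iid
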