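import Mathlib
import Pool.Agent.Helper150.Iid.Ex

set_option autoImplicit false

namespace Pool.Agent.Helper150.Iid

noncomputable section

variable {n Q : ℕ} {ι : Type} [Fintype ι]

open Classical in
/-- Number of nodes in the box `(a, m)`. -/
def cnt (β : ι → Fin n → ℝ) (cell : Fin n → ℕ) (a : ℕ) (m : ι) : ℕ :=
  (Finset.univ.filter (fun j => cell j = a ∧ β m j ≠ 0)).card

/-- Box sums. -/
def Sx (β : ι → Fin n → ℝ) (cell : Fin n → ℕ) (w : Fin n → ℝ) (a : ℕ) (m : ι) : ℝ :=
  ∑ j, if cell j = a then β m j * w j else 0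

/-- Box sums of the boxes which are not crowded. -/
def gx (O : ℕ) (β : ι → Fin n → ℝ) (cell : Fin n → ℕ) (w : Fin n → ℝ) (a : ℕ) (m : ι) : ℝ :=
  if O < cnt β cell a m then 0 else Sx β cell w a m

/-- The coefficients. -/
def cof (O : ℕ) (β : ι → Fin n → ℝ) (cell : Fin n → ℕ) (w : Fin n → ℝ) (a : ℕ) (m : ι) : ℝ :=
  gx O β cell w a m / (2 * O)

/-- The value of the correction (without the sign factor) at a node. -/
def Tx (O : ℕ) (β : ι → Fin n → ℝ) (cell : Fin n → ℕ) (w : Fin n → ℝ) (j : Fin n) : ℝ :=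
  ∑ m, β m j * cof O β cell w (cell j) m

/-- Nodes in some crowded box. -/
def bad (O : ℕ) (β : ι → Fin n → ℝ) (cell : Fin n → ℕ) (j : Fin n) : Prop :=
  ∃ m, β m j ≠ 0 ∧ O < cnt β cell (cell j) m

/-- Hypotheses on the weights of one level. -/
structure Wts (β : ι → Fin n → ℝ) : Prop where
  nonneg : ∀ m j, 0 ≤ β m j
  le_one : ∀ m j, β m j ≤ 1
  two : ∀ j, ∃ s : Finset ι, s.card ≤ 2 ∧ ∀ m, β m j ≠ 0 → m ∈ s
  sq_sum : ∀ j, 1 ≤ ∑ m, β m j ^ 2

theorem sum_cells (cell : Fin n → ℕ) (K : ℕ) (hK : ∀ j, cell j < K) (f : ℕ → Fin n → ℝ) :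
    ∑ j, f (cell j) j = ∑ a ∈ Finset.range K, ∑ j, if cell j = a then f a j else 0 := by
  rw [Finset.sum_comm]
  refine Finset.sum_congr rfl fun j _ => ?_
  rw [Finset.sum_ite_eq]
  rw [if_pos (Finset.mem_range.2 (hK j))]

theorem two_terms {β : ι → Fin n → ℝ} (hβ : Wts β) (j : Fin n) (c : ι → ℝ) :
    (∑ m, β m j * c m) ^ 2 ≤ 2 * ∑ m, β m j ^ 2 * c m ^ 2 := by
  obtain ⟨s, hs, hm⟩ := hβ.two j
  have h1 : ∑ m, β m j * c m = ∑ m ∈ s, β m j * c m := by
    symm
    refine Finset.sum_subset (Finset.subset_univ s) fun m _ hms => ?_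
    have : β m j = 0 := by
      by_contra h
      exact hms (hm m h)
    rw [this, zero_mul]
  rw [h1]
  have h2 := sq_sum_le_card_mul_sum_sq (s := s) (f := fun m => β m j * c m)
  have h3 : ∑ m ∈ s, (β m j * c m) ^ 2 ≤ ∑ m, β m j ^ 2 * c m ^ 2 := by
    have : ∀ m, β m j ^ 2 * c m ^ 2 = (β m j * c m) ^ 2 := fun m => by ring
    simp only [this]
    exact Finset.sum_le_sum_of_subset_of_nonneg (Finset.subset_univ s)
      (fun m _ _ => sq_nonneg _)
  have h4 : (0:ℝ) ≤ ∑ m ∈ s, (β m j * c m) ^ 2 := Finset.sum_nonneg fun m _ => sq_nonneg _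
  have h5 : ((s.card : ℕ) : ℝ) ≤ 2 := by exact_mod_cast hs
  nlinarith

omit [Fintype ι] in
theorem cnt_sum (β : ι → Fin n → ℝ) (cell : Fin n → ℕ) (a : ℕ) (m : ι) :
    (cnt β cell a m : ℝ) = ∑ j, if cell j = a ∧ β m j ≠ 0 then (1 : ℝ) else 0 := by
  classical
  unfold cnt
  rw [Finset.card_filter]
  push_cast
  refine Finset.sum_congr rfl fun j _ => ?_
  split_ifs <;> simp_all

/-- The energy inequality. -/
theorem energy_step {β : ι → Fin n → ℝ} (hβ : Wts β) (cell : Fin n → ℕ) (K : ℕ)
    (hK : ∀ j, cell j < K) (O : ℕ) (hO : 0 < O) (x z : Fin n → ℝ) (hx : ∀ j, |x j| ≤ 1) :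
    ∑ j, (z j - x j * Tx O β cell (fun i => x i * z i) j) ^ 2 +
      2 * O * ∑ m, ∑ a ∈ Finset.range K, (cof O β cell (fun i => x i * z i) a m) ^ 2 ≤
      ∑ j, z j ^ 2 := by
  obtain ⟨w, hw⟩ : ∃ w : Fin n → ℝ, w = fun i => x i * z i := ⟨_, rfl⟩
  rw [← hw]
  obtain ⟨q, hq⟩ : ∃ q : ℝ, q = ∑ m, ∑ a ∈ Finset.range K, (gx O β cell w a m) ^ 2 := ⟨_, rfl⟩
  have hO' : (0:ℝ) < O := by exact_mod_cast hO
  have hc : ∑ m, ∑ a ∈ Finset.range K, (cof O β cell w a m) ^ 2 = q / (4 * O ^ 2) := by
    rw [hq, Finset.sum_div]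
    refine Finset.sum_congr rfl fun m _ => ?_
    rw [Finset.sum_div]
    refine Finset.sum_congr rfl fun a _ => ?_
    unfold cof
    rw [div_pow]
    ring
  have h1 : ∑ j, w j * Tx O β cell w j = q / (2 * O) := by
    have e1 : ∀ j, w j * Tx O β cell w j = ∑ m, (β m j * w j) * cof O β cell w (cell j) m := by
      intro j
      unfold Tx
      rw [Finset.mul_sum]
      refine Finset.sum_congr rfl fun m _ => ?_
      ring
    simp only [e1]
    rw [Finset.sum_comm, hq, Finset.sum_div]
    refine Finset.sum_congr rfl fun m _ => ?_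
    rw [sum_cells cell K hK (fun a j => β m j * w j * cof O β cell w a m), Finset.sum_div]
    refine Finset.sum_congr rfl fun a _ => ?_
    have e2 : (∑ j, if cell j = a then β m j * w j * cof O β cell w a m else 0) =
        Sx β cell w a m * cof O β cell w a m := by
      unfold Sx
      rw [Finset.sum_mul]
      refine Finset.sum_congr rfl fun j _ => ?_
      split_ifs <;> ring
    rw [e2]
    unfold cof gx
    split_ifs
    · simp
    · ring
  have h2 : ∑ j, (Tx O β cell w j) ^ 2 ≤ q / (2 * O) := by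
    have e1 : ∀ j, (Tx O β cell w j) ^ 2 ≤
        ∑ m, 2 * (β m j ^ 2 * (cof O β cell w (cell j) m) ^ 2) := by
      intro j
      unfold Tx
      rw [← Finset.mul_sum]
      exact two_terms hβ j _
    refine (Finset.sum_le_sum fun j _ => e1 j).trans ?_
    rw [Finset.sum_comm, hq, Finset.sum_div]
    refine Finset.sum_le_sum fun m _ => ?_
    rw [sum_cells cell K hK (fun a j => 2 * (β m j ^ 2 * (cof O β cell w a m) ^ 2)),
      Finset.sum_div]
    refine Finset.sum_le_sum fun a _ => ?_
    by_cases hcr : O < cnt β cell a m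
    · have : cof O β cell w a m = 0 := by simp [cof, gx, hcr]
      simp only [this]
      simp
      positivity
    · have hcn : (cnt β cell a m : ℝ) ≤ O := by
        exact_mod_cast not_lt.1 hcr
      have e2 : (∑ j, if cell j = a then 2 * (β m j ^ 2 * (cof O β cell w a m) ^ 2) else 0) ≤
          ∑ j, (if cell j = a ∧ β m j ≠ 0 then (1:ℝ) else 0) * (2 * (cof O β cell w a m) ^ 2) := by
        refine Finset.sum_le_sum fun j _ => ?_
        by_cases h3 : cell j = a
        · by_cases h4 : β m j = 0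
          · simp [h3, h4]
          · have h5 : β m j ^ 2 ≤ 1 := pow_le_one₀ (hβ.nonneg m j) (hβ.le_one m j)
            simp only [h3, h4, if_true, ne_eq, not_false_eq_true, and_self]
            nlinarith [sq_nonneg (cof O β cell w a m)]
        · simp [h3]
      refine e2.trans ?_
      rw [← Finset.sum_mul, ← cnt_sum]
      unfold cof
      rw [div_pow]
      have : (cnt β cell a m : ℝ) * (2 * (gx O β cell w a m ^ 2 / (2 * O) ^ 2)) ≤
          O * (2 * (gx O β cell w a m ^ 2 / (2 * O) ^ 2)) :=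
        mul_le_mul_of_nonneg_right hcn (by positivity)
      refine this.trans (le_of_eq ?_)
      field_simp
  have h3 : ∑ j, (z j - x j * Tx O β cell w j) ^ 2 ≤
      ∑ j, z j ^ 2 - 2 * ∑ j, w j * Tx O β cell w j + ∑ j, (Tx O β cell w j) ^ 2 := by
    rw [Finset.mul_sum, ← Finset.sum_sub_distrib, ← Finset.sum_add_distrib]
    refine Finset.sum_le_sum fun j _ => ?_
    have h4 : x j ^ 2 ≤ 1 := by
      rw [← sq_abs]
      exact pow_le_one₀ (abs_nonneg _) (hx j)
    have h5 : w j = x j * z j := by rw [hw]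
    rw [h5]
    nlinarith [sq_nonneg (Tx O β cell w j), mul_le_mul_of_nonneg_right h4 (sq_nonneg (Tx O β cell w j))]
  rw [hc]
  have h6 : 2 * (O:ℝ) * (q / (4 * O ^ 2)) = q / (2 * O) := by
    field_simp
    ring
  rw [h6]
  linarith

/-- Expected energy gain. -/
theorem Ex_gain {β : ι → Fin n → ℝ} (hβ : Wts β) (cell : Fin n → ℕ) (K : ℕ)
    (hK : ∀ j, cell j < K) (O : ℕ) (hQ : 0 < Q) (ξ : Fin Q → ℝ) (h0 : ∑ a, ξ a = 0)
    (z : Fin n → ℝ) :
    ((∑ a, ξ a ^ 2) / Q) * ∑ j, (open Classical in if bad O β cell j then 0 else z j ^ 2) ≤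
      Ex (fun d => ∑ m, ∑ a ∈ Finset.range K, (gx O β cell (fun i => ξ (d i) * z i) a m) ^ 2) := by
  classical
  obtain ⟨κ, hκ⟩ : ∃ κ : ℝ, κ = (∑ a, ξ a ^ 2) / Q := ⟨_, rfl⟩
  have hκ0 : 0 ≤ κ := by rw [hκ]; positivity
  have e1 : ∀ m a, Ex (fun d => (gx O β cell (fun i => ξ (d i) * z i) a m) ^ 2) =
      κ * ∑ j, if cell j = a then (if O < cnt β cell a m then 0 else β m j ^ 2 * z j ^ 2) else 0 := by
    intro m a
    by_cases hcr : O < cnt β cell a m
    · simp only [gx, hcr, if_true]
      simp [Ex]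
    · simp only [gx, hcr, if_false]
      have e2 : ∀ d : Fin n → Fin Q, (Sx β cell (fun i => ξ (d i) * z i) a m) ^ 2 =
          ∑ i, ∑ j, ((if cell i = a then β m i * z i else 0) *
            (if cell j = a then β m j * z j else 0)) * (ξ (d i) * ξ (d j)) := by
        intro d
        unfold Sx
        rw [sq, Finset.sum_mul_sum]
        refine Finset.sum_congr rfl fun i _ => Finset.sum_congr rfl fun j _ => ?_
        split_ifs <;> ring
      simp only [e2]
      rw [Ex_sum]
      have e3 : ∀ i, Ex (fun d => ∑ j, ((if cell i = a then β m i * z i else 0) *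
            (if cell j = a then β m j * z j else 0)) * (ξ (d i) * ξ (d j))) =
          κ * if cell i = a then β m i ^ 2 * z i ^ 2 else 0 := by
        intro i
        rw [Ex_sum]
        have e4 : ∀ j, Ex (fun d => ((if cell i = a then β m i * z i else 0) *
            (if cell j = a then β m j * z j else 0)) * (ξ (d i) * ξ (d j))) =
            ((if cell i = a then β m i * z i else 0) *
            (if cell j = a then β m j * z j else 0)) * if i = j then κ else 0 := by
          intro j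
          rw [Ex_const_mul, Ex_cov hQ ξ h0, hκ]
        simp only [e4]
        rw [Finset.sum_eq_single i]
        · by_cases h : cell i = a
          · simp only [h, if_true]
            ring
          · simp [h]
        · intro j _ hj
          rw [if_neg (Ne.symm hj), mul_zero]
        · simp
      simp only [e3]
      rw [← Finset.mul_sum]
  rw [Ex_sum]
  have e5 : ∀ m, Ex (fun d => ∑ a ∈ Finset.range K, (gx O β cell (fun i => ξ (d i) * z i) a m) ^ 2) =
      κ * ∑ j, if O < cnt β cell (cell j) m then 0 else β m j ^ 2 * z j ^ 2 := by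
    intro m
    rw [Ex_sum]
    simp only [e1]
    rw [← Finset.mul_sum]
    congr 1
    exact (sum_cells cell K hK
      (fun a j => if O < cnt β cell a m then 0 else β m j ^ 2 * z j ^ 2)).symm
  simp only [e5]
  rw [← Finset.mul_sum, Finset.sum_comm, ← hκ]
  refine mul_le_mul_of_nonneg_left (Finset.sum_le_sum fun j _ => ?_) hκ0
  by_cases hb : bad O β cell j
  · rw [if_pos hb]
    refine Finset.sum_nonneg fun m _ => ?_
    split_ifs <;> positivity
  · rw [if_neg hb]
    have h1 : ∀ m, (if O < cnt β cell (cell j) m then 0 else β m j ^ 2 * z j ^ 2) =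
        β m j ^ 2 * z j ^ 2 := by
      intro m
      by_cases h2 : O < cnt β cell (cell j) m
      · have h3 : β m j = 0 := by
          by_contra h
          exact hb ⟨m, h, h2⟩
        simp [h3]
      · rw [if_neg h2]
    simp only [h1]
    rw [← Finset.sum_mul]
    have := hβ.sq_sum j
    nlinarith [sq_nonneg (z j)]

/-- Deterministic local bound for the correction. -/
def Tb (O : ℕ) (β : ι → Fin n → ℝ) (cell : Fin n → ℕ) (z : Fin n → ℝ) (j : Fin n) : ℝ :=
  (1 / (2 * O)) * ∑ m, open Classical in if β m j ≠ 0 ∧ cnt β cell (cell j) m ≤ O then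
    ∑ i, if cell i = cell j ∧ β m i ≠ 0 then z i ^ 2 else 0 else 0

theorem Tx_sq_le {β : ι → Fin n → ℝ} (hβ : Wts β) (cell : Fin n → ℕ) (O : ℕ) (hO : 0 < O)
    (x z : Fin n → ℝ) (hx : ∀ j, |x j| ≤ 1) (j : Fin n) :
    (Tx O β cell (fun i => x i * z i) j) ^ 2 ≤ Tb O β cell z j := by
  classical
  have hO' : (0:ℝ) < O := by exact_mod_cast hO
  refine (two_terms hβ j _).trans ?_
  unfold Tb
  rw [Finset.mul_sum, Finset.mul_sum]
  refine Finset.sum_le_sum fun m _ => ?_
  by_cases h0 : β m j = 0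
  · simp [h0]
  by_cases hcr : O < cnt β cell (cell j) m
  · have : cof O β cell (fun i => x i * z i) (cell j) m = 0 := by simp [cof, gx, hcr]
    rw [this, if_neg (by rintro ⟨_, h⟩; omega)]
    simp
  · have hcr' : cnt β cell (cell j) m ≤ O := not_lt.1 hcr
    rw [if_pos ⟨h0, hcr'⟩]
    have hS : (Sx β cell (fun i => x i * z i) (cell j) m) ^ 2 ≤
        O * ∑ i, if cell i = cell j ∧ β m i ≠ 0 then z i ^ 2 else 0 := by
      have e1 : Sx β cell (fun i => x i * z i) (cell j) m =
          ∑ i ∈ Finset.univ.filter (fun i => cell i = cell j ∧ β m i ≠ 0),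
            β m i * (x i * z i) := by
        unfold Sx
        rw [Finset.sum_filter]
        refine Finset.sum_congr rfl fun i _ => ?_
        by_cases h1 : cell i = cell j
        · by_cases h2 : β m i = 0
          · simp [h1, h2]
          · simp [h1, h2]
        · simp [h1]
      rw [e1]
      have e2 := sq_sum_le_card_mul_sum_sq
        (s := Finset.univ.filter (fun i => cell i = cell j ∧ β m i ≠ 0))
        (f := fun i => β m i * (x i * z i))
      refine e2.trans ?_
      have e3 : ((Finset.univ.filter (fun i => cell i = cell j ∧ β m i ≠ 0)).card : ℝ) ≤ O := by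
        exact_mod_cast hcr'
      have e4 : ∑ i ∈ Finset.univ.filter (fun i => cell i = cell j ∧ β m i ≠ 0),
          (β m i * (x i * z i)) ^ 2 ≤
          ∑ i, if cell i = cell j ∧ β m i ≠ 0 then z i ^ 2 else 0 := by
        rw [Finset.sum_filter]
        refine Finset.sum_le_sum fun i _ => ?_
        by_cases h1 : cell i = cell j ∧ β m i ≠ 0
        · rw [if_pos h1, if_pos h1]
          have h2 : |β m i * (x i * z i)| ≤ |z i| := by
            rw [abs_mul, abs_mul, abs_of_nonneg (hβ.nonneg m i)]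
            have := hβ.le_one m i
            have h3 := hx i
            have h4 := hβ.nonneg m i
            have h5 := abs_nonneg (x i)
            have h6 := abs_nonneg (z i)
            calc β m i * (|x i| * |z i|) ≤ 1 * (1 * |z i|) := by gcongr
              _ = |z i| := by ring
          exact sq_le_sq.2 h2
        · rw [if_neg h1, if_neg h1]
      have e5 : (0:ℝ) ≤ ∑ i ∈ Finset.univ.filter (fun i => cell i = cell j ∧ β m i ≠ 0),
          (β m i * (x i * z i)) ^ 2 := Finset.sum_nonneg fun i _ => sq_nonneg _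
      exact mul_le_mul e3 e4 e5 hO'.le
    have hc : (cof O β cell (fun i => x i * z i) (cell j) m) ^ 2 =
        (Sx β cell (fun i => x i * z i) (cell j) m) ^ 2 / (4 * O ^ 2) := by
      unfold cof gx
      rw [if_neg hcr, div_pow]
      ring
    rw [hc]
    have h5 : β m j ^ 2 ≤ 1 := pow_le_one₀ (hβ.nonneg m j) (hβ.le_one m j)
    obtain ⟨B, hB⟩ : ∃ B : ℝ, B = ∑ i, if cell i = cell j ∧ β m i ≠ 0 then z i ^ 2 else 0 :=
      ⟨_, rfl⟩
    rw [← hB] at hS ⊢
    calc 2 * (β m j ^ 2 * ((Sx β cell (fun i => x i * z i) (cell j) m) ^ 2 / (4 * O ^ 2)))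
        ≤ 2 * (1 * ((O * B) / (4 * O ^ 2))) := by gcongr
      _ = 1 / (2 * O) * B := by
          field_simp
          ring

theorem Tb_nonneg (β : ι → Fin n → ℝ) (cell : Fin n → ℕ) (O : ℕ) (z : Fin n → ℝ) (j : Fin n) :
    0 ≤ Tb O β cell z j := by
  unfold Tb
  refine mul_nonneg (by positivity) (Finset.sum_nonneg fun m _ => ?_)
  split_ifs
  · refine Finset.sum_nonneg fun i _ => ?_
    split_ifs <;> positivity
  · exact le_rfl

theorem Tb_sum {β : ι → Fin n → ℝ} (hβ : Wts β) (cell : Fin n → ℕ) (O : ℕ) (hO : 0 < O)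
    (z : Fin n → ℝ) : ∑ j, Tb O β cell z j ≤ ∑ j, z j ^ 2 := by
  classical
  have hO' : (0:ℝ) < O := by exact_mod_cast hO
  unfold Tb
  rw [← Finset.mul_sum, Finset.sum_comm]
  have e1 : ∀ m, (∑ j, if β m j ≠ 0 ∧ cnt β cell (cell j) m ≤ O then
      ∑ i, if cell i = cell j ∧ β m i ≠ 0 then z i ^ 2 else 0 else 0) ≤
      O * ∑ i, if β m i ≠ 0 then z i ^ 2 else 0 := by
    intro m
    have e2 : (∑ j, if β m j ≠ 0 ∧ cnt β cell (cell j) m ≤ O then
      ∑ i, if cell i = cell j ∧ β m i ≠ 0 then z i ^ 2 else 0 else 0) =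
      ∑ i, (if β m i ≠ 0 then z i ^ 2 else 0) *
        (if cnt β cell (cell i) m ≤ O then
          ∑ j, (if cell j = cell i ∧ β m j ≠ 0 then (1:ℝ) else 0) else 0) := by
      have e3 : ∀ j, (if β m j ≠ 0 ∧ cnt β cell (cell j) m ≤ O then
          ∑ i, (if cell i = cell j ∧ β m i ≠ 0 then z i ^ 2 else 0) else 0) =
          ∑ i, if (β m j ≠ 0 ∧ cnt β cell (cell j) m ≤ O) ∧ (cell i = cell j ∧ β m i ≠ 0) then
            z i ^ 2 else 0 := by
        intro j
        split_ifs with h
        · simp [h]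
        · simp [h]
      have e4 : ∀ i, (if β m i ≠ 0 then z i ^ 2 else 0) *
        (if cnt β cell (cell i) m ≤ O then
          ∑ j, (if cell j = cell i ∧ β m j ≠ 0 then (1:ℝ) else 0) else 0) =
          ∑ j, if (β m j ≠ 0 ∧ cnt β cell (cell j) m ≤ O) ∧ (cell i = cell j ∧ β m i ≠ 0) then
            z i ^ 2 else 0 := by
        intro i
        by_cases h1 : β m i ≠ 0
        · by_cases h2 : cnt β cell (cell i) m ≤ O
          · rw [if_pos h1, if_pos h2, Finset.mul_sum]
            refine Finset.sum_congr rfl fun j _ => ?_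
            by_cases h3 : cell j = cell i
            · by_cases h4 : β m j ≠ 0
              · rw [if_pos ⟨h3, h4⟩, if_pos ⟨⟨h4, by rw [h3]; exact h2⟩, h3.symm, h1⟩, mul_one]
              · rw [if_neg (by tauto), if_neg (by tauto), mul_zero]
            · rw [if_neg (by tauto), if_neg (by
                rintro ⟨_, h5, _⟩
                exact h3 h5.symm), mul_zero]
          · rw [if_neg h2, mul_zero]
            symm
            refine Finset.sum_eq_zero fun j _ => ?_
            rw [if_neg]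
            rintro ⟨⟨_, h5⟩, h6, _⟩
            rw [← h6] at h5
            exact h2 h5
        · rw [if_neg h1, zero_mul]
          symm
          refine Finset.sum_eq_zero fun j _ => ?_
          rw [if_neg (by tauto)]
      simp only [e3, e4]
      rw [Finset.sum_comm]
    rw [e2, Finset.mul_sum]
    refine Finset.sum_le_sum fun i _ => ?_
    rw [mul_comm (O:ℝ)]
    refine mul_le_mul_of_nonneg_left ?_ (by split_ifs <;> positivity)
    split_ifs with h
    · rw [← cnt_sum]
      exact_mod_cast h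
    · exact hO'.le
  have e5 : ∑ m, ∑ i, (if β m i ≠ 0 then z i ^ 2 else 0) ≤ 2 * ∑ i, z i ^ 2 := by
    rw [Finset.sum_comm, Finset.mul_sum]
    refine Finset.sum_le_sum fun i _ => ?_
    obtain ⟨s, hs, hm⟩ := hβ.two i
    have h1 : (∑ m, if β m i ≠ 0 then z i ^ 2 else 0) ≤ ∑ m ∈ s, z i ^ 2 := by
      rw [← Finset.sum_filter]
      refine Finset.sum_le_sum_of_subset_of_nonneg ?_ (fun _ _ _ => sq_nonneg _)
      intro m hm'
      exact hm m (Finset.mem_filter.1 hm').2
    refine h1.trans ?_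
    rw [Finset.sum_const, nsmul_eq_mul]
    have : (s.card : ℝ) ≤ 2 := by exact_mod_cast hs
    exact mul_le_mul_of_nonneg_right this (sq_nonneg _)
  calc (1 / (2 * (O:ℝ))) * ∑ m, ∑ j, (if β m j ≠ 0 ∧ cnt β cell (cell j) m ≤ O then
      ∑ i, if cell i = cell j ∧ β m i ≠ 0 then z i ^ 2 else 0 else 0)
      ≤ (1 / (2 * (O:ℝ))) * ∑ m, O * ∑ i, (if β m i ≠ 0 then z i ^ 2 else 0) := by
        gcongr with m _
        exact e1 m
    _ = (1/2) * ∑ m, ∑ i, (if β m i ≠ 0 then z i ^ 2 else 0) := by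
        rw [← Finset.mul_sum]
        field_simp
    _ ≤ (1/2) * (2 * ∑ i, z i ^ 2) := by gcongr
    _ = ∑ i, z i ^ 2 := by ring

end

end Pool.Agent.Helper150.Iid
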