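import Mathlib
import Pool.Agent.Helper150.Iid.Step

set_option autoImplicit false

namespace Pool.Agent.Helper150.Iid

noncomputable section


variable {n Q : ℕ}

variable {ι : Type} [Fintype ι]

open Classical in
/-- The potential of one level. -/
def Phi (O : ℕ) (ε : ℝ) (β : ι → Fin n → ℝ) (cell : Fin n → ℕ) (z : Fin n → ℝ) : ℝ :=
  ∑ j, z j ^ 2 + 2 * ε * ∑ j, if bad O β cell j then z j ^ 2 else 0

theorem cell_eq (hQ : 0 < Q) {a b : ℕ} {x y : Fin Q} (h : Q * a + (x : ℕ) = Q * b + (y : ℕ)) :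
    a = b ∧ x = y := by
  have h1 := congrArg (· / Q) h
  have h2 := congrArg (· % Q) h
  simp only [Nat.mul_add_div hQ, Nat.mul_add_mod, Nat.div_eq_of_lt x.2, Nat.div_eq_of_lt y.2,
    Nat.mod_eq_of_lt x.2, Nat.mod_eq_of_lt y.2, add_zero] at h1 h2
  exact ⟨h1, Fin.ext h2⟩

open Classical in
theorem bad_prob {β' : ι → Fin n → ℝ} (hβ' : Wts β') (cell : Fin n → ℕ)
    (O : ℕ) (hO : 0 < O) (hQ : 0 < Q) (M : ℕ) (hM : ∀ a m, cnt β' cell a m ≤ M)
    (hMO : 32 * M ≤ O * Q) (j : Fin n) :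
    Ex (fun d : Fin n → Fin Q =>
      if bad O β' (fun i => Q * cell i + (d i : ℕ)) j then (1:ℝ) else 0) ≤ 1 / 16 := by
  obtain ⟨s, hs, hm⟩ := hβ'.two j
  have hO' : (0:ℝ) < O := by exact_mod_cast hO
  have hQ' : (0:ℝ) < Q := by exact_mod_cast hQ
  have key : ∀ d : Fin n → Fin Q,
      (if bad O β' (fun i => Q * cell i + (d i : ℕ)) j then (1:ℝ) else 0) ≤
      (1 / (O:ℝ)) * ∑ m ∈ s, ∑ i, (if i ≠ j ∧ cell i = cell j ∧ β' m i ≠ 0 then (1:ℝ) else 0) *
        (if d i = d j then (1:ℝ) else 0) := by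
    intro d
    have hnn : ∀ m, (0:ℝ) ≤ ∑ i, (if i ≠ j ∧ cell i = cell j ∧ β' m i ≠ 0 then (1:ℝ) else 0) *
        (if d i = d j then (1:ℝ) else 0) := by
      intro m
      refine Finset.sum_nonneg fun i _ => ?_
      split_ifs <;> simp
    split_ifs with hb
    · obtain ⟨m, hmj, hlt⟩ := hb
      have h1 : (O:ℝ) ≤ ∑ i, (if i ≠ j ∧ cell i = cell j ∧ β' m i ≠ 0 then (1:ℝ) else 0) *
          (if d i = d j then (1:ℝ) else 0) := by
        have h2 : ((O + 1 : ℕ) : ℝ) ≤
            (cnt β' (fun i => Q * cell i + (d i : ℕ)) (Q * cell j + (d j : ℕ)) m : ℝ) := by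
          exact_mod_cast hlt
        rw [cnt_sum] at h2
        have h3 : (∑ i, if Q * cell i + (d i : ℕ) = Q * cell j + (d j : ℕ) ∧ β' m i ≠ 0 then
            (1 : ℝ) else 0) ≤ ∑ i, ((if i = j then (1:ℝ) else 0) +
            (if i ≠ j ∧ cell i = cell j ∧ β' m i ≠ 0 then (1:ℝ) else 0) *
              (if d i = d j then (1:ℝ) else 0)) := by
          refine Finset.sum_le_sum fun i _ => ?_
          by_cases hij : i = j
          · subst hij
            simp
            split_ifs <;> norm_num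
          · by_cases h4 : Q * cell i + (d i : ℕ) = Q * cell j + (d j : ℕ) ∧ β' m i ≠ 0
            · obtain ⟨h5, h6⟩ := cell_eq hQ h4.1
              rw [if_pos h4, if_neg hij, if_pos ⟨hij, h5, h4.2⟩, if_pos h6]
              norm_num
            · rw [if_neg h4]
              split_ifs <;> norm_num
        rw [Finset.sum_add_distrib, Finset.sum_ite_eq' Finset.univ j (fun _ => (1:ℝ))] at h3
        simp only [Finset.mem_univ, if_true] at h3
        push_cast at h2
        linarith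
      have h4 : (O:ℝ) ≤ ∑ m ∈ s, ∑ i,
          (if i ≠ j ∧ cell i = cell j ∧ β' m i ≠ 0 then (1:ℝ) else 0) *
          (if d i = d j then (1:ℝ) else 0) :=
        h1.trans (Finset.single_le_sum (f := fun m => ∑ i,
          (if i ≠ j ∧ cell i = cell j ∧ β' m i ≠ 0 then (1:ℝ) else 0) *
          (if d i = d j then (1:ℝ) else 0)) (fun m _ => hnn m) (hm m hmj))
      rw [one_div, inv_mul_eq_div, le_div_iff₀ hO', one_mul]
      exact h4
    · exact mul_nonneg (by positivity) (Finset.sum_nonneg fun m _ => hnn m)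
  refine (Ex_mono key).trans ?_
  rw [Ex_const_mul, Ex_sum]
  have e1 : ∀ m, Ex (fun d : Fin n → Fin Q => ∑ i,
      (if i ≠ j ∧ cell i = cell j ∧ β' m i ≠ 0 then (1:ℝ) else 0) *
          (if d i = d j then (1:ℝ) else 0)) ≤ M / Q := by
    intro m
    rw [Ex_sum]
    have e2 : ∀ i, Ex (fun d : Fin n → Fin Q =>
        (if i ≠ j ∧ cell i = cell j ∧ β' m i ≠ 0 then (1:ℝ) else 0) *
          (if d i = d j then (1:ℝ) else 0)) ≤
        (if cell i = cell j ∧ β' m i ≠ 0 then (1:ℝ) else 0) * (1 / Q) := by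
      intro i
      rw [Ex_const_mul]
      by_cases h1 : i ≠ j ∧ cell i = cell j ∧ β' m i ≠ 0
      · rw [Ex_eq hQ h1.1, if_pos h1, if_pos h1.2]
      · rw [if_neg h1, zero_mul]
        split_ifs <;> positivity
    refine (Finset.sum_le_sum fun i _ => e2 i).trans ?_
    rw [← Finset.sum_mul, ← cnt_sum, mul_one_div]
    have : (cnt β' cell (cell j) m : ℝ) ≤ M := by exact_mod_cast hM (cell j) m
    gcongr
  have e3 : ∑ m ∈ s, Ex (fun d : Fin n → Fin Q => ∑ i,
      (if i ≠ j ∧ cell i = cell j ∧ β' m i ≠ 0 then (1:ℝ) else 0) *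
          (if d i = d j then (1:ℝ) else 0)) ≤ 2 * (M / Q) := by
    refine (Finset.sum_le_sum fun m _ => e1 m).trans ?_
    rw [Finset.sum_const, nsmul_eq_mul]
    have : (s.card : ℝ) ≤ 2 := by exact_mod_cast hs
    gcongr
  refine (mul_le_mul_of_nonneg_left e3 (by positivity)).trans ?_
  have h5 : (32:ℝ) * M ≤ O * Q := by exact_mod_cast hMO
  have e4 : 1 / (O:ℝ) * (2 * (M / Q)) = (2 * M) / (O * Q) := by
    field_simp
  rw [e4, div_le_iff₀ (by positivity)]
  linarith

/-- TARGET: one step of the potential. `β` are the weights of the present level, `β'` those of the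
next one, `M` bounds the number of nodes in the intermediate boxes. -/
theorem potential_step {β β' : ι → Fin n → ℝ} (hβ : Wts β) (hβ' : Wts β') (cell : Fin n → ℕ)
    (O : ℕ) (hO : 0 < O) (hQ : 0 < Q) (ξ : Fin Q → ℝ) (h0 : ∑ a, ξ a = 0)
    (h1 : ∀ a, |ξ a| ≤ 1) (κ : ℝ) (hκ0 : 0 < κ) (hκ : κ ≤ (∑ a, ξ a ^ 2) / Q)
    (M : ℕ) (hM : ∀ a m, cnt β' cell a m ≤ M) (hMO : 32 * M ≤ O * Q) (z : Fin n → ℝ) :
    Ex (fun d : Fin n → Fin Q => Phi O (κ / (2 * O)) β' (fun i => Q * cell i + (d i : ℕ))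
        (fun j => z j - ξ (d j) * Tx O β cell (fun i => ξ (d i) * z i) j)) ≤
      (1 - κ / (8 * O)) * Phi O (κ / (2 * O)) β cell z := by
  classical
  have hO' : (0:ℝ) < O := by exact_mod_cast hO
  have hO1 : (1:ℝ) ≤ O := by exact_mod_cast hO
  have hQ' : (0:ℝ) < Q := by exact_mod_cast hQ
  obtain ⟨ε, hε⟩ : ∃ ε : ℝ, ε = κ / (2 * O) := ⟨_, rfl⟩
  have hε0 : 0 < ε := by rw [hε]; positivity
  -- κ ≤ 1
  have hκ1 : κ ≤ 1 := by
    refine hκ.trans ?_
    rw [div_le_one hQ']
    calc ∑ a, ξ a ^ 2 ≤ ∑ _a : Fin Q, (1:ℝ) := by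
          refine Finset.sum_le_sum fun a _ => ?_
          rw [← sq_abs]
          exact pow_le_one₀ (abs_nonneg _) (h1 a)
      _ = Q := by simp
  have hε1 : ε ≤ 1 / 2 := by
    rw [hε, div_le_iff₀ (by positivity)]
    linarith
  have h8 : κ / (8 * O) = ε / 4 := by rw [hε]; field_simp; norm_num
  rw [h8, ← hε]
  obtain ⟨N, hN⟩ : ∃ N : ℝ, N = ∑ j, z j ^ 2 := ⟨_, rfl⟩
  obtain ⟨Z, hZ⟩ : ∃ Z : ℝ, Z = ∑ j, if bad O β cell j then z j ^ 2 else 0 := ⟨_, rfl⟩
  have hN0 : 0 ≤ N := by rw [hN]; exact Finset.sum_nonneg fun j _ => sq_nonneg _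
  have hZ0 : 0 ≤ Z := by
    rw [hZ]; refine Finset.sum_nonneg fun j _ => ?_
    split_ifs <;> positivity
  have hPhi : Phi O ε β cell z = N + 2 * ε * Z := by
    unfold Phi
    rw [hN, hZ]
  rw [hPhi]
  -- first part
  obtain ⟨K, hK⟩ : ∃ K : ℕ, ∀ j, cell j < K :=
    ⟨Finset.univ.sup cell + 1, fun j => Nat.lt_succ_of_le (Finset.le_sup (Finset.mem_univ j))⟩
  have hA : Ex (fun d : Fin n → Fin Q =>
      ∑ j, (z j - ξ (d j) * Tx O β cell (fun i => ξ (d i) * z i) j) ^ 2) ≤ N - ε * (N - Z) := by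
    have hq : ∀ d : Fin n → Fin Q,
        ∑ j, (z j - ξ (d j) * Tx O β cell (fun i => ξ (d i) * z i) j) ^ 2 ≤
        N - (1 / (2 * O)) * ∑ m, ∑ a ∈ Finset.range K,
          (gx O β cell (fun i => ξ (d i) * z i) a m) ^ 2 := by
      intro d
      have h2 := energy_step hβ cell K hK O hO (fun i => ξ (d i)) z (fun j => h1 (d j))
      have h3 : 2 * (O:ℝ) * ∑ m, ∑ a ∈ Finset.range K,
          (cof O β cell (fun i => ξ (d i) * z i) a m) ^ 2 =
          (1 / (2 * O)) * ∑ m, ∑ a ∈ Finset.range K,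
          (gx O β cell (fun i => ξ (d i) * z i) a m) ^ 2 := by
        rw [Finset.mul_sum, Finset.mul_sum]
        refine Finset.sum_congr rfl fun m _ => ?_
        rw [Finset.mul_sum, Finset.mul_sum]
        refine Finset.sum_congr rfl fun a _ => ?_
        unfold cof
        field_simp
      rw [h3, ← hN] at h2
      linarith
    refine (Ex_mono hq).trans ?_
    rw [Ex_sub, Ex_const hQ, Ex_const_mul]
    have h4 := Ex_gain hβ cell K hK O hQ ξ h0 z
    have h5 : ∑ j, (if bad O β cell j then 0 else z j ^ 2) = N - Z := by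
      rw [hN, hZ, ← Finset.sum_sub_distrib]
      refine Finset.sum_congr rfl fun j _ => ?_
      split_ifs <;> ring
    have h6 : 0 ≤ N - Z := by
      rw [← h5]
      refine Finset.sum_nonneg fun j _ => ?_
      split_ifs <;> positivity
    have h7 : κ * (N - Z) ≤ Ex (fun d : Fin n → Fin Q => ∑ m, ∑ a ∈ Finset.range K,
        (gx O β cell (fun i => ξ (d i) * z i) a m) ^ 2) := by
      refine le_trans ?_ h4
      have h9 : ∑ j, (open Classical in if bad O β cell j then 0 else z j ^ 2) = N - Z := by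
        rw [← h5]
      rw [h9]
      exact mul_le_mul_of_nonneg_right hκ h6
    have h10 : ε * (N - Z) = (1 / (2 * O)) * (κ * (N - Z)) := by
      rw [hε]; ring
    rw [h10]
    have := mul_le_mul_of_nonneg_left h7 (show (0:ℝ) ≤ 1 / (2 * O) by positivity)
    linarith
  -- second part
  have hB : Ex (fun d : Fin n → Fin Q =>
      ∑ j, if bad O β' (fun i => Q * cell i + (d i : ℕ)) j then
        (z j - ξ (d j) * Tx O β cell (fun i => ξ (d i) * z i) j) ^ 2 else 0) ≤ N / 4 := by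
    have hU : ∀ d : Fin n → Fin Q, ∀ j,
        (if bad O β' (fun i => Q * cell i + (d i : ℕ)) j then
        (z j - ξ (d j) * Tx O β cell (fun i => ξ (d i) * z i) j) ^ 2 else 0) ≤
        (2 * z j ^ 2 + 2 * Tb O β cell z j) *
          (if bad O β' (fun i => Q * cell i + (d i : ℕ)) j then (1:ℝ) else 0) := by
      intro d j
      split_ifs
      · have h2 := Tx_sq_le hβ cell O hO (fun i => ξ (d i)) z (fun j => h1 (d j)) j
        have h3 : ξ (d j) ^ 2 ≤ 1 := by
          rw [← sq_abs]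
          exact pow_le_one₀ (abs_nonneg _) (h1 _)
        obtain ⟨T, hT⟩ : ∃ T : ℝ, T = Tx O β cell (fun i => ξ (d i) * z i) j := ⟨_, rfl⟩
        rw [← hT] at h2 ⊢
        have h4 : (ξ (d j) * T) ^ 2 ≤ T ^ 2 := by
          rw [mul_pow]
          nlinarith [sq_nonneg T]
        nlinarith [sq_nonneg (z j + ξ (d j) * T)]
      · simp
    refine (Ex_mono fun d => Finset.sum_le_sum fun j _ => hU d j).trans ?_
    rw [Ex_sum]
    have h2 : ∀ j, Ex (fun d : Fin n → Fin Q => (2 * z j ^ 2 + 2 * Tb O β cell z j) *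
          (if bad O β' (fun i => Q * cell i + (d i : ℕ)) j then (1:ℝ) else 0)) ≤
        (2 * z j ^ 2 + 2 * Tb O β cell z j) * (1 / 16) := by
      intro j
      rw [Ex_const_mul]
      have := Tb_nonneg β cell O z j
      refine mul_le_mul_of_nonneg_left ?_ (by positivity)
      exact bad_prob hβ' cell O hO hQ M hM hMO j
    refine (Finset.sum_le_sum fun j _ => h2 j).trans ?_
    rw [← Finset.sum_mul, Finset.sum_add_distrib, ← Finset.mul_sum, ← Finset.mul_sum, ← hN]
    have := Tb_sum hβ cell O hO z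
    rw [← hN] at this
    linarith
  have hsplit : Ex (fun d : Fin n → Fin Q => Phi O ε β' (fun i => Q * cell i + (d i : ℕ))
        (fun j => z j - ξ (d j) * Tx O β cell (fun i => ξ (d i) * z i) j)) =
      Ex (fun d : Fin n → Fin Q =>
      ∑ j, (z j - ξ (d j) * Tx O β cell (fun i => ξ (d i) * z i) j) ^ 2) +
      2 * ε * Ex (fun d : Fin n → Fin Q =>
      ∑ j, if bad O β' (fun i => Q * cell i + (d i : ℕ)) j then
        (z j - ξ (d j) * Tx O β cell (fun i => ξ (d i) * z i) j) ^ 2 else 0) := by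
    rw [← Ex_const_mul, ← Ex_add]
    congr 1
  rw [hsplit]
  have h11 := mul_le_mul_of_nonneg_left hB (show (0:ℝ) ≤ 2 * ε by positivity)
  nlinarith [mul_nonneg hε0.le hZ0, mul_nonneg hε0.le hN0,
    mul_nonneg (mul_nonneg hε0.le hZ0) (sub_nonneg.2 hε1)]

end

end Pool.Agent.Helper150.Iid
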