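import Mathlib
import Pool.Agent.Helper150.Iid.Pot

set_option autoImplicit false

namespace Pool.Agent.Helper150.Iid

noncomputable section


variable {n Q : ℕ}

variable {ι : Type} [Fintype ι]

/-- One step of the potential (proved elsewhere; a hypothesis here). -/
def PotStep (n Q : ℕ) (ι : Type) [Fintype ι] : Prop :=
  ∀ (β β' : ι → Fin n → ℝ), Wts β → Wts β' → ∀ (cell : Fin n → ℕ)
    (O : ℕ), 0 < O → ∀ (ξ : Fin Q → ℝ), ∑ a, ξ a = 0 → (∀ a, |ξ a| ≤ 1) →
    ∀ (κ : ℝ), 0 < κ → κ ≤ (∑ a, ξ a ^ 2) / Q → ∀ (M : ℕ), (∀ a m, cnt β' cell a m ≤ M) →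
    32 * M ≤ O * Q → ∀ (z : Fin n → ℝ),
    Ex (fun d : Fin n → Fin Q => Phi O (κ / (2 * O)) β' (fun i => Q * cell i + (d i : ℕ))
        (fun j => z j - ξ (d j) * Tx O β cell (fun i => ξ (d i) * z i) j)) ≤
      (1 - κ / (8 * O)) * Phi O (κ / (2 * O)) β cell z

/-- Cell index of the nodes at level `l`. -/
def cellx (D : ℕ → Fin n → Fin Q) : ℕ → Fin n → ℕ
  | 0, _ => 0
  | l + 1, i => Q * cellx D l i + (D l i : ℕ)

/-- The values of the idealised residual at level `l`. -/
def zx (O : ℕ) (β : ℕ → ι → Fin n → ℝ) (ξ : ℕ → Fin Q → ℝ) (D : ℕ → Fin n → Fin Q) :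
    ℕ → Fin n → ℝ
  | 0, _ => 1
  | l + 1, i => zx O β ξ D l i -
      ξ l (D l i) * Tx O (β l) (cellx D l) (fun j => ξ l (D l j) * zx O β ξ D l j) i

/-- The coefficients of level `l`. -/
def cofx (O : ℕ) (β : ℕ → ι → Fin n → ℝ) (ξ : ℕ → Fin Q → ℝ) (D : ℕ → Fin n → Fin Q)
    (l : ℕ) (a : ℕ) (m : ι) : ℝ :=
  cof O (β l) (cellx D l) (fun j => ξ l (D l j) * zx O β ξ D l j) a m

/-- No intermediate box of the first `R` levels contains more than `M` nodes. -/
def Gx (M : ℕ) (β : ℕ → ι → Fin n → ℝ) (D : ℕ → Fin n → Fin Q) (R : ℕ) : Prop :=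
  ∀ l < R, ∀ a m, cnt (β (l + 1)) (cellx D l) a m ≤ M

/-- Extension of finitely many digit vectors to a sequence. -/
def extD (hQ : 0 < Q) {R : ℕ} (D : Fin R → Fin n → Fin Q) (l : ℕ) : Fin n → Fin Q :=
  if h : l < R then D ⟨l, h⟩ else fun _ => ⟨0, hQ⟩

/-- TARGET 0. -/
theorem cellx_lt (D : ℕ → Fin n → Fin Q) (l : ℕ) (i : Fin n) : cellx D l i < Q ^ l := by
  induction l with
  | zero => simp [cellx]
  | succ l ih =>
    have h1 : (D l i : ℕ) < Q := (D l i).2
    have h2 : Q * (cellx D l i + 1) ≤ Q * Q ^ l := Nat.mul_le_mul_left _ ih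
    show Q * cellx D l i + (D l i : ℕ) < Q ^ (l + 1)
    rw [pow_succ']
    calc Q * cellx D l i + (D l i : ℕ) < Q * cellx D l i + Q := by omega
      _ = Q * (cellx D l i + 1) := by ring
      _ ≤ _ := h2

/-- TARGET 1: total size of the coefficients. -/
theorem cof_total (O : ℕ) (hO : 0 < O) (β : ℕ → ι → Fin n → ℝ) (R : ℕ)
    (hβ : ∀ l < R, Wts (β l))
    (ξ : ℕ → Fin Q → ℝ) (h1 : ∀ l a, |ξ l a| ≤ 1) (D : ℕ → Fin n → Fin Q) :
    2 * O * ∑ l ∈ Finset.range R, ∑ m, ∑ a ∈ Finset.range (Q ^ l), cofx O β ξ D l a m ^ 2 +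
      ∑ j, zx O β ξ D R j ^ 2 ≤ n := by
  induction R with
  | zero => simp [zx]
  | succ R ih =>
    have h2 := ih (fun l hl => hβ l (Nat.lt_succ_of_lt hl))
    have h3 := energy_step (hβ R (Nat.lt_succ_self R)) (cellx D R) (Q ^ R) (cellx_lt D R) O hO
      (fun j => ξ R (D R j)) (zx O β ξ D R) (fun j => h1 R _)
    rw [Finset.sum_range_succ, mul_add]
    have h4 : ∀ j, zx O β ξ D (R + 1) j = zx O β ξ D R j -
      ξ R (D R j) * Tx O (β R) (cellx D R) (fun j => ξ R (D R j) * zx O β ξ D R j) j :=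
      fun j => rfl
    simp only [h4]
    unfold cofx at h2 ⊢
    linarith

omit [Fintype ι] in
theorem cellx_congr {D D' : ℕ → Fin n → Fin Q} (r : ℕ) (h : ∀ l < r, D l = D' l) :
    cellx D r = cellx D' r := by
  induction r with
  | zero => rfl
  | succ r ih =>
    funext i
    show Q * cellx D r i + (D r i : ℕ) = Q * cellx D' r i + (D' r i : ℕ)
    rw [ih fun l hl => h l (Nat.lt_succ_of_lt hl), h r (Nat.lt_succ_self r)]

theorem zx_congr (O : ℕ) (β : ℕ → ι → Fin n → ℝ) (ξ : ℕ → Fin Q → ℝ)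
    {D D' : ℕ → Fin n → Fin Q} (r : ℕ) (h : ∀ l < r, D l = D' l) :
    zx O β ξ D r = zx O β ξ D' r := by
  induction r with
  | zero => rfl
  | succ r ih =>
    have h1 := ih fun l hl => h l (Nat.lt_succ_of_lt hl)
    have h2 := cellx_congr r fun l hl => h l (Nat.lt_succ_of_lt hl)
    have h3 := h r (Nat.lt_succ_self r)
    funext i
    show zx O β ξ D r i -
      ξ r (D r i) * Tx O (β r) (cellx D r) (fun j => ξ r (D r j) * zx O β ξ D r j) i =
      zx O β ξ D' r i -
      ξ r (D' r i) * Tx O (β r) (cellx D' r) (fun j => ξ r (D' r j) * zx O β ξ D' r j) i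
    rw [h1, h2, h3]

omit [Fintype ι] in
theorem extD_snoc_lt (hQ : 0 < Q) {r : ℕ} (D : Fin r → Fin n → Fin Q) (d : Fin n → Fin Q)
    (l : ℕ) (hl : l < r) :
    extD hQ (Fin.snoc (α := fun _ => Fin n → Fin Q) D d) l = extD hQ D l := by
  unfold extD
  rw [dif_pos (Nat.lt_succ_of_lt hl), dif_pos hl]
  have h1 : (⟨l, Nat.lt_succ_of_lt hl⟩ : Fin (r + 1)) = Fin.castSucc ⟨l, hl⟩ := rfl
  rw [h1, Fin.snoc_castSucc]

omit [Fintype ι] in
theorem extD_snoc_last (hQ : 0 < Q) {r : ℕ} (D : Fin r → Fin n → Fin Q) (d : Fin n → Fin Q) :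
    extD hQ (Fin.snoc (α := fun _ => Fin n → Fin Q) D d) r = d := by
  unfold extD
  rw [dif_pos (Nat.lt_succ_self r)]
  have h1 : (⟨r, Nat.lt_succ_self r⟩ : Fin (r + 1)) = Fin.last r := rfl
  rw [h1, Fin.snoc_last]

omit [Fintype ι] in
theorem Phi_nonneg (O : ℕ) {ε : ℝ} (hε : 0 ≤ ε) (β : ι → Fin n → ℝ) (cell : Fin n → ℕ)
    (z : Fin n → ℝ) : 0 ≤ Phi O ε β cell z := by
  classical
  unfold Phi
  refine add_nonneg (Finset.sum_nonneg fun j _ => sq_nonneg _) ?_
  refine mul_nonneg (by linarith) (Finset.sum_nonneg fun j _ => ?_)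
  split_ifs
  · exact sq_nonneg _
  · exact le_rfl

omit [Fintype ι] in
theorem le_Phi (O : ℕ) {ε : ℝ} (hε : 0 ≤ ε) (β : ι → Fin n → ℝ) (cell : Fin n → ℕ)
    (z : Fin n → ℝ) : ∑ j, z j ^ 2 ≤ Phi O ε β cell z := by
  classical
  unfold Phi
  refine le_add_of_nonneg_right ?_
  refine mul_nonneg (by linarith) (Finset.sum_nonneg fun j _ => ?_)
  split_ifs
  · exact sq_nonneg _
  · exact le_rfl

open Classical in
/-- TARGET 2: iterated potential inequality. -/
theorem potential_iter (hps : PotStep n Q ι) (O : ℕ) (hO : 0 < O) (hQ : 0 < Q) (R : ℕ)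
    (β : ℕ → ι → Fin n → ℝ) (hβ : ∀ l ≤ R, Wts (β l))
    (ξ : ℕ → Fin Q → ℝ) (h0 : ∀ l, ∑ a, ξ l a = 0) (h1 : ∀ l a, |ξ l a| ≤ 1)
    (κ : ℝ) (hκ0 : 0 < κ) (hκ : ∀ l, κ ≤ (∑ a, ξ l a ^ 2) / Q)
    (M : ℕ) (hMO : 32 * M ≤ O * Q) :
    (∑ D : Fin R → Fin n → Fin Q,
        if Gx M β (extD hQ D) R then ∑ j, zx O β ξ (extD hQ D) R j ^ 2 else 0) ≤
      ((Q : ℝ) ^ n) ^ R * ((1 - κ / (8 * O)) ^ R * (2 * n)) := by
  have hO' : (1 : ℝ) ≤ O := by exact_mod_cast hO
  have hQ' : (0 : ℝ) < Q := by exact_mod_cast hQ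
  have hκ1 : κ ≤ 1 := by
    refine (hκ 0).trans ?_
    rw [div_le_one hQ']
    have h2 : ∑ a, ξ 0 a ^ 2 ≤ ∑ a : Fin Q, (1 : ℝ) := by
      refine Finset.sum_le_sum fun a _ => ?_
      rw [← sq_abs]
      exact pow_le_one₀ (abs_nonneg _) (h1 0 a)
    simpa using h2
  have hε0 : 0 ≤ κ / (2 * O) := by positivity
  have hε1 : κ / (2 * O) ≤ 1 / 2 := by
    rw [div_le_iff₀ (by positivity)]; nlinarith
  have hρ0 : 0 ≤ 1 - κ / (8 * O) := by
    have h2 : κ / (8 * O) ≤ 1 := by
      rw [div_le_one (by positivity)]; nlinarith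
    linarith
  have key : ∀ r ≤ R, (∑ D : Fin r → Fin n → Fin Q,
      if Gx M β (extD hQ D) r then Phi O (κ / (2 * O)) (β r) (cellx (extD hQ D) r)
        (zx O β ξ (extD hQ D) r) else 0) ≤
      ((Q : ℝ) ^ n) ^ r * ((1 - κ / (8 * O)) ^ r * (2 * n)) := by
    intro r
    induction r with
    | zero =>
      intro _
      rw [Fintype.sum_unique]
      have h2 : ∀ D : Fin 0 → Fin n → Fin Q,
          Phi O (κ / (2 * O)) (β 0) (cellx (extD hQ D) 0) (zx O β ξ (extD hQ D) 0) ≤ 2 * n := by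
        intro D
        unfold Phi
        have h3 : ∑ j : Fin n, zx O β ξ (extD hQ D) 0 j ^ 2 = n := by
          simp [zx]
        have h4 : (∑ j : Fin n, if bad O (β 0) (cellx (extD hQ D) 0) j then
            zx O β ξ (extD hQ D) 0 j ^ 2 else 0) ≤ n := by
          rw [← h3]
          refine Finset.sum_le_sum fun j _ => ?_
          split_ifs
          · exact le_rfl
          · exact sq_nonneg _
        have h5 : (0:ℝ) ≤ ∑ j : Fin n, if bad O (β 0) (cellx (extD hQ D) 0) j then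
            zx O β ξ (extD hQ D) 0 j ^ 2 else 0 := by
          refine Finset.sum_nonneg fun j _ => ?_
          split_ifs
          · exact sq_nonneg _
          · exact le_rfl
        rw [h3]
        nlinarith
      have h3 : (0 : ℝ) ≤ 2 * n := by positivity
      split_ifs
      · simpa using h2 _
      · simpa using h3
    | succ r ih =>
      intro hr
      have ih' := ih (Nat.le_of_succ_le hr)
      rw [← (Fin.snocEquiv (fun _ : Fin (r + 1) => Fin n → Fin Q)).sum_comp,
        Fintype.sum_prod_type_right]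
      have hstep : ∀ D : Fin r → Fin n → Fin Q,
          (∑ d : Fin n → Fin Q,
            if Gx M β (extD hQ (Fin.snoc (α := fun _ => Fin n → Fin Q) D d)) (r + 1) then
              Phi O (κ / (2 * O)) (β (r + 1))
                (cellx (extD hQ (Fin.snoc (α := fun _ => Fin n → Fin Q) D d)) (r + 1))
                (zx O β ξ (extD hQ (Fin.snoc (α := fun _ => Fin n → Fin Q) D d)) (r + 1))
            else 0) ≤ (Q : ℝ) ^ n * ((1 - κ / (8 * O)) *
              if Gx M β (extD hQ D) r then Phi O (κ / (2 * O)) (β r) (cellx (extD hQ D) r)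
                (zx O β ξ (extD hQ D) r) else 0) := by
        intro D
        have e1 : ∀ d l, l ≤ r → cellx (extD hQ (Fin.snoc (α := fun _ => Fin n → Fin Q) D d)) l
            = cellx (extD hQ D) l := fun d l hl =>
          cellx_congr l fun k hk => extD_snoc_lt hQ D d k (lt_of_lt_of_le hk hl)
        have e2 : ∀ d, zx O β ξ (extD hQ (Fin.snoc (α := fun _ => Fin n → Fin Q) D d)) r
            = zx O β ξ (extD hQ D) r := fun d =>
          zx_congr O β ξ r fun k hk => extD_snoc_lt hQ D d k hk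
        have e3 : ∀ d, Gx M β (extD hQ (Fin.snoc (α := fun _ => Fin n → Fin Q) D d)) (r + 1) ↔
            (Gx M β (extD hQ D) r ∧ ∀ a m, cnt (β (r + 1)) (cellx (extD hQ D) r) a m ≤ M) := by
          intro d
          constructor
          · intro h2
            refine ⟨fun l hl a m => ?_, fun a m => ?_⟩
            · rw [← e1 d l hl.le]; exact h2 l (Nat.lt_succ_of_lt hl) a m
            · rw [← e1 d r le_rfl]; exact h2 r (Nat.lt_succ_self r) a m
          · rintro ⟨h2, h3⟩ l hl a m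
            rcases Nat.lt_succ_iff_lt_or_eq.1 hl with h4 | h4
            · rw [e1 d l h4.le]; exact h2 l h4 a m
            · subst h4
              rw [e1 d l le_rfl]; exact h3 a m
        have hPn : 0 ≤ Phi O (κ / (2 * O)) (β r) (cellx (extD hQ D) r)
            (zx O β ξ (extD hQ D) r) := Phi_nonneg O hε0 _ _ _
        by_cases hG : Gx M β (extD hQ D) r ∧ ∀ a m, cnt (β (r + 1)) (cellx (extD hQ D) r) a m ≤ M
        · have e4 : ∀ d, (if Gx M β (extD hQ (Fin.snoc (α := fun _ => Fin n → Fin Q) D d)) (r + 1)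
              then Phi O (κ / (2 * O)) (β (r + 1))
                (cellx (extD hQ (Fin.snoc (α := fun _ => Fin n → Fin Q) D d)) (r + 1))
                (zx O β ξ (extD hQ (Fin.snoc (α := fun _ => Fin n → Fin Q) D d)) (r + 1))
              else 0) = Phi O (κ / (2 * O)) (β (r + 1))
                (fun i => Q * cellx (extD hQ D) r i + (d i : ℕ))
                (fun j => zx O β ξ (extD hQ D) r j - ξ r (d j) *
                  Tx O (β r) (cellx (extD hQ D) r)
                    (fun i => ξ r (d i) * zx O β ξ (extD hQ D) r i) j) := by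
            intro d
            rw [if_pos ((e3 d).2 hG)]
            have e5 : cellx (extD hQ (Fin.snoc (α := fun _ => Fin n → Fin Q) D d)) (r + 1) =
                fun i => Q * cellx (extD hQ D) r i + (d i : ℕ) := by
              funext i
              show Q * cellx (extD hQ (Fin.snoc (α := fun _ => Fin n → Fin Q) D d)) r i +
                (extD hQ (Fin.snoc (α := fun _ => Fin n → Fin Q) D d) r i : ℕ) = _
              rw [e1 d r le_rfl, extD_snoc_last]
            have e6 : zx O β ξ (extD hQ (Fin.snoc (α := fun _ => Fin n → Fin Q) D d)) (r + 1) =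
                fun j => zx O β ξ (extD hQ D) r j - ξ r (d j) *
                  Tx O (β r) (cellx (extD hQ D) r)
                    (fun i => ξ r (d i) * zx O β ξ (extD hQ D) r i) j := by
              funext j
              show zx O β ξ (extD hQ (Fin.snoc (α := fun _ => Fin n → Fin Q) D d)) r j -
                ξ r (extD hQ (Fin.snoc (α := fun _ => Fin n → Fin Q) D d) r j) *
                Tx O (β r) (cellx (extD hQ (Fin.snoc (α := fun _ => Fin n → Fin Q) D d)) r)
                  (fun i => ξ r (extD hQ (Fin.snoc (α := fun _ => Fin n → Fin Q) D d) r i) *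
                    zx O β ξ (extD hQ (Fin.snoc (α := fun _ => Fin n → Fin Q) D d)) r i) j = _
              rw [e1 d r le_rfl, e2 d, extD_snoc_last]
            rw [e5, e6]
          rw [Finset.sum_congr rfl fun d _ => e4 d, if_pos hG.1]
          have h2 := hps (β r) (β (r + 1)) (hβ r (Nat.le_of_succ_le hr)) (hβ (r + 1) hr)
            (cellx (extD hQ D) r) O hO (ξ r) (h0 r) (h1 r) κ hκ0 (hκ r) M hG.2 hMO
            (zx O β ξ (extD hQ D) r)
          unfold Ex at h2
          rw [div_le_iff₀ (by positivity)] at h2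
          linarith
        · have e4 : ∀ d, (if Gx M β (extD hQ (Fin.snoc (α := fun _ => Fin n → Fin Q) D d)) (r + 1)
              then Phi O (κ / (2 * O)) (β (r + 1))
                (cellx (extD hQ (Fin.snoc (α := fun _ => Fin n → Fin Q) D d)) (r + 1))
                (zx O β ξ (extD hQ (Fin.snoc (α := fun _ => Fin n → Fin Q) D d)) (r + 1))
              else 0) = 0 := fun d => if_neg fun h2 => hG ((e3 d).1 h2)
          rw [Finset.sum_congr rfl fun d _ => e4 d, Finset.sum_const_zero]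
          refine mul_nonneg (by positivity) (mul_nonneg hρ0 ?_)
          split_ifs
          · exact hPn
          · exact le_rfl
      refine (Finset.sum_le_sum fun D _ => hstep D).trans ?_
      rw [← Finset.mul_sum, ← Finset.mul_sum]
      calc (Q : ℝ) ^ n * ((1 - κ / (8 * O)) * _) ≤
          (Q : ℝ) ^ n * ((1 - κ / (8 * O)) *
            (((Q : ℝ) ^ n) ^ r * ((1 - κ / (8 * O)) ^ r * (2 * n)))) :=
            mul_le_mul_of_nonneg_left (mul_le_mul_of_nonneg_left ih' hρ0) (by positivity)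
        _ = _ := by ring
  refine le_trans (Finset.sum_le_sum fun D _ => ?_) (key R le_rfl)
  split_ifs
  · exact le_Phi O hε0 _ _ _
  · exact le_rfl

end

end Pool.Agent.Helper150.Iid
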