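import Mathlib
import Pool.Agent.Helper150.Iid.Bmp
import Pool.Agent.Helper150.Iid.Iter

set_option autoImplicit false

namespace Pool.Agent.Helper150.Iid

open MeasureTheory


noncomputable section

variable {n Q : ℕ}

private lemma floor_step (hQ : 0 < Q) (t : ℝ) (l : ℕ) :
    ⌊(Q : ℝ) ^ (l + 1) * t⌋₊ / Q = ⌊(Q : ℝ) ^ l * t⌋₊ := by
  rw [← Nat.floor_div_natCast]
  congr 1
  have : (Q : ℝ) ≠ 0 := by positivity
  rw [pow_succ]
  field_simp

private lemma floor_rec (hQ : 0 < Q) (t : ℝ) (l : ℕ) :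
    ⌊(Q : ℝ) ^ (l + 1) * t⌋₊ = Q * ⌊(Q : ℝ) ^ l * t⌋₊ + ⌊(Q : ℝ) ^ (l + 1) * t⌋₊ % Q := by
  have h := Nat.div_add_mod ⌊(Q : ℝ) ^ (l + 1) * t⌋₊ Q
  rw [floor_step hQ] at h
  exact h.symm

/-- TARGET 1. -/
theorem cellx_dig (hQ : 0 < Q) (x : Fin n → UnitAddCircle) (l : ℕ) (j : Fin n) :
    cellx (fun l j => dig Q hQ l (x j)) l j =
      ⌊(Q : ℝ) ^ l * (AddCircle.equivIco (1 : ℝ) 0 (x j) : ℝ)⌋₊ := by
  induction l with
  | zero =>
    have h := (AddCircle.equivIco (1 : ℝ) 0 (x j)).2.2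
    rw [pow_zero, one_mul]
    symm
    exact Nat.floor_eq_zero.2 (by linarith)
  | succ l ih =>
    rw [floor_rec hQ, ← ih]
    rfl

private lemma measurable_coord : Measurable (fun t : UnitAddCircle => (AddCircle.equivIco (1 : ℝ) 0 t : ℝ)) :=
  measurable_subtype_coe.comp (AddCircle.measurableEquivIco (1 : ℝ) 0).measurable

/-- TARGET 2. -/
theorem measurable_dig (hQ : 0 < Q) (l : ℕ) : Measurable (dig Q hQ l) := by
  have h1 : Measurable (fun t : UnitAddCircle =>
      ⌊(Q : ℝ) ^ (l + 1) * (AddCircle.equivIco (1 : ℝ) 0 t : ℝ)⌋₊) :=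
    Nat.measurable_floor.comp (measurable_coord.const_mul _)
  have h2 : Measurable (fun k : ℕ => (⟨k % Q, Nat.mod_lt _ hQ⟩ : Fin Q)) := Measurable.of_discrete
  exact h2.comp h1

private lemma vol_Ico {α β : ℝ} (h0 : 0 ≤ α) (h1 : β ≤ 1) :
    (volume : Measure UnitAddCircle) {t : UnitAddCircle | α ≤ (AddCircle.equivIco (1 : ℝ) 0 t : ℝ) ∧
      (AddCircle.equivIco (1 : ℝ) 0 t : ℝ) < β} = ENNReal.ofReal (β - α) := by
  have hm : MeasurableSet {t : UnitAddCircle | α ≤ (AddCircle.equivIco (1 : ℝ) 0 t : ℝ) ∧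
      (AddCircle.equivIco (1 : ℝ) 0 t : ℝ) < β} :=
    (measurableSet_le measurable_const measurable_coord).inter
      (measurableSet_lt measurable_coord measurable_const)
  have hmp := AddCircle.measurePreserving_mk (1 : ℝ) 0
  rw [← hmp.measure_preimage hm.nullMeasurableSet, ← Measure.restrict_congr_set Ioo_ae_eq_Ioc,
    Measure.restrict_apply (hmp.measurable hm)]
  have hcoe : ∀ s ∈ Set.Ioo (0 : ℝ) (0 + 1), (AddCircle.equivIco (1 : ℝ) 0 (s : UnitAddCircle) : ℝ) = s :=
    fun s hs => AddCircle.equivIco_coe_of_mem ⟨hs.1.le, hs.2⟩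
  apply le_antisymm
  · rw [← Real.volume_Ico]
    refine measure_mono ?_
    rintro s ⟨hs1, hs2⟩
    have hs3 : α ≤ (AddCircle.equivIco (1 : ℝ) 0 (s : UnitAddCircle) : ℝ) ∧
      (AddCircle.equivIco (1 : ℝ) 0 (s : UnitAddCircle) : ℝ) < β := hs1
    rw [hcoe s hs2] at hs3
    exact hs3
  · rw [← Real.volume_Ioo]
    refine measure_mono ?_
    rintro s ⟨hs1, hs2⟩
    have hs3 : s ∈ Set.Ioo (0 : ℝ) (0 + 1) := ⟨by linarith, by linarith⟩
    refine ⟨?_, hs3⟩
    show α ≤ (AddCircle.equivIco (1 : ℝ) 0 (s : UnitAddCircle) : ℝ) ∧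
      (AddCircle.equivIco (1 : ℝ) 0 (s : UnitAddCircle) : ℝ) < β
    rw [hcoe s hs3]
    exact ⟨hs1.le, hs2⟩

private def acc (Q : ℕ) (e : ℕ → Fin Q) : ℕ → ℕ
  | 0 => 0
  | l + 1 => Q * acc Q e l + (e l : ℕ)

private lemma acc_lt (e : ℕ → Fin Q) : ∀ l, acc Q e l < Q ^ l
  | 0 => by simp [acc]
  | l + 1 => by
      have h1 := acc_lt e l
      have h2 := (e l).2
      simp only [acc]
      calc Q * acc Q e l + (e l : ℕ) < Q * acc Q e l + Q := by omega
        _ = Q * (acc Q e l + 1) := by ring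
        _ ≤ Q * Q ^ l := Nat.mul_le_mul_left _ h1
        _ = Q ^ (l + 1) := by ring

private lemma dig_iff (hQ : 0 < Q) (e : ℕ → Fin Q) (t : UnitAddCircle) : ∀ R : ℕ,
    (∀ l < R, dig Q hQ l t = e l) ↔
      ⌊(Q : ℝ) ^ R * (AddCircle.equivIco (1 : ℝ) 0 t : ℝ)⌋₊ = acc Q e R
  | 0 => by
      have h := (AddCircle.equivIco (1 : ℝ) 0 t).2.2
      rw [pow_zero, one_mul]
      constructor
      · intro _
        exact Nat.floor_eq_zero.2 (by linarith)
      · intro _ l hl
        omega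
  | R + 1 => by
      have ih := dig_iff hQ e t R
      have hstep := floor_step hQ (AddCircle.equivIco (1 : ℝ) 0 t : ℝ) R
      constructor
      · intro h
        have h1 := ih.1 (fun l hl => h l (by omega))
        have h2 := congrArg Fin.val (h R (by omega))
        have h3 : ⌊(Q : ℝ) ^ (R + 1) * (AddCircle.equivIco (1 : ℝ) 0 t : ℝ)⌋₊ % Q = (e R : ℕ) := h2
        rw [floor_rec hQ, h1, h3]
        rfl
      · intro h
        have h1 : ⌊(Q : ℝ) ^ (R + 1) * (AddCircle.equivIco (1 : ℝ) 0 t : ℝ)⌋₊ =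
          Q * acc Q e R + (e R : ℕ) := h
        have h2 : ⌊(Q : ℝ) ^ R * (AddCircle.equivIco (1 : ℝ) 0 t : ℝ)⌋₊ = acc Q e R := by
          rw [← hstep, h1, Nat.mul_add_div hQ, Nat.div_eq_of_lt (e R).2, add_zero]
        intro l hl
        rcases Nat.lt_succ_iff_lt_or_eq.1 hl with h3 | h3
        · exact ih.2 h2 l h3
        · subst h3
          apply Fin.ext
          show ⌊(Q : ℝ) ^ (l + 1) * (AddCircle.equivIco (1 : ℝ) 0 t : ℝ)⌋₊ % Q = (e l : ℕ)
          rw [h1, Nat.mul_add_mod, Nat.mod_eq_of_lt (e l).2]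

/-- TARGET 3. The first `R` digits are uniformly distributed. -/
theorem dig_law (hQ : 0 < Q) (R : ℕ) (e : Fin R → Fin Q) :
    (volume : Measure UnitAddCircle) {t | ∀ l : Fin R, dig Q hQ l t = e l} =
      ENNReal.ofReal (1 / (Q : ℝ) ^ R) := by
  obtain ⟨e', he'⟩ : ∃ e' : ℕ → Fin Q, ∀ l : Fin R, e' l = e l :=
    ⟨fun l => if h : l < R then e ⟨l, h⟩ else ⟨0, hQ⟩, fun l => by simp⟩
  have hQR : (0 : ℝ) < (Q : ℝ) ^ R := by positivity
  have h1 : {t : UnitAddCircle | ∀ l : Fin R, dig Q hQ l t = e l} =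
      {t : UnitAddCircle | (acc Q e' R : ℝ) / (Q : ℝ) ^ R ≤ (AddCircle.equivIco (1 : ℝ) 0 t : ℝ) ∧
      (AddCircle.equivIco (1 : ℝ) 0 t : ℝ) < ((acc Q e' R : ℝ) + 1) / (Q : ℝ) ^ R} := by
    ext t
    have ht := (AddCircle.equivIco (1 : ℝ) 0 t).2
    rw [Set.mem_ofPred_eq, Set.mem_ofPred_eq]
    have h2 : (∀ l : Fin R, dig Q hQ l t = e l) ↔ (∀ l < R, dig Q hQ l t = e' l) := by
      constructor
      · intro h l hl
        rw [h ⟨l, hl⟩, ← he' ⟨l, hl⟩]
      · intro h l
        rw [h l l.2, he']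
    rw [h2, dig_iff, Nat.floor_eq_iff (mul_nonneg hQR.le ht.1), div_le_iff₀ hQR, lt_div_iff₀ hQR,
      mul_comm ((Q : ℝ) ^ R)]
  have hlt := acc_lt e' R
  have hlt' : (acc Q e' R : ℝ) + 1 ≤ (Q : ℝ) ^ R := by exact_mod_cast hlt
  rw [h1, vol_Ico (by positivity) (by rw [div_le_one hQR]; exact hlt')]
  congr 1
  field_simp
  ring

/-- TARGET 4. If for every `y` at most the fraction `p` of all digit arrays belongs to the bad set,
then the bad set has measure at most `p`. -/
theorem digit_fubini (hQ : 0 < Q) (R : ℕ)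
    (B : (Fin R → Fin n → Fin Q) → Set (Fin n → UnitAddCircle))
    (hB : ∀ D, MeasurableSet (B D)) (p : ℝ)
    (hp : ∀ y, (open Classical in
      ((Finset.univ.filter (fun D : Fin R → Fin n → Fin Q => y ∈ B D)).card : ℝ)) ≤
        p * ((Q : ℝ) ^ n) ^ R) :
    (Measure.pi (fun _ : Fin n => (volume : Measure (Fin 2 → UnitAddCircle))))
      {ω | (fun j => ω j 1) ∈ B (fun l j => dig Q hQ l (ω j 0))} ≤ ENNReal.ofReal p := by
  classical
  -- the measure preserving map
  have hmp1 : MeasurePreserving (fun (ω : Fin n → Fin 2 → UnitAddCircle) (j : Fin n) =>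
      MeasurableEquiv.finTwoArrow (ω j)) (Measure.pi (fun _ : Fin n => (volume : Measure (Fin 2 → UnitAddCircle))))
      (Measure.pi (fun _ : Fin n => (volume : Measure UnitAddCircle).prod (volume : Measure UnitAddCircle))) :=
    measurePreserving_pi _ _ (fun _ => volume_preserving_finTwoArrow UnitAddCircle)
  have hmp2 := measurePreserving_arrowProdEquivProdArrow UnitAddCircle UnitAddCircle (Fin n)
    (fun _ => (volume : Measure UnitAddCircle)) (fun _ => (volume : Measure UnitAddCircle))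
  have hmp := hmp2.comp hmp1
  obtain ⟨S, hS⟩ : ∃ S : Set ((Fin n → UnitAddCircle) × (Fin n → UnitAddCircle)),
      S = {q | q.2 ∈ B (fun l j => dig Q hQ l (q.1 j))} := ⟨_, rfl⟩
  -- one-dimensional cylinders
  have hcyl : ∀ D : Fin R → Fin n → Fin Q, MeasurableSet {x : Fin n → UnitAddCircle |
      (fun (l : Fin R) j => dig Q hQ l (x j)) = D} := by
    intro D
    have h1 : Measurable (fun x : Fin n → UnitAddCircle => (fun (l : Fin R) j => dig Q hQ l (x j))) := by
      refine measurable_pi_lambda _ fun l => measurable_pi_lambda _ fun j => ?_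
      exact (measurable_dig hQ l).comp (measurable_pi_apply j)
    exact h1 (measurableSet_singleton D)
  have hcylv : ∀ D : Fin R → Fin n → Fin Q, (Measure.pi (fun _ : Fin n => (volume : Measure UnitAddCircle)))
      {x : Fin n → UnitAddCircle | (fun (l : Fin R) j => dig Q hQ l (x j)) = D} =
      ENNReal.ofReal ((1 / (Q : ℝ) ^ R) ^ n) := by
    intro D
    have h1 : {x : Fin n → UnitAddCircle | (fun (l : Fin R) j => dig Q hQ l (x j)) = D} =
        Set.pi Set.univ (fun j => {t : UnitAddCircle | ∀ l : Fin R, dig Q hQ l t = D l j}) := by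
      ext x
      rw [Set.mem_ofPred_eq, Set.mem_univ_pi]
      constructor
      · intro h j l
        exact congrFun (congrFun h l) j
      · intro h
        funext l j
        exact h j l
    rw [h1, Measure.pi_pi]
    have h2 : ∀ j ∈ (Finset.univ : Finset (Fin n)), (volume : Measure UnitAddCircle)
        {t : UnitAddCircle | ∀ l : Fin R, dig Q hQ l t = D l j} = ENNReal.ofReal (1 / (Q : ℝ) ^ R) :=
      fun j _ => dig_law hQ R (fun l => D l j)
    rw [Finset.prod_congr rfl h2, Finset.prod_const, Finset.card_univ, Fintype.card_fin,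
      ENNReal.ofReal_pow (by positivity)]
  have hSm : MeasurableSet S := by
    have h1 : S = ⋃ D : Fin R → Fin n → Fin Q, {x : Fin n → UnitAddCircle |
        (fun (l : Fin R) j => dig Q hQ l (x j)) = D} ×ˢ (B D) := by
      rw [hS]
      ext ⟨x, y⟩
      rw [Set.mem_ofPred_eq, Set.mem_iUnion]
      constructor
      · intro h
        exact ⟨_, rfl, h⟩
      · rintro ⟨D, h1, h2⟩
        have h3 : (fun (l : Fin R) j => dig Q hQ l (x j)) = D := h1
        show y ∈ B (fun (l : Fin R) j => dig Q hQ l (x j))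
        rw [h3]
        exact h2
    rw [h1]
    exact MeasurableSet.iUnion fun D => (hcyl D).prod (hB D)
  have hpre : {ω : Fin n → Fin 2 → UnitAddCircle | (fun j => ω j 1) ∈ B (fun l j => dig Q hQ l (ω j 0))} =
      (⇑(MeasurableEquiv.arrowProdEquivProdArrow UnitAddCircle UnitAddCircle (Fin n)) ∘
        fun (ω : Fin n → Fin 2 → UnitAddCircle) (j : Fin n) => MeasurableEquiv.finTwoArrow (ω j)) ⁻¹' S := by
    rw [hS]
    rfl
  rw [hpre, hmp.measure_preimage hSm.nullMeasurableSet, Measure.prod_apply_symm hSm]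
  have hfib : ∀ y : Fin n → UnitAddCircle, (Measure.pi (fun _ : Fin n => (volume : Measure UnitAddCircle)))
      ((fun x => (x, y)) ⁻¹' S) ≤ ENNReal.ofReal p := by
    intro y
    have h1 : (fun x => (x, y)) ⁻¹' S = ⋃ D ∈ Finset.univ.filter (fun D : Fin R → Fin n → Fin Q => y ∈ B D),
        {x : Fin n → UnitAddCircle | (fun (l : Fin R) j => dig Q hQ l (x j)) = D} := by
      ext x
      rw [Set.mem_iUnion₂]
      constructor
      · intro h
        rw [hS] at h
        refine ⟨(fun (l : Fin R) j => dig Q hQ l (x j)), ?_, rfl⟩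
        rw [Finset.mem_filter]
        exact ⟨Finset.mem_univ _, h⟩
      · rintro ⟨D, h1, h2⟩
        rw [Finset.mem_filter] at h1
        have h3 : (fun (l : Fin R) j => dig Q hQ l (x j)) = D := h2
        rw [hS]
        show y ∈ B (fun (l : Fin R) j => dig Q hQ l (x j))
        rw [h3]
        exact h1.2
    rw [h1]
    refine (measure_biUnion_finset_le _ _).trans ?_
    rw [Finset.sum_congr rfl (fun D _ => hcylv D), Finset.sum_const, nsmul_eq_mul]
    have h2 : ((Finset.univ.filter (fun D : Fin R → Fin n → Fin Q => y ∈ B D)).card : ENNReal) =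
        ENNReal.ofReal ((Finset.univ.filter (fun D : Fin R → Fin n → Fin Q => y ∈ B D)).card : ℝ) := by
      rw [ENNReal.ofReal_natCast]
    rw [h2, ← ENNReal.ofReal_mul (Nat.cast_nonneg _)]
    apply ENNReal.ofReal_le_ofReal
    have h3 := hp y
    have h4 : (0 : ℝ) < (Q : ℝ) ^ R := by positivity
    have h5 : ((1 / (Q : ℝ) ^ R) ^ n) * ((Q : ℝ) ^ n) ^ R = 1 := by
      rw [← pow_mul, mul_comm n R, pow_mul, ← mul_pow, one_div, inv_mul_cancel₀ h4.ne', one_pow]
    calc _ ≤ (p * ((Q : ℝ) ^ n) ^ R) * (1 / (Q : ℝ) ^ R) ^ n := by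
          refine mul_le_mul_of_nonneg_right ?_ (by positivity)
          convert h3
      _ = p * (((1 / (Q : ℝ) ^ R) ^ n) * ((Q : ℝ) ^ n) ^ R) := by ring
      _ = p := by rw [h5, mul_one]
  calc _ ≤ ∫⁻ _ : Fin n → UnitAddCircle, ENNReal.ofReal p
        ∂(Measure.pi (fun _ : Fin n => (volume : Measure UnitAddCircle))) := lintegral_mono hfib
    _ = ENNReal.ofReal p := by
        rw [lintegral_const]
        have : (Measure.pi (fun _ : Fin n => (volume : Measure UnitAddCircle))) Set.univ = 1 := by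
          rw [Measure.pi_univ]
          refine Finset.prod_eq_one fun i _ => ?_
          rw [AddCircle.measure_univ, ENNReal.ofReal_one]
        rw [this, mul_one]

end

end Pool.Agent.Helper150.Iid
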