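import Mathlib
import Pool.Agent.Helper150.Iid.Bmp

set_option autoImplicit false

namespace Pool.Agent.Helper150.Iid

open MeasureTheory
open scoped ContDiff

noncomputable section

/-- The facts about a profile that are used. -/
structure Nice (B : ℝ → ℝ) : Prop where
  per : ∀ K x0, Function.Periodic (pb B K x0) 1
  smooth : ∀ K x0, ContDiff ℝ ∞ (pb B K x0)
  bound : ∀ p : ℕ, ∃ C : ℝ, 0 ≤ C ∧ ∀ K x0 x : ℝ, 1 ≤ K →
    |iteratedDeriv p (pb B K x0) x| ≤ C * K ^ p
  zero : ∀ (p : ℕ) (K x0 x : ℝ), 1 ≤ K → 1 / (2 * K) ≤ ‖((x - x0 : ℝ) : UnitAddCircle)‖ →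
    iteratedDeriv p (pb B K x0) x = 0

theorem per_iter {A : ℝ → ℝ} (hA : Nice A) (p : ℕ) (K x0 : ℝ) :
    Function.Periodic (iteratedDeriv p (pb A K x0)) 1 := by
  intro x
  have h := iteratedDeriv_comp_add_const p (pb A K x0) 1
  have h2 : (fun z => pb A K x0 (z + 1)) = pb A K x0 := funext (hA.per K x0)
  rw [h2] at h
  exact (congrFun h x).symm

theorem cont_iter {A : ℝ → ℝ} (hA : Nice A) (p : ℕ) (K x0 : ℝ) :
    Continuous (iteratedDeriv p (pb A K x0)) :=
  (hA.smooth K x0).continuous_iteratedDeriv p (by exact_mod_cast le_top)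

theorem cf_zero' {A : ℝ → ℝ} (hA : Nice A) (p : ℕ) (K x0 : ℝ) (hK : 1 ≤ K) (t : UnitAddCircle)
    (ht : ¬ ‖t - (x0 : UnitAddCircle)‖ < 1 / (2 * K)) :
    cf (iteratedDeriv p (pb A K x0)) t = 0 := by
  obtain ⟨x, rfl⟩ := QuotientAddGroup.mk_surjective t
  have h1 := cf_coe (per_iter hA p K x0) x
  refine h1.trans ?_
  apply hA.zero p K x0 x hK
  push Not at ht
  exact ht

theorem cf_bd {A : ℝ → ℝ} (hA : Nice A) (p : ℕ) {C : ℝ}
    (hC : ∀ K x0 x : ℝ, 1 ≤ K → |iteratedDeriv p (pb A K x0) x| ≤ C * K ^ p)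
    (K x0 : ℝ) (hK : 1 ≤ K) (t : UnitAddCircle) :
    |cf (iteratedDeriv p (pb A K x0)) t| ≤ C * K ^ p := by
  obtain ⟨x, rfl⟩ := QuotientAddGroup.mk_surjective t
  have h1 := cf_coe (per_iter hA p K x0) x
  have h2 := hC K x0 x hK
  rw [← h1] at h2
  exact h2

theorem vol_S (K K' : ℝ) (hK : 1 ≤ K) (hK' : 1 ≤ K') (a b : UnitAddCircle) :
    (volume : Measure (Tor 2)).real {x : Tor 2 | ‖x 0 - a‖ < 1 / (2 * K) ∧ ‖x 1 - b‖ < 1 / (2 * K')}
      ≤ 1 / (K * K') := by
  have h1 : {x : Tor 2 | ‖x 0 - a‖ < 1 / (2 * K) ∧ ‖x 1 - b‖ < 1 / (2 * K')} ⊆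
      Set.pi Set.univ (![Metric.closedBall a (1 / (2 * K)), Metric.closedBall b (1 / (2 * K'))]) := by
    rintro x ⟨hx0, hx1⟩
    rw [Set.mem_univ_pi]
    intro i
    fin_cases i
    · simp only [Fin.zero_eta, Matrix.cons_val_zero, mem_closedBall_iff_norm]
      exact hx0.le
    · show x 1 ∈ Metric.closedBall b (1 / (2 * K'))
      rw [mem_closedBall_iff_norm]
      exact hx1.le
  have h2 : (volume : Measure (Tor 2)) (Set.pi Set.univ (![Metric.closedBall a (1 / (2 * K)),
      Metric.closedBall b (1 / (2 * K'))])) = ENNReal.ofReal (1 / K) * ENNReal.ofReal (1 / K') := by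
    rw [volume_pi_pi, Fin.prod_univ_two]
    simp only [Matrix.cons_val_zero, Matrix.cons_val_one]
    have h3 : volume (Metric.closedBall a (1 / (2 * K))) = ENNReal.ofReal (1 / K) := by
      have := AddCircle.volume_closedBall 1 (x := a) (1 / (2 * K))
      rw [this]
      congr 1
      have h5 : 2 * (1 / (2 * K)) = 1 / K := by field_simp
      rw [h5, min_eq_right]
      rw [div_le_one (by linarith)]
      exact hK
    have h4 : volume (Metric.closedBall b (1 / (2 * K'))) = ENNReal.ofReal (1 / K') := by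
      have := AddCircle.volume_closedBall 1 (x := b) (1 / (2 * K'))
      rw [this]
      congr 1
      have h5 : 2 * (1 / (2 * K')) = 1 / K' := by field_simp
      rw [h5, min_eq_right]
      rw [div_le_one (by linarith)]
      exact hK'
    rw [h3, h4]
  calc (volume : Measure (Tor 2)).real _ ≤ (volume : Measure (Tor 2)).real (Set.pi Set.univ
        (![Metric.closedBall a (1 / (2 * K)), Metric.closedBall b (1 / (2 * K'))])) :=
        measureReal_mono h1 (by
          rw [h2]
          exact ENNReal.mul_ne_top ENNReal.ofReal_ne_top ENNReal.ofReal_ne_top)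
    _ = 1 / (K * K') := by
        rw [measureReal_def, h2, ENNReal.toReal_mul, ENNReal.toReal_ofReal (by positivity),
          ENNReal.toReal_ofReal (by positivity)]
        field_simp

/-- TARGET: L2-norms of sums of tensor products of bumps of the same scale with bounded overlap. -/
theorem blk_norm {A B : ℝ → ℝ} (hA : Nice A) (hB : Nice B) (p q : ℕ) : ∃ C : ℝ, 0 ≤ C ∧
    ∀ (I : Type) (s : Finset I) (c : I → ℝ) (K K' : ℝ) (xc yc : I → ℝ) (L : ℕ),
      1 ≤ K → 1 ≤ K' →
      (∀ x : Tor 2, (open Classical in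
        (s.filter (fun b => ‖x 0 - (xc b : UnitAddCircle)‖ < 1 / (2 * K) ∧
          ‖x 1 - (yc b : UnitAddCircle)‖ < 1 / (2 * K'))).card) ≤ L) →
      ∫ x : Tor 2, (∑ b ∈ s, c b * cf (iteratedDeriv p (pb A K (xc b))) (x 0) *
        cf (iteratedDeriv q (pb B K' (yc b))) (x 1)) ^ 2 ≤
      C * L * K ^ (2 * p) * K' ^ (2 * q) / (K * K') * ∑ b ∈ s, c b ^ 2 := by
  classical
  obtain ⟨C1, hC1, hA1⟩ := hA.bound p
  obtain ⟨C2, hC2, hB1⟩ := hB.bound q
  refine ⟨C1 ^ 2 * C2 ^ 2, by positivity, ?_⟩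
  intro I s c K K' xc yc L hK hK' hL
  set S : I → Set (Tor 2) := fun b => {x : Tor 2 | ‖x 0 - (xc b : UnitAddCircle)‖ < 1 / (2 * K) ∧
    ‖x 1 - (yc b : UnitAddCircle)‖ < 1 / (2 * K')} with hS
  have hSm : ∀ b, MeasurableSet (S b) := by
    intro b
    have h0 : Continuous fun x : Tor 2 => ‖x 0 - (xc b : UnitAddCircle)‖ := by fun_prop
    have h1 : Continuous fun x : Tor 2 => ‖x 1 - (yc b : UnitAddCircle)‖ := by fun_prop
    exact ((isOpen_lt h0 continuous_const).inter (isOpen_lt h1 continuous_const)).measurableSet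
  set F : I → Tor 2 → ℝ := fun b x => c b * cf (iteratedDeriv p (pb A K (xc b))) (x 0) *
        cf (iteratedDeriv q (pb B K' (yc b))) (x 1) with hF
  set D : ℝ := (C1 * K ^ p) ^ 2 * (C2 * K' ^ q) ^ 2 with hD
  have hD0 : 0 ≤ D := by positivity
  have hFc : ∀ b, Continuous (F b) := by
    intro b
    have h0 := (cf_continuous (per_iter hA p K (xc b)) (cont_iter hA p K (xc b))).comp
      (continuous_apply (0 : Fin 2) : Continuous fun x : Tor 2 => x 0)
    have h1 := (cf_continuous (per_iter hB q K' (yc b)) (cont_iter hB q K' (yc b))).comp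
      (continuous_apply (1 : Fin 2) : Continuous fun x : Tor 2 => x 1)
    exact (continuous_const.mul h0).mul h1
  have hF0 : ∀ b x, x ∉ S b → F b x = 0 := by
    intro b x hx
    simp only [hF]
    by_cases h0 : ‖x 0 - (xc b : UnitAddCircle)‖ < 1 / (2 * K)
    · have h1 : ¬ ‖x 1 - (yc b : UnitAddCircle)‖ < 1 / (2 * K') := fun h1 => hx ⟨h0, h1⟩
      rw [cf_zero' hB q K' (yc b) hK' (x 1) h1, mul_zero]
    · rw [cf_zero' hA p K (xc b) hK (x 0) h0, mul_zero, zero_mul]
  have hF2 : ∀ b x, F b x ^ 2 ≤ c b ^ 2 * D := by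
    intro b x
    have h0 := cf_bd hA p hA1 K (xc b) hK (x 0)
    have h1 := cf_bd hB q hB1 K' (yc b) hK' (x 1)
    have h0' : cf (iteratedDeriv p (pb A K (xc b))) (x 0) ^ 2 ≤ (C1 * K ^ p) ^ 2 := by
      rw [← sq_abs]
      exact pow_le_pow_left₀ (abs_nonneg _) h0 2
    have h1' : cf (iteratedDeriv q (pb B K' (yc b))) (x 1) ^ 2 ≤ (C2 * K' ^ q) ^ 2 := by
      rw [← sq_abs]
      exact pow_le_pow_left₀ (abs_nonneg _) h1 2
    simp only [hF, hD]
    rw [mul_pow, mul_pow, mul_assoc]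
    exact mul_le_mul_of_nonneg_left (mul_le_mul h0' h1' (sq_nonneg _) (sq_nonneg _)) (sq_nonneg _)
  have hpt : ∀ x, (∑ b ∈ s, F b x) ^ 2 ≤ L * ∑ b ∈ s, c b ^ 2 * D * (S b).indicator 1 x := by
    intro x
    have e1 : ∑ b ∈ s, F b x = ∑ b ∈ s.filter (fun b => x ∈ S b), F b x := by
      symm
      apply Finset.sum_filter_of_ne
      intro b _ hb
      by_contra hc
      exact hb (hF0 b x hc)
    have e2 : ∑ b ∈ s, c b ^ 2 * D * (S b).indicator 1 x =
        ∑ b ∈ s.filter (fun b => x ∈ S b), c b ^ 2 * D := by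
      rw [Finset.sum_filter]
      refine Finset.sum_congr rfl fun b _ => ?_
      by_cases hb : x ∈ S b
      · simp [hb]
      · simp [hb]
    rw [e1, e2]
    calc (∑ b ∈ s.filter (fun b => x ∈ S b), F b x) ^ 2
        ≤ (s.filter (fun b => x ∈ S b)).card * ∑ b ∈ s.filter (fun b => x ∈ S b), F b x ^ 2 :=
          sq_sum_le_card_mul_sum_sq
      _ ≤ (s.filter (fun b => x ∈ S b)).card * ∑ b ∈ s.filter (fun b => x ∈ S b), c b ^ 2 * D := by
          apply mul_le_mul_of_nonneg_left _ (Nat.cast_nonneg _)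
          exact Finset.sum_le_sum fun b _ => hF2 b x
      _ ≤ L * ∑ b ∈ s.filter (fun b => x ∈ S b), c b ^ 2 * D := by
          apply mul_le_mul_of_nonneg_right
          · have := hL x
            exact_mod_cast this
          · exact Finset.sum_nonneg fun b _ => mul_nonneg (sq_nonneg _) hD0
  have hint1 : ∀ b, Integrable (fun x : Tor 2 => c b ^ 2 * D * (S b).indicator (1 : Tor 2 → ℝ) x) := by
    intro b
    apply Integrable.const_mul
    exact (integrable_const (1 : ℝ)).indicator (hSm b)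
  calc ∫ x : Tor 2, (∑ b ∈ s, F b x) ^ 2
      ≤ ∫ x : Tor 2, L * ∑ b ∈ s, c b ^ 2 * D * (S b).indicator (1 : Tor 2 → ℝ) x := by
        apply integral_mono
        · have hcont : Continuous fun x : Tor 2 => (∑ b ∈ s, F b x) ^ 2 := by
            apply Continuous.pow
            exact continuous_finsetSum s fun b _ => hFc b
          exact hcont.integrable_of_hasCompactSupport (HasCompactSupport.of_compactSpace _)
        · apply Integrable.const_mul
          exact integrable_finsetSum s fun b _ => hint1 b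
        · exact hpt
    _ = L * ∑ b ∈ s, c b ^ 2 * D * (volume : Measure (Tor 2)).real (S b) := by
        rw [integral_const_mul, integral_finsetSum s fun b _ => hint1 b]
        congr 1
        refine Finset.sum_congr rfl fun b _ => ?_
        rw [integral_const_mul, integral_indicator_one (hSm b)]
    _ ≤ L * ∑ b ∈ s, c b ^ 2 * D * (1 / (K * K')) := by
        apply mul_le_mul_of_nonneg_left _ (Nat.cast_nonneg _)
        exact Finset.sum_le_sum fun b _ => mul_le_mul_of_nonneg_left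
          (vol_S K K' hK hK' _ _) (mul_nonneg (sq_nonneg _) hD0)
    _ = C1 ^ 2 * C2 ^ 2 * L * K ^ (2 * p) * K' ^ (2 * q) / (K * K') * ∑ b ∈ s, c b ^ 2 := by
        rw [Finset.mul_sum, Finset.mul_sum]
        refine Finset.sum_congr rfl fun b _ => ?_
        simp only [hD]
        ring

end

end Pool.Agent.Helper150.Iid
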