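import Mathlib
import Pool.Agent.Helper150.Iid.Bmp

set_option autoImplicit false

namespace Pool.Agent.Helper150.Iid

open MeasureTheory
open scoped ContDiff

noncomputable section

/-- Admissible profiles: smooth, even, vanishing outside `(-1, 1)`. -/
structure Prof (B : ℝ → ℝ) : Prop where
  smooth : ContDiff ℝ ∞ B
  even : ∀ t, B (-t) = B t
  zero : ∀ t, 1 ≤ |t| → B t = 0

theorem prof_bb : Prof bb := by
  refine ⟨?_, ?_, ?_⟩
  · exact Real.smoothTransition.contDiff.comp (by fun_prop)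
  · intro t
    unfold bb
    rw [neg_sq]
  · intro t ht
    unfold bb
    apply Real.smoothTransition.zero_of_nonpos
    have : 1 ≤ t ^ 2 := by rw [← sq_abs]; nlinarith [abs_nonneg t]
    linarith

theorem prof_AA : Prof AA := by
  refine ⟨?_, ?_, ?_⟩
  · have h : ContDiff ℝ ∞ (fun t : ℝ => expNegInvGlue (1 - t ^ 2)) :=
      expNegInvGlue.contDiff.comp (by fun_prop)
    exact h.div_const 2
  · intro t
    unfold AA
    rw [neg_sq]
  · intro t ht
    unfold AA
    have : 1 ≤ t ^ 2 := by rw [← sq_abs]; nlinarith [abs_nonneg t]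
    rw [expNegInvGlue.zero_of_nonpos (by linarith)]
    simp

theorem bb_nonneg (t : ℝ) : 0 ≤ bb t := by
  exact Real.smoothTransition.nonneg _

theorem bb_le_one (t : ℝ) : bb t ≤ 1 := by
  exact Real.smoothTransition.le_one _

theorem bb_one (t : ℝ) (h : |t| ≤ 4 / 5) : bb t = 1 := by
  unfold bb
  apply Real.smoothTransition.one_of_one_le
  have : t ^ 2 ≤ 16 / 25 := by rw [← sq_abs]; nlinarith [abs_nonneg t]
  linarith

theorem pb_periodic {B : ℝ → ℝ} (hB : Prof B) (K x0 : ℝ) : Function.Periodic (pb B K x0) 1 := by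
  intro x
  unfold pb
  have h : Real.pi * (x + 1 - x0) = Real.pi * (x - x0) + Real.pi := by ring
  rw [h, Real.sin_add_pi, mul_neg, hB.even]

theorem pb_contDiff {B : ℝ → ℝ} (hB : Prof B) (K x0 : ℝ) : ContDiff ℝ ∞ (pb B K x0) := by
  exact hB.smooth.comp (by fun_prop)

theorem prof_fderiv_zero {B : ℝ → ℝ} (hB : Prof B) (i : ℕ) (t : ℝ) (ht : 1 ≤ |t|) :
    iteratedFDeriv ℝ i B t = 0 := by
  have hopen : ∀ s : ℝ, 1 < |s| → iteratedFDeriv ℝ i B s = 0 := by
    intro s hs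
    have h1 : B =ᶠ[nhds s] fun _ => (0:ℝ) := by
      have hc : ContinuousAt (fun s : ℝ => |s|) s := continuous_abs.continuousAt
      filter_upwards [hc.eventually (lt_mem_nhds hs)] with r hr
      exact hB.zero r hr.le
    have h2 := h1.iteratedFDeriv ℝ i
    rw [h2.self_of_nhds]
    simp
  have hcont : Continuous (iteratedFDeriv ℝ i B) :=
    hB.smooth.continuous_iteratedFDeriv (by exact_mod_cast le_top)
  have hcl : IsClosed {s : ℝ | iteratedFDeriv ℝ i B s = 0} := isClosed_eq hcont continuous_const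
  rcases le_abs.1 ht with h | h
  · have h1 : Set.Ioi (1:ℝ) ⊆ {s : ℝ | iteratedFDeriv ℝ i B s = 0} := by
      intro s hs
      exact hopen s (lt_of_lt_of_le hs (le_abs_self s))
    have h2 := hcl.closure_subset_iff.2 h1
    rw [closure_Ioi] at h2
    exact h2 h
  · have h1 : Set.Iio (-1:ℝ) ⊆ {s : ℝ | iteratedFDeriv ℝ i B s = 0} := by
      intro s hs
      refine hopen s ?_
      rw [lt_abs]; right
      have : s < -1 := hs
      linarith
    have h2 := hcl.closure_subset_iff.2 h1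
    rw [closure_Iio] at h2
    exact h2 (by show t ≤ -1; linarith)

theorem inner_bound (K x0 x : ℝ) (i : ℕ) (hi : 1 ≤ i) :
    ‖iteratedFDeriv ℝ i (fun x : ℝ => K * Real.sin (Real.pi * (x - x0))) x‖ ≤ (Real.pi * max 1 |K|) ^ i := by
  rw [norm_iteratedFDeriv_eq_norm_iteratedDeriv, iteratedDeriv_const_mul_field]
  have h1 : iteratedDeriv i (fun x : ℝ => Real.sin (Real.pi * (x - x0))) x
      = Real.pi ^ i * iteratedDeriv i Real.sin (Real.pi * (x - x0)) := by
    have h2 := iteratedDeriv_comp_sub_const i (fun y : ℝ => Real.sin (Real.pi * y)) x0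
    have h3 := iteratedDeriv_comp_const_mul (n := i) (f := Real.sin) (Real.contDiff_sin) Real.pi
    rw [h2]
    show iteratedDeriv i (fun y : ℝ => Real.sin (Real.pi * y)) (x - x0) = _
    rw [h3]
  rw [h1, norm_mul, norm_mul, norm_pow, Real.norm_eq_abs, Real.norm_eq_abs, Real.norm_eq_abs,
    abs_of_pos Real.pi_pos, mul_pow]
  have h2 := Real.abs_iteratedDeriv_sin_le_one i (Real.pi * (x - x0))
  have h3 : |K| ≤ (max 1 |K|) ^ i := by
    calc |K| ≤ max 1 |K| := le_max_right _ _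
      _ = (max 1 |K|) ^ 1 := (pow_one _).symm
      _ ≤ (max 1 |K|) ^ i := pow_le_pow_right₀ (le_max_left _ _) hi
  have hpi := Real.pi_pos
  calc |K| * (Real.pi ^ i * |iteratedDeriv i Real.sin (Real.pi * (x - x0))|)
      ≤ (max 1 |K|) ^ i * (Real.pi ^ i * 1) := by gcongr
    _ = Real.pi ^ i * (max 1 |K|) ^ i := by ring

theorem pb_comp_pt {B : ℝ → ℝ} (hB : Prof B) (p : ℕ) (K x0 x C : ℝ)
    (hC : ∀ i ≤ p, ‖iteratedFDeriv ℝ i B (K * Real.sin (Real.pi * (x - x0)))‖ ≤ C) :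
    |iteratedDeriv p (pb B K x0) x| ≤ (p.factorial : ℝ) * C * (Real.pi * max 1 |K|) ^ p := by
  rw [← Real.norm_eq_abs, ← norm_iteratedFDeriv_eq_norm_iteratedDeriv]
  have hf : ContDiff ℝ ∞ (fun x : ℝ => K * Real.sin (Real.pi * (x - x0))) := by fun_prop
  exact norm_iteratedFDeriv_comp_le hB.smooth hf (by exact_mod_cast le_top) x hC
    (fun i hi _ => inner_bound K x0 x i hi)

theorem pb_comp {B : ℝ → ℝ} (hB : Prof B) (p : ℕ) (K x0 x C : ℝ)
    (hC : ∀ i ≤ p, ∀ t, ‖iteratedFDeriv ℝ i B t‖ ≤ C) :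
    |iteratedDeriv p (pb B K x0) x| ≤ (p.factorial : ℝ) * C * (Real.pi * max 1 |K|) ^ p :=
  pb_comp_pt hB p K x0 x C (fun i hi => hC i hi _)

theorem AA_deriv_odd (t : ℝ) : deriv AA (-t) = - deriv AA t := by
  have h1 : (fun x => AA (-x)) = AA := by
    funext x; exact prof_AA.even x
  have h2 := deriv_comp_neg AA t
  rw [h1] at h2
  linarith

/-- Derivatives of the scaled bumps. -/
theorem pb_bound {B : ℝ → ℝ} (hB : Prof B) (p : ℕ) : ∃ C : ℝ, 0 ≤ C ∧ ∀ K x0 x : ℝ, 1 ≤ K →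
    |iteratedDeriv p (pb B K x0) x| ≤ C * K ^ p := by
  have hb : ∀ i, ∃ C, ∀ t, ‖iteratedFDeriv ℝ i B t‖ ≤ C := by
    intro i
    have hcs : HasCompactSupport B := by
      apply HasCompactSupport.of_support_subset_isCompact (isCompact_Icc (a := (-1:ℝ)) (b := 1))
      intro t ht
      by_contra hc
      apply ht
      apply hB.zero
      rw [Set.mem_Icc, ← abs_le, not_le] at hc
      exact hc.le
    exact (hB.smooth.continuous_iteratedFDeriv (by exact_mod_cast le_top)).bounded_above_of_compact_support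
      (hcs.iteratedFDeriv i)
  choose Cf hCf using hb
  have hCf0 : ∀ i, 0 ≤ Cf i := fun i => le_trans (norm_nonneg _) (hCf i 0)
  obtain ⟨C, hC⟩ : ∃ C, C = ∑ i ∈ Finset.range (p + 1), Cf i := ⟨_, rfl⟩
  have hC0 : 0 ≤ C := by rw [hC]; exact Finset.sum_nonneg fun i _ => hCf0 i
  have hpi := Real.pi_pos
  refine ⟨(p.factorial : ℝ) * C * Real.pi ^ p, by positivity, ?_⟩
  intro K x0 x hK
  have h1 := pb_comp hB p K x0 x C (fun i hi t => by
    rw [hC]
    refine le_trans (hCf i t) ?_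
    exact Finset.single_le_sum (f := Cf) (fun j _ => hCf0 j) (Finset.mem_range.2 (Nat.lt_succ_of_le hi)))
  have h2 : max 1 |K| = K := by
    rw [abs_of_nonneg (by linarith)]; exact max_eq_right hK
  rw [h2] at h1
  refine le_trans h1 (le_of_eq ?_)
  rw [mul_pow]; ring

/-- Derivatives vanish outside. -/
theorem pb_zero {B : ℝ → ℝ} (hB : Prof B) (p : ℕ) (K x0 x : ℝ)
    (h : 1 ≤ |K * Real.sin (Real.pi * (x - x0))|) : iteratedDeriv p (pb B K x0) x = 0 := by
  have h1 := pb_comp_pt hB p K x0 x 0 (fun i _ => by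
    rw [prof_fderiv_zero hB i _ h, norm_zero])
  rw [mul_zero, zero_mul] at h1
  exact abs_nonpos_iff.1 h1

theorem sin_lower (s : ℝ) : 2 * ‖(s : UnitAddCircle)‖ ≤ |Real.sin (Real.pi * s)| := by
  have h1 : |Real.sin (Real.pi * s)| = |Real.sin (Real.pi * (s - round s))| := by
    have : Real.pi * (s - round s) = Real.pi * s - (round s : ℤ) * Real.pi := by ring
    rw [this, Real.sin_sub_int_mul_pi, abs_mul, abs_zpow]
    simp
  rw [UnitAddCircle.norm_eq, h1]
  have h2 : |s - round s| ≤ 1 / 2 := abs_sub_round s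
  have hpi := Real.pi_pos
  have h3 : |Real.pi * (s - round s)| ≤ Real.pi / 2 := by
    rw [abs_mul, abs_of_pos hpi]; nlinarith
  have h4 := Real.mul_abs_le_abs_sin h3
  refine le_trans (le_of_eq ?_) h4
  rw [abs_mul, abs_of_pos hpi]
  field_simp

theorem sin_upper (s : ℝ) : |Real.sin (Real.pi * s)| ≤ Real.pi * ‖(s : UnitAddCircle)‖ := by
  have h1 : |Real.sin (Real.pi * s)| = |Real.sin (Real.pi * (s - round s))| := by
    have : Real.pi * (s - round s) = Real.pi * s - (round s : ℤ) * Real.pi := by ring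
    rw [this, Real.sin_sub_int_mul_pi, abs_mul, abs_zpow]
    simp
  rw [UnitAddCircle.norm_eq, h1]
  refine le_trans Real.abs_sin_le_abs ?_
  rw [abs_mul, abs_of_pos Real.pi_pos]

theorem AA_deriv (t : ℝ) (h : |t| < 1) :
    deriv AA t = -(t / (1 - t ^ 2) ^ 2) * Real.exp (-(1 / (1 - t ^ 2))) := by
  have ht : 0 < 1 - t ^ 2 := by
    have : t ^ 2 < 1 := by rw [← sq_abs]; nlinarith [abs_nonneg t]
    linarith
  have h1 : AA =ᶠ[nhds t] fun s => Real.exp (-(1 - s ^ 2)⁻¹) / 2 := by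
    have hc : ContinuousAt (fun s : ℝ => 1 - s ^ 2) t := by fun_prop
    filter_upwards [hc.eventually (lt_mem_nhds ht)] with s hs
    unfold AA expNegInvGlue
    rw [if_neg (not_le.2 hs)]
  rw [h1.deriv_eq]
  have hne : 1 - t ^ 2 ≠ 0 := ht.ne'
  have h2 : HasDerivAt (fun s : ℝ => 1 - s ^ 2) (-(2 * t)) t := by
    have := ((hasDerivAt_pow 2 t).const_sub 1)
    simpa using this
  have h3 := ((h2.inv hne).neg.exp).div_const 2
  have h4 := h3.deriv
  have h5 : (fun s : ℝ => Real.exp (-(1 - s ^ 2)⁻¹) / 2) = fun x => Real.exp ((-(fun s : ℝ => 1 - s ^ 2)⁻¹) x) / 2 := by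
    funext s; rfl
  rw [h5, h4]
  have h6 : (-(fun s : ℝ => 1 - s ^ 2)⁻¹) t = -(1 / (1 - t ^ 2)) := by
    simp
  rw [h6]
  field_simp

theorem AA_deriv_zero (t : ℝ) (h : 1 ≤ |t|) : deriv AA t = 0 := by
  have h1 := prof_fderiv_zero prof_AA 1 t h
  have h2 : ‖iteratedDeriv 1 AA t‖ = 0 := by
    rw [← norm_iteratedFDeriv_eq_norm_iteratedDeriv, h1, norm_zero]
  rw [iteratedDeriv_one, norm_eq_zero] at h2
  exact h2

theorem AA_deriv_le (t : ℝ) : |deriv AA t| ≤ 1 := by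
  rcases le_or_gt 1 |t| with h | h
  · rw [AA_deriv_zero t h]; simp
  · rw [AA_deriv t h]
    have ht : 0 < 1 - t ^ 2 := by
      have : t ^ 2 < 1 := by rw [← sq_abs]; nlinarith [abs_nonneg t]
      linarith
    obtain ⟨v, hv⟩ : ∃ v, v = 1 / (1 - t ^ 2) := ⟨_, rfl⟩
    have hv0 : 0 < v := by rw [hv]; positivity
    have h1 : t / (1 - t ^ 2) ^ 2 = t * v ^ 2 := by rw [hv]; field_simp
    rw [h1, ← hv, abs_mul, abs_neg, abs_mul, abs_of_pos (Real.exp_pos _), abs_of_pos (pow_pos hv0 2)]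
    have h2 : v ≤ Real.exp (v / 2) := by
      have h3 := Real.add_one_le_exp (v / 2 - 1)
      have h4 : Real.exp (v / 2) = Real.exp (v / 2 - 1) * Real.exp 1 := by
        rw [← Real.exp_add]; congr 1; ring
      have h5 := Real.add_one_le_exp 1
      rw [h4]
      nlinarith [Real.exp_pos (v / 2 - 1)]
    have h3 : v ^ 2 ≤ Real.exp v := by
      have : Real.exp v = Real.exp (v / 2) ^ 2 := by
        rw [← Real.exp_nat_mul]; congr 1; push_cast; ring
      rw [this]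
      exact pow_le_pow_left₀ hv0.le h2 2
    have h4 : v ^ 2 * Real.exp (-v) ≤ 1 := by
      calc v ^ 2 * Real.exp (-v) ≤ Real.exp v * Real.exp (-v) := by gcongr
        _ = 1 := by rw [← Real.exp_add]; simp
    have h5 : 0 ≤ v ^ 2 * Real.exp (-v) := by positivity
    calc |t| * v ^ 2 * Real.exp (-v) = |t| * (v ^ 2 * Real.exp (-v)) := by ring
      _ ≤ 1 * 1 := by gcongr
      _ = 1 := one_mul 1

theorem deriv_pb_AA (K x0 x : ℝ) : deriv (pb AA K x0) x = Real.pi * K * psi K x0 x := by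
  have h1 : HasDerivAt (fun x : ℝ => K * Real.sin (Real.pi * (x - x0)))
      (K * (Real.cos (Real.pi * (x - x0)) * Real.pi)) x := by
    have h2 : HasDerivAt (fun x : ℝ => Real.pi * (x - x0)) Real.pi x := by
      have := ((hasDerivAt_id x).sub_const x0).const_mul Real.pi
      simpa using this
    exact (h2.sin).const_mul K
  have h2 : DifferentiableAt ℝ AA (K * Real.sin (Real.pi * (x - x0))) :=
    (prof_AA.smooth.differentiable (by simp)) _
  have h3 := h2.hasDerivAt.comp x h1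
  have h4 : pb AA K x0 = AA ∘ (fun x : ℝ => K * Real.sin (Real.pi * (x - x0))) := rfl
  rw [h4, h3.deriv]
  unfold psi
  ring

theorem psi_le (K x0 x : ℝ) : |psi K x0 x| ≤ 1 := by
  unfold psi
  rw [abs_mul]
  have h1 := AA_deriv_le (K * Real.sin (Real.pi * (x - x0)))
  have h2 := Real.abs_cos_le_one (Real.pi * (x - x0))
  calc _ ≤ (1:ℝ) * 1 := by gcongr
    _ = 1 := one_mul 1

theorem psi_zero (K x0 x : ℝ) (h : 1 ≤ |K * Real.sin (Real.pi * (x - x0))|) :
    psi K x0 x = 0 := by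
  unfold psi
  rw [AA_deriv_zero _ h, zero_mul]

theorem psi_periodic (K x0 : ℝ) : Function.Periodic (psi K x0) 1 := by
  intro x
  unfold psi
  have h : Real.pi * (x + 1 - x0) = Real.pi * (x - x0) + Real.pi := by ring
  rw [h, Real.sin_add_pi, Real.cos_add_pi, mul_neg K, AA_deriv_odd]
  ring

theorem psi_lip : ∃ C : ℝ, 0 ≤ C ∧ ∀ K x0 x y : ℝ, 1 ≤ K →
    |psi K x0 x - psi K x0 y| ≤ C * K * |x - y| := by
  obtain ⟨C, hC0, hC⟩ := pb_bound prof_AA 2
  refine ⟨C, hC0, ?_⟩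
  intro K x0 x y hK
  have hpi := Real.pi_pos
  have hpK : Real.pi * K ≠ 0 := by positivity
  have h1 : psi K x0 = fun x => (Real.pi * K)⁻¹ * deriv (pb AA K x0) x := by
    funext z
    rw [deriv_pb_AA]
    field_simp
  have hcd := pb_contDiff prof_AA K x0
  have h2 : Differentiable ℝ (deriv (pb AA K x0)) := by
    have h3 : ContDiff ℝ 1 (deriv (pb AA K x0)) := by
      have h4 : ContDiff ℝ (1 + 1) (pb AA K x0) := hcd.of_le (by
        have h3 : ((2:ℕ∞) : WithTop ℕ∞) ≤ ((⊤ : ℕ∞) : WithTop ℕ∞) := WithTop.coe_le_coe.2 le_top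
        exact h3)
      exact (contDiff_succ_iff_deriv.1 h4).2.2
    exact h3.differentiable (by norm_num)
  have h4 : ∀ z, deriv (psi K x0) z = (Real.pi * K)⁻¹ * iteratedDeriv 2 (pb AA K x0) z := by
    intro z
    rw [h1, deriv_const_mul _ (h2 z), iteratedDeriv_succ, iteratedDeriv_one]
  have h5 : ∀ z ∈ (Set.univ : Set ℝ), DifferentiableAt ℝ (psi K x0) z := by
    intro z _
    rw [h1]
    exact (h2 z).const_mul _
  have h6 : ∀ z ∈ (Set.univ : Set ℝ), ‖deriv (psi K x0) z‖ ≤ C * K := by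
    intro z _
    rw [h4, norm_mul, Real.norm_eq_abs, Real.norm_eq_abs, abs_of_pos (by positivity)]
    have h7 := hC K x0 z hK
    have h8 : (1:ℝ) ≤ Real.pi := by linarith [Real.pi_gt_three]
    calc (Real.pi * K)⁻¹ * |iteratedDeriv 2 (pb AA K x0) z| ≤ (Real.pi * K)⁻¹ * (C * K ^ 2) := by gcongr
      _ = C * K / Real.pi := by field_simp
      _ ≤ C * K := div_le_self (by positivity) h8
  have h9 := Convex.norm_image_sub_le_of_norm_deriv_le h5 h6 convex_univ (Set.mem_univ y) (Set.mem_univ x)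
  exact h9

theorem xi_le (Q l : ℕ) (d : Fin Q) : |xi Q l d| ≤ 1 := by
  exact psi_le _ _ _

theorem xi_sum (Q l : ℕ) (hQ : 0 < Q) : ∑ d, xi Q l d = 0 := by
  have hQ' : (0:ℝ) < Q := by exact_mod_cast hQ
  have hK : (0:ℝ) < (Q:ℝ) ^ l := by positivity
  have h1 : ∀ d : Fin Q, xi Q l (Fin.rev d) = - xi Q l d := by
    intro d
    unfold xi psi
    have hd : ((Fin.rev d : Fin Q) : ℕ) + 1 + (d : ℕ) = Q := by
      rw [Fin.val_rev]; have := d.2; omega
    have hd' : (((Fin.rev d : Fin Q) : ℕ) : ℝ) = Q - 1 - (d : ℕ) := by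
      have : ((((Fin.rev d : Fin Q) : ℕ) + 1 + (d : ℕ) : ℕ) : ℝ) = Q := by rw [hd]
      push_cast at this
      linarith
    have h2 : Real.pi * (((((Fin.rev d : Fin Q) : ℕ) : ℝ) + 1 / 2) / Q / (Q : ℝ) ^ l - 1 / 2 / (Q : ℝ) ^ l) =
        -(Real.pi * (((((d : Fin Q) : ℕ) : ℝ) + 1 / 2) / Q / (Q : ℝ) ^ l - 1 / 2 / (Q : ℝ) ^ l)) := by
      rw [hd']
      field_simp
      ring
    rw [h2, Real.sin_neg, Real.cos_neg, mul_neg, AA_deriv_odd]
    ring
  have h2 : ∑ d, xi Q l (Fin.rev d) = ∑ d, xi Q l d := Equiv.sum_comp Fin.revPerm (xi Q l)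
  simp only [h1, Finset.sum_neg_distrib] at h2
  linarith

theorem xi_sq : ∃ κ : ℝ, 0 < κ ∧ ∀ Q l : ℕ, 32 ≤ Q → κ ≤ (∑ d, xi Q l d ^ 2) / Q := by
  obtain ⟨κ, hκ⟩ : ∃ κ : ℝ, κ = (1 / 8) * Real.exp (-(25 / 21)) * (1 / 2) := ⟨_, rfl⟩
  have hκ0 : 0 < κ := by rw [hκ]; positivity
  refine ⟨κ ^ 2 / 32, by positivity, ?_⟩
  intro Q l hQ
  have hQr : (32:ℝ) ≤ Q := by exact_mod_cast hQ
  have hQ0 : (0:ℝ) < Q := by linarith
  have hK1 : (1:ℝ) ≤ (Q:ℝ) ^ l := one_le_pow₀ (by linarith)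
  have hK0 : (0:ℝ) < (Q:ℝ) ^ l := by positivity
  have key : ∀ d : Fin Q, 9 * Q ≤ 16 * (d : ℕ) + 8 → 16 * (d : ℕ) + 8 ≤ 10 * Q → κ ^ 2 ≤ xi Q l d ^ 2 := by
    intro d hd1 hd2
    obtain ⟨K, hKd⟩ : ∃ K, K = (Q:ℝ) ^ l := ⟨_, rfl⟩
    rw [← hKd] at hK1 hK0
    obtain ⟨s, hs⟩ : ∃ s : ℝ, s = (((d : ℕ) : ℝ) + 1 / 2) / Q - 1 / 2 := ⟨_, rfl⟩
    have hd1' : 9 * (Q:ℝ) ≤ 16 * (d : ℕ) + 8 := by exact_mod_cast hd1
    have hd2' : 16 * ((d : ℕ) : ℝ) + 8 ≤ 10 * Q := by exact_mod_cast hd2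
    have hs1 : 1 / 16 ≤ s := by
      rw [hs, le_sub_iff_add_le, le_div_iff₀ hQ0]; linarith
    have hs2 : s ≤ 1 / 8 := by
      rw [hs, sub_le_iff_le_add, div_le_iff₀ hQ0]; linarith
    have hxi : xi Q l d = deriv AA (K * Real.sin (Real.pi * (s / K))) * Real.cos (Real.pi * (s / K)) := by
      unfold xi psi
      have : (((d : ℕ) : ℝ) + 1 / 2) / Q / (Q : ℝ) ^ l - 1 / 2 / (Q : ℝ) ^ l = s / K := by
        rw [hs, hKd, sub_div]
      rw [this, ← hKd]
    have hpi := Real.pi_pos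
    have hpi3 := Real.pi_gt_three
    have hpi4 : Real.pi < 3.15 := Real.pi_lt_d2
    have hsK0 : 0 ≤ s / K := by apply div_nonneg <;> linarith
    have hsK1 : s / K ≤ 1 / 8 := by
      rw [div_le_iff₀ hK0]; nlinarith
    obtain ⟨T, hT⟩ : ∃ T, T = K * Real.sin (Real.pi * (s / K)) := ⟨_, rfl⟩
    have hT1 : 1 / 8 ≤ T := by
      have h1 := Real.mul_le_sin (x := Real.pi * (s / K)) (by positivity) (by nlinarith)
      have h2 : 2 / Real.pi * (Real.pi * (s / K)) = 2 * (s / K) := by field_simp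
      rw [h2] at h1
      have h3 : K * (2 * (s / K)) ≤ T := by rw [hT]; gcongr
      have h4 : K * (2 * (s / K)) = 2 * s := by field_simp
      linarith
    have hT2 : T ≤ 2 / 5 := by
      have h1 := Real.sin_le (x := Real.pi * (s / K)) (by positivity)
      have h3 : T ≤ K * (Real.pi * (s / K)) := by rw [hT]; gcongr
      have h4 : K * (Real.pi * (s / K)) = Real.pi * s := by field_simp
      nlinarith
    have hcos : 1 / 2 ≤ Real.cos (Real.pi * (s / K)) := by
      have h1 := Real.one_sub_sq_div_two_le_cos (x := Real.pi * (s / K))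
      have h2 : Real.pi * (s / K) ≤ 1 / 2 := by nlinarith
      have h3 : 0 ≤ Real.pi * (s / K) := by positivity
      nlinarith
    have hTabs : |T| < 1 := by rw [abs_of_nonneg (by linarith)]; linarith
    have hderiv : (1 / 8) * Real.exp (-(25 / 21)) ≤ |deriv AA T| := by
      rw [AA_deriv T hTabs, abs_mul, abs_neg, abs_of_pos (Real.exp_pos _)]
      have h1 : 21 / 25 ≤ 1 - T ^ 2 := by nlinarith
      have h2 : 1 - T ^ 2 ≤ 1 := by nlinarith
      have h3 : 0 < 1 - T ^ 2 := by linarith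
      have h4 : 1 / (1 - T ^ 2) ≤ 25 / 21 := by
        rw [div_le_iff₀ h3]; linarith
      have h5 : 1 / 8 ≤ |T / (1 - T ^ 2) ^ 2| := by
        rw [abs_of_nonneg (by apply div_nonneg (by linarith) (by positivity)), le_div_iff₀ (by positivity)]
        have : (1 - T ^ 2) ^ 2 ≤ 1 := by nlinarith
        nlinarith
      gcongr
    rw [hxi, ← hT]
    have h1 : κ ≤ |deriv AA T * Real.cos (Real.pi * (s / K))| := by
      rw [abs_mul, abs_of_nonneg (by linarith : 0 ≤ Real.cos (Real.pi * (s / K))), hκ]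
      gcongr
    rw [← sq_abs (deriv AA T * Real.cos (Real.pi * (s / K)))]
    exact pow_le_pow_left₀ hκ0.le h1 2
  obtain ⟨m0, hm0⟩ : ∃ m0, m0 = (9 * Q + 7) / 16 := ⟨_, rfl⟩
  obtain ⟨c, hc⟩ : ∃ c, c = Q / 16 := ⟨_, rfl⟩
  have hcard : c ≤ (Finset.univ.filter (fun d : Fin Q => 9 * Q ≤ 16 * (d : ℕ) + 8 ∧ 16 * (d : ℕ) + 8 ≤ 10 * Q)).card := by
    have h1 : (Finset.range c).card = c := Finset.card_range c
    rw [← h1]
    have hlt : ∀ j, j < c → m0 + j < Q := by intro j hj; omega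
    apply Finset.card_le_card_of_injOn (fun j => if h : j < c then (⟨m0 + j, hlt j h⟩ : Fin Q) else ⟨0, by omega⟩)
    · intro j hj
      have hj' : j < c := Finset.mem_range.1 hj
      rw [Finset.mem_coe, Finset.mem_filter]
      simp only [hj', dif_pos]
      refine ⟨Finset.mem_univ _, ?_, ?_⟩
      · omega
      · omega
    · intro i hi j hj hij
      have hi' : i < c := Finset.mem_range.1 hi
      have hj' : j < c := Finset.mem_range.1 hj
      simp only [hi', hj', dif_pos, Fin.mk.injEq] at hij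
      omega
  have h1 : (c:ℝ) * κ ^ 2 ≤ ∑ d, xi Q l d ^ 2 := by
    calc (c:ℝ) * κ ^ 2 ≤ ((Finset.univ.filter (fun d : Fin Q => 9 * Q ≤ 16 * (d : ℕ) + 8 ∧ 16 * (d : ℕ) + 8 ≤ 10 * Q)).card : ℝ) * κ ^ 2 := by
          gcongr
      _ = ∑ d ∈ Finset.univ.filter (fun d : Fin Q => 9 * Q ≤ 16 * (d : ℕ) + 8 ∧ 16 * (d : ℕ) + 8 ≤ 10 * Q), κ ^ 2 := by
          rw [Finset.sum_const, nsmul_eq_mul]
      _ ≤ ∑ d ∈ Finset.univ.filter (fun d : Fin Q => 9 * Q ≤ 16 * (d : ℕ) + 8 ∧ 16 * (d : ℕ) + 8 ≤ 10 * Q), xi Q l d ^ 2 := by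
          apply Finset.sum_le_sum
          intro d hd
          rw [Finset.mem_filter] at hd
          exact key d hd.2.1 hd.2.2
      _ ≤ ∑ d, xi Q l d ^ 2 := by
          apply Finset.sum_le_sum_of_subset_of_nonneg (Finset.filter_subset _ _)
          intro d _ _
          positivity
  have h2 : (Q:ℝ) / 32 ≤ c := by
    have h3 : Q ≤ 32 * c := by omega
    have h4 : (Q:ℝ) ≤ 32 * c := by exact_mod_cast h3
    linarith
  rw [le_div_iff₀ hQ0]
  calc κ ^ 2 / 32 * Q = (Q:ℝ) / 32 * κ ^ 2 := by ring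
    _ ≤ c * κ ^ 2 := by gcongr
    _ ≤ _ := h1

end

end Pool.Agent.Helper150.Iid
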