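import Mathlib
import Pool.Agent.Helper150.Iid.Blk
import Pool.Agent.Helper150.Iid.Prf

set_option autoImplicit false

namespace Pool.Agent.Helper150.Iid

open MeasureTheory
open scoped ContDiff

noncomputable section

/-- The (separately proved) L2 bound for tensor sums of bumps, as a hypothesis. -/
def BlkNorm (A B : ℝ → ℝ) : Prop := ∀ p q : ℕ, ∃ C : ℝ, 0 ≤ C ∧
    ∀ (I : Type) (s : Finset I) (c : I → ℝ) (K K' : ℝ) (xc yc : I → ℝ) (L : ℕ),
      1 ≤ K → 1 ≤ K' →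
      (∀ x : Tor 2, (open Classical in
        (s.filter (fun b => ‖x 0 - (xc b : UnitAddCircle)‖ < 1 / (2 * K) ∧
          ‖x 1 - (yc b : UnitAddCircle)‖ < 1 / (2 * K'))).card) ≤ L) →
      ∫ x : Tor 2, (∑ b ∈ s, c b * cf (iteratedDeriv p (pb A K (xc b))) (x 0) *
        cf (iteratedDeriv q (pb B K' (yc b))) (x 1)) ^ 2 ≤
      C * L * K ^ (2 * p) * K' ^ (2 * q) / (K * K') * ∑ b ∈ s, c b ^ 2

/-- The first part of the fooling function. -/
def f1 (Q R : ℕ) (c : ℕ → ℕ → Fin (2 * Q ^ (R + 1)) → ℝ) (x : Tor 2) : ℝ :=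
  ∑ l ∈ Finset.range R, ∑ a ∈ Finset.range (Q ^ l), ∑ m,
    c l a m * cf (psi ((Q : ℝ) ^ l) (((a : ℝ) + 1 / 2) / (Q : ℝ) ^ l)) (x 0) * bw Q R l m (x 1)

/-- The second part of the fooling function: isolated bumps. -/
def f2 (n Λ : ℕ) (lam : Fin n → ℕ) (xc yc : Fin n → ℝ) (r : Fin n → ℝ) (x : Tor 2) : ℝ :=
  ∑ i, r i * cf (pb bb ((2 : ℝ) ^ lam i) (xc i)) (x 0) *
    cf (pb bb ((2 : ℝ) ^ (Λ - lam i)) (yc i)) (x 1)


theorem nice_of_prof {B : ℝ → ℝ} (hB : Prof B) : Nice B where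
  per := pb_periodic hB
  smooth := pb_contDiff hB
  bound := pb_bound hB
  zero := by
    intro p K x0 x hK h
    refine pb_zero hB p K x0 x ?_
    have h1 := sin_lower (x - x0)
    have hK0 : 0 < K := lt_of_lt_of_le one_pos hK
    rw [abs_mul, abs_of_pos hK0]
    have h2 : 1 / K ≤ |Real.sin (Real.pi * (x - x0))| := by
      refine le_trans ?_ h1
      have : 1 / K = 2 * (1 / (2 * K)) := by field_simp
      rw [this]
      exact mul_le_mul_of_nonneg_left h (by norm_num)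
    calc (1:ℝ) = K * (1 / K) := by field_simp
      _ ≤ _ := mul_le_mul_of_nonneg_left h2 hK0.le

theorem nice_AA : Nice AA := nice_of_prof prof_AA

theorem nice_bb : Nice bb := nice_of_prof prof_bb

theorem blkNorm_of_nice {A B : ℝ → ℝ} (hA : Nice A) (hB : Nice B) : BlkNorm A B :=
  fun p q => blk_norm hA hB p q

end

end Pool.Agent.Helper150.Iid
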