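import Mathlib
import Pool.Agent.Helper150.Iid.Bmp
import Pool.Agent.Helper150.Iid.Iter

set_option autoImplicit false

namespace Pool.Agent.Helper150.Iid

open MeasureTheory

noncomputable section

variable {n Q : ℕ} {ι : Type} [Fintype ι]

theorem bb_nonneg' (t : ℝ) : 0 ≤ bb t := Real.smoothTransition.nonneg _

theorem bb_le_one' (t : ℝ) : bb t ≤ 1 := Real.smoothTransition.le_one _

theorem bb_zero' {t : ℝ} (h : 1 ≤ |t|) : bb t = 0 := by
  apply Real.smoothTransition.zero_of_nonpos
  have h1 : 1 ≤ t ^ 2 := by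
    rw [← sq_abs]; nlinarith
  nlinarith

theorem bb_one' {t : ℝ} (h : |t| ≤ 4 / 5) : bb t = 1 := by
  apply Real.smoothTransition.one_of_one_le
  have h1 : t ^ 2 ≤ (4 / 5) ^ 2 := by
    rw [← sq_abs]; exact pow_le_pow_left₀ (abs_nonneg t) h 2
  nlinarith

theorem two_le_sin' {s : ℝ} (h0 : 0 ≤ s) (h1 : s ≤ 1 / 2) : 2 * s ≤ Real.sin (Real.pi * s) := by
  have hpi := Real.pi_pos
  have h := Real.mul_le_sin (x := Real.pi * s) (by positivity) (by nlinarith)
  have h2 : 2 / Real.pi * (Real.pi * s) = 2 * s := by field_simp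
  linarith

theorem sin_small' {K : ℝ} (hK : 0 < K) {s : ℝ} (hs : |s| ≤ 1 / (4 * K)) :
    |K * Real.sin (Real.pi * s)| ≤ 4 / 5 := by
  have hpi := Real.pi_pos
  have h1 : |Real.sin (Real.pi * s)| ≤ |Real.pi * s| := Real.abs_sin_le_abs
  rw [abs_mul, abs_of_pos hK]
  rw [abs_mul, abs_of_pos hpi] at h1
  have h2 : K * |s| ≤ 1 / 4 := by
    have : K * |s| ≤ K * (1 / (4 * K)) := mul_le_mul_of_nonneg_left hs hK.le
    have h3 : K * (1 / (4 * K)) = 1 / 4 := by field_simp
    linarith
  have h3 : Real.pi < 3.15 := Real.pi_lt_d2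
  calc K * |Real.sin (Real.pi * s)| ≤ K * (Real.pi * |s|) := mul_le_mul_of_nonneg_left h1 hK.le
    _ = Real.pi * (K * |s|) := by ring
    _ ≤ Real.pi * (1 / 4) := mul_le_mul_of_nonneg_left h2 hpi.le
    _ ≤ 4 / 5 := by linarith

/-- The weights as a function of the representative. -/
theorem bw_eq' (Q R l : ℕ) (m : Fin (2 * Q ^ (R + 1))) (t : UnitAddCircle) :
    bw Q R l m t = if (m : ℕ) < 2 * Q ^ (R + 1 - l) then
      bb ((Q : ℝ) ^ (R + 1 - l) * Real.sin (Real.pi * ((AddCircle.equivIco (1 : ℝ) 0 t : ℝ) -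
        ((m : ℕ) : ℝ) / (2 * (Q : ℝ) ^ (R + 1 - l))))) else 0 := rfl

/-- TARGET 1. -/
theorem bw_wts (hQ : 0 < Q) (R l : ℕ) (y : Fin n → UnitAddCircle) :
    Wts (fun (m : Fin (2 * Q ^ (R + 1))) j => bw Q R l m (y j)) := by
  have hpi := Real.pi_pos
  obtain ⟨K, hK⟩ : ∃ K : ℕ, K = Q ^ (R + 1 - l) := ⟨_, rfl⟩
  have hK1 : 1 ≤ K := by rw [hK]; exact Nat.one_le_pow _ _ hQ
  have hK2 : K ≤ Q ^ (R + 1) := by rw [hK]; exact Nat.pow_le_pow_right hQ (Nat.sub_le _ _)
  have hKr : (Q : ℝ) ^ (R + 1 - l) = (K : ℝ) := by rw [hK]; push_cast; rfl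
  have hK1r : (1 : ℝ) ≤ K := by exact_mod_cast hK1
  have hK0r : (0 : ℝ) < K := by linarith
  have hx : ∀ t : UnitAddCircle, ∃ x : ℝ, 0 ≤ x ∧ x < 1 ∧ ∀ m : Fin (2 * Q ^ (R + 1)),
      bw Q R l m t = if (m : ℕ) < 2 * K then
        bb (K * Real.sin (Real.pi * (x - ((m : ℕ) : ℝ) / (2 * K)))) else 0 := by
    intro t
    have h1 := (AddCircle.equivIco (1 : ℝ) 0 t).2
    refine ⟨(AddCircle.equivIco (1 : ℝ) 0 t : ℝ), h1.1, by simpa using h1.2, ?_⟩
    intro m
    rw [bw_eq', hKr, hK]
  refine ⟨?_, ?_, ?_, ?_⟩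
  · intro m j
    show 0 ≤ bw Q R l m (y j)
    rw [bw_eq']
    split_ifs
    · exact bb_nonneg' _
    · exact le_rfl
  · intro m j
    show bw Q R l m (y j) ≤ 1
    rw [bw_eq']
    split_ifs
    · exact bb_le_one' _
    · exact zero_le_one
  · intro j
    obtain ⟨x, hx0, hx1, hx⟩ := hx (y j)
    set u : ℝ := 2 * K * x with hu
    have hu0 : 0 ≤ u := by positivity
    have hu1 : u < 2 * K := by nlinarith
    set f : ℕ := ⌊u⌋₊ with hf
    have hf1 : (f : ℝ) ≤ u := Nat.floor_le hu0
    have hf2 : u < f + 1 := Nat.lt_floor_add_one u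
    have hf3 : f < 2 * K := by
      have : (f : ℝ) < 2 * K := by linarith
      exact_mod_cast this
    refine ⟨{⟨f, by omega⟩, ⟨(f + 1) % (2 * K), by
      have := Nat.mod_lt (f + 1) (show 2 * K > 0 by omega)
      omega⟩}, Finset.card_le_two, ?_⟩
    intro m hm
    change bw Q R l m (y j) ≠ 0 at hm
    rw [hx m] at hm
    split_ifs at hm with hmK
    · have hlt : |K * Real.sin (Real.pi * (x - ((m : ℕ) : ℝ) / (2 * K)))| < 1 := by
        by_contra hcon
        exact hm (bb_zero' (not_lt.1 hcon))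
      set s : ℝ := x - ((m : ℕ) : ℝ) / (2 * K) with hs
      have hsu : 2 * K * s = u - m := by rw [hs, hu]; field_simp
      have hmr : ((m : ℕ) : ℝ) + 1 ≤ 2 * K := by exact_mod_cast hmK
      have hm0 : (0 : ℝ) ≤ ((m : ℕ) : ℝ) := Nat.cast_nonneg _
      have hs1 : s < 1 := by
        have : 2 * K * s < 2 * K * 1 := by rw [hsu]; linarith
        exact lt_of_mul_lt_mul_left this (by positivity)
      have hs2 : -1 < s := by
        have : 2 * K * (-1) < 2 * K * s := by rw [hsu]; linarith
        exact lt_of_mul_lt_mul_left this (by positivity)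
      rw [abs_mul, abs_of_pos hK0r] at hlt
      -- two cases
      have key : |u - m| < 1 ∨ 2 * K - 1 < u - m := by
        rcases le_or_gt |s| (1 / 2) with hcase | hcase
        · left
          have h1 : 2 * |s| ≤ |Real.sin (Real.pi * s)| := by
            have := two_le_sin' (abs_nonneg s) hcase
            refine this.trans ?_
            rcases abs_cases s with ⟨h, _⟩ | ⟨h, _⟩
            · rw [h]; exact le_abs_self _
            · rw [h, mul_neg, Real.sin_neg]; exact neg_le_abs _
          have h2 : K * (2 * |s|) < 1 := lt_of_le_of_lt (mul_le_mul_of_nonneg_left h1 hK0r.le) hlt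
          have h3 : |u - m| = K * (2 * |s|) := by
            rw [← hsu, abs_mul, abs_of_pos (by positivity : (0 : ℝ) < 2 * K)]; ring
          rw [h3]; exact h2
        · right
          have h1 : 2 * (1 - |s|) ≤ |Real.sin (Real.pi * s)| := by
            have habs : |s| < 1 := abs_lt.2 ⟨hs2, hs1⟩
            have := two_le_sin' (s := 1 - |s|) (by linarith) (by linarith)
            refine this.trans ?_
            have h2 : Real.pi * (1 - |s|) = Real.pi - Real.pi * |s| := by ring
            rw [h2, Real.sin_pi_sub]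
            rcases abs_cases s with ⟨h, _⟩ | ⟨h, _⟩
            · rw [h]; exact le_abs_self _
            · rw [h, mul_neg, Real.sin_neg]; exact neg_le_abs _
          have h2 : K * (2 * (1 - |s|)) < 1 := lt_of_le_of_lt (mul_le_mul_of_nonneg_left h1 hK0r.le) hlt
          have h3 : |u - m| = 2 * K * |s| := by
            rw [← hsu, abs_mul, abs_of_pos (by positivity : (0 : ℝ) < 2 * K)]
          have h4 : 2 * K - 1 < |u - m| := by rw [h3]; linarith
          rcases abs_cases (u - m) with ⟨h, _⟩ | ⟨h, _⟩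
          · rw [h] at h4; exact h4
          · rw [h] at h4; linarith
      rw [Finset.mem_insert, Finset.mem_singleton, Fin.ext_iff, Fin.ext_iff]
      simp only
      rcases key with h | h
      · rw [abs_lt] at h
        have h1 : ((m : ℕ) : ℝ) < (f : ℝ) + 2 := by linarith
        have h2 : (f : ℝ) < ((m : ℕ) : ℝ) + 1 := by linarith
        have h3 : (m : ℕ) < f + 2 := by exact_mod_cast h1
        have h4 : f < (m : ℕ) + 1 := by exact_mod_cast h2
        rcases (show (m : ℕ) = f ∨ (m : ℕ) = f + 1 by omega) with h5 | h5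
        · left; exact h5
        · right; rw [Nat.mod_eq_of_lt (by omega)]; exact h5
      · right
        have h1 : ((m : ℕ) : ℝ) < 1 := by linarith
        have h2 : (m : ℕ) = 0 := by
          have : (m : ℕ) < 1 := by exact_mod_cast h1
          omega
        have h3 : (2 * K : ℝ) < f + 2 := by linarith
        have h4 : 2 * K < f + 2 := by exact_mod_cast h3
        have h5 : f + 1 = 2 * K := by omega
        rw [h5, Nat.mod_self]; exact h2
    · exact absurd rfl hm
  · intro j
    obtain ⟨x, hx0, hx1, hx⟩ := hx (y j)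
    set u : ℝ := 2 * K * x with hu
    have hu0 : 0 ≤ u := by positivity
    have hu1 : u < 2 * K := by nlinarith
    set f : ℕ := ⌊u⌋₊ with hf
    have hf1 : (f : ℝ) ≤ u := Nat.floor_le hu0
    have hf2 : u < f + 1 := Nat.lt_floor_add_one u
    have hf3 : f < 2 * K := by
      have : (f : ℝ) < 2 * K := by linarith
      exact_mod_cast this
    have hmain : ∃ m : Fin (2 * Q ^ (R + 1)), bw Q R l m (y j) = 1 := by
      have hdiv : ∀ z : ℝ, |2 * K * z| ≤ 1 / 2 → |z| ≤ 1 / (4 * K) := by
        intro z hz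
        rw [abs_mul, abs_of_pos (by positivity : (0 : ℝ) < 2 * K)] at hz
        rw [le_div_iff₀ (by positivity)]
        linarith
      rcases le_or_gt (u - f) (1 / 2) with h | h
      · refine ⟨⟨f, by omega⟩, ?_⟩
        rw [hx, if_pos hf3]
        apply bb_one'
        apply sin_small' hK0r
        apply hdiv
        have : 2 * K * (x - ((f : ℕ) : ℝ) / (2 * K)) = u - f := by rw [hu]; field_simp
        rw [this, abs_le]
        constructor <;> linarith
      · rcases Nat.lt_or_ge (f + 1) (2 * K) with h2 | h2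
        · refine ⟨⟨f + 1, by omega⟩, ?_⟩
          rw [hx, if_pos h2]
          apply bb_one'
          apply sin_small' hK0r
          apply hdiv
          have : 2 * K * (x - ((f + 1 : ℕ) : ℝ) / (2 * K)) = u - (f + 1) := by
            rw [hu]; push_cast; field_simp
          show |2 * K * (x - ((f + 1 : ℕ) : ℝ) / (2 * K))| ≤ 1 / 2
          rw [this, abs_le]
          constructor <;> linarith
        · refine ⟨⟨0, by omega⟩, ?_⟩
          rw [hx, if_pos (by show 0 < 2 * K; omega)]
          apply bb_one'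
          have h3 : Real.sin (Real.pi * (x - ((0 : ℕ) : ℝ) / (2 * K)))
              = Real.sin (Real.pi * (1 - x)) := by
            rw [← Real.sin_pi_sub]
            congr 1
            push_cast
            ring
          show |K * Real.sin (Real.pi * (x - ((0 : ℕ) : ℝ) / (2 * K)))| ≤ 4 / 5
          rw [h3]
          apply sin_small' hK0r
          apply hdiv
          have h4 : (2 * K : ℝ) ≤ f + 1 := by exact_mod_cast h2
          have h5 : 2 * K * (1 - x) = 2 * K - u := by rw [hu]; ring
          rw [h5, abs_le]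
          constructor <;> linarith
    obtain ⟨m, hm⟩ := hmain
    show (1 : ℝ) ≤ ∑ m, bw Q R l m (y j) ^ 2
    calc (1 : ℝ) = bw Q R l m (y j) ^ 2 := by rw [hm]; norm_num
      _ ≤ ∑ m, bw Q R l m (y j) ^ 2 :=
        Finset.single_le_sum (f := fun m => bw Q R l m (y j) ^ 2) (fun i _ => sq_nonneg _)
          (Finset.mem_univ m)

/-- TARGET 2. -/
theorem bw_measurable (R l : ℕ) (m : Fin (2 * Q ^ (R + 1))) : Measurable (bw Q R l m) := by
  have h1 : Measurable (fun t : UnitAddCircle => (AddCircle.equivIco (1 : ℝ) 0 t : ℝ)) :=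
    measurable_subtype_coe.comp (AddCircle.measurableEquivIco (1 : ℝ) 0).measurable
  have h2 : Continuous (fun x : ℝ => bb ((Q : ℝ) ^ (R + 1 - l) * Real.sin (Real.pi * (x -
        ((m : ℕ) : ℝ) / (2 * (Q : ℝ) ^ (R + 1 - l)))))) := by
    unfold bb
    apply Real.smoothTransition.continuous.comp
    fun_prop
  by_cases h : (m : ℕ) < 2 * Q ^ (R + 1 - l)
  · have : bw Q R l m = fun t => bb ((Q : ℝ) ^ (R + 1 - l) * Real.sin (Real.pi *
        ((AddCircle.equivIco (1 : ℝ) 0 t : ℝ) -
        ((m : ℕ) : ℝ) / (2 * (Q : ℝ) ^ (R + 1 - l))))) := by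
      funext t; rw [bw_eq', if_pos h]
    rw [this]
    exact h2.measurable.comp h1
  · have : bw Q R l m = fun t => 0 := by
      funext t; rw [bw_eq', if_neg h]
    rw [this]
    exact measurable_const

end

end Pool.Agent.Helper150.Iid
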