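import Mathlib
import Pool.Agent.Helper150.Iid.FDefs
import Pool.Agent.Helper150.Iid.Dig
import Pool.Agent.Helper150.Iid.Wt

set_option autoImplicit false

namespace Pool.Agent.Helper150.Iid

open MeasureTheory

noncomputable section

variable {n Q : ℕ}

/-- Representative in `[0,1)`. -/
def rep (t : UnitAddCircle) : ℝ := (AddCircle.equivIco (1 : ℝ) 0 t : ℝ)

theorem rep_mem (t : UnitAddCircle) : 0 ≤ rep t ∧ rep t < 1 := by
  have := (AddCircle.equivIco (1 : ℝ) 0 t).2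
  constructor
  · exact this.1
  · exact lt_of_lt_of_eq this.2 (zero_add 1)

theorem coe_rep (t : UnitAddCircle) : ((rep t : ℝ) : UnitAddCircle) = t := by
  exact AddCircle.coe_equivIco

/-- The weights at the nodes. -/
def btx (Q R : ℕ) (y : Fin n → UnitAddCircle) (l : ℕ) (m : Fin (2 * Q ^ (R + 1))) (j : Fin n) : ℝ :=
  bw Q R l m (y j)

/-- The digits of the nodes. -/
def dgx (hQ : 0 < Q) (x : Fin n → UnitAddCircle) (l : ℕ) (j : Fin n) : Fin Q := dig Q hQ l (x j)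

/-- The coefficients of the construction. -/
def cx (hQ : 0 < Q) (R O : ℕ) (x y : Fin n → UnitAddCircle) (l a : ℕ)
    (m : Fin (2 * Q ^ (R + 1))) : ℝ :=
  cofx O (btx Q R y) (xi Q) (dgx hQ x) l a m

/-- The idealised residual. -/
def zz (hQ : 0 < Q) (R O : ℕ) (x y : Fin n → UnitAddCircle) (l : ℕ) (j : Fin n) : ℝ :=
  zx O (btx Q R y) (xi Q) (dgx hQ x) l j

/-- The corrections. -/
def TT (hQ : 0 < Q) (R O : ℕ) (x y : Fin n → UnitAddCircle) (l : ℕ) (j : Fin n) : ℝ :=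
  Tx O (btx Q R y l) (cellx (dgx hQ x) l) (fun i => xi Q l (dgx hQ x l i) * zz hQ R O x y l i) j

theorem psi_cell_zero {K : ℝ} (hK : 1 ≤ K) {a b : ℕ} (hab : a ≠ b) (t : ℝ)
    (h0 : 0 ≤ t) (h1 : t < 1) (ht : ⌊K * t⌋₊ = b) (haK : (a : ℝ) + 1 ≤ K) :
    psi K (((a : ℝ) + 1 / 2) / K) t = 0 := by
  have hK0 : 0 < K := lt_of_lt_of_le one_pos hK
  refine psi_zero _ _ _ ?_
  have h2 := sin_lower (t - ((a : ℝ) + 1 / 2) / K)
  rw [abs_mul, abs_of_pos hK0]
  suffices h : 1 / (2 * K) ≤ ‖((t - ((a : ℝ) + 1 / 2) / K : ℝ) : UnitAddCircle)‖ by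
    have h3 : 1 / K ≤ |Real.sin (Real.pi * (t - ((a : ℝ) + 1 / 2) / K))| := by
      refine le_trans ?_ h2
      have : 1 / K = 2 * (1 / (2 * K)) := by field_simp
      rw [this]
      exact mul_le_mul_of_nonneg_left h (by norm_num)
    calc (1:ℝ) = K * (1 / K) := by field_simp
      _ ≤ _ := mul_le_mul_of_nonneg_left h3 hK0.le
  rw [UnitAddCircle.norm_eq]
  obtain ⟨z, hz⟩ : ∃ z : ℤ, z = round (t - ((a : ℝ) + 1 / 2) / K) := ⟨_, rfl⟩
  rw [← hz]
  have hf1 : (b : ℝ) ≤ K * t := by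
    rw [← ht]
    exact Nat.floor_le (by positivity)
  have hf2 : K * t < b + 1 := by
    rw [← ht]
    exact Nat.lt_floor_add_one _
  have hbK : (b : ℝ) < K := lt_of_le_of_lt hf1 (by nlinarith)
  -- multiply by K
  have key : 1 / 2 ≤ |K * t - (a + 1 / 2) - K * z| := by
    by_contra hcon
    push Not at hcon
    rw [abs_lt] at hcon
    -- z = 0, or z = ±1
    have hz0 : z = 0 := by
      have e1 : (z : ℝ) < 1 := by
        by_contra h
        push Not at h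
        have : K * z ≥ K := by nlinarith
        have ha : (0:ℝ) ≤ a := by positivity
        nlinarith
      have e2 : (-1 : ℝ) < z := by
        by_contra h
        push Not at h
        have : K * z ≤ -K := by nlinarith
        have ha : (0:ℝ) ≤ b := by positivity
        nlinarith
      have e3 : z < 1 := by exact_mod_cast e1
      have e4 : -1 < z := by exact_mod_cast e2
      omega
    rw [hz0] at hcon
    simp only [Int.cast_zero, mul_zero, sub_zero] at hcon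
    rcases lt_or_gt_of_ne hab with h | h
    · have : (a : ℝ) + 1 ≤ b := by exact_mod_cast h
      linarith [hcon.2]
    · have : (b : ℝ) + 1 ≤ a := by exact_mod_cast h
      linarith [hcon.1]
  have e5 : t - ((a : ℝ) + 1 / 2) / K - z = (K * t - (a + 1 / 2) - K * z) / K := by
    field_simp
  rw [e5, abs_div, abs_of_pos hK0, div_le_div_iff₀ (by positivity) hK0]
  nlinarith

theorem cell_floor (hQ : 0 < Q) (x : Fin n → UnitAddCircle) (l : ℕ) (j : Fin n) :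
    cellx (dgx hQ x) l j = ⌊(Q : ℝ) ^ l * rep (x j)⌋₊ := cellx_dig hQ x l j

/-- Value of the first part at a node. -/
theorem f1_node (hQ : 0 < Q) (R O : ℕ) (x y : Fin n → UnitAddCircle) (p : Tor 2) (j : Fin n)
    (hp0 : p 0 = x j) (hp1 : p 1 = y j) :
    f1 Q R (cx hQ R O x y) p = ∑ l ∈ Finset.range R,
      psi ((Q : ℝ) ^ l) ((((cellx (dgx hQ x) l j : ℕ) : ℝ) + 1 / 2) / (Q : ℝ) ^ l) (rep (x j)) *
        TT hQ R O x y l j := by
  unfold f1
  refine Finset.sum_congr rfl fun l _ => ?_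
  have hK : (1:ℝ) ≤ (Q : ℝ) ^ l := one_le_pow₀ (by exact_mod_cast hQ)
  have hlt : cellx (dgx hQ x) l j < Q ^ l := cellx_lt _ _ _
  rw [Finset.sum_eq_single (cellx (dgx hQ x) l j)]
  · unfold TT Tx
    rw [Finset.mul_sum]
    refine Finset.sum_congr rfl fun m _ => ?_
    rw [hp0, hp1]
    have e1 : cx hQ R O x y l (cellx (dgx hQ x) l j) m = cof O (btx Q R y l) (cellx (dgx hQ x) l)
        (fun i => xi Q l (dgx hQ x l i) * zz hQ R O x y l i) (cellx (dgx hQ x) l j) m := rfl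
    have e2 : btx Q R y l m j = bw Q R l m (y j) := rfl
    have e3 : ∀ U : ℝ → ℝ, cf U (x j) = U (rep (x j)) := fun U => rfl
    rw [e1, e2, e3]
    ring
  · intro a ha hne
    refine Finset.sum_eq_zero fun m _ => ?_
    have ha' : (a : ℝ) + 1 ≤ (Q : ℝ) ^ l := by
      have := Finset.mem_range.1 ha
      exact_mod_cast this
    have h0 : cf (psi ((Q : ℝ) ^ l) (((a : ℝ) + 1 / 2) / (Q : ℝ) ^ l)) (p 0) = 0 := by
      rw [hp0]
      exact psi_cell_zero hK hne _ (rep_mem _).1 (rep_mem _).2 (cell_floor hQ x l j).symm ha'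
    rw [h0]
    ring
  · intro h
    exact absurd (Finset.mem_range.2 hlt) h

theorem zz_sum (hQ : 0 < Q) (R O : ℕ) (x y : Fin n → UnitAddCircle) (j : Fin n) (r : ℕ) :
    zz hQ R O x y r j = 1 - ∑ l ∈ Finset.range r, xi Q l (dgx hQ x l j) * TT hQ R O x y l j := by
  induction r with
  | zero => simp [zz, zx]
  | succ r ih =>
    rw [Finset.sum_range_succ, ← sub_sub, ← ih]
    rfl

/-- Digit values approximate the true values. -/
theorem psi_xi : ∃ C : ℝ, 0 ≤ C ∧ ∀ (n Q : ℕ) (hQ : 0 < Q) (x : Fin n → UnitAddCircle) (l : ℕ)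
    (j : Fin n),
    |psi ((Q : ℝ) ^ l) ((((cellx (dgx hQ x) l j : ℕ) : ℝ) + 1 / 2) / (Q : ℝ) ^ l) (rep (x j)) -
      xi Q l (dgx hQ x l j)| ≤ C / Q := by
  obtain ⟨C, hC0, hC⟩ := psi_lip
  refine ⟨C, hC0, ?_⟩
  intro n Q hQ x l j
  obtain ⟨K, hKd⟩ : ∃ K : ℝ, K = (Q : ℝ) ^ l := ⟨_, rfl⟩
  have hQ' : (0:ℝ) < Q := by exact_mod_cast hQ
  have hK : (1:ℝ) ≤ K := by
    rw [hKd]
    exact one_le_pow₀ (by exact_mod_cast hQ)
  have hK0 : 0 < K := lt_of_lt_of_le one_pos hK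
  obtain ⟨a, ha⟩ : ∃ a : ℕ, a = cellx (dgx hQ x) l j := ⟨_, rfl⟩
  obtain ⟨d, hd⟩ : ∃ d : Fin Q, d = dgx hQ x l j := ⟨_, rfl⟩
  obtain ⟨t, ht⟩ : ∃ t : ℝ, t = rep (x j) := ⟨_, rfl⟩
  have hshift : psi K (((a : ℝ) + 1 / 2) / K) t = psi K (1 / 2 / K) (t - a / K) := by
    unfold psi
    have : t - ((a : ℝ) + 1 / 2) / K = t - a / K - 1 / 2 / K := by
      field_simp
      ring
    rw [this]
  have hcell : cellx (dgx hQ x) (l + 1) j = Q * a + (d : ℕ) := by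
    rw [ha, hd]
    rfl
  have hfl : ⌊(Q : ℝ) ^ (l + 1) * t⌋₊ = Q * a + (d : ℕ) := by
    rw [← hcell, ht]
    exact (cell_floor hQ x (l + 1) j).symm
  have ht0 : 0 ≤ t := by rw [ht]; exact (rep_mem _).1
  have h1 : ((Q * a + (d : ℕ) : ℕ) : ℝ) ≤ (Q : ℝ) ^ (l + 1) * t := by
    rw [← hfl]
    exact Nat.floor_le (by positivity)
  have h2 : (Q : ℝ) ^ (l + 1) * t < ((Q * a + (d : ℕ) : ℕ) : ℝ) + 1 := by
    rw [← hfl]
    exact Nat.lt_floor_add_one _
  rw [← ha, ← hd, ← hKd, ← ht, hshift]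
  have hxi : xi Q l d = psi K (1 / 2 / K) ((((d : ℕ) : ℝ) + 1 / 2) / Q / K) := by
    unfold xi
    rw [← hKd]
  rw [hxi]
  refine (hC K (1 / 2 / K) (t - a / K) ((((d : ℕ) : ℝ) + 1 / 2) / Q / K) hK).trans ?_
  have hpow : (Q : ℝ) ^ (l + 1) = K * Q := by rw [hKd, pow_succ]
  rw [hpow] at h1 h2
  push_cast at h1 h2
  have h3 : |t - a / K - (((d : ℕ) : ℝ) + 1 / 2) / Q / K| ≤ 1 / (K * Q) := by
    have e : t - a / K - (((d : ℕ) : ℝ) + 1 / 2) / Q / K =
        (K * Q * t - (Q * a + d) - 1 / 2) / (K * Q) := by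
      field_simp
      ring
    rw [e, abs_div, abs_of_pos (by positivity : (0:ℝ) < K * Q)]
    refine div_le_div_of_nonneg_right ?_ (by positivity)
    rw [abs_le]
    constructor <;> linarith
  calc C * K * |t - a / K - (((d : ℕ) : ℝ) + 1 / 2) / Q / K| ≤ C * K * (1 / (K * Q)) :=
        mul_le_mul_of_nonneg_left h3 (by positivity)
    _ = C / Q := by
        field_simp

theorem sum_TT_sq (hQ : 0 < Q) (R O : ℕ) (hO : 0 < O) (x y : Fin n → UnitAddCircle) (l : ℕ) :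
    ∑ j, TT hQ R O x y l j ^ 2 ≤ n := by
  have hW : ∀ l, Wts (btx Q R y l) := fun l => bw_wts hQ R l y
  have h1 : ∑ j, TT hQ R O x y l j ^ 2 ≤
      ∑ j, Tb O (btx Q R y l) (cellx (dgx hQ x) l) (zz hQ R O x y l) j := by
    refine Finset.sum_le_sum fun j _ => ?_
    exact Tx_sq_le (hW l) _ O hO (fun i => xi Q l (dgx hQ x l i)) (zz hQ R O x y l)
      (fun i => xi_le _ _ _) j
  refine h1.trans ((Tb_sum (hW l) _ O hO _).trans ?_)
  have h2 := cof_total O hO (btx Q R y) l (fun l _ => hW l) (xi Q) (fun l a => xi_le _ _ _)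
    (dgx hQ x)
  have h3 : 0 ≤ 2 * (O:ℝ) * ∑ l ∈ Finset.range l, ∑ m, ∑ a ∈ Finset.range (Q ^ l),
      cofx O (btx Q R y) (xi Q) (dgx hQ x) l a m ^ 2 := by positivity
  unfold zz
  linarith

/-- The true residual. -/
def res (hQ : 0 < Q) (R O : ℕ) (w : Fin n → Tor 2) (j : Fin n) : ℝ :=
  1 - f1 Q R (cx hQ R O (fun i => w i 0) (fun i => w i 1)) (w j)

theorem res_sum : ∃ C : ℝ, 0 ≤ C ∧ ∀ (n Q : ℕ) (hQ : 0 < Q) (R O : ℕ) (_ : 0 < O)
    (w : Fin n → Tor 2),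
    ∑ j, res hQ R O w j ^ 2 ≤
      2 * ∑ j, zz hQ R O (fun i => w i 0) (fun i => w i 1) R j ^ 2 + C * (R / Q) ^ 2 * n := by
  obtain ⟨C, hC0, hC⟩ := psi_xi
  refine ⟨2 * C ^ 2, by positivity, ?_⟩
  intro n Q hQ R O hO w
  obtain ⟨x, hx⟩ : ∃ x : Fin n → UnitAddCircle, x = fun i => w i 0 := ⟨_, rfl⟩
  obtain ⟨y, hy⟩ : ∃ y : Fin n → UnitAddCircle, y = fun i => w i 1 := ⟨_, rfl⟩
  have hQ' : (0:ℝ) < Q := by exact_mod_cast hQ
  have hpt : ∀ j, res hQ R O w j ^ 2 ≤ 2 * zz hQ R O x y R j ^ 2 +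
      2 * ((C / Q) ^ 2 * (R * ∑ l ∈ Finset.range R, TT hQ R O x y l j ^ 2)) := by
    intro j
    have h1 : res hQ R O w j = zz hQ R O x y R j - ∑ l ∈ Finset.range R,
        (psi ((Q : ℝ) ^ l) ((((cellx (dgx hQ x) l j : ℕ) : ℝ) + 1 / 2) / (Q : ℝ) ^ l) (rep (x j)) -
          xi Q l (dgx hQ x l j)) * TT hQ R O x y l j := by
      unfold res
      rw [← hx, ← hy, f1_node hQ R O x y (w j) j (by rw [hx]) (by rw [hy]), zz_sum]
      simp only [sub_mul, Finset.sum_sub_distrib]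
      ring
    have h2 : (∑ l ∈ Finset.range R,
        (psi ((Q : ℝ) ^ l) ((((cellx (dgx hQ x) l j : ℕ) : ℝ) + 1 / 2) / (Q : ℝ) ^ l) (rep (x j)) -
          xi Q l (dgx hQ x l j)) * TT hQ R O x y l j) ^ 2 ≤
        (C / Q) ^ 2 * (R * ∑ l ∈ Finset.range R, TT hQ R O x y l j ^ 2) := by
      refine (sq_sum_le_card_mul_sum_sq).trans ?_
      rw [Finset.card_range]
      have : ∑ l ∈ Finset.range R,
        ((psi ((Q : ℝ) ^ l) ((((cellx (dgx hQ x) l j : ℕ) : ℝ) + 1 / 2) / (Q : ℝ) ^ l) (rep (x j)) -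
          xi Q l (dgx hQ x l j)) * TT hQ R O x y l j) ^ 2 ≤
          (C / Q) ^ 2 * ∑ l ∈ Finset.range R, TT hQ R O x y l j ^ 2 := by
        rw [Finset.mul_sum]
        refine Finset.sum_le_sum fun l _ => ?_
        rw [mul_pow]
        refine mul_le_mul_of_nonneg_right ?_ (sq_nonneg _)
        rw [← sq_abs]
        exact pow_le_pow_left₀ (abs_nonneg _) (hC n Q hQ x l j) 2
      calc (R:ℝ) * _ ≤ R * ((C / Q) ^ 2 * ∑ l ∈ Finset.range R, TT hQ R O x y l j ^ 2) :=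
            mul_le_mul_of_nonneg_left this (by positivity)
        _ = _ := by ring
    rw [h1]
    obtain ⟨S, hS⟩ : ∃ S : ℝ, S = ∑ l ∈ Finset.range R,
        (psi ((Q : ℝ) ^ l) ((((cellx (dgx hQ x) l j : ℕ) : ℝ) + 1 / 2) / (Q : ℝ) ^ l) (rep (x j)) -
          xi Q l (dgx hQ x l j)) * TT hQ R O x y l j := ⟨_, rfl⟩
    rw [← hS] at h2 ⊢
    nlinarith [sq_nonneg (zz hQ R O x y R j + S)]
  refine (Finset.sum_le_sum fun j _ => hpt j).trans ?_
  rw [Finset.sum_add_distrib, ← Finset.mul_sum, ← Finset.mul_sum, ← Finset.mul_sum,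
    ← Finset.mul_sum, Finset.sum_comm]
  have h3 : ∑ l ∈ Finset.range R, ∑ j, TT hQ R O x y l j ^ 2 ≤ R * n := by
    refine (Finset.sum_le_sum fun l _ => sum_TT_sq hQ R O hO x y l).trans ?_
    simp
  rw [← hx, ← hy]
  have h4 : 2 * ((C / Q) ^ 2 * ((R:ℝ) * ∑ l ∈ Finset.range R, ∑ j, TT hQ R O x y l j ^ 2)) ≤
      2 * C ^ 2 * (R / Q) ^ 2 * n := by
    calc 2 * ((C / Q) ^ 2 * ((R:ℝ) * ∑ l ∈ Finset.range R, ∑ j, TT hQ R O x y l j ^ 2))
        ≤ 2 * ((C / Q) ^ 2 * ((R:ℝ) * (R * n))) := by gcongr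
      _ = 2 * C ^ 2 * (R / Q) ^ 2 * n := by
          field_simp
  linarith

end

end Pool.Agent.Helper150.Iid
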