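import Mathlib
import Pool.Agent.Helper150.Iid.FDefs

set_option autoImplicit false

namespace Pool.Agent.Helper150.Iid.NF1

open MeasureTheory
open scoped ContDiff

noncomputable section

namespace F1Aux

/-- index set of level `l` -/
def sl (Q R l : ℕ) : Finset (ℕ × Fin (2 * Q ^ (R + 1))) :=
  Finset.range (Q ^ l) ×ˢ
    Finset.univ.filter (fun m : Fin (2 * Q ^ (R + 1)) => (m : ℕ) < 2 * Q ^ (R + 1 - l))

def xa (Q l : ℕ) (a : ℕ) : ℝ := ((a : ℝ) + 1 / 2) / (Q : ℝ) ^ l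

def ym (Q R l : ℕ) (m : ℕ) : ℝ := (m : ℝ) / (2 * (Q : ℝ) ^ (R + 1 - l))

def cG (Q R : ℕ) (c : ℕ → ℕ → Fin (2 * Q ^ (R + 1)) → ℝ) (l : ℕ)
    (b : ℕ × Fin (2 * Q ^ (R + 1))) : ℝ := c l b.1 b.2 / (Real.pi * (Q : ℝ) ^ l)

/-- level `l` of `f1` -/
def lev (Q R : ℕ) (c : ℕ → ℕ → Fin (2 * Q ^ (R + 1)) → ℝ) (l : ℕ) (x : Tor 2) : ℝ :=
  ∑ a ∈ Finset.range (Q ^ l), ∑ m,
    c l a m * cf (psi ((Q : ℝ) ^ l) (((a : ℝ) + 1 / 2) / (Q : ℝ) ^ l)) (x 0) * bw Q R l m (x 1)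

def UU (Q R l : ℕ) (b : ℕ × Fin (2 * Q ^ (R + 1))) : ℝ → ℝ := pb AA ((Q : ℝ) ^ l) (xa Q l b.1)

def VV (Q R l : ℕ) (b : ℕ × Fin (2 * Q ^ (R + 1))) : ℝ → ℝ :=
  pb bb ((Q : ℝ) ^ (R + 1 - l)) (ym Q R l b.2)

def GG (Q R : ℕ) (c : ℕ → ℕ → Fin (2 * Q ^ (R + 1)) → ℝ) (l : ℕ) (x : Tor 2) : ℝ :=
  ∑ b ∈ sl Q R l, cG Q R c l b * cf (UU Q R l b) (x 0) * cf (VV Q R l b) (x 1)

theorem f1_eq (Q R : ℕ) (c : ℕ → ℕ → Fin (2 * Q ^ (R + 1)) → ℝ) :
    f1 Q R c = fun x => ∑ l ∈ Finset.range R, lev Q R c l x := rfl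

theorem lev_eq (hpsi : ∀ K x0 x, deriv (pb AA K x0) x = Real.pi * K * psi K x0 x) (Q R : ℕ)
    (hQ : 0 < Q) (c : ℕ → ℕ → Fin (2 * Q ^ (R + 1)) → ℝ) (l : ℕ) :
    lev Q R c l = fun x => ∑ b ∈ sl Q R l, cG Q R c l b *
      cf (iteratedDeriv 1 (UU Q R l b)) (x 0) * cf (iteratedDeriv 0 (VV Q R l b)) (x 1) := by
  funext x
  unfold lev sl
  rw [Finset.sum_product]
  apply Finset.sum_congr rfl
  intro a _
  rw [Finset.sum_filter]
  apply Finset.sum_congr rfl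
  intro m _
  unfold bw
  split_ifs with hm
  · have hK : (0 : ℝ) < (Q : ℝ) ^ l := by positivity
    have hpi := Real.pi_pos
    have h1 : cf (iteratedDeriv 1 (UU Q R l (a, m))) (x 0) =
        Real.pi * (Q : ℝ) ^ l * cf (psi ((Q : ℝ) ^ l) (((a : ℝ) + 1 / 2) / (Q : ℝ) ^ l)) (x 0) := by
      unfold cf UU xa
      rw [iteratedDeriv_one, hpsi]
    rw [h1, iteratedDeriv_zero]
    unfold cG VV ym
    simp only
    field_simp
  · ring

theorem lev_cont (hA : Nice AA) (hB : Nice bb)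
    (hpsi : ∀ K x0 x, deriv (pb AA K x0) x = Real.pi * K * psi K x0 x) (Q R : ℕ)
    (hQ : 0 < Q) (c : ℕ → ℕ → Fin (2 * Q ^ (R + 1)) → ℝ) (l : ℕ) :
    Continuous (lev Q R c l) := by
  rw [lev_eq hpsi Q R hQ c l]
  apply continuous_finsetSum
  intro b _
  have pU : Function.Periodic (UU Q R l b) 1 := hA.per _ _
  have pV : Function.Periodic (VV Q R l b) 1 := hB.per _ _
  have sU : ContDiff ℝ ∞ (UU Q R l b) := hA.smooth _ _
  have sV : ContDiff ℝ ∞ (VV Q R l b) := hB.smooth _ _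
  have c1 := cf_continuous (fone_iter pU sU 0 1).1 (fone_iter pU sU 0 1).2.1.continuous
  have c2 := cf_continuous (fone_iter pV sV 0 0).1 (fone_iter pV sV 0 0).2.1.continuous
  exact (continuous_const.mul (c1.comp (continuous_apply 0))).mul (c2.comp (continuous_apply 1))

theorem fc_sum (s : Finset ℕ) (F : ℕ → Tor 2 → ℝ) (hF : ∀ l, Continuous (F l)) (h : Fin 2 → ℤ) :
    fc (fun x => ∑ l ∈ s, F l x) h = ∑ l ∈ s, fc (F l) h := by
  unfold fc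
  have e1 : ∀ x : Tor 2, (∏ j, fourier (-h j) (x j)) * ((∑ l ∈ s, F l x : ℝ) : ℂ) =
      ∑ l ∈ s, (∏ j, fourier (-h j) (x j)) * ((F l x : ℝ) : ℂ) := by
    intro x
    rw [Complex.ofReal_sum, Finset.mul_sum]
  simp only [e1]
  rw [integral_finsetSum]
  intro l _
  apply integrable_tor
  have h1 : Continuous (fun x : Tor 2 => ∏ j, (fourier (-h j) (x j) : ℂ)) :=
    continuous_finsetProd _ fun j _ => (fourier (-h j)).continuous.comp (continuous_apply j)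
  exact h1.mul (Complex.continuous_ofReal.comp (hF l))

theorem fc_lev (hA : Nice AA) (hB : Nice bb)
    (hpsi : ∀ K x0 x, deriv (pb AA K x0) x = Real.pi * K * psi K x0 x) (Q R : ℕ)
    (hQ : 0 < Q) (c : ℕ → ℕ → Fin (2 * Q ^ (R + 1)) → ℝ) (l : ℕ) (h : Fin 2 → ℤ) :
    fc (lev Q R c l) h = (2 * Real.pi * Complex.I * (h 0 : ℂ)) * fc (GG Q R c l) h := by
  rw [lev_eq hpsi Q R hQ c l]
  have := fc_deriv (sl Q R l) (cG Q R c l) (UU Q R l) (VV Q R l) (fun b => hA.smooth _ _)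
    (fun b => hB.smooth _ _) (fun b => hA.per _ _) (fun b => hB.per _ _) 1 0 h
  rw [this, pow_one, pow_zero, mul_one]
  rfl

theorem fc_f1 (hA : Nice AA) (hB : Nice bb)
    (hpsi : ∀ K x0 x, deriv (pb AA K x0) x = Real.pi * K * psi K x0 x) (Q R : ℕ)
    (hQ : 0 < Q) (c : ℕ → ℕ → Fin (2 * Q ^ (R + 1)) → ℝ) (h : Fin 2 → ℤ) :
    fc (f1 Q R c) h = ∑ l ∈ Finset.range R,
      (2 * Real.pi * Complex.I * (h 0 : ℂ)) * fc (GG Q R c l) h := by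
  rw [f1_eq, fc_sum _ _ (fun l => lev_cont hA hB hpsi Q R hQ c l)]
  exact Finset.sum_congr rfl fun l _ => fc_lev hA hB hpsi Q R hQ c l h

/-- almost orthogonality weights -/
theorem sum_rho (Q R : ℕ) (hQ : 2 ≤ Q) (t : ℝ) (ht : 0 < t) :
    ∑ l ∈ Finset.range R, ((t / (Q : ℝ) ^ l) ^ 2 + ((Q : ℝ) ^ l / t) ^ 2)⁻¹ ≤ 3 := by
  set φ : ℕ → ℝ := fun l => 3 * (((Q : ℝ) ^ l / t) ^ 2 / (1 + ((Q : ℝ) ^ l / t) ^ 2)) with hφ
  have hQ' : (2 : ℝ) ≤ Q := by exact_mod_cast hQ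
  have h1 : ∀ l ∈ Finset.range R,
      ((t / (Q : ℝ) ^ l) ^ 2 + ((Q : ℝ) ^ l / t) ^ 2)⁻¹ ≤ φ (l + 1) - φ l := by
    intro l _
    have hK : (0 : ℝ) < (Q : ℝ) ^ l := by positivity
    set u := ((Q : ℝ) ^ l / t) ^ 2 with hu
    have hu0 : 0 < u := by positivity
    have e1 : (t / (Q : ℝ) ^ l) ^ 2 = u⁻¹ := by
      rw [hu, ← inv_pow, inv_div]
    have e2 : ((Q : ℝ) ^ (l + 1) / t) ^ 2 = (Q : ℝ) ^ 2 * u := by
      rw [hu]; ring
    simp only [hφ]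
    rw [e1, e2, ← hu]
    set q := (Q : ℝ) ^ 2 with hq
    have hq4 : 4 ≤ q := by rw [hq]; nlinarith
    have e3 : (u⁻¹ + u)⁻¹ = u / (1 + u ^ 2) := by
      field_simp
    rw [e3]
    have e4 : 3 * (q * u / (1 + q * u)) - 3 * (u / (1 + u)) =
        (3 * (q - 1) * u) / ((1 + q * u) * (1 + u)) := by
      have : 0 < 1 + q * u := by positivity
      field_simp
      ring
    rw [e4, div_le_div_iff₀ (by positivity) (by positivity)]
    have h5 : (1 + q * u) * (1 + u) ≤ 3 * (q - 1) * (1 + u ^ 2) := by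
      nlinarith [mul_nonneg (by linarith : (0:ℝ) ≤ q) (sq_nonneg (1 - u)), sq_nonneg (1 - u)]
    calc u * ((1 + q * u) * (1 + u)) ≤ u * (3 * (q - 1) * (1 + u ^ 2)) :=
          mul_le_mul_of_nonneg_left h5 hu0.le
      _ = 3 * (q - 1) * u * (1 + u ^ 2) := by ring
  calc ∑ l ∈ Finset.range R, ((t / (Q : ℝ) ^ l) ^ 2 + ((Q : ℝ) ^ l / t) ^ 2)⁻¹
      ≤ ∑ l ∈ Finset.range R, (φ (l + 1) - φ l) := Finset.sum_le_sum h1
    _ = φ R - φ 0 := Finset.sum_range_sub φ R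
    _ ≤ 3 := by
      have h2 : φ R ≤ 3 := by
        simp only [hφ]
        have : ((Q : ℝ) ^ R / t) ^ 2 / (1 + ((Q : ℝ) ^ R / t) ^ 2) ≤ 1 := by
          rw [div_le_one (by positivity)]; linarith
        linarith
      have h3 : 0 ≤ φ 0 := by simp only [hφ]; positivity
      linarith


theorem overlap (Q R l : ℕ) (hQ : 0 < Q) (x : Tor 2) :
    (open Classical in
        ((sl Q R l).filter (fun b => ‖x 0 - (xa Q l b.1 : UnitAddCircle)‖ < 1 / (2 * (Q : ℝ) ^ l) ∧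
          ‖x 1 - (ym Q R l b.2 : UnitAddCircle)‖ < 1 / (2 * (Q : ℝ) ^ (R + 1 - l)))).card) ≤ 2 := by
  classical
  obtain ⟨t0, ht0⟩ : ∃ t : ℝ, (t : UnitAddCircle) = x 0 := QuotientAddGroup.mk_surjective (x 0)
  obtain ⟨t1, ht1⟩ : ∃ t : ℝ, (t : UnitAddCircle) = x 1 := QuotientAddGroup.mk_surjective (x 1)
  rw [← ht0, ← ht1]
  set Kn : ℕ := Q ^ l with hKn
  set M : ℕ := 2 * Q ^ (R + 1 - l) with hM
  have hKn0 : 0 < Kn := by positivity
  have hM0 : 0 < M := by positivity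
  have hKr : (0 : ℝ) < (Kn : ℝ) := by exact_mod_cast hKn0
  have hMr : (0 : ℝ) < (M : ℝ) := by exact_mod_cast hM0
  have hKc : ((Q : ℝ) ^ l) = (Kn : ℝ) := by rw [hKn]; push_cast; rfl
  have hMc : 2 * ((Q : ℝ) ^ (R + 1 - l)) = (M : ℝ) := by rw [hM]; push_cast; rfl
  set a0 : ℤ := ⌊(Kn : ℝ) * t0⌋ % Kn with ha0
  set m1 : ℤ := ⌊(M : ℝ) * t1⌋ % M with hm1
  set m2 : ℤ := (⌊(M : ℝ) * t1⌋ + 1) % M with hm2
  have hmaps : ∀ b ∈ (sl Q R l).filter (fun b =>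
      ‖(t0 : UnitAddCircle) - (xa Q l b.1 : UnitAddCircle)‖ < 1 / (2 * (Q : ℝ) ^ l) ∧
          ‖(t1 : UnitAddCircle) - (ym Q R l b.2 : UnitAddCircle)‖ <
            1 / (2 * (Q : ℝ) ^ (R + 1 - l))),
      ((b.1 : ℤ), (((b.2 : ℕ)) : ℤ)) ∈ ({(a0, m1), (a0, m2)} : Finset (ℤ × ℤ)) := by
    rintro ⟨a, m⟩ hb
    rw [Finset.mem_filter] at hb
    obtain ⟨hb1, hb2, hb3⟩ := hb
    unfold sl at hb1
    rw [Finset.mem_product, Finset.mem_range, Finset.mem_filter] at hb1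
    obtain ⟨haK, -, hmM⟩ := hb1
    simp only at haK hmM hb2 hb3
    rw [← hM] at hmM
    rw [hKc, ← AddCircle.coe_sub] at hb2
    rw [hMc, ← AddCircle.coe_sub] at hb3
    have e1 : (a : ℤ) = a0 := by
      have h1 := UnitAddCircle.norm_eq (x := t0 - xa Q l a)
      rw [h1] at hb2
      set r := round (t0 - xa Q l a) with hr
      have h2 : xa Q l a = ((a : ℝ) + 1 / 2) / Kn := by unfold xa; rw [hKc]
      rw [h2, abs_lt] at hb2
      obtain ⟨h3, h4⟩ := hb2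
      have h5 : t0 - ((a : ℝ) + 1 / 2) / Kn - r = (Kn * t0 - (a + 1/2) - Kn * r) / Kn := by
        field_simp
      rw [h5] at h3 h4
      have h6 : (Kn * t0 - (a + 1/2) - Kn * r) < 1 / 2 := by
        rw [div_lt_iff₀ hKr] at h4
        have : 1 / (2 * (Kn : ℝ)) * Kn = 1 / 2 := by field_simp
        linarith
      have h7 : -(1 / 2) < (Kn * t0 - (a + 1/2) - Kn * r) := by
        rw [lt_div_iff₀ hKr] at h3
        have : -(1 / (2 * (Kn : ℝ))) * Kn = -(1 / 2) := by field_simp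
        linarith
      have h8 : ⌊(Kn : ℝ) * t0⌋ = (a : ℤ) + Kn * r := by
        rw [Int.floor_eq_iff]
        push_cast
        constructor <;> linarith
      rw [ha0, h8, Int.add_mul_emod_self_left]
      exact (Int.emod_eq_of_lt (by positivity) (by exact_mod_cast haK)).symm
    have e2 : ((m : ℕ) : ℤ) = m1 ∨ ((m : ℕ) : ℤ) = m2 := by
      have h1 := UnitAddCircle.norm_eq (x := t1 - ym Q R l m)
      rw [h1] at hb3
      set r := round (t1 - ym Q R l m) with hr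
      have h2 : ym Q R l m = ((m : ℕ) : ℝ) / M := by unfold ym; rw [hMc]
      rw [h2, abs_lt] at hb3
      obtain ⟨h3, h4⟩ := hb3
      have h5 : t1 - ((m : ℕ) : ℝ) / M - r = (M * t1 - (m : ℕ) - M * r) / M := by
        field_simp
      rw [h5] at h3 h4
      have h6 : ((M : ℝ) * t1 - (m : ℕ) - M * r) < 1 := by
        rw [div_lt_div_iff_of_pos_right hMr] at h4
        exact h4
      have h7 : -1 < ((M : ℝ) * t1 - (m : ℕ) - M * r) := by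
        rw [← neg_div, div_lt_div_iff_of_pos_right hMr] at h3
        exact h3
      have hmM' : ((m : ℕ) : ℤ) < M := by exact_mod_cast hmM
      have key : (((m : ℕ) : ℤ) + M * r) % M = ((m : ℕ) : ℤ) := by
        rw [Int.add_mul_emod_self_left]
        exact Int.emod_eq_of_lt (by positivity) hmM'
      by_cases h8 : (((m : ℕ) : ℝ) + M * r) ≤ (M : ℝ) * t1
      · left
        have h9 : ⌊(M : ℝ) * t1⌋ = ((m : ℕ) : ℤ) + M * r := by
          rw [Int.floor_eq_iff]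
          push_cast
          constructor <;> linarith
        rw [hm1, h9, key]
      · right
        push Not at h8
        have h9 : ⌊(M : ℝ) * t1⌋ = ((m : ℕ) : ℤ) + M * r - 1 := by
          rw [Int.floor_eq_iff]
          push_cast
          constructor <;> linarith
        rw [hm2, h9, sub_add_cancel, key]
    rw [Finset.mem_insert, Finset.mem_singleton]
    rcases e2 with e2 | e2
    · left; exact Prod.ext e1 e2
    · right; exact Prod.ext e1 e2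
  refine (Finset.card_le_card_of_injOn _ hmaps ?_).trans Finset.card_le_two
  intro b _ b' _ hbb
  simp only [Prod.mk.injEq, Nat.cast_inj] at hbb
  exact Prod.ext hbb.1 (Fin.ext hbb.2)

/-- the Parseval sums of level `l` -/
def TT (Q R : ℕ) (c : ℕ → ℕ → Fin (2 * Q ^ (R + 1)) → ℝ) (l p q : ℕ) (h : Fin 2 → ℤ) : ℝ :=
  (2 * Real.pi * (h 0 : ℝ)) ^ (2 * p) * (2 * Real.pi * (h 1 : ℝ)) ^ (2 * q) *
    ‖fc (GG Q R c l) h‖ ^ 2

theorem TT_nonneg (Q R : ℕ) (c : ℕ → ℕ → Fin (2 * Q ^ (R + 1)) → ℝ) (l p q : ℕ) (h : Fin 2 → ℤ) :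
    0 ≤ TT Q R c l p q h := by
  unfold TT
  rw [pow_mul, pow_mul]
  positivity

def Sl (Q R : ℕ) (c : ℕ → ℕ → Fin (2 * Q ^ (R + 1)) → ℝ) (l : ℕ) : ℝ :=
  ∑ a ∈ Finset.range (Q ^ l), ∑ m, c l a m ^ 2

theorem Sl_nonneg (Q R : ℕ) (c : ℕ → ℕ → Fin (2 * Q ^ (R + 1)) → ℝ) (l : ℕ) :
    0 ≤ Sl Q R c l := Finset.sum_nonneg fun _ _ => Finset.sum_nonneg fun _ _ => sq_nonneg _

theorem pars (hA : Nice AA) (hB : Nice bb) (hblk : BlkNorm AA bb) (p q : ℕ) :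
    ∃ C : ℝ, 0 ≤ C ∧ ∀ (Q R : ℕ) (c : ℕ → ℕ → Fin (2 * Q ^ (R + 1)) → ℝ) (l : ℕ), 2 ≤ Q → l < R →
      ∃ S : ℝ, HasSum (TT Q R c l p q) S ∧
        S ≤ C * (((Q : ℝ) ^ l) ^ (2 * p) * ((Q : ℝ) ^ (R + 1 - l)) ^ (2 * q) / ((Q : ℝ) ^ l) ^ 2) /
          (Q : ℝ) ^ (R + 1) * Sl Q R c l := by
  obtain ⟨C, hC0, hC⟩ := hblk p q
  refine ⟨C * 2, by positivity, fun Q R c l hQ hl => ?_⟩
  have hQ0 : 0 < Q := by omega
  have hQr : (1 : ℝ) ≤ Q := by exact_mod_cast hQ0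
  refine ⟨_, parseval_deriv (sl Q R l) (cG Q R c l) (UU Q R l) (VV Q R l) (fun b => hA.smooth _ _)
    (fun b => hB.smooth _ _) (fun b => hA.per _ _) (fun b => hB.per _ _) p q, ?_⟩
  have h1 := hC (ℕ × Fin (2 * Q ^ (R + 1))) (sl Q R l) (cG Q R c l) ((Q : ℝ) ^ l)
    ((Q : ℝ) ^ (R + 1 - l)) (fun b => xa Q l b.1) (fun b => ym Q R l b.2) 2
    (one_le_pow₀ hQr) (one_le_pow₀ hQr) (fun x => overlap Q R l hQ0 x)
  refine h1.trans ?_
  have hK : (0 : ℝ) < (Q : ℝ) ^ l := by positivity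
  have hK' : (0 : ℝ) < (Q : ℝ) ^ (R + 1 - l) := by positivity
  have hN : (Q : ℝ) ^ l * (Q : ℝ) ^ (R + 1 - l) = (Q : ℝ) ^ (R + 1) := by
    rw [← pow_add]; congr 1; omega
  have h2 : ∑ b ∈ sl Q R l, cG Q R c l b ^ 2 ≤ Sl Q R c l / ((Q : ℝ) ^ l) ^ 2 := by
    unfold Sl sl
    rw [Finset.sum_product, Finset.sum_div]
    apply Finset.sum_le_sum
    intro a _
    rw [Finset.sum_div]
    calc ∑ m ∈ Finset.univ.filter (fun m : Fin (2 * Q ^ (R + 1)) => (m : ℕ) < 2 * Q ^ (R + 1 - l)),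
          cG Q R c l (a, m) ^ 2 ≤ ∑ m, cG Q R c l (a, m) ^ 2 :=
          Finset.sum_le_sum_of_subset_of_nonneg (Finset.filter_subset _ _)
            (fun _ _ _ => sq_nonneg _)
      _ ≤ ∑ m, c l a m ^ 2 / ((Q : ℝ) ^ l) ^ 2 := by
          apply Finset.sum_le_sum
          intro m _
          unfold cG
          simp only
          rw [div_pow]
          apply div_le_div_of_nonneg_left (sq_nonneg _) (by positivity)
          apply pow_le_pow_left₀ hK.le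
          have : (1 : ℝ) ≤ Real.pi := by linarith [Real.pi_gt_three]
          nlinarith
  calc C * (2 : ℕ) * ((Q : ℝ) ^ l) ^ (2 * p) * ((Q : ℝ) ^ (R + 1 - l)) ^ (2 * q) /
        ((Q : ℝ) ^ l * (Q : ℝ) ^ (R + 1 - l)) * ∑ b ∈ sl Q R l, cG Q R c l b ^ 2
      ≤ C * (2 : ℕ) * ((Q : ℝ) ^ l) ^ (2 * p) * ((Q : ℝ) ^ (R + 1 - l)) ^ (2 * q) /
        ((Q : ℝ) ^ l * (Q : ℝ) ^ (R + 1 - l)) * (Sl Q R c l / ((Q : ℝ) ^ l) ^ 2) :=
        mul_le_mul_of_nonneg_left h2 (by positivity)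
    _ = _ := by
        rw [hN]
        push_cast
        field_simp

/-- the majorant -/
def MM (Q R : ℕ) (c : ℕ → ℕ → Fin (2 * Q ^ (R + 1)) → ℝ) (κ : ℕ) (h : Fin 2 → ℤ) : ℝ :=
  ∑ l ∈ Finset.range R, (3 * 4 ^ κ * (2 * Real.pi) ^ 2) *
    ((((Q : ℝ) ^ l) ^ 2)⁻¹ * (TT Q R c l (κ + 2) 0 h + TT Q R c l (κ + 2) κ h) +
      ((Q : ℝ) ^ l) ^ 2 * (TT Q R c l κ 0 h + TT Q R c l κ κ h))

theorem MM_nonneg (Q R : ℕ) (c : ℕ → ℕ → Fin (2 * Q ^ (R + 1)) → ℝ) (κ : ℕ) (h : Fin 2 → ℤ) :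
    0 ≤ MM Q R c κ h := by
  unfold MM
  apply Finset.sum_nonneg
  intro l _
  have h1 := TT_nonneg Q R c l (κ + 2) 0 h
  have h2 := TT_nonneg Q R c l (κ + 2) κ h
  have h3 := TT_nonneg Q R c l κ 0 h
  have h4 := TT_nonneg Q R c l κ κ h
  positivity

theorem one_add_pow (y : ℝ) (hy : 0 ≤ y) (κ : ℕ) : (1 + y) ^ κ ≤ 2 ^ κ * (1 + y ^ κ) := by
  have hyk : 0 ≤ y ^ κ := pow_nonneg hy κ
  rcases le_total y 1 with h | h
  · calc (1 + y) ^ κ ≤ 2 ^ κ := pow_le_pow_left₀ (by linarith) (by linarith) κ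
      _ ≤ 2 ^ κ * (1 + y ^ κ) := le_mul_of_one_le_right (by positivity) (by linarith)
  · calc (1 + y) ^ κ ≤ (2 * y) ^ κ := pow_le_pow_left₀ (by linarith) (by linarith) κ
      _ = 2 ^ κ * y ^ κ := mul_pow _ _ _
      _ ≤ 2 ^ κ * (1 + y ^ κ) := mul_le_mul_of_nonneg_left (by linarith) (by positivity)

theorem pow_le_two_pi (y : ℝ) (n : ℕ) : (y ^ 2) ^ n ≤ (2 * Real.pi * y) ^ (2 * n) := by
  rw [pow_mul]
  apply pow_le_pow_left₀ (sq_nonneg _)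
  have : (1 : ℝ) ≤ (2 * Real.pi) ^ 2 := by
    have := Real.pi_gt_three
    nlinarith
  calc y ^ 2 = 1 * y ^ 2 := by ring
    _ ≤ (2 * Real.pi) ^ 2 * y ^ 2 := mul_le_mul_of_nonneg_right this (sq_nonneg _)
    _ = (2 * Real.pi * y) ^ 2 := by ring

theorem pointwise (hA : Nice AA) (hB : Nice bb)
    (hpsi : ∀ K x0 x, deriv (pb AA K x0) x = Real.pi * K * psi K x0 x) (Q R : ℕ)
    (hQ : 2 ≤ Q) (c : ℕ → ℕ → Fin (2 * Q ^ (R + 1)) → ℝ) (κ : ℕ) (h : Fin 2 → ℤ) :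
    ((1 + (h 0 : ℝ) ^ 2) * (1 + (h 1 : ℝ) ^ 2)) ^ κ * ‖fc (f1 Q R c) h‖ ^ 2 ≤ MM Q R c κ h := by
  have hQ0 : 0 < Q := by omega
  rw [fc_f1 hA hB hpsi Q R hQ0 c h]
  by_cases h0 : h 0 = 0
  · rw [h0]
    simp only [Int.cast_zero, mul_zero, zero_mul, Finset.sum_const_zero, norm_zero]
    rw [zero_pow two_ne_zero, mul_zero]
    exact MM_nonneg Q R c κ h
  set H : ℝ := (h 0 : ℝ) with hH
  set J : ℝ := (h 1 : ℝ) with hJ
  have hH1 : 1 ≤ |H| := by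
    rw [hH, ← Int.cast_abs]
    exact_mod_cast Int.one_le_abs h0
  have hHsq : 1 ≤ H ^ 2 := by rw [← sq_abs]; exact one_le_pow₀ hH1
  have hHne : H ≠ 0 := by intro h; rw [h] at hHsq; norm_num at hHsq
  set g : ℕ → ℝ := fun l => ‖fc (GG Q R c l) h‖ with hg
  set ρ : ℕ → ℝ := fun l => (|H| / (Q : ℝ) ^ l) ^ 2 + ((Q : ℝ) ^ l / |H|) ^ 2 with hρ
  have hρ0 : ∀ l, 0 < ρ l := by
    intro l
    have hK : (0 : ℝ) < (Q : ℝ) ^ l := by positivity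
    have : 0 < |H| := by linarith
    simp only [hρ]
    positivity
  have hz : ∀ l, ‖(2 * Real.pi * Complex.I * (h 0 : ℂ)) * fc (GG Q R c l) h‖ =
      2 * Real.pi * |H| * g l := by
    intro l
    rw [norm_mul, norm_mul, norm_mul, norm_mul, Complex.norm_I, Complex.norm_real,
      Complex.norm_intCast, Real.norm_eq_abs, abs_of_pos Real.pi_pos]
    simp [hg, hH]
  have hCS : ‖∑ l ∈ Finset.range R, (2 * Real.pi * Complex.I * (h 0 : ℂ)) * fc (GG Q R c l) h‖ ^ 2 ≤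
      3 * ∑ l ∈ Finset.range R, ρ l * (2 * Real.pi * |H| * g l) ^ 2 := by
    have e1 : ‖∑ l ∈ Finset.range R, (2 * Real.pi * Complex.I * (h 0 : ℂ)) * fc (GG Q R c l) h‖ ≤
        ∑ l ∈ Finset.range R, 2 * Real.pi * |H| * g l := by
      refine (norm_sum_le _ _).trans (le_of_eq ?_)
      exact Finset.sum_congr rfl fun l _ => hz l
    have e2 : (∑ l ∈ Finset.range R, 2 * Real.pi * |H| * g l) ^ 2 ≤
        (∑ l ∈ Finset.range R, (ρ l)⁻¹) *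
          ∑ l ∈ Finset.range R, ρ l * (2 * Real.pi * |H| * g l) ^ 2 := by
      apply Finset.sum_sq_le_sum_mul_sum_of_sq_le_mul
      · intro l _; exact inv_nonneg.mpr (hρ0 l).le
      · intro l _; exact mul_nonneg (hρ0 l).le (sq_nonneg _)
      · intro l _
        rw [← mul_assoc, inv_mul_cancel₀ (hρ0 l).ne', one_mul]
    have e3 : ∑ l ∈ Finset.range R, (ρ l)⁻¹ ≤ 3 := sum_rho Q R hQ |H| (by linarith)
    calc _ ≤ (∑ l ∈ Finset.range R, 2 * Real.pi * |H| * g l) ^ 2 :=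
          pow_le_pow_left₀ (norm_nonneg _) e1 2
      _ ≤ _ := e2
      _ ≤ _ := mul_le_mul_of_nonneg_right e3
          (Finset.sum_nonneg fun l _ => mul_nonneg (hρ0 l).le (sq_nonneg _))
  have hw : ((1 + H ^ 2) * (1 + J ^ 2)) ^ κ ≤ 4 ^ κ * (H ^ 2) ^ κ * (1 + (J ^ 2) ^ κ) := by
    rw [mul_pow]
    calc (1 + H ^ 2) ^ κ * (1 + J ^ 2) ^ κ ≤ (2 * H ^ 2) ^ κ * (2 ^ κ * (1 + (J ^ 2) ^ κ)) := by
          apply mul_le_mul
          · exact pow_le_pow_left₀ (by positivity) (by linarith) κ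
          · exact one_add_pow _ (sq_nonneg _) κ
          · positivity
          · positivity
      _ = 4 ^ κ * (H ^ 2) ^ κ * (1 + (J ^ 2) ^ κ) := by
          rw [mul_pow, show (4 : ℝ) = 2 * 2 by norm_num, mul_pow]; ring
  calc ((1 + H ^ 2) * (1 + J ^ 2)) ^ κ * _ ≤ (4 ^ κ * (H ^ 2) ^ κ * (1 + (J ^ 2) ^ κ)) *
        (3 * ∑ l ∈ Finset.range R, ρ l * (2 * Real.pi * |H| * g l) ^ 2) :=
        mul_le_mul hw hCS (by positivity) (by positivity)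
    _ = ∑ l ∈ Finset.range R, (3 * 4 ^ κ * (2 * Real.pi) ^ 2) *
        ((H ^ 2) ^ κ * (1 + (J ^ 2) ^ κ) * (ρ l * H ^ 2) * g l ^ 2) := by
        rw [Finset.mul_sum, Finset.mul_sum]
        apply Finset.sum_congr rfl
        intro l _
        have : |H| ^ 2 = H ^ 2 := sq_abs H
        rw [mul_pow, mul_pow, this]
        ring
    _ ≤ MM Q R c κ h := by
        unfold MM
        apply Finset.sum_le_sum
        intro l _
        apply mul_le_mul_of_nonneg_left _ (by positivity)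
        have hK : (0 : ℝ) < (Q : ℝ) ^ l := by positivity
        have hρH : ρ l * H ^ 2 = (((Q : ℝ) ^ l) ^ 2)⁻¹ * (H ^ 2) ^ 2 + ((Q : ℝ) ^ l) ^ 2 := by
          simp only [hρ]
          rw [div_pow, div_pow, sq_abs]
          field_simp
        rw [hρH]
        have t1 : (H ^ 2) ^ (κ + 2) * g l ^ 2 ≤ TT Q R c l (κ + 2) 0 h := by
          unfold TT
          rw [mul_zero, pow_zero, mul_one]
          exact mul_le_mul_of_nonneg_right (pow_le_two_pi H (κ + 2)) (sq_nonneg _)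
        have t2 : (H ^ 2) ^ (κ + 2) * (J ^ 2) ^ κ * g l ^ 2 ≤ TT Q R c l (κ + 2) κ h := by
          unfold TT
          apply mul_le_mul_of_nonneg_right _ (sq_nonneg _)
          exact mul_le_mul (pow_le_two_pi H (κ + 2)) (pow_le_two_pi J κ) (by positivity)
            (by rw [pow_mul]; positivity)
        have t3 : (H ^ 2) ^ κ * g l ^ 2 ≤ TT Q R c l κ 0 h := by
          unfold TT
          rw [mul_zero, pow_zero, mul_one]
          exact mul_le_mul_of_nonneg_right (pow_le_two_pi H κ) (sq_nonneg _)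
        have t4 : (H ^ 2) ^ κ * (J ^ 2) ^ κ * g l ^ 2 ≤ TT Q R c l κ κ h := by
          unfold TT
          apply mul_le_mul_of_nonneg_right _ (sq_nonneg _)
          exact mul_le_mul (pow_le_two_pi H κ) (pow_le_two_pi J κ) (by positivity)
            (by rw [pow_mul]; positivity)
        have hKi : 0 ≤ (((Q : ℝ) ^ l) ^ 2)⁻¹ := by positivity
        have hK2 : 0 ≤ ((Q : ℝ) ^ l) ^ 2 := by positivity
        calc (H ^ 2) ^ κ * (1 + (J ^ 2) ^ κ) *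
              ((((Q : ℝ) ^ l) ^ 2)⁻¹ * (H ^ 2) ^ 2 + ((Q : ℝ) ^ l) ^ 2) * g l ^ 2
            = (((Q : ℝ) ^ l) ^ 2)⁻¹ * ((H ^ 2) ^ (κ + 2) * g l ^ 2 +
                (H ^ 2) ^ (κ + 2) * (J ^ 2) ^ κ * g l ^ 2) +
              ((Q : ℝ) ^ l) ^ 2 * ((H ^ 2) ^ κ * g l ^ 2 + (H ^ 2) ^ κ * (J ^ 2) ^ κ * g l ^ 2) := by
              rw [pow_add]; ring
          _ ≤ _ := add_le_add (mul_le_mul_of_nonneg_left (add_le_add t1 t2) hKi)
                (mul_le_mul_of_nonneg_left (add_le_add t3 t4) hK2)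

theorem MM_sum (hA : Nice AA) (hB : Nice bb) (hblk : BlkNorm AA bb) (κ : ℕ) :
    ∃ C : ℝ, 0 ≤ C ∧ ∀ (Q R : ℕ) (c : ℕ → ℕ → Fin (2 * Q ^ (R + 1)) → ℝ), 2 ≤ Q →
      ∃ S : ℝ, HasSum (MM Q R c κ) S ∧
        S ≤ C * ((Q : ℝ) ^ (R + 1)) ^ (2 * κ) / (Q : ℝ) ^ (R + 1) *
          ∑ l ∈ Finset.range R, Sl Q R c l := by
  obtain ⟨C1, hC10, hC1⟩ := pars hA hB hblk (κ + 2) 0
  obtain ⟨C2, hC20, hC2⟩ := pars hA hB hblk (κ + 2) κ
  obtain ⟨C3, hC30, hC3⟩ := pars hA hB hblk κ 0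
  obtain ⟨C4, hC40, hC4⟩ := pars hA hB hblk κ κ
  set D : ℝ := 3 * 4 ^ κ * (2 * Real.pi) ^ 2 with hD
  have hD0 : 0 ≤ D := by positivity
  refine ⟨D * (C1 + C2 + C3 + C4), by positivity, fun Q R c hQ => ?_⟩
  have hQ0 : 0 < Q := by omega
  have hQr : (1 : ℝ) ≤ Q := by exact_mod_cast hQ0
  have hlev : ∀ l ∈ Finset.range R, ∃ S : ℝ, HasSum (fun h => D *
      ((((Q : ℝ) ^ l) ^ 2)⁻¹ * (TT Q R c l (κ + 2) 0 h + TT Q R c l (κ + 2) κ h) +
      ((Q : ℝ) ^ l) ^ 2 * (TT Q R c l κ 0 h + TT Q R c l κ κ h))) S ∧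
      S ≤ D * (C1 + C2 + C3 + C4) * ((Q : ℝ) ^ (R + 1)) ^ (2 * κ) / (Q : ℝ) ^ (R + 1) *
        Sl Q R c l := by
    intro l hl
    rw [Finset.mem_range] at hl
    obtain ⟨S1, hS1, hb1⟩ := hC1 Q R c l hQ hl
    obtain ⟨S2, hS2, hb2⟩ := hC2 Q R c l hQ hl
    obtain ⟨S3, hS3, hb3⟩ := hC3 Q R c l hQ hl
    obtain ⟨S4, hS4, hb4⟩ := hC4 Q R c l hQ hl
    refine ⟨_, ((((hS1.add hS2).mul_left ((((Q : ℝ) ^ l) ^ 2)⁻¹)).add
      ((hS3.add hS4).mul_left (((Q : ℝ) ^ l) ^ 2))).mul_left D), ?_⟩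
    have hSl := Sl_nonneg Q R c l
    set K : ℝ := (Q : ℝ) ^ l with hK
    set K' : ℝ := (Q : ℝ) ^ (R + 1 - l) with hK'
    set N : ℝ := (Q : ℝ) ^ (R + 1) with hN
    have hK1 : 1 ≤ K := one_le_pow₀ hQr
    have hK'1 : 1 ≤ K' := one_le_pow₀ hQr
    have hN1 : 1 ≤ N := one_le_pow₀ hQr
    have hKK : K * K' = N := by
      rw [hK, hK', hN, ← pow_add]; congr 1; omega
    have hK0 : 0 < K := by linarith
    have hN0 : 0 < N := by linarith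
    have hKN : K ^ (2 * κ) ≤ N ^ (2 * κ) := by
      apply pow_le_pow_left₀ hK0.le
      rw [← hKK]; nlinarith
    have hKKN : K ^ (2 * κ) * K' ^ (2 * κ) = N ^ (2 * κ) := by rw [← mul_pow, hKK]
    have b1 : (K ^ 2)⁻¹ * S1 ≤ C1 * N ^ (2 * κ) / N * Sl Q R c l := by
      calc (K ^ 2)⁻¹ * S1 ≤ (K ^ 2)⁻¹ * (C1 * (K ^ (2 * (κ + 2)) * K' ^ (2 * 0) / K ^ 2) / N *
            Sl Q R c l) := mul_le_mul_of_nonneg_left hb1 (by positivity)
        _ = C1 * K ^ (2 * κ) / N * Sl Q R c l := by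
            have : K ^ (2 * (κ + 2)) = K ^ (2 * κ) * K ^ 4 := by rw [← pow_add]; congr 1
            rw [this, mul_zero, pow_zero]; field_simp
        _ ≤ _ := by gcongr
    have b2 : (K ^ 2)⁻¹ * S2 ≤ C2 * N ^ (2 * κ) / N * Sl Q R c l := by
      calc (K ^ 2)⁻¹ * S2 ≤ (K ^ 2)⁻¹ * (C2 * (K ^ (2 * (κ + 2)) * K' ^ (2 * κ) / K ^ 2) / N *
            Sl Q R c l) := mul_le_mul_of_nonneg_left hb2 (by positivity)
        _ = C2 * (K ^ (2 * κ) * K' ^ (2 * κ)) / N * Sl Q R c l := by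
            have : K ^ (2 * (κ + 2)) = K ^ (2 * κ) * K ^ 4 := by rw [← pow_add]; congr 1
            rw [this]; field_simp
        _ = _ := by rw [hKKN]
    have b3 : K ^ 2 * S3 ≤ C3 * N ^ (2 * κ) / N * Sl Q R c l := by
      calc K ^ 2 * S3 ≤ K ^ 2 * (C3 * (K ^ (2 * κ) * K' ^ (2 * 0) / K ^ 2) / N *
            Sl Q R c l) := mul_le_mul_of_nonneg_left hb3 (by positivity)
        _ = C3 * K ^ (2 * κ) / N * Sl Q R c l := by
            rw [mul_zero, pow_zero]; field_simp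
        _ ≤ _ := by gcongr
    have b4 : K ^ 2 * S4 ≤ C4 * N ^ (2 * κ) / N * Sl Q R c l := by
      calc K ^ 2 * S4 ≤ K ^ 2 * (C4 * (K ^ (2 * κ) * K' ^ (2 * κ) / K ^ 2) / N *
            Sl Q R c l) := mul_le_mul_of_nonneg_left hb4 (by positivity)
        _ = C4 * (K ^ (2 * κ) * K' ^ (2 * κ)) / N * Sl Q R c l := by field_simp
        _ = _ := by rw [hKKN]
    calc D * ((K ^ 2)⁻¹ * (S1 + S2) + K ^ 2 * (S3 + S4))
        = D * ((K ^ 2)⁻¹ * S1 + (K ^ 2)⁻¹ * S2 + K ^ 2 * S3 + K ^ 2 * S4) := by ring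
      _ ≤ D * (C1 * N ^ (2 * κ) / N * Sl Q R c l + C2 * N ^ (2 * κ) / N * Sl Q R c l +
          C3 * N ^ (2 * κ) / N * Sl Q R c l + C4 * N ^ (2 * κ) / N * Sl Q R c l) :=
          mul_le_mul_of_nonneg_left (by linarith) hD0
      _ = _ := by ring
  choose! S hS hSb using hlev
  refine ⟨∑ l ∈ Finset.range R, S l, hasSum_sum hS, ?_⟩
  rw [Finset.mul_sum]
  exact Finset.sum_le_sum hSb

end F1Aux

open F1Aux

/-- TARGET 1. -/
theorem f1_continuous (hA : Nice AA) (hB : Nice bb)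
    (hpsi : ∀ K x0 x, deriv (pb AA K x0) x = Real.pi * K * psi K x0 x) (Q R : ℕ) (hQ : 0 < Q)
    (c : ℕ → ℕ → Fin (2 * Q ^ (R + 1)) → ℝ) : Continuous (f1 Q R c) := by
  rw [f1_eq]
  exact continuous_finsetSum _ fun l _ => lev_cont hA hB hpsi Q R hQ c l

/-- TARGET 2. -/
theorem f1_integral (hA : Nice AA) (hB : Nice bb)
    (hpsi : ∀ K x0 x, deriv (pb AA K x0) x = Real.pi * K * psi K x0 x) (Q R : ℕ) (hQ : 0 < Q)
    (c : ℕ → ℕ → Fin (2 * Q ^ (R + 1)) → ℝ) : ∫ x, f1 Q R c x = 0 := by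
  have h1 := fc_f1 hA hB hpsi Q R hQ c 0
  have h2 : fc (f1 Q R c) 0 = ((∫ x, f1 Q R c x : ℝ) : ℂ) := by
    unfold fc
    rw [← integral_complex_ofReal]
    congr 1
    funext x
    simp
  rw [h2] at h1
  have h3 : ((∫ x, f1 Q R c x : ℝ) : ℂ) = 0 := by
    rw [h1]
    apply Finset.sum_eq_zero
    intro l _
    simp
  exact_mod_cast h3

/-- TARGET 3: the norm of the first part. -/
theorem f1_norm (hA : Nice AA) (hB : Nice bb) (hblk : BlkNorm AA bb)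
    (hpsi : ∀ K x0 x, deriv (pb AA K x0) x = Real.pi * K * psi K x0 x) (k : ℝ) (hk : 0 ≤ k) :
    ∃ C : ℝ, 0 ≤ C ∧ ∀ (Q R : ℕ) (c : ℕ → ℕ → Fin (2 * Q ^ (R + 1)) → ℝ), 2 ≤ Q →
      (Summable fun h => ‖fc (f1 Q R c) h‖ ^ 2 * wt k h) ∧
      ∑' h, ‖fc (f1 Q R c) h‖ ^ 2 * wt k h ≤
        C * ((Q : ℝ) ^ (R + 1)) ^ (2 * k) / (Q : ℝ) ^ (R + 1) *
          ∑ l ∈ Finset.range R, ∑ a ∈ Finset.range (Q ^ l), ∑ m, c l a m ^ 2 := by
  obtain ⟨κ, hκ⟩ := exists_nat_ge k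
  obtain ⟨C0, hC00, hC0⟩ := MM_sum hA hB hblk 0
  obtain ⟨C1, hC10, hC1⟩ := MM_sum hA hB hblk κ
  refine ⟨C0 + C1, by positivity, fun Q R c hQ => ?_⟩
  obtain ⟨S0, hS0, hb0⟩ := hC0 Q R c hQ
  obtain ⟨S1, hS1, hb1⟩ := hC1 Q R c hQ
  have hQ0 : 0 < Q := by omega
  have hQr : (1 : ℝ) ≤ Q := by exact_mod_cast hQ0
  set N : ℝ := (Q : ℝ) ^ (R + 1) with hN
  have hN1 : 1 ≤ N := one_le_pow₀ hQr
  have hN0 : 0 < N := by linarith
  set P : ℝ := N ^ (2 * k) with hP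
  have hP0 : 0 ≤ P := by positivity
  have hmaj : HasSum (fun h => P * MM Q R c 0 h + P * (N ^ (2 * κ))⁻¹ * MM Q R c κ h)
      (P * S0 + P * (N ^ (2 * κ))⁻¹ * S1) := (hS0.mul_left P).add (hS1.mul_left _)
  have hpt : ∀ h : Fin 2 → ℤ, ‖fc (f1 Q R c) h‖ ^ 2 * wt k h ≤
      P * MM Q R c 0 h + P * (N ^ (2 * κ))⁻¹ * MM Q R c κ h := by
    intro h
    have p0 := pointwise hA hB hpsi Q R hQ c 0 h
    have p1 := pointwise hA hB hpsi Q R hQ c κ h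
    rw [pow_zero, one_mul] at p0
    set w : ℝ := (1 + (h 0 : ℝ) ^ 2) * (1 + (h 1 : ℝ) ^ 2) with hw
    have hw0 : 0 < w := by positivity
    have hwt : wt k h = w ^ k := by
      unfold wt
      rw [Fin.prod_univ_two, hw, Real.mul_rpow (by positivity) (by positivity)]
    have hwk : w ^ k ≤ P * (1 + (N ^ (2 * κ))⁻¹ * w ^ κ) := by
      have hz0 : 0 < w / N ^ 2 := by positivity
      have e1 : w ^ k = P * (w / N ^ 2) ^ k := by
        rw [hP, Real.div_rpow hw0.le (by positivity), ← Real.rpow_natCast N 2,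
          ← Real.rpow_mul hN0.le]
        push_cast
        field_simp
      have e2 : (w / N ^ 2) ^ κ = (N ^ (2 * κ))⁻¹ * w ^ κ := by
        rw [div_pow, ← pow_mul]; field_simp
      rw [e1, ← e2]
      apply mul_le_mul_of_nonneg_left _ hP0
      rcases le_total (w / N ^ 2) 1 with h1 | h1
      · have := Real.rpow_le_one hz0.le h1 hk
        have : 0 ≤ (w / N ^ 2) ^ κ := by positivity
        linarith
      · have h2 : (w / N ^ 2) ^ k ≤ (w / N ^ 2) ^ (κ : ℝ) :=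
          Real.rpow_le_rpow_of_exponent_le h1 hκ
        rw [Real.rpow_natCast] at h2
        linarith
    rw [hwt]
    calc ‖fc (f1 Q R c) h‖ ^ 2 * w ^ k
        ≤ ‖fc (f1 Q R c) h‖ ^ 2 * (P * (1 + (N ^ (2 * κ))⁻¹ * w ^ κ)) :=
          mul_le_mul_of_nonneg_left hwk (sq_nonneg _)
      _ = P * ‖fc (f1 Q R c) h‖ ^ 2 + P * (N ^ (2 * κ))⁻¹ * (w ^ κ * ‖fc (f1 Q R c) h‖ ^ 2) := by
          ring
      _ ≤ _ := add_le_add (mul_le_mul_of_nonneg_left p0 hP0)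
          (mul_le_mul_of_nonneg_left p1 (by positivity))
  have hnn : ∀ h : Fin 2 → ℤ, 0 ≤ ‖fc (f1 Q R c) h‖ ^ 2 * wt k h := by
    intro h
    unfold wt
    positivity
  have hsum : Summable fun h => ‖fc (f1 Q R c) h‖ ^ 2 * wt k h :=
    Summable.of_nonneg_of_le hnn hpt hmaj.summable
  refine ⟨hsum, ?_⟩
  have h1 : ∑' h, ‖fc (f1 Q R c) h‖ ^ 2 * wt k h ≤ P * S0 + P * (N ^ (2 * κ))⁻¹ * S1 := by
    rw [← hmaj.tsum_eq]
    exact hsum.tsum_le_tsum hpt hmaj.summable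
  refine h1.trans ?_
  set Sc : ℝ := ∑ l ∈ Finset.range R, Sl Q R c l with hSc
  have hgoal : ∑ l ∈ Finset.range R, ∑ a ∈ Finset.range (Q ^ l), ∑ m, c l a m ^ 2 = Sc := rfl
  rw [hgoal]
  rw [mul_zero, pow_zero, mul_one] at hb0
  calc P * S0 + P * (N ^ (2 * κ))⁻¹ * S1 ≤ P * (C0 / N * Sc) +
        P * (N ^ (2 * κ))⁻¹ * (C1 * N ^ (2 * κ) / N * Sc) :=
        add_le_add (mul_le_mul_of_nonneg_left hb0 hP0)
          (mul_le_mul_of_nonneg_left hb1 (by positivity))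
    _ = (C0 + C1) * P / N * Sc := by field_simp

end

end Pool.Agent.Helper150.Iid.NF1
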