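import Mathlib
import Pool.Agent.Helper150.Iid.FDefs

set_option autoImplicit false

namespace Pool.Agent.Helper150.Iid.NF2

open MeasureTheory
open scoped ContDiff

noncomputable section

/-- TARGET 1. -/
theorem f2_continuous (hB : Nice bb) (n Λ : ℕ) (lam : Fin n → ℕ) (xc yc : Fin n → ℝ)
    (r : Fin n → ℝ) : Continuous (f2 n Λ lam xc yc r) := by
  unfold f2
  apply continuous_finsetSum
  intro i _
  have c1 := cf_continuous (hB.per ((2 : ℝ) ^ lam i) (xc i)) (hB.smooth _ _).continuous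
  have c2 := cf_continuous (hB.per ((2 : ℝ) ^ (Λ - lam i)) (yc i)) (hB.smooth _ _).continuous
  exact (continuous_const.mul (c1.comp (continuous_apply 0))).mul (c2.comp (continuous_apply 1))

theorem f66_int_cf (hB : Nice bb) : ∃ C : ℝ, 0 ≤ C ∧ ∀ K x0 : ℝ, 1 ≤ K →
    |∫ t : UnitAddCircle, cf (pb bb K x0) t| ≤ C * (1 / K) := by
  obtain ⟨C, hC0, hC⟩ := hB.bound 0
  refine ⟨C, hC0, fun K x0 hK => ?_⟩
  have hKpos : 0 < K := by linarith
  have hz : ∀ t : UnitAddCircle, t ∉ Metric.closedBall (x0 : UnitAddCircle) (1 / (2 * K)) →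
      cf (pb bb K x0) t = 0 := by
    intro t ht
    obtain ⟨x, rfl⟩ := QuotientAddGroup.mk_surjective t
    have h1 := cf_coe (hB.per K x0) x
    refine h1.trans ?_
    have h2 := hB.zero 0 K x0 x hK (by
      rw [Metric.mem_closedBall, not_le, dist_eq_norm] at ht
      have h3 : ((x - x0 : ℝ) : UnitAddCircle) = (x : UnitAddCircle) - (x0 : UnitAddCircle) :=
        AddCircle.coe_sub (1 : ℝ) x x0
      rw [h3]
      exact ht.le)
    rwa [iteratedDeriv_zero] at h2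
  rw [← setIntegral_eq_integral_of_forall_compl_eq_zero
    (s := Metric.closedBall (x0 : UnitAddCircle) (1 / (2 * K))) hz]
  have hfin : (volume : Measure UnitAddCircle)
      (Metric.closedBall (x0 : UnitAddCircle) (1 / (2 * K))) < ⊤ := measure_lt_top _ _
  have h4 := norm_setIntegral_le_of_norm_le_const (μ := (volume : Measure UnitAddCircle))
    (s := Metric.closedBall (x0 : UnitAddCircle) (1 / (2 * K)))
    (f := cf (pb bb K x0)) (C := C) hfin (by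
      intro t _
      obtain ⟨x, rfl⟩ := QuotientAddGroup.mk_surjective t
      have h1 := cf_coe (hB.per K x0) x
      have h2 := hC K x0 x hK
      rw [iteratedDeriv_zero, pow_zero, mul_one] at h2
      rw [Real.norm_eq_abs]
      have h3 : cf (pb bb K x0) (QuotientAddGroup.mk x) = pb bb K x0 x := h1
      rw [h3]
      exact h2)
  rw [Real.norm_eq_abs] at h4
  refine h4.trans ?_
  refine mul_le_mul_of_nonneg_left ?_ hC0
  unfold Measure.real
  have h5 : (volume : Measure UnitAddCircle)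
      (Metric.closedBall (x0 : UnitAddCircle) (1 / (2 * K))) =
      ENNReal.ofReal (min (1 : ℝ) (2 * (1 / (2 * K)))) :=
    AddCircle.volume_closedBall (T := (1 : ℝ)) (x := (x0 : UnitAddCircle)) (1 / (2 * K))
  rw [h5]
  have h6 : 2 * (1 / (2 * K)) = 1 / K := by field_simp
  rw [h6]
  rw [ENNReal.toReal_ofReal (by positivity)]
  exact min_le_right _ _

/-- TARGET 2. -/
theorem f2_integral (hB : Nice bb) (hblk : BlkNorm bb bb) : ∃ C : ℝ, 0 ≤ C ∧
    ∀ (n Λ : ℕ) (lam : Fin n → ℕ) (xc yc : Fin n → ℝ) (r : Fin n → ℝ), (∀ i, lam i ≤ Λ) →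
    |∫ x, f2 n Λ lam xc yc r x| ≤ C / 2 ^ Λ * ∑ i, |r i| := by
  obtain ⟨C, hC0, hC⟩ := f66_int_cf hB
  refine ⟨C * C, by positivity, fun n Λ lam xc yc r hlam => ?_⟩
  unfold f2
  rw [integral_finsetSum]
  · refine (Finset.abs_sum_le_sum_abs _ _).trans ?_
    rw [Finset.mul_sum]
    refine Finset.sum_le_sum fun i _ => ?_
    have e1 : ∀ x : Tor 2, r i * cf (pb bb ((2 : ℝ) ^ lam i) (xc i)) (x 0) *
        cf (pb bb ((2 : ℝ) ^ (Λ - lam i)) (yc i)) (x 1) =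
        r i * (cf (pb bb ((2 : ℝ) ^ lam i) (xc i)) (x 0) *
        cf (pb bb ((2 : ℝ) ^ (Λ - lam i)) (yc i)) (x 1)) := fun x => by ring
    simp only [e1]
    rw [integral_const_mul]
    have key := integral_fintype_prod_volume_eq_prod (ι := Fin 2) (𝕜 := ℝ)
      (E := fun _ => UnitAddCircle)
      (f := ![cf (pb bb ((2 : ℝ) ^ lam i) (xc i)), cf (pb bb ((2 : ℝ) ^ (Λ - lam i)) (yc i))])
    simp only [Fin.prod_univ_two] at key
    have key' : ∫ x : Tor 2, (cf (pb bb ((2 : ℝ) ^ lam i) (xc i)) (x 0) *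
        cf (pb bb ((2 : ℝ) ^ (Λ - lam i)) (yc i)) (x 1)) =
        (∫ t, cf (pb bb ((2 : ℝ) ^ lam i) (xc i)) t) *
        ∫ t, cf (pb bb ((2 : ℝ) ^ (Λ - lam i)) (yc i)) t := key
    rw [key', abs_mul, abs_mul]
    have h1 := hC ((2 : ℝ) ^ lam i) (xc i) (one_le_pow₀ (by norm_num))
    have h2 := hC ((2 : ℝ) ^ (Λ - lam i)) (yc i) (one_le_pow₀ (by norm_num))
    have h3 : (2 : ℝ) ^ Λ = (2 : ℝ) ^ lam i * (2 : ℝ) ^ (Λ - lam i) := by
      rw [← pow_add]
      congr 1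
      have := hlam i
      omega
    have h4 := mul_le_mul h1 h2 (abs_nonneg _) (by positivity)
    calc |r i| * (|∫ t, cf (pb bb ((2 : ℝ) ^ lam i) (xc i)) t| *
          |∫ t, cf (pb bb ((2 : ℝ) ^ (Λ - lam i)) (yc i)) t|)
        ≤ |r i| * (C * (1 / (2 : ℝ) ^ lam i) * (C * (1 / (2 : ℝ) ^ (Λ - lam i)))) :=
          mul_le_mul_of_nonneg_left h4 (abs_nonneg _)
      _ = C * C / 2 ^ Λ * |r i| := by
          rw [h3]
          field_simp
  · intro i _
    have c1 := cf_continuous (hB.per ((2 : ℝ) ^ lam i) (xc i)) (hB.smooth _ _).continuous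
    have c2 := cf_continuous (hB.per ((2 : ℝ) ^ (Λ - lam i)) (yc i)) (hB.smooth _ _).continuous
    have c3 : Continuous fun x : Tor 2 => r i * cf (pb bb ((2 : ℝ) ^ lam i) (xc i)) (x 0) *
        cf (pb bb ((2 : ℝ) ^ (Λ - lam i)) (yc i)) (x 1) :=
      (continuous_const.mul (c1.comp (continuous_apply 0))).mul (c2.comp (continuous_apply 1))
    exact c3.integrable_of_hasCompactSupport (HasCompactSupport.of_compactSpace _)

/-- elementary bound for the weight -/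
theorem f66_w1 (κ : ℕ) (a : ℝ) : (1 + a ^ 2) ^ κ ≤ 2 ^ κ * (1 + (2 * Real.pi * a) ^ (2 * κ)) := by
  have hpi : (1 : ℝ) ≤ 2 * Real.pi := by
    have := Real.pi_gt_three
    linarith
  have h1 : a ^ 2 ≤ (2 * Real.pi * a) ^ 2 := by
    rw [mul_pow]
    have : (1 : ℝ) ≤ (2 * Real.pi) ^ 2 := one_le_pow₀ hpi
    nlinarith [sq_nonneg a]
  set t := (2 * Real.pi * a) ^ 2 with ht
  have ht0 : 0 ≤ t := by positivity
  have h2 : (1 + a ^ 2) ^ κ ≤ (1 + t) ^ κ :=
    pow_le_pow_left₀ (by positivity) (by linarith) κ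
  refine h2.trans ?_
  rw [pow_mul, ← ht]
  rcases le_total t 1 with h | h
  · calc (1 + t) ^ κ ≤ 2 ^ κ := pow_le_pow_left₀ (by positivity) (by linarith) κ
      _ = 2 ^ κ * 1 := (mul_one _).symm
      _ ≤ 2 ^ κ * (1 + t ^ κ) := by
          refine mul_le_mul_of_nonneg_left ?_ (by positivity)
          have : 0 ≤ t ^ κ := by positivity
          linarith
  · calc (1 + t) ^ κ ≤ (2 * t) ^ κ := pow_le_pow_left₀ (by positivity) (by linarith) κ
      _ = 2 ^ κ * t ^ κ := mul_pow _ _ _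
      _ ≤ 2 ^ κ * (1 + t ^ κ) := by
          refine mul_le_mul_of_nonneg_left ?_ (by positivity)
          linarith

theorem f66_w2 (k : ℝ) (hk : 0 ≤ k) (κ : ℕ) (hκ : k ≤ κ) (N : ℝ) (hN : 1 ≤ N) (w : ℝ)
    (hw : 1 ≤ w) : w ^ k ≤ N ^ (2 * k) * (1 + w ^ κ / N ^ (2 * κ)) := by
  have hN0 : 0 < N := by linarith
  have hw0 : 0 < w := by linarith
  have e1 : N ^ (2 * k) = (N ^ 2) ^ k := by
    rw [Real.rpow_mul hN0.le, Real.rpow_two]
  have h0 : 0 ≤ w ^ κ / N ^ (2 * κ) := by positivity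
  rw [e1]
  rcases le_total w (N ^ 2) with h | h
  · calc w ^ k ≤ (N ^ 2) ^ k := Real.rpow_le_rpow hw0.le h hk
      _ = (N ^ 2) ^ k * 1 := (mul_one _).symm
      _ ≤ _ := by
          refine mul_le_mul_of_nonneg_left ?_ (by positivity)
          linarith
  · have h1 : 1 ≤ w / N ^ 2 := by
      rw [le_div_iff₀ (by positivity)]
      linarith
    have h2 : (w / N ^ 2) ^ k ≤ (w / N ^ 2) ^ (κ : ℝ) := Real.rpow_le_rpow_of_exponent_le h1 hκ
    rw [Real.rpow_natCast, div_pow, ← pow_mul] at h2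
    have h3 : w ^ k = (N ^ 2) ^ k * (w / N ^ 2) ^ k := by
      rw [← Real.mul_rpow (by positivity) (by positivity)]
      congr 1
      field_simp
    rw [h3]
    refine mul_le_mul_of_nonneg_left ?_ (by positivity)
    linarith

theorem f66_w3 (k : ℝ) (hk : 0 ≤ k) (κ : ℕ) (hκ : k ≤ κ) (N : ℝ) (hN : 1 ≤ N) (h : Fin 2 → ℤ) :
    wt k h ≤ N ^ (2 * k) * (1 + 4 ^ κ / N ^ (2 * κ) *
      (1 + (2 * Real.pi * (h 0 : ℝ)) ^ (2 * κ) + (2 * Real.pi * (h 1 : ℝ)) ^ (2 * κ) +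
        (2 * Real.pi * (h 0 : ℝ)) ^ (2 * κ) * (2 * Real.pi * (h 1 : ℝ)) ^ (2 * κ))) := by
  unfold wt
  rw [Fin.prod_univ_two, ← Real.mul_rpow (by positivity) (by positivity)]
  have hw : 1 ≤ (1 + (h 0 : ℝ) ^ 2) * (1 + (h 1 : ℝ) ^ 2) := by
    nlinarith [sq_nonneg (h 0 : ℝ), sq_nonneg (h 1 : ℝ),
      mul_nonneg (sq_nonneg (h 0 : ℝ)) (sq_nonneg (h 1 : ℝ))]
  refine (f66_w2 k hk κ hκ N hN _ hw).trans ?_
  have hN0 : 0 < N := by linarith
  refine mul_le_mul_of_nonneg_left ?_ (by positivity)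
  refine add_le_add le_rfl ?_
  rw [div_mul_eq_mul_div, mul_pow]
  refine div_le_div_of_nonneg_right ?_ (by positivity)
  have h1 := f66_w1 κ (h 0 : ℝ)
  have h2 := f66_w1 κ (h 1 : ℝ)
  have h0' : 0 ≤ (2 * Real.pi * (h 0 : ℝ)) ^ (2 * κ) := Even.pow_nonneg (even_two_mul κ) _
  have h3 := mul_le_mul h1 h2 (by positivity)
    (mul_nonneg (by positivity) (by linarith))
  refine h3.trans (le_of_eq ?_)
  have h4 : (4 : ℝ) ^ κ = 2 ^ κ * 2 ^ κ := by
    rw [← mul_pow]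
    norm_num
  rw [h4]
  ring

/-- the norm of one block -/
theorem f66_blk (hB : Nice bb) (hblk : BlkNorm bb bb) (k : ℝ) (hk : 0 ≤ k) :
    ∃ C : ℝ, 0 ≤ C ∧ ∀ (n : ℕ) (s : Finset (Fin n)) (xc yc : Fin n → ℝ) (r : Fin n → ℝ)
      (K K' : ℝ), 1 ≤ K → 1 ≤ K' →
      (∀ i ∈ s, ∀ j ∈ s, i ≠ j →
        ¬ (‖((xc i : UnitAddCircle)) - (xc j : UnitAddCircle)‖ < 1 / K ∧
          ‖((yc i : UnitAddCircle)) - (yc j : UnitAddCircle)‖ < 1 / K')) →
      (Summable fun h : Fin 2 → ℤ => ‖fc (d := 2) (fun x => ∑ b ∈ s,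
        r b * cf (pb bb K (xc b)) (x 0) * cf (pb bb K' (yc b)) (x 1)) h‖ ^ 2 * wt k h) ∧
      ∑' h : Fin 2 → ℤ, ‖fc (d := 2) (fun x => ∑ b ∈ s,
        r b * cf (pb bb K (xc b)) (x 0) * cf (pb bb K' (yc b)) (x 1)) h‖ ^ 2 * wt k h ≤
        C * (K * K') ^ (2 * k) / (K * K') * ∑ b ∈ s, r b ^ 2 := by
  obtain ⟨κ, hκ⟩ := exists_nat_ge k
  obtain ⟨C00, c00, H00⟩ := hblk 0 0
  obtain ⟨C10, c10, H10⟩ := hblk κ 0
  obtain ⟨C01, c01, H01⟩ := hblk 0 κ
  obtain ⟨C11, c11, H11⟩ := hblk κ κ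
  refine ⟨C00 + 4 ^ κ * (C00 + C10 + C01 + C11), by positivity, ?_⟩
  intro n s xc yc r K K' hK hK' hsep
  set G : (Fin 2 → ℤ) → ℝ := fun h => ‖fc (d := 2) (fun x => ∑ b ∈ s,
        r b * cf (pb bb K (xc b)) (x 0) * cf (pb bb K' (yc b)) (x 1)) h‖ ^ 2 with hG
  have hG0 : ∀ h, 0 ≤ G h := fun h => sq_nonneg _
  have hK0 : 0 < K := by linarith
  have hK0' : 0 < K' := by linarith
  set N : ℝ := K * K' with hN
  have hN1 : 1 ≤ N := by nlinarith
  have hN0 : 0 < N := by linarith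
  set S : ℝ := ∑ b ∈ s, r b ^ 2 with hS
  have hS0 : 0 ≤ S := Finset.sum_nonneg fun b _ => sq_nonneg _
  -- overlap
  have hover : ∀ x : Tor 2, (open Classical in
        (s.filter (fun b => ‖x 0 - (xc b : UnitAddCircle)‖ < 1 / (2 * K) ∧
          ‖x 1 - (yc b : UnitAddCircle)‖ < 1 / (2 * K'))).card) ≤ 1 := by
    intro x
    classical
    rw [Finset.card_le_one]
    intro a ha b hb
    by_contra hab
    rw [Finset.mem_filter] at ha hb
    refine hsep a ha.1 b hb.1 hab ⟨?_, ?_⟩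
    · have h1 : (xc a : UnitAddCircle) - (xc b : UnitAddCircle) =
          (x 0 - (xc b : UnitAddCircle)) - (x 0 - (xc a : UnitAddCircle)) := by abel
      rw [h1]
      refine (norm_sub_le _ _).trans_lt ?_
      have h2 := add_lt_add hb.2.1 ha.2.1
      refine h2.trans_le (le_of_eq ?_)
      field_simp
      norm_num
    · have h1 : (yc a : UnitAddCircle) - (yc b : UnitAddCircle) =
          (x 1 - (yc b : UnitAddCircle)) - (x 1 - (yc a : UnitAddCircle)) := by abel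
      rw [h1]
      refine (norm_sub_le _ _).trans_lt ?_
      have h2 := add_lt_add hb.2.2 ha.2.2
      refine h2.trans_le (le_of_eq ?_)
      field_simp
      norm_num
  have hpar := fun p q : ℕ => parseval_deriv s r (fun b => pb bb K (xc b))
    (fun b => pb bb K' (yc b)) (fun b => hB.smooth _ _) (fun b => hB.smooth _ _)
    (fun b => hB.per _ _) (fun b => hB.per _ _) p q
  have b00 := H00 (Fin n) s r K K' xc yc 1 hK hK' hover
  have b10 := H10 (Fin n) s r K K' xc yc 1 hK hK' hover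
  have b01 := H01 (Fin n) s r K K' xc yc 1 hK hK' hover
  have b11 := H11 (Fin n) s r K K' xc yc 1 hK hK' hover
  have p00 := hpar 0 0
  have p10 := hpar κ 0
  have p01 := hpar 0 κ
  have p11 := hpar κ κ
  have hKκ : (1 : ℝ) ≤ K ^ (2 * κ) := one_le_pow₀ hK
  have hKκ' : (1 : ℝ) ≤ K' ^ (2 * κ) := one_le_pow₀ hK'
  have hNκ : N ^ (2 * κ) = K ^ (2 * κ) * K' ^ (2 * κ) := by rw [hN, mul_pow]
  -- the dominating sum
  have hdom := (p00.add (((((p00.add p10).add p01).add p11)).mul_left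
    (4 ^ κ / N ^ (2 * κ)))).mul_left (N ^ (2 * k))
  have hle : ∀ h : Fin 2 → ℤ, G h * wt k h ≤ N ^ (2 * k) *
      ((2 * Real.pi * (h 0 : ℝ)) ^ (2 * 0) * (2 * Real.pi * (h 1 : ℝ)) ^ (2 * 0) * G h +
        4 ^ κ / N ^ (2 * κ) *
        ((2 * Real.pi * (h 0 : ℝ)) ^ (2 * 0) * (2 * Real.pi * (h 1 : ℝ)) ^ (2 * 0) * G h +
         (2 * Real.pi * (h 0 : ℝ)) ^ (2 * κ) * (2 * Real.pi * (h 1 : ℝ)) ^ (2 * 0) * G h +
         (2 * Real.pi * (h 0 : ℝ)) ^ (2 * 0) * (2 * Real.pi * (h 1 : ℝ)) ^ (2 * κ) * G h +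
         (2 * Real.pi * (h 0 : ℝ)) ^ (2 * κ) * (2 * Real.pi * (h 1 : ℝ)) ^ (2 * κ) * G h)) := by
    intro h
    have h1 := mul_le_mul_of_nonneg_left (f66_w3 k hk κ hκ N hN1 h) (hG0 h)
    refine h1.trans (le_of_eq ?_)
    simp only [mul_zero, pow_zero]
    ring
  have hwt0 : ∀ h : Fin 2 → ℤ, 0 ≤ wt k h := fun h =>
    Finset.prod_nonneg fun j _ => Real.rpow_nonneg (by positivity) _
  have hsum : Summable fun h => G h * wt k h :=
    Summable.of_nonneg_of_le (fun h => mul_nonneg (hG0 h) (hwt0 h)) hle hdom.summable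
  refine ⟨hsum, ?_⟩
  refine (hsum.tsum_le_tsum hle hdom.summable).trans ?_
  rw [hdom.tsum_eq]
  have q00 : (∫ x : Tor 2, (∑ b ∈ s, r b * cf (iteratedDeriv 0 (pb bb K (xc b))) (x 0) *
        cf (iteratedDeriv 0 (pb bb K' (yc b))) (x 1)) ^ 2) ≤ C00 * (1 / N * S) := by
    refine b00.trans (le_of_eq ?_)
    simp only [Nat.cast_one, mul_zero, pow_zero, mul_one]
    ring
  have q00' : (∫ x : Tor 2, (∑ b ∈ s, r b * cf (iteratedDeriv 0 (pb bb K (xc b))) (x 0) *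
        cf (iteratedDeriv 0 (pb bb K' (yc b))) (x 1)) ^ 2) ≤
        C00 * N ^ (2 * κ) * (1 / N * S) := by
    refine q00.trans ?_
    have h1 : (1 : ℝ) ≤ N ^ (2 * κ) := one_le_pow₀ hN1
    have h2 : 0 ≤ 1 / N * S := by positivity
    nlinarith [mul_nonneg c00 h2]
  have q10 : (∫ x : Tor 2, (∑ b ∈ s, r b * cf (iteratedDeriv κ (pb bb K (xc b))) (x 0) *
        cf (iteratedDeriv 0 (pb bb K' (yc b))) (x 1)) ^ 2) ≤
        C10 * N ^ (2 * κ) * (1 / N * S) := by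
    refine b10.trans ?_
    have h2 : 0 ≤ 1 / N * S := by positivity
    have h3 : C10 * (1 : ℕ) * K ^ (2 * κ) * K' ^ (2 * 0) / N * S =
        C10 * K ^ (2 * κ) * (1 / N * S) := by
      simp only [Nat.cast_one, mul_zero, pow_zero, mul_one]
      ring
    rw [h3]
    refine mul_le_mul_of_nonneg_right ?_ h2
    refine mul_le_mul_of_nonneg_left ?_ c10
    rw [hNκ]
    nlinarith
  have q01 : (∫ x : Tor 2, (∑ b ∈ s, r b * cf (iteratedDeriv 0 (pb bb K (xc b))) (x 0) *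
        cf (iteratedDeriv κ (pb bb K' (yc b))) (x 1)) ^ 2) ≤
        C01 * N ^ (2 * κ) * (1 / N * S) := by
    refine b01.trans ?_
    have h2 : 0 ≤ 1 / N * S := by positivity
    have h3 : C01 * (1 : ℕ) * K ^ (2 * 0) * K' ^ (2 * κ) / N * S =
        C01 * K' ^ (2 * κ) * (1 / N * S) := by
      simp only [Nat.cast_one, mul_zero, pow_zero, mul_one]
      ring
    rw [h3]
    refine mul_le_mul_of_nonneg_right ?_ h2
    refine mul_le_mul_of_nonneg_left ?_ c01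
    rw [hNκ]
    nlinarith
  have q11 : (∫ x : Tor 2, (∑ b ∈ s, r b * cf (iteratedDeriv κ (pb bb K (xc b))) (x 0) *
        cf (iteratedDeriv κ (pb bb K' (yc b))) (x 1)) ^ 2) ≤
        C11 * N ^ (2 * κ) * (1 / N * S) := by
    refine b11.trans (le_of_eq ?_)
    rw [hNκ]
    simp only [Nat.cast_one, mul_one]
    ring
  have hfin : 4 ^ κ / N ^ (2 * κ) * (C00 * N ^ (2 * κ) * (1 / N * S) +
      C10 * N ^ (2 * κ) * (1 / N * S) + C01 * N ^ (2 * κ) * (1 / N * S) +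
      C11 * N ^ (2 * κ) * (1 / N * S)) = 4 ^ κ * (C00 + C10 + C01 + C11) * (1 / N * S) := by
    field_simp
  have hgoal : (C00 + 4 ^ κ * (C00 + C10 + C01 + C11)) * N ^ (2 * k) / N * S =
      N ^ (2 * k) * (C00 * (1 / N * S) + 4 ^ κ * (C00 + C10 + C01 + C11) * (1 / N * S)) := by
    ring
  rw [hgoal, ← hfin]
  refine mul_le_mul_of_nonneg_left ?_ (by positivity)
  refine add_le_add q00 ?_
  refine mul_le_mul_of_nonneg_left ?_ (by positivity)
  exact add_le_add (add_le_add (add_le_add q00' q10) q01) q11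

/-- TARGET 3: the norm of the second part. -/
theorem f2_norm (hB : Nice bb) (hblk : BlkNorm bb bb) (k : ℝ) (hk : 0 ≤ k) :
    ∃ C : ℝ, 0 ≤ C ∧ ∀ (n Λ : ℕ) (lam : Fin n → ℕ) (xc yc : Fin n → ℝ) (r : Fin n → ℝ),
      (∀ i, lam i ≤ Λ) →
      (∀ i j, i ≠ j → lam i = lam j →
        ¬ (‖((xc i : UnitAddCircle)) - (xc j : UnitAddCircle)‖ < 1 / 2 ^ lam i ∧
          ‖((yc i : UnitAddCircle)) - (yc j : UnitAddCircle)‖ < 1 / 2 ^ (Λ - lam i))) →
      (Summable fun h => ‖fc (f2 n Λ lam xc yc r) h‖ ^ 2 * wt k h) ∧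
      ∑' h, ‖fc (f2 n Λ lam xc yc r) h‖ ^ 2 * wt k h ≤
        C * ((Λ : ℝ) + 1) * ((2 : ℝ) ^ Λ) ^ (2 * k) / (2 : ℝ) ^ Λ * ∑ i, r i ^ 2 := by
  obtain ⟨C, hC0, hC⟩ := f66_blk hB hblk k hk
  refine ⟨C, hC0, fun n Λ lam xc yc r hlam hsep => ?_⟩
  -- the blocks
  set s : ℕ → Finset (Fin n) := fun v => Finset.univ.filter (fun i => lam i = v) with hs
  set F : ℕ → Tor 2 → ℝ := fun v x => ∑ b ∈ s v,
        r b * cf (pb bb ((2 : ℝ) ^ v) (xc b)) (x 0) *
          cf (pb bb ((2 : ℝ) ^ (Λ - v)) (yc b)) (x 1) with hF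
  have hblocks : ∀ v ∈ Finset.range (Λ + 1),
      (Summable fun h => ‖fc (F v) h‖ ^ 2 * wt k h) ∧
      ∑' h, ‖fc (F v) h‖ ^ 2 * wt k h ≤
        C * ((2 : ℝ) ^ Λ) ^ (2 * k) / (2 : ℝ) ^ Λ * ∑ i ∈ s v, r i ^ 2 := by
    intro v hv
    have hv' : v ≤ Λ := by
      have := Finset.mem_range.1 hv
      omega
    have h1 := hC n (s v) xc yc r ((2 : ℝ) ^ v) ((2 : ℝ) ^ (Λ - v)) (one_le_pow₀ (by norm_num))
      (one_le_pow₀ (by norm_num)) (by
        intro i hi j hj hij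
        have hi' : lam i = v := (Finset.mem_filter.1 hi).2
        have hj' : lam j = v := (Finset.mem_filter.1 hj).2
        have := hsep i j hij (by rw [hi', hj'])
        rw [hi'] at this
        exact this)
    have h2 : (2 : ℝ) ^ v * (2 : ℝ) ^ (Λ - v) = (2 : ℝ) ^ Λ := by
      rw [← pow_add]
      congr 1
      omega
    rw [h2] at h1
    exact h1
  have hfc : ∀ h, fc (f2 n Λ lam xc yc r) h = ∑ v ∈ Finset.range (Λ + 1), fc (F v) h := by
    intro h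
    have e1 : fc (f2 n Λ lam xc yc r) h = ∑ i, (r i : ℂ) *
        (fone (pb bb ((2 : ℝ) ^ lam i) (xc i)) (h 0) *
          fone (pb bb ((2 : ℝ) ^ (Λ - lam i)) (yc i)) (h 1)) :=
      fc_tensor Finset.univ r (fun i => pb bb ((2 : ℝ) ^ lam i) (xc i))
        (fun i => pb bb ((2 : ℝ) ^ (Λ - lam i)) (yc i)) (fun i => (hB.smooth _ _).continuous)
        (fun i => (hB.smooth _ _).continuous) (fun i => hB.per _ _) (fun i => hB.per _ _) h
    have e2 : ∀ v, fc (F v) h = ∑ i ∈ s v, (r i : ℂ) *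
        (fone (pb bb ((2 : ℝ) ^ lam i) (xc i)) (h 0) *
          fone (pb bb ((2 : ℝ) ^ (Λ - lam i)) (yc i)) (h 1)) := by
      intro v
      have e3 : fc (F v) h = ∑ i ∈ s v, (r i : ℂ) *
        (fone (pb bb ((2 : ℝ) ^ v) (xc i)) (h 0) *
          fone (pb bb ((2 : ℝ) ^ (Λ - v)) (yc i)) (h 1)) :=
        fc_tensor (s v) r (fun i => pb bb ((2 : ℝ) ^ v) (xc i))
        (fun i => pb bb ((2 : ℝ) ^ (Λ - v)) (yc i)) (fun i => (hB.smooth _ _).continuous)
        (fun i => (hB.smooth _ _).continuous) (fun i => hB.per _ _) (fun i => hB.per _ _) h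
      rw [e3]
      refine Finset.sum_congr rfl fun i hi => ?_
      have hi' : lam i = v := (Finset.mem_filter.1 hi).2
      rw [hi']
    rw [e1]
    simp only [e2]
    exact (Finset.sum_fiberwise_of_maps_to (s := Finset.univ) (t := Finset.range (Λ + 1))
      (g := lam) (fun i _ => Finset.mem_range.2 (Nat.lt_succ_of_le (hlam i))) _).symm
  have hwt0 : ∀ h : Fin 2 → ℤ, 0 ≤ wt k h := fun h =>
    Finset.prod_nonneg fun j _ => Real.rpow_nonneg (by positivity) _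
  have hle : ∀ h, ‖fc (f2 n Λ lam xc yc r) h‖ ^ 2 * wt k h ≤
      ((Λ : ℝ) + 1) * ∑ v ∈ Finset.range (Λ + 1), ‖fc (F v) h‖ ^ 2 * wt k h := by
    intro h
    have h1 : ‖fc (f2 n Λ lam xc yc r) h‖ ^ 2 ≤
        ((Λ : ℝ) + 1) * ∑ v ∈ Finset.range (Λ + 1), ‖fc (F v) h‖ ^ 2 := by
      rw [hfc]
      have h2 : ‖∑ v ∈ Finset.range (Λ + 1), fc (F v) h‖ ≤
          ∑ v ∈ Finset.range (Λ + 1), ‖fc (F v) h‖ := norm_sum_le _ _
      have h3 := pow_le_pow_left₀ (norm_nonneg _) h2 2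
      refine h3.trans ?_
      have h4 := sq_sum_le_card_mul_sum_sq (s := Finset.range (Λ + 1))
        (f := fun v => ‖fc (F v) h‖)
      rw [Finset.card_range] at h4
      push_cast at h4
      exact h4
    have h5 := mul_le_mul_of_nonneg_right h1 (hwt0 h)
    refine h5.trans (le_of_eq ?_)
    rw [mul_assoc, Finset.sum_mul]
  have hsumv : Summable fun h => ∑ v ∈ Finset.range (Λ + 1), ‖fc (F v) h‖ ^ 2 * wt k h :=
    summable_sum fun v hv => (hblocks v hv).1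
  have hdom := hsumv.mul_left ((Λ : ℝ) + 1)
  have hsum : Summable fun h => ‖fc (f2 n Λ lam xc yc r) h‖ ^ 2 * wt k h :=
    Summable.of_nonneg_of_le (fun h => mul_nonneg (by positivity) (hwt0 h)) hle hdom
  refine ⟨hsum, ?_⟩
  refine (hsum.tsum_le_tsum hle hdom).trans ?_
  rw [tsum_mul_left, Summable.tsum_finsetSum (fun v hv => (hblocks v hv).1)]
  have h6 : ∑ v ∈ Finset.range (Λ + 1), ∑' h, ‖fc (F v) h‖ ^ 2 * wt k h ≤
      ∑ v ∈ Finset.range (Λ + 1),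
        C * ((2 : ℝ) ^ Λ) ^ (2 * k) / (2 : ℝ) ^ Λ * ∑ i ∈ s v, r i ^ 2 :=
    Finset.sum_le_sum fun v hv => (hblocks v hv).2
  have h7 : ∑ v ∈ Finset.range (Λ + 1), ∑ i ∈ s v, r i ^ 2 = ∑ i, r i ^ 2 :=
    Finset.sum_fiberwise_of_maps_to (s := Finset.univ) (t := Finset.range (Λ + 1))
      (g := lam) (fun i _ => Finset.mem_range.2 (Nat.lt_succ_of_le (hlam i))) _
  rw [← Finset.mul_sum, h7] at h6
  have h8 : 0 ≤ (Λ : ℝ) + 1 := by positivity
  refine (mul_le_mul_of_nonneg_left h6 h8).trans (le_of_eq ?_)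
  ring

end

end Pool.Agent.Helper150.Iid.NF2
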