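import Mathlib
import Pool.Agent.Helper150.Iid.Asm1
import Pool.Agent.Helper150.Iid.NormF1
import Pool.Agent.Helper150.Iid.NormF2

set_option autoImplicit false

namespace Pool.Agent.Helper150.Iid

open MeasureTheory
open scoped ENNReal

noncomputable section

theorem integrable_cont {f : Tor 2 → ℂ} (hf : Continuous f) : Integrable f (volume : Measure (Tor 2)) :=
  hf.integrable_of_hasCompactSupport (HasCompactSupport.of_compactSpace _)

theorem integrable_contR {f : Tor 2 → ℝ} (hf : Continuous f) : Integrable f (volume : Measure (Tor 2)) :=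
  hf.integrable_of_hasCompactSupport (HasCompactSupport.of_compactSpace _)

theorem exp_cont (h : Fin 2 → ℤ) :
    Continuous (fun x : Tor 2 => ∏ j, (fourier (-h j) (x j) : ℂ)) := by
  refine continuous_finsetProd _ fun j _ => ?_
  exact (fourier (-h j)).continuous.comp (continuous_apply j)

theorem fc_sub (f g : Tor 2 → ℝ) (hf : Continuous f) (hg : Continuous g) (h : Fin 2 → ℤ) :
    fc (fun x => f x - g x) h = fc f h - fc g h := by
  unfold fc
  rw [← integral_sub]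
  · refine integral_congr_ae (ae_of_all _ fun x => ?_)
    simp only
    push_cast
    ring
  · exact integrable_cont ((exp_cont h).mul (Complex.continuous_ofReal.comp hf))
  · exact integrable_cont ((exp_cont h).mul (Complex.continuous_ofReal.comp hg))

theorem fc_smul (c : ℝ) (f : Tor 2 → ℝ) (h : Fin 2 → ℤ) :
    fc (fun x => c * f x) h = c * fc f h := by
  unfold fc
  rw [← integral_const_mul]
  refine integral_congr_ae (ae_of_all _ fun x => ?_)
  simp only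
  push_cast
  ring

theorem vol_univ2 : (volume : Measure (Tor 2)) Set.univ = 1 := by
  have : IsProbabilityMeasure (volume : Measure (Tor 2)) := by
    rw [vol_eq]
    infer_instance
  exact measure_univ

instance prob_tor2 : IsProbabilityMeasure (volume : Measure (Tor 2)) := ⟨vol_univ2⟩

theorem fc_one_sum (k : ℝ) : HasSum (fun h => ‖fc (fun _ : Tor 2 => (1 : ℝ)) h‖ ^ 2 * wt k h) 1 := by
  have h0 : HasSum (fun h : Fin 2 → ℤ => ‖fc (fun _ : Tor 2 => (1 : ℝ)) h‖ ^ 2) 1 := by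
    have := parseval (d := 2) (fun _ => (1:ℝ)) continuous_const
    simpa using this
  have hz : fc (fun _ : Tor 2 => (1 : ℝ)) 0 = 1 := by
    simp [fc]
  -- all other coefficients vanish
  have hne : ∀ h : Fin 2 → ℤ, h ≠ 0 → ‖fc (fun _ : Tor 2 => (1 : ℝ)) h‖ ^ 2 = 0 := by
    intro h hh
    have h1 := h0.summable.sum_le_tsum {0, h} (fun _ _ => by positivity)
    rw [h0.tsum_eq, Finset.sum_pair (Ne.symm hh), hz] at h1
    simp only [norm_one, one_pow] at h1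
    have h2 : 0 ≤ ‖fc (fun _ : Tor 2 => (1 : ℝ)) h‖ ^ 2 := by positivity
    linarith
  have h1 := hasSum_single (f := fun h : Fin 2 → ℤ =>
    ‖fc (fun _ : Tor 2 => (1 : ℝ)) h‖ ^ 2 * wt k h) 0 (fun h hh => by
      rw [hne h hh, zero_mul])
  have h2 : ‖fc (fun _ : Tor 2 => (1 : ℝ)) 0‖ ^ 2 * wt k (0 : Fin 2 → ℤ) = 1 := by
    rw [hz]
    simp [wt]
  rw [h2] at h1
  exact h1

/-- The isolation property of a configuration. -/
def Iso (n Λ : ℕ) (w : Fin n → Tor 2) : Prop :=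
  ∀ i, ∃ l ≤ Λ, ∀ j, j ≠ i → ¬ (‖w j 0 - w i 0‖ < 1 / 2 ^ l ∧ ‖w j 1 - w i 1‖ < 1 / 2 ^ (Λ - l))

theorem pb_far (K : ℝ) (hK : 1 ≤ K) (a t : UnitAddCircle) (h : 1 / K ≤ ‖t - a‖) :
    cf (pb bb K (rep a)) t = 0 := by
  have h1 := nice_bb.zero 0 K (rep a) (rep t) hK (by
    have e : ((rep t - rep a : ℝ) : UnitAddCircle) = t - a := by
      rw [AddCircle.coe_sub, coe_rep, coe_rep]
    rw [e]
    refine le_trans ?_ h
    have hK0 : 0 < K := lt_of_lt_of_le one_pos hK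
    exact one_div_le_one_div_of_le hK0 (by linarith))
  rw [iteratedDeriv_zero] at h1
  exact h1

theorem pb_self (K : ℝ) (a : UnitAddCircle) : cf (pb bb K (rep a)) a = 1 := by
  change bb (K * Real.sin (Real.pi * (rep a - rep a))) = 1
  rw [sub_self, mul_zero, Real.sin_zero, mul_zero]
  exact bb_one 0 (by norm_num)

theorem f2_node {n Λ : ℕ} (lam : Fin n → ℕ) (w : Fin n → Tor 2)
    (hiso : ∀ i j, j ≠ i → ¬ (‖w j 0 - w i 0‖ < 1 / 2 ^ lam i ∧
      ‖w j 1 - w i 1‖ < 1 / 2 ^ (Λ - lam i))) (r : Fin n → ℝ) (j : Fin n) :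
    f2 n Λ lam (fun i => rep (w i 0)) (fun i => rep (w i 1)) r (w j) = r j := by
  unfold f2
  rw [Finset.sum_eq_single j]
  · rw [pb_self, pb_self]
    ring
  · intro i _ hij
    have h1 := hiso i j (Ne.symm hij)
    rw [not_and_or] at h1
    rcases h1 with h1 | h1
    · rw [pb_far _ (one_le_pow₀ (by norm_num)) _ _ (not_lt.1 h1)]
      ring
    · rw [pb_far ((2:ℝ) ^ (Λ - lam i)) (one_le_pow₀ (by norm_num)) _ _ (not_lt.1 h1)]
      ring
  · simp

/-- Existence of the fooling function for a good configuration. -/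
theorem fool (k : ℝ) (hk : 0 ≤ k) : ∃ C : ℝ, 0 ≤ C ∧ ∀ (n Q : ℕ) (hQ : 0 < Q) (R O Λ : ℕ)
    (w : Fin n → Tor 2), 2 ≤ Q → 0 < O → Iso n Λ w →
    C / 2 ^ Λ * ∑ i, |res hQ R O w i| ≤ 1 / 2 →
    ∃ g : Tor 2 → ℝ, Continuous g ∧ (∀ j, g (w j) = 0) ∧ 1 / 2 ≤ ∫ x, g x ∧
      (Summable fun h => ‖fc g h‖ ^ 2 * wt k h) ∧
      ∑' h, ‖fc g h‖ ^ 2 * wt k h ≤
        3 * (1 + C * ((Q : ℝ) ^ (R + 1)) ^ (2 * k) / (Q : ℝ) ^ (R + 1) * (n / (2 * O)) +
          C * ((Λ : ℝ) + 1) * ((2 : ℝ) ^ Λ) ^ (2 * k) / (2 : ℝ) ^ Λ *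
            ∑ i, res hQ R O w i ^ 2) := by
  obtain ⟨C1, hC1, H1⟩ := NF1.f1_norm nice_AA nice_bb (blkNorm_of_nice nice_AA nice_bb)
    deriv_pb_AA k hk
  obtain ⟨C2, hC2, H2⟩ := NF2.f2_norm nice_bb (blkNorm_of_nice nice_bb nice_bb) k hk
  obtain ⟨C3, hC3, H3⟩ := NF2.f2_integral nice_bb (blkNorm_of_nice nice_bb nice_bb)
  refine ⟨C1 + C2 + C3, by positivity, ?_⟩
  intro n Q hQ R O Λ w hQ2 hO hiso hsmall
  choose lam hlam hsep using hiso
  obtain ⟨r, hr⟩ : ∃ r : Fin n → ℝ, r = res hQ R O w := ⟨_, rfl⟩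
  obtain ⟨c, hc⟩ : ∃ c : ℕ → ℕ → Fin (2 * Q ^ (R + 1)) → ℝ,
    c = cx hQ R O (fun i => w i 0) (fun i => w i 1) := ⟨_, rfl⟩
  obtain ⟨F1, hF1⟩ : ∃ F1 : Tor 2 → ℝ, F1 = f1 Q R c := ⟨_, rfl⟩
  obtain ⟨F2, hF2⟩ : ∃ F2 : Tor 2 → ℝ, F2 =
    f2 n Λ lam (fun i => rep (w i 0)) (fun i => rep (w i 1)) r := ⟨_, rfl⟩
  have hF1c : Continuous F1 := by
    rw [hF1]; exact NF1.f1_continuous nice_AA nice_bb deriv_pb_AA Q R hQ c
  have hF2c : Continuous F2 := by
    rw [hF2]; exact NF2.f2_continuous nice_bb n Λ lam _ _ r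
  have hsepl : ∀ i j, i ≠ j → lam i = lam j →
        ¬ (‖(((rep (w i 0) : ℝ) : UnitAddCircle)) - ((rep (w j 0) : ℝ) : UnitAddCircle)‖ <
            1 / 2 ^ lam i ∧
          ‖(((rep (w i 1) : ℝ) : UnitAddCircle)) - ((rep (w j 1) : ℝ) : UnitAddCircle)‖ <
            1 / 2 ^ (Λ - lam i)) := by
    intro i j hij hl
    rw [coe_rep, coe_rep, coe_rep, coe_rep, hl]
    exact hsep j i hij
  obtain ⟨hs1, ht1⟩ := H1 Q R c hQ2
  obtain ⟨hs2, ht2⟩ := H2 n Λ lam (fun i => rep (w i 0)) (fun i => rep (w i 1)) r hlam hsepl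
  have hi2 := H3 n Λ lam (fun i => rep (w i 0)) (fun i => rep (w i 1)) r hlam
  rw [← hF1] at hs1 ht1
  rw [← hF2] at hs2 ht2 hi2
  have hi1 : ∫ x, F1 x = 0 := by
    rw [hF1]; exact NF1.f1_integral nice_AA nice_bb deriv_pb_AA Q R hQ c
  -- the coefficients
  have hcof : ∑ l ∈ Finset.range R, ∑ a ∈ Finset.range (Q ^ l), ∑ m, c l a m ^ 2 ≤
      n / (2 * O) := by
    have h1 := cof_total O hO (btx Q R (fun i => w i 1)) R (fun l _ => bw_wts hQ R l _) (xi Q)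
      (fun l a => xi_le _ _ _) (dgx hQ (fun i => w i 0))
    have h2 : 0 ≤ ∑ j, zx O (btx Q R (fun i => w i 1)) (xi Q) (dgx hQ (fun i => w i 0)) R j ^ 2 :=
      Finset.sum_nonneg fun _ _ => sq_nonneg _
    have hO' : (0:ℝ) < O := by exact_mod_cast hO
    rw [le_div_iff₀ (by positivity)]
    have h3 : ∑ l ∈ Finset.range R, ∑ a ∈ Finset.range (Q ^ l), ∑ m, c l a m ^ 2 =
        ∑ l ∈ Finset.range R, ∑ m, ∑ a ∈ Finset.range (Q ^ l),
          cofx O (btx Q R (fun i => w i 1)) (xi Q) (dgx hQ (fun i => w i 0)) l a m ^ 2 := by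
      refine Finset.sum_congr rfl fun l _ => ?_
      rw [Finset.sum_comm, hc]
      rfl
    rw [h3]
    linarith
  refine ⟨fun x => (1 - F1 x) - F2 x, (continuous_const.sub hF1c).sub hF2c, ?_, ?_, ?_⟩
  · intro j
    have e1 : F2 (w j) = r j := by
      rw [hF2]
      exact f2_node lam w hsep r j
    change 1 - F1 (w j) - F2 (w j) = 0
    rw [e1, hr, hF1, hc]
    unfold res
    ring
  · have e1 : ∫ x : Tor 2, (1 - F1 x) - F2 x = 1 - 0 - ∫ x, F2 x := by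
      rw [integral_sub, integral_sub, hi1]
      · simp
      · exact integrable_const _
      · exact integrable_contR hF1c
      · exact integrable_contR (continuous_const.sub hF1c)
      · exact integrable_contR hF2c
    rw [e1]
    have e2 : |∫ x, F2 x| ≤ 1 / 2 := by
      refine hi2.trans (le_trans ?_ hsmall)
      rw [hr]
      refine mul_le_mul_of_nonneg_right ?_ (Finset.sum_nonneg fun _ _ => abs_nonneg _)
      refine div_le_div_of_nonneg_right ?_ (by positivity)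
      linarith
    have := (abs_le.1 e2).2
    linarith
  · have hfc : ∀ h, fc (fun x => (1 - F1 x) - F2 x) h =
        fc (fun _ : Tor 2 => (1:ℝ)) h - fc F1 h - fc F2 h := by
      intro h
      rw [fc_sub (fun x => 1 - F1 x) F2 (continuous_const.sub hF1c) hF2c,
        fc_sub (fun _ => 1) F1 continuous_const hF1c]
    have hwt : ∀ h : Fin 2 → ℤ, 0 ≤ wt k h := fun h =>
      Finset.prod_nonneg fun j _ => Real.rpow_nonneg (by positivity) _
    have hle : ∀ h, ‖fc (fun x => (1 - F1 x) - F2 x) h‖ ^ 2 * wt k h ≤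
        3 * (‖fc (fun _ : Tor 2 => (1:ℝ)) h‖ ^ 2 * wt k h + ‖fc F1 h‖ ^ 2 * wt k h +
          ‖fc F2 h‖ ^ 2 * wt k h) := by
      intro h
      rw [hfc]
      have h1 : ‖fc (fun _ : Tor 2 => (1:ℝ)) h - fc F1 h - fc F2 h‖ ≤
          ‖fc (fun _ : Tor 2 => (1:ℝ)) h‖ + ‖fc F1 h‖ + ‖fc F2 h‖ :=
        (norm_sub_le _ _).trans (add_le_add_left (norm_sub_le _ _) _)
      have h2 : ‖fc (fun _ : Tor 2 => (1:ℝ)) h - fc F1 h - fc F2 h‖ ^ 2 ≤
          3 * (‖fc (fun _ : Tor 2 => (1:ℝ)) h‖ ^ 2 + ‖fc F1 h‖ ^ 2 + ‖fc F2 h‖ ^ 2) := by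
        have h3 := norm_nonneg (fc (fun _ : Tor 2 => (1:ℝ)) h - fc F1 h - fc F2 h)
        nlinarith [sq_nonneg (‖fc (fun _ : Tor 2 => (1:ℝ)) h‖ - ‖fc F1 h‖),
          sq_nonneg (‖fc (fun _ : Tor 2 => (1:ℝ)) h‖ - ‖fc F2 h‖),
          sq_nonneg (‖fc F1 h‖ - ‖fc F2 h‖)]
      nlinarith [hwt h, mul_le_mul_of_nonneg_right h2 (hwt h)]
    have hsum := (((fc_one_sum k).summable.add hs1).add hs2).mul_left 3
    have hs : Summable fun h => ‖fc (fun x => (1 - F1 x) - F2 x) h‖ ^ 2 * wt k h :=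
      Summable.of_nonneg_of_le (fun h => mul_nonneg (by positivity) (hwt h)) hle hsum
    refine ⟨hs, (hs.tsum_le_tsum hle hsum).trans ?_⟩
    rw [tsum_mul_left, ((fc_one_sum k).summable.add hs1).tsum_add hs2,
      (fc_one_sum k).summable.tsum_add hs1, (fc_one_sum k).tsum_eq]
    have hN : (0:ℝ) ≤ ((Q : ℝ) ^ (R + 1)) ^ (2 * k) / (Q : ℝ) ^ (R + 1) := by positivity
    have hL : (0:ℝ) ≤ ((Λ : ℝ) + 1) * ((2 : ℝ) ^ Λ) ^ (2 * k) / (2 : ℝ) ^ Λ := by positivity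
    have hr0 : 0 ≤ ∑ i, r i ^ 2 := Finset.sum_nonneg fun _ _ => sq_nonneg _
    have hn0 : (0:ℝ) ≤ n / (2 * O) := by positivity
    have b1 : ∑' h, ‖fc F1 h‖ ^ 2 * wt k h ≤ (C1 + C2 + C3) * ((Q : ℝ) ^ (R + 1)) ^ (2 * k) /
        (Q : ℝ) ^ (R + 1) * (n / (2 * O)) := by
      refine ht1.trans ?_
      calc C1 * ((Q : ℝ) ^ (R + 1)) ^ (2 * k) / (Q : ℝ) ^ (R + 1) *
            ∑ l ∈ Finset.range R, ∑ a ∈ Finset.range (Q ^ l), ∑ m, c l a m ^ 2
          ≤ C1 * ((Q : ℝ) ^ (R + 1)) ^ (2 * k) / (Q : ℝ) ^ (R + 1) * (n / (2 * O)) :=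
            mul_le_mul_of_nonneg_left hcof (by positivity)
        _ = C1 * ((((Q : ℝ) ^ (R + 1)) ^ (2 * k) / (Q : ℝ) ^ (R + 1)) * (n / (2 * O))) := by ring
        _ ≤ (C1 + C2 + C3) *
            ((((Q : ℝ) ^ (R + 1)) ^ (2 * k) / (Q : ℝ) ^ (R + 1)) * (n / (2 * O))) :=
            mul_le_mul_of_nonneg_right (by linarith) (mul_nonneg hN hn0)
        _ = _ := by ring
    have b2 : ∑' h, ‖fc F2 h‖ ^ 2 * wt k h ≤ (C1 + C2 + C3) * ((Λ : ℝ) + 1) *
        ((2 : ℝ) ^ Λ) ^ (2 * k) / (2 : ℝ) ^ Λ * ∑ i, res hQ R O w i ^ 2 := by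
      rw [← hr]
      refine ht2.trans ?_
      calc C2 * ((Λ : ℝ) + 1) * ((2 : ℝ) ^ Λ) ^ (2 * k) / (2 : ℝ) ^ Λ * ∑ i, r i ^ 2
          = C2 * ((((Λ : ℝ) + 1) * ((2 : ℝ) ^ Λ) ^ (2 * k) / (2 : ℝ) ^ Λ) * ∑ i, r i ^ 2) := by
            ring
        _ ≤ (C1 + C2 + C3) *
            ((((Λ : ℝ) + 1) * ((2 : ℝ) ^ Λ) ^ (2 * k) / (2 : ℝ) ^ Λ) * ∑ i, r i ^ 2) :=
            mul_le_mul_of_nonneg_right (by linarith) (mul_nonneg hL hr0)
        _ = _ := by ring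
    linarith

/-- Lower bound of the worst case error from a fooling function. -/
theorem wce_ge {n : ℕ} (A : RandAlg 2 n) (k : ℝ) (ω : A.Ω) (g : Tor 2 → ℝ) (hg : Continuous g)
    (h0 : ∀ j, g (A.P ω j) = 0) (hi : 1 / 2 ≤ ∫ x, g x) (E : ℝ) (hE : 0 < E)
    (hs : Summable fun h => ‖fc g h‖ ^ 2 * wt k h)
    (ht : ∑' h, ‖fc g h‖ ^ 2 * wt k h ≤ E ^ 2) :
    ENNReal.ofReal (1 / (2 * E)) ≤ A.wce k ω := by
  have hmem : ∀ s : ℝ, s ^ 2 = 1 → (fun x => (s / E) * g x) ∈ ball 2 k := by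
    intro s hs1
    have e1 : ∀ h, ‖fc (fun x => (s / E) * g x) h‖ ^ 2 * wt k h =
        (1 / E ^ 2) * (‖fc g h‖ ^ 2 * wt k h) := by
      intro h
      rw [fc_smul, norm_mul, Complex.norm_real, Real.norm_eq_abs, mul_pow, sq_abs, div_pow, hs1]
      ring
    refine ⟨continuous_const.mul hg, ?_, ?_⟩
    · simp only [e1]
      exact hs.mul_left _
    · simp only [e1]
      rw [tsum_mul_left, one_div, inv_mul_le_iff₀ (by positivity)]
      linarith
  have hval : ∀ s : ℝ, s ^ 2 = 1 →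
      ENNReal.ofReal |(s / E) * (∫ x, g x) - A.φ ω 0| ≤ A.wce k ω := by
    intro s hs1
    unfold RandAlg.wce
    refine le_trans (le_of_eq ?_) (le_iSup₂ (f := fun f (_ : f ∈ ball 2 k) =>
      ENNReal.ofReal |(∫ x, f x) - A.φ ω (fun i => f (A.P ω i))|)
      (fun x => (s / E) * g x) (hmem s hs1))
    rw [integral_const_mul]
    have : (fun i => s / E * g (A.P ω i)) = (0 : Fin n → ℝ) := by
      funext i
      simp [h0]
    rw [this]
  have h1 := hval 1 (by norm_num)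
  have h2 := hval (-1) (by norm_num)
  obtain ⟨v, hv⟩ : ∃ v, v = A.φ ω 0 := ⟨_, rfl⟩
  rw [← hv] at h1 h2
  have hb : 1 / (2 * E) ≤ (1 / E) * ∫ x, g x := by
    have : 1 / (2 * E) = (1 / E) * (1 / 2) := by field_simp
    rw [this]
    exact mul_le_mul_of_nonneg_left hi (by positivity)
  rcases le_total v 0 with hv0 | hv0
  · refine le_trans (ENNReal.ofReal_le_ofReal ?_) h1
    refine le_trans ?_ (le_abs_self _)
    linarith
  · refine le_trans (ENNReal.ofReal_le_ofReal ?_) h2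
    refine le_trans ?_ (neg_le_abs _)
    have : -1 / E * ∫ x, g x = -((1 / E) * ∫ x, g x) := by ring
    rw [this]
    linarith

/-- From a set of good configurations to the uniform error. -/
theorem err_lower {n : ℕ} (A : RandAlg 2 n) (hA : A.IsIid) (k : ℝ) (Bad : Set (Fin n → Tor 2))
    (hBad : (Measure.pi (fun _ : Fin n => (volume : Measure (Tor 2)))) Bad ≤ 1 / 2)
    (c : ℝ) (hc : ∀ ω, A.P ω ∉ Bad → ENNReal.ofReal c ≤ A.wce k ω) :
    ENNReal.ofReal (c / 2) ≤ A.errUnif k := by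
  letI := A.mΩ
  haveI := A.prob
  obtain ⟨ν, hν⟩ : ∃ ν : Measure (Fin n → Tor 2), ν = Measure.pi (fun _ => volume) := ⟨_, rfl⟩
  haveI : IsProbabilityMeasure ν := by rw [hν]; infer_instance
  rw [← hν] at hBad
  have hlaw : A.μ.map A.P = ν := by rw [hν]; exact hA
  unfold RandAlg.errUnif upperInt
  refine le_iInf fun g => le_iInf fun hg => le_iInf fun hge => ?_
  obtain ⟨H, hH⟩ : ∃ H : Set (Fin n → Tor 2), H = toMeasurable ν Bad := ⟨_, rfl⟩
  have hHm : MeasurableSet H := by rw [hH]; exact measurableSet_toMeasurable _ _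
  have hHle : ν H ≤ 1 / 2 := by rw [hH, measure_toMeasurable]; exact hBad
  have hsub : Bad ⊆ H := by rw [hH]; exact subset_toMeasurable _ _
  have hcompl : (1 / 2 : ℝ≥0∞) ≤ ν Hᶜ := by
    rw [prob_compl_eq_one_sub hHm]
    have : (1 : ℝ≥0∞) - 1 / 2 ≤ 1 - ν H := tsub_le_tsub_left hHle 1
    refine le_trans (le_of_eq ?_) this
    rw [one_div]
    exact ENNReal.one_sub_inv_two.symm
  have hpre : A.μ (A.P ⁻¹' Hᶜ) = ν Hᶜ := by
    rw [← hlaw, Measure.map_apply A.measP hHm.compl]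
  have hms : MeasurableSet (A.P ⁻¹' Hᶜ) := A.measP hHm.compl
  calc ENNReal.ofReal (c / 2) = ENNReal.ofReal c * (1 / 2) := by
        rw [div_eq_mul_inv, ENNReal.ofReal_mul' (by norm_num)]
        congr 1
        rw [ENNReal.ofReal_inv_of_pos (by norm_num)]
        simp
    _ ≤ ENNReal.ofReal c * A.μ (A.P ⁻¹' Hᶜ) := by
        rw [hpre]
        exact mul_le_mul_right hcompl _
    _ = ∫⁻ ω in A.P ⁻¹' Hᶜ, ENNReal.ofReal c ∂A.μ := by
        rw [setLIntegral_const]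
    _ ≤ ∫⁻ ω in A.P ⁻¹' Hᶜ, g ω ∂A.μ := by
        refine setLIntegral_mono hg fun ω hω => ?_
        exact (hc ω fun h => hω (hsub h)).trans (hge ω)
    _ ≤ ∫⁻ ω, g ω ∂A.μ := setLIntegral_le_lintegral _ _

end

end Pool.Agent.Helper150.Iid
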