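import Mathlib
import Pool.Agent.Helper150.Iid.Bmp
import Pool.Agent.Helper150.Iid.Iter

set_option autoImplicit false

namespace Pool.Agent.Helper150.Iid.Cher

open MeasureTheory

noncomputable section

variable {n Q : ℕ} {ι : Type} [Fintype ι]

lemma bb_even (t : ℝ) : bb (-t) = bb t := by
  unfold bb
  congr 2
  ring

lemma pb_periodic (K x0 : ℝ) : Function.Periodic (pb bb K x0) 1 := by
  intro x
  unfold pb
  have h1 : Real.pi * (x + 1 - x0) = Real.pi * (x - x0) + Real.pi := by ring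
  rw [h1, Real.sin_add_pi, mul_neg, bb_even]

lemma bb_eq_zero {t : ℝ} (h : 1 ≤ |t|) : bb t = 0 := by
  unfold bb
  apply Real.smoothTransition.zero_of_nonpos
  have h1 : 1 ≤ t ^ 2 := by
    rw [← sq_abs]
    nlinarith [abs_nonneg t]
  nlinarith

lemma abs_sin_ge {y : ℝ} : 2 * |y - round y| ≤ |Real.sin (Real.pi * y)| := by
  have h1 : |Real.sin (Real.pi * y)| = |Real.sin (Real.pi * (y - round y))| := by
    have h2 : Real.pi * (y - round y) = Real.pi * y - round y * Real.pi := by ring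
    rw [h2, Real.sin_sub_int_mul_pi, abs_mul]
    have h3 : |((-1 : ℝ)) ^ (round y)| = 1 := by
      rw [abs_zpow, abs_neg, abs_one, one_zpow]
    rw [h3, one_mul]
  rw [h1]
  set s := y - round y with hs
  have hs2 : |s| ≤ 1 / 2 := abs_sub_round y
  have h4 : |Real.sin (Real.pi * s)| = Real.sin (Real.pi * |s|) := by
    rcases le_total 0 s with h | h
    · rw [abs_of_nonneg h, abs_of_nonneg]
      rw [abs_of_nonneg h] at hs2
      apply Real.sin_nonneg_of_nonneg_of_le_pi
      · positivity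
      · nlinarith [Real.pi_pos]
    · rw [abs_of_nonpos h]
      rw [abs_of_nonpos h] at hs2
      have h5 : Real.pi * -s = -(Real.pi * s) := by ring
      rw [h5, Real.sin_neg, abs_of_nonpos]
      have h6 : 0 ≤ Real.sin (Real.pi * (-s)) := by
        apply Real.sin_nonneg_of_nonneg_of_le_pi
        · have := Real.pi_pos
          have : 0 ≤ -s := by linarith
          positivity
        · nlinarith [Real.pi_pos]
      rw [h5, Real.sin_neg] at h6
      linarith
  rw [h4]
  have h7 := Real.mul_le_sin (x := Real.pi * |s|) (by positivity) (by nlinarith [Real.pi_pos])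
  have h8 : 2 / Real.pi * (Real.pi * |s|) = 2 * |s| := by
    field_simp
  rw [h8] at h7
  exact h7

/-- TARGET 1. -/
theorem bw_supp (hQ : 0 < Q) (R l : ℕ) (m : Fin (2 * Q ^ (R + 1))) :
    (volume : Measure UnitAddCircle) {t | bw Q R l m t ≠ 0} ≤
      ENNReal.ofReal (1 / (Q : ℝ) ^ (R + 1 - l)) := by
  have hQ' : (0 : ℝ) < Q := by exact_mod_cast hQ
  set K : ℝ := (Q : ℝ) ^ (R + 1 - l) with hK
  have hKpos : 0 < K := by positivity
  set x0 : ℝ := ((m : ℕ) : ℝ) / (2 * K) with hx0
  have hsub : {t | bw Q R l m t ≠ 0} ⊆ Metric.closedBall (x0 : UnitAddCircle) (1 / (2 * K)) := by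
    intro t ht
    have ht' : bw Q R l m t ≠ 0 := ht
    unfold bw at ht'
    split_ifs at ht' with hm
    · obtain ⟨x, rfl⟩ := QuotientAddGroup.mk_surjective t
      have e : cf (pb bb K x0) ((x : ℝ) : UnitAddCircle) = pb bb K x0 x := cf_coe (pb_periodic K x0) x
      have ht2 : cf (pb bb K x0) ((x : ℝ) : UnitAddCircle) ≠ 0 := ht'
      rw [e] at ht2
      have h1 : |K * Real.sin (Real.pi * (x - x0))| < 1 := by
        by_contra hcon
        exact ht2 (bb_eq_zero (not_lt.1 hcon))
      rw [abs_mul, abs_of_pos hKpos] at h1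
      have h2 := abs_sin_ge (y := x - x0)
      rw [Metric.mem_closedBall, dist_eq_norm]
      have h3 : ((x : ℝ) : UnitAddCircle) - (x0 : UnitAddCircle) = ((x - x0 : ℝ) : UnitAddCircle) := rfl
      show ‖((x : ℝ) : UnitAddCircle) - (x0 : UnitAddCircle)‖ ≤ _
      rw [h3, UnitAddCircle.norm_eq]
      rw [le_div_iff₀ (by positivity)]
      nlinarith
    · exact absurd rfl ht'
  refine (measure_mono hsub).trans ?_
  rw [AddCircle.volume_closedBall]
  apply ENNReal.ofReal_le_ofReal
  refine (min_le_right _ _).trans ?_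
  apply le_of_eq
  field_simp

lemma cell_vol {K : ℝ} (hK : 0 < K) (a : ℕ) :
    (volume : Measure UnitAddCircle) {t | ⌊K * (AddCircle.equivIco (1 : ℝ) 0 t : ℝ)⌋₊ = a} ≤
      ENNReal.ofReal (1 / K) := by
  have hsub : {t : UnitAddCircle | ⌊K * (AddCircle.equivIco (1 : ℝ) 0 t : ℝ)⌋₊ = a} ⊆
      Metric.closedBall ((((a : ℝ) + 1 / 2) / K : ℝ) : UnitAddCircle) (1 / (2 * K)) := by
    intro t ht
    have ht' : ⌊K * (AddCircle.equivIco (1 : ℝ) 0 t : ℝ)⌋₊ = a := ht
    set x : ℝ := (AddCircle.equivIco (1 : ℝ) 0 t : ℝ) with hx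
    have hx0 : 0 ≤ x := (AddCircle.equivIco (1 : ℝ) 0 t).2.1
    have htx : t = ((x : ℝ) : UnitAddCircle) := (AddCircle.coe_equivIco (p := (1 : ℝ)) (a := 0) (y := t)).symm
    have h1 : (a : ℝ) ≤ K * x := by
      rw [← ht']
      exact Nat.floor_le (by positivity)
    have h2 : K * x < a + 1 := by
      rw [← ht']
      exact Nat.lt_floor_add_one _
    rw [Metric.mem_closedBall, dist_eq_norm, htx]
    have h3 : ((x : ℝ) : UnitAddCircle) - ((((a : ℝ) + 1 / 2) / K : ℝ) : UnitAddCircle) =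
      ((x - ((a : ℝ) + 1 / 2) / K : ℝ) : UnitAddCircle) := rfl
    rw [h3, UnitAddCircle.norm_eq]
    refine (round_le _ 0).trans ?_
    rw [Int.cast_zero, sub_zero]
    have h4 : x - ((a : ℝ) + 1 / 2) / K = (K * x - (a + 1 / 2)) / K := by
      field_simp
    rw [h4, abs_div, abs_of_pos hK, div_le_div_iff₀ hK (by positivity)]
    have h5 : |K * x - (a + 1 / 2)| ≤ 1 / 2 := by
      rw [abs_le]
      constructor <;> linarith
    nlinarith
  refine (measure_mono hsub).trans ?_
  rw [AddCircle.volume_closedBall]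
  apply ENNReal.ofReal_le_ofReal
  refine (min_le_right _ _).trans ?_
  apply le_of_eq
  field_simp

/-- Chernoff bound. -/
lemma chernoff {α : Type} [MeasurableSpace α] (P : Measure α) [IsProbabilityMeasure P] (n : ℕ) (S : Set α)
    {v : ℝ} (hv : 0 ≤ v) (hS : P S ≤ ENNReal.ofReal v) (T : ℕ) :
    (Measure.pi (fun _ : Fin n => P)) {ω | ∃ A : Finset (Fin n), T ≤ A.card ∧ ∀ j ∈ A, ω j ∈ S} ≤
      ENNReal.ofReal (Real.exp (n * v) / 2 ^ T) := by
  classical
  set S' : Set α := toMeasurable P S with hS'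
  have hS'm : MeasurableSet S' := measurableSet_toMeasurable P S
  have hSS' : S ⊆ S' := subset_toMeasurable P S
  have hvS' : P.real S' ≤ v := by
    rw [Measure.real, hS', measure_toMeasurable]
    exact ENNReal.toReal_le_of_le_ofReal hv hS
  let g : α → ℝ := fun p => 1 + S'.indicator (fun _ => (1 : ℝ)) p
  have hg1 : ∀ p, 1 ≤ g p := fun p => by
    simp only [g]
    have : 0 ≤ S'.indicator (fun _ => (1 : ℝ)) p := Set.indicator_nonneg (fun _ _ => zero_le_one) _
    linarith
  have hint : ∫ p, g p ∂P = 1 + P.real S' := by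
    simp only [g]
    rw [integral_add (integrable_const _) ((integrable_const (1 : ℝ)).indicator hS'm), integral_indicator_const _ hS'm]
    simp
  have hgm : Measurable g := measurable_const.add (measurable_const.indicator hS'm)
  have hg2 : ∀ p, g p ≤ 2 := fun p => by
    simp only [g]
    have : S'.indicator (fun _ => (1 : ℝ)) p ≤ 1 := Set.indicator_le_self' (fun _ _ => zero_le_one) _
    linarith
  let G : (Fin n → α) → ℝ := fun ω => ∏ j, g (ω j)
  have hGm : Measurable G := Finset.measurable_prod _ fun j _ => hgm.comp (measurable_pi_apply j)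
  have hG0 : ∀ ω, 0 ≤ G ω := fun ω => Finset.prod_nonneg fun j _ => by linarith [hg1 (ω j)]
  have hG2 : ∀ ω, G ω ≤ 2 ^ n := fun ω => by
    have := Finset.prod_le_prod (s := Finset.univ) (f := fun j => g (ω j)) (g := fun _ => (2 : ℝ))
      (fun j _ => by linarith [hg1 (ω j)]) (fun j _ => hg2 (ω j))
    simpa [G] using this
  have hGi : Integrable G (Measure.pi (fun _ : Fin n => P)) := by
    apply Integrable.of_bound hGm.aestronglyMeasurable (2 ^ n)
    filter_upwards with ω
    rw [Real.norm_eq_abs, abs_of_nonneg (hG0 ω)]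
    exact hG2 ω
  have hGint : ∫ ω, G ω ∂(Measure.pi (fun _ : Fin n => P)) = (1 + P.real S') ^ n := by
    have h1 := integral_fintype_prod_eq_prod (𝕜 := ℝ) (ι := Fin n) (E := fun _ => α) (μ := fun _ => P)
      (fun _ => g)
    simp only [G]
    rw [h1]
    simp [hint]
  have hsub : {ω : Fin n → α | ∃ A : Finset (Fin n), T ≤ A.card ∧ ∀ j ∈ A, ω j ∈ S} ⊆ {ω | (2 : ℝ) ^ T ≤ G ω} := by
    rintro ω ⟨A, hA, hAS⟩
    show (2 : ℝ) ^ T ≤ ∏ j, g (ω j)
    calc (2 : ℝ) ^ T ≤ 2 ^ A.card := pow_le_pow_right₀ (by norm_num) hA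
      _ = ∏ j, (if j ∈ A then (2 : ℝ) else 1) := by
        rw [Finset.prod_ite_mem, Finset.univ_inter, Finset.prod_const]
      _ ≤ ∏ j, g (ω j) := by
        apply Finset.prod_le_prod
        · intro j _
          split_ifs <;> norm_num
        · intro j _
          split_ifs with hj
          · simp only [g]
            rw [Set.indicator_of_mem (hSS' (hAS j hj))]
            norm_num
          · exact hg1 _
  have hmk := mul_meas_ge_le_integral_of_nonneg (μ := Measure.pi (fun _ : Fin n => P)) (f := G)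
    (Filter.Eventually.of_forall hG0) hGi ((2 : ℝ) ^ T)
  rw [hGint] at hmk
  have hb : (1 + P.real S') ^ n ≤ Real.exp (n * v) := by
    have h1 : 1 + P.real S' ≤ Real.exp v := by
      have := Real.add_one_le_exp v
      linarith
    calc (1 + P.real S') ^ n ≤ (Real.exp v) ^ n := pow_le_pow_left₀ (by positivity) h1 n
      _ = Real.exp (n * v) := by rw [← Real.exp_nat_mul]
  refine (measure_mono hsub).trans ?_
  rw [← ENNReal.ofReal_toReal (measure_ne_top _ {ω | (2 : ℝ) ^ T ≤ G ω})]
  apply ENNReal.ofReal_le_ofReal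
  rw [le_div_iff₀ (by positivity), mul_comm]
  exact hmk.trans hb

/-- TARGET 2. All intermediate boxes contain at most `4 μ Q` points, with high probability. -/
theorem M_event (hQ : 0 < Q) (R μ : ℕ) (hn : n = μ * Q ^ (R + 1))
    (hcell : ∀ (x : Fin n → UnitAddCircle) (l : ℕ) (j : Fin n),
      cellx (fun l j => dig Q hQ l (x j)) l j =
        ⌊(Q : ℝ) ^ l * (AddCircle.equivIco (1 : ℝ) 0 (x j) : ℝ)⌋₊) :
    (Measure.pi (fun _ : Fin n => (volume : Measure (Fin 2 → UnitAddCircle))))
      {ω | ¬ Gx (4 * μ * Q) (fun l m j => bw Q R l m (ω j 1))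
        (fun l j => dig Q hQ l (ω j 0)) R} ≤
      ENNReal.ofReal (2 * R * (Q : ℝ) ^ R * Real.exp (-(μ * Q))) := by
  classical
  have hQ' : (0 : ℝ) < Q := by exact_mod_cast hQ
  have hQ1 : (1 : ℝ) ≤ Q := by exact_mod_cast hQ
  have hp1 : IsProbabilityMeasure (volume : Measure UnitAddCircle) := ⟨by
    rw [AddCircle.measure_univ, ENNReal.ofReal_one]⟩
  have hp2 : IsProbabilityMeasure (volume : Measure (Fin 2 → UnitAddCircle)) := by
    rw [volume_pi]
    infer_instance
  set ν := Measure.pi (fun _ : Fin n => (volume : Measure (Fin 2 → UnitAddCircle))) with hν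
  let S : ℕ → ℕ → Fin (2 * Q ^ (R + 1)) → Set (Fin 2 → UnitAddCircle) := fun l a m =>
    {p | ⌊(Q : ℝ) ^ l * (AddCircle.equivIco (1 : ℝ) 0 (p 0) : ℝ)⌋₊ = a ∧ bw Q R (l + 1) m (p 1) ≠ 0}
  let T : ℕ := 4 * μ * Q + 1
  let Bad : ℕ → ℕ → Fin (2 * Q ^ (R + 1)) → Set (Fin n → Fin 2 → UnitAddCircle) := fun l a m =>
    {ω | ∃ A : Finset (Fin n), T ≤ A.card ∧ ∀ j ∈ A, ω j ∈ S l a m}
  have hSvol : ∀ l < R, ∀ a m, (volume : Measure (Fin 2 → UnitAddCircle)) (S l a m) ≤
      ENNReal.ofReal (1 / (Q : ℝ) ^ R) := by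
    intro l hl a m
    have hsub : S l a m ⊆ Set.pi Set.univ
        ![{t : UnitAddCircle | ⌊(Q : ℝ) ^ l * (AddCircle.equivIco (1 : ℝ) 0 t : ℝ)⌋₊ = a},
          {t | bw Q R (l + 1) m t ≠ 0}] := by
      intro p hp i _
      fin_cases i
      · exact hp.1
      · exact hp.2
    refine (measure_mono hsub).trans ?_
    rw [volume_pi, Measure.pi_pi, Fin.prod_univ_two]
    refine (mul_le_mul' (cell_vol (K := (Q : ℝ) ^ l) (by positivity) a) (bw_supp hQ R (l + 1) m)).trans ?_
    rw [← ENNReal.ofReal_mul (by positivity)]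
    apply ENNReal.ofReal_le_ofReal
    rw [div_mul_div_comm, one_mul, ← pow_add]
    have : l + (R + 1 - (l + 1)) = R := by omega
    rw [this]
  have hBad : ∀ l < R, ∀ a m, ν (Bad l a m) ≤ ENNReal.ofReal (Real.exp (-(μ * Q))) := by
    intro l hl a m
    refine (chernoff (volume : Measure (Fin 2 → UnitAddCircle)) n (S l a m) (v := 1 / (Q : ℝ) ^ R) (by positivity)
      (hSvol l hl a m) T).trans ?_
    apply ENNReal.ofReal_le_ofReal
    have h1 : (n : ℝ) * (1 / (Q : ℝ) ^ R) = μ * Q := by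
      rw [hn]
      push_cast
      rw [pow_succ]
      field_simp
    rw [h1, div_le_iff₀ (by positivity)]
    have h2 : Real.exp (-(μ * Q : ℝ)) * 2 ^ T = Real.exp (-(μ * Q) + T * Real.log 2) := by
      rw [Real.exp_add]
      congr 1
      rw [mul_comm, Real.exp_mul, Real.exp_log (by norm_num)]
      exact (Real.rpow_natCast 2 T).symm
    rw [h2]
    apply Real.exp_le_exp.2
    have h3 := Real.log_two_gt_d9
    have h4 : (T : ℝ) = 4 * μ * Q + 1 := by simp [T]
    rw [h4]
    have h5 : (0 : ℝ) ≤ μ * Q := by positivity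
    nlinarith
  have hsub : {ω : Fin n → Fin 2 → UnitAddCircle | ¬ Gx (4 * μ * Q) (fun l m j => bw Q R l m (ω j 1))
        (fun l j => dig Q hQ l (ω j 0)) R} ⊆
      ⋃ l ∈ Finset.range R, ⋃ a ∈ Finset.range (Q ^ l),
        ⋃ m ∈ Finset.univ.filter (fun m : Fin (2 * Q ^ (R + 1)) => (m : ℕ) < 2 * Q ^ (R - l)), Bad l a m := by
    intro ω hω
    have hω' : ¬ Gx (4 * μ * Q) (fun l m j => bw Q R l m (ω j 1)) (fun l j => dig Q hQ l (ω j 0)) R := hω
    unfold Gx at hω'
    push Not at hω'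
    obtain ⟨l, hl, a, m, hcnt⟩ := hω'
    unfold cnt at hcnt
    set A : Finset (Fin n) := Finset.univ.filter (fun j =>
      cellx (fun l j => dig Q hQ l (ω j 0)) l j = a ∧ bw Q R (l + 1) m (ω j 1) ≠ 0) with hA
    have hAne : A.Nonempty := Finset.card_pos.1 (by omega)
    obtain ⟨j0, hj0⟩ := hAne
    rw [hA, Finset.mem_filter] at hj0
    have hAS : ∀ j ∈ A, ω j ∈ S l a m := by
      intro j hj
      rw [hA, Finset.mem_filter] at hj
      refine ⟨?_, hj.2.2⟩
      rw [← hcell (fun j => ω j 0) l j]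
      exact hj.2.1
    simp only [Set.mem_iUnion, Finset.mem_range, Finset.mem_filter, Finset.mem_univ, true_and]
    refine ⟨l, hl, a, ?_, m, ?_, A, hcnt, hAS⟩
    · have h1 := hj0.2.1
      rw [hcell (fun j => ω j 0) l j0] at h1
      rw [← h1]
      have h2 := (AddCircle.equivIco (1 : ℝ) 0 (ω j0 0)).2
      have h3 : (Q : ℝ) ^ l * (AddCircle.equivIco (1 : ℝ) 0 (ω j0 0) : ℝ) < (Q : ℝ) ^ l := by
        have h4 : (AddCircle.equivIco (1 : ℝ) 0 (ω j0 0) : ℝ) < 1 := by
          have := h2.2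
          linarith
        have h5 : (0 : ℝ) < (Q : ℝ) ^ l := by positivity
        nlinarith
      rw [Nat.floor_lt (mul_nonneg (by positivity) h2.1)]
      push_cast
      exact h3
    · by_contra hcon
      apply hj0.2.2
      unfold bw
      rw [if_neg]
      have : R + 1 - (l + 1) = R - l := by omega
      rw [this]
      exact hcon
  refine (measure_mono hsub).trans ?_
  have hcard : ∀ l < R, (Finset.univ.filter (fun m : Fin (2 * Q ^ (R + 1)) => (m : ℕ) < 2 * Q ^ (R - l))).card ≤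
      2 * Q ^ (R - l) := by
    intro l hl
    have h1 : (Finset.univ.filter (fun m : Fin (2 * Q ^ (R + 1)) => (m : ℕ) < 2 * Q ^ (R - l))).card ≤
        (Finset.range (2 * Q ^ (R - l))).card := by
      apply Finset.card_le_card_of_injOn (fun m : Fin (2 * Q ^ (R + 1)) => (m : ℕ))
      · intro m hm
        have := (Finset.mem_filter.1 hm).2
        exact Finset.mem_coe.2 (Finset.mem_range.2 this)
      · intro m _ m' _ h
        exact Fin.ext h
    rwa [Finset.card_range] at h1
  have hE : (0 : ℝ) ≤ Real.exp (-(μ * Q)) := (Real.exp_pos _).le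
  calc ν (⋃ l ∈ Finset.range R, ⋃ a ∈ Finset.range (Q ^ l),
        ⋃ m ∈ Finset.univ.filter (fun m : Fin (2 * Q ^ (R + 1)) => (m : ℕ) < 2 * Q ^ (R - l)), Bad l a m)
      ≤ ∑ l ∈ Finset.range R, ∑ a ∈ Finset.range (Q ^ l),
        ∑ m ∈ Finset.univ.filter (fun m : Fin (2 * Q ^ (R + 1)) => (m : ℕ) < 2 * Q ^ (R - l)), ν (Bad l a m) := by
        refine (measure_biUnion_finset_le _ _).trans (Finset.sum_le_sum fun l _ => ?_)
        refine (measure_biUnion_finset_le _ _).trans (Finset.sum_le_sum fun a _ => ?_)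
        exact measure_biUnion_finset_le _ _
    _ ≤ ∑ l ∈ Finset.range R, ∑ a ∈ Finset.range (Q ^ l),
        ∑ m ∈ Finset.univ.filter (fun m : Fin (2 * Q ^ (R + 1)) => (m : ℕ) < 2 * Q ^ (R - l)),
          ENNReal.ofReal (Real.exp (-(μ * Q))) := by
        refine Finset.sum_le_sum fun l hl => Finset.sum_le_sum fun a _ => Finset.sum_le_sum fun m _ => ?_
        exact hBad l (Finset.mem_range.1 hl) a m
    _ ≤ ∑ l ∈ Finset.range R, ENNReal.ofReal (2 * (Q : ℝ) ^ R * Real.exp (-(μ * Q))) := by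
        refine Finset.sum_le_sum fun l hl => ?_
        have hl' := Finset.mem_range.1 hl
        rw [Finset.sum_const, Finset.sum_const, Finset.card_range, nsmul_eq_mul, nsmul_eq_mul]
        rw [← ENNReal.ofReal_natCast, ← ENNReal.ofReal_natCast, ← ENNReal.ofReal_mul (by positivity),
          ← ENNReal.ofReal_mul (by positivity)]
        apply ENNReal.ofReal_le_ofReal
        have h1 : ((Finset.univ.filter (fun m : Fin (2 * Q ^ (R + 1)) => (m : ℕ) < 2 * Q ^ (R - l))).card : ℝ) ≤
            2 * (Q : ℝ) ^ (R - l) := by exact_mod_cast hcard l hl'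
        calc ((Q ^ l : ℕ) : ℝ) * (((Finset.univ.filter (fun m : Fin (2 * Q ^ (R + 1)) => (m : ℕ) < 2 * Q ^ (R - l))).card : ℝ) *
              Real.exp (-(μ * Q))) ≤ (Q : ℝ) ^ l * ((2 * (Q : ℝ) ^ (R - l)) * Real.exp (-(μ * Q))) := by
              push_cast
              gcongr
          _ = 2 * ((Q : ℝ) ^ l * (Q : ℝ) ^ (R - l)) * Real.exp (-(μ * Q)) := by ring
          _ = 2 * (Q : ℝ) ^ R * Real.exp (-(μ * Q)) := by
              rw [← pow_add]
              congr 3
              omega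
    _ = ENNReal.ofReal (2 * R * (Q : ℝ) ^ R * Real.exp (-(μ * Q))) := by
        rw [Finset.sum_const, Finset.card_range, nsmul_eq_mul, ← ENNReal.ofReal_natCast,
          ← ENNReal.ofReal_mul (by positivity)]
        congr 1
        ring

end

end Pool.Agent.Helper150.Iid.Cher
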