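import Mathlib

set_option autoImplicit false

namespace Pool.Agent.Helper150.Iid.Isol

open MeasureTheory

theorem prob1 : IsProbabilityMeasure (volume : Measure UnitAddCircle) := ⟨by
  have h : (volume : Measure UnitAddCircle) Set.univ = ENNReal.ofReal 1 := AddCircle.measure_univ 1
  rw [h, ENNReal.ofReal_one]⟩

theorem prob2 : IsProbabilityMeasure (volume : Measure (Fin 2 → UnitAddCircle)) := by
  haveI := prob1
  rw [volume_pi]
  infer_instance

/-- `x` blocks level `l`. -/
def Blk (Λ : ℕ) (p : Fin 2 → UnitAddCircle) (l : ℕ) (x : Fin 2 → UnitAddCircle) : Prop :=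
  ‖x 0 - p 0‖ < 1 / 2 ^ l ∧ ‖x 1 - p 1‖ < 1 / 2 ^ (Λ - l)

/-- all levels from `l` on are blocked. -/
def BB (Λ : ℕ) (p : Fin 2 → UnitAddCircle) (n l : ℕ) : Set (Fin n → Fin 2 → UnitAddCircle) :=
  {ω | ∀ l', l ≤ l' → l' ≤ Λ → ∃ j, Blk Λ p l' (ω j)}

/-- the box -/
def Bx (p : Fin 2 → UnitAddCircle) (a b : ℝ) : Set (Fin 2 → UnitAddCircle) :=
  {x | ‖x 0 - p 0‖ < a ∧ ‖x 1 - p 1‖ < b}

theorem vol_ball_le (c : UnitAddCircle) (ε : ℝ) :
    volume {x : UnitAddCircle | ‖x - c‖ < ε} ≤ ENNReal.ofReal (2 * ε) := by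
  have h1 : {x : UnitAddCircle | ‖x - c‖ < ε} ⊆ Metric.closedBall c ε := by
    intro x hx
    rw [Metric.mem_closedBall, dist_eq_norm]
    exact le_of_lt hx
  refine (measure_mono h1).trans ?_
  rw [AddCircle.volume_closedBall]
  exact ENNReal.ofReal_le_ofReal (min_le_right _ _)

theorem vol_box_le (p : Fin 2 → UnitAddCircle) (a b : ℝ) (ha : 0 ≤ a) :
    volume (Bx p a b) ≤ ENNReal.ofReal (4 * a * b) := by
  have h1 : Bx p a b = Set.pi Set.univ
      (fun i : Fin 2 => {x : UnitAddCircle | ‖x - p i‖ < (if i = 0 then a else b)}) := by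
    ext x
    simp [Bx, Set.mem_pi, Fin.forall_fin_two]
  rw [h1, volume_pi_pi, Fin.prod_univ_two]
  have h2 := vol_ball_le (p 0) a
  have h3 := vol_ball_le (p 1) b
  have h4 : (4 * a * b) = (2 * a) * (2 * b) := by ring
  rw [h4, ENNReal.ofReal_mul (by positivity)]
  simpa using mul_le_mul' h2 h3

theorem sum_bound (m r : ℝ) (hr : r = (1 + 8 * m) / 2) (hm : 0 ≤ m) (d : ℕ) :
    ∑ s ∈ Finset.range (d + 1), 4 * m * (1 / 2) ^ s * r ^ (d - s) ≤ r ^ (d + 1) := by
  induction d with
  | zero =>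
    simp
    rw [hr]
    linarith
  | succ d ih =>
    rw [Finset.sum_range_succ']
    have h1 : ∑ k ∈ Finset.range (d + 1), 4 * m * (1 / 2) ^ (k + 1) * r ^ (d + 1 - (k + 1)) =
        1 / 2 * ∑ s ∈ Finset.range (d + 1), 4 * m * (1 / 2) ^ s * r ^ (d - s) := by
      rw [Finset.mul_sum]
      refine Finset.sum_congr rfl (fun k _ => ?_)
      rw [Nat.add_sub_add_right, pow_succ]
      ring
    rw [h1]
    have hr0 : 0 ≤ r := by rw [hr]; linarith
    have h2 : r ^ (d + 1 + 1) = r * r ^ (d + 1) := by ring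
    have h3 : 0 ≤ r ^ (d + 1) := by positivity
    rw [h2]
    have h4 : r * r ^ (d + 1) = (1 / 2) * r ^ (d + 1) + 4 * m * r ^ (d + 1) := by
      rw [hr]; ring
    rw [h4]
    simp only [pow_zero, mul_one, Nat.sub_zero]
    linarith

theorem main_bound (Λ N : ℕ) (p : Fin 2 → UnitAddCircle) (r : ℝ)
    (hr : r = (1 + 8 * ((N : ℝ) / 2 ^ Λ)) / 2) :
    ∀ d l n : ℕ, Λ + 1 = l + d → n ≤ N →
      (Measure.pi (fun _ : Fin n => (volume : Measure (Fin 2 → UnitAddCircle)))) (BB Λ p n l) ≤
        ENNReal.ofReal (r ^ d) := by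
  have hr0 : 0 ≤ r := by rw [hr]; positivity
  haveI := prob2
  intro d
  induction d using Nat.strong_induction_on with
  | _ d ih =>
    intro l n hl hn
    rcases Nat.eq_zero_or_pos d with hd | hd
    · subst hd
      rw [pow_zero, ENNReal.ofReal_one]
      exact prob_le_one
    · obtain ⟨d, rfl⟩ : ∃ d', d = d' + 1 := ⟨d - 1, by omega⟩
      rcases n with _ | m
      · have : BB Λ p 0 l = ∅ := by
          ext ω
          simp only [BB, Set.mem_ofPred_eq, Set.mem_empty_iff_false, iff_false]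
          intro h
          obtain ⟨j, -⟩ := h l le_rfl (by omega)
          exact j.elim0
        rw [this, measure_empty]
        exact zero_le
      · have hcover : BB Λ p (m + 1) l ⊆ ⋃ j : Fin (m + 1), ⋃ s ∈ Finset.range (d + 1),
            (MeasurableEquiv.piFinSuccAbove (fun _ : Fin (m + 1) => Fin 2 → UnitAddCircle) j) ⁻¹'
              ((Bx p (1 / 2 ^ (l + s)) (1 / 2 ^ (Λ - l))) ×ˢ (BB Λ p m (l + s + 1))) := by
          intro ω hω
          obtain ⟨j, hj⟩ := hω l le_rfl (by omega)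
          classical
          let S : Finset ℕ := (Finset.range (d + 1)).filter (fun s => Blk Λ p (l + s) (ω j))
          have hS : S.Nonempty := ⟨0, by
            simp only [S, Finset.mem_filter, Finset.mem_range, add_zero]
            exact ⟨by omega, hj⟩⟩
          have hmax := S.max'_mem hS
          set s := S.max' hS with hs
          have hs1 : s < d + 1 ∧ Blk Λ p (l + s) (ω j) := by
            simpa [S, Finset.mem_filter] using hmax
          rw [Set.mem_iUnion]
          refine ⟨j, ?_⟩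
          rw [Set.mem_iUnion₂]
          refine ⟨s, Finset.mem_range.mpr hs1.1, ?_⟩
          refine ⟨⟨hs1.2.1, hj.2⟩, ?_⟩
          intro l' h1 h2
          obtain ⟨j', hj'⟩ := hω l' (by omega) h2
          have hne : j' ≠ j := by
            rintro rfl
            have h3 : l' - l ∈ S := by
              simp only [S, Finset.mem_filter, Finset.mem_range]
              refine ⟨by omega, ?_⟩
              have : l + (l' - l) = l' := by omega
              rw [this]
              exact hj'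
            have h4 := S.le_max' _ h3
            rw [← hs] at h4
            omega
          obtain ⟨i, hi⟩ := Fin.exists_succAbove_eq hne
          refine ⟨i, ?_⟩
          show Blk Λ p l' (ω (j.succAbove i))
          rw [hi]
          exact hj'
        refine (measure_mono hcover).trans ?_
        refine (measure_iUnion_fintype_le _ _).trans ?_
        have hterm : ∀ j : Fin (m + 1), (Measure.pi (fun _ : Fin (m + 1) =>
            (volume : Measure (Fin 2 → UnitAddCircle)))) (⋃ s ∈ Finset.range (d + 1),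
            (MeasurableEquiv.piFinSuccAbove (fun _ : Fin (m + 1) => Fin 2 → UnitAddCircle) j) ⁻¹'
              ((Bx p (1 / 2 ^ (l + s)) (1 / 2 ^ (Λ - l))) ×ˢ (BB Λ p m (l + s + 1)))) ≤
            ENNReal.ofReal (∑ s ∈ Finset.range (d + 1), 4 * (1 / 2 ^ Λ) * (1 / 2) ^ s *
              r ^ (d - s)) := by
          intro j
          refine (measure_biUnion_finset_le _ _).trans ?_
          rw [ENNReal.ofReal_sum_of_nonneg (fun s _ => by positivity)]
          refine Finset.sum_le_sum (fun s hs => ?_)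
          rw [Finset.mem_range] at hs
          rw [(measurePreserving_piFinSuccAbove (fun _ : Fin (m + 1) =>
            (volume : Measure (Fin 2 → UnitAddCircle))) j).measure_preimage_equiv,
            Measure.prod_prod]
          have h1 := vol_box_le p (1 / 2 ^ (l + s)) (1 / 2 ^ (Λ - l)) (by positivity)
          have h2 := ih (d - s) (by omega) (l + s + 1) m (by omega) (by omega)
          refine (mul_le_mul' h1 h2).trans (le_of_eq ?_)
          rw [← ENNReal.ofReal_mul (by positivity)]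
          congr 2
          have h3 : (2 : ℝ) ^ Λ = 2 ^ l * 2 ^ (Λ - l) := by
            rw [← pow_add]; congr 1; omega
          rw [h3, pow_add, one_div_pow]
          field_simp
        refine (Finset.sum_le_sum (fun j _ => hterm j)).trans ?_
        rw [Finset.sum_const, Finset.card_univ, Fintype.card_fin, nsmul_eq_mul]
        have hsb := sum_bound ((N : ℝ) / 2 ^ Λ) r hr (by positivity) d
        have h5 : ((m + 1 : ℕ) : ENNReal) = ENNReal.ofReal ((m + 1 : ℕ) : ℝ) := by
          rw [ENNReal.ofReal_natCast]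
        rw [h5, ← ENNReal.ofReal_mul (by positivity)]
        refine ENNReal.ofReal_le_ofReal (le_trans ?_ hsb)
        rw [Finset.mul_sum]
        refine Finset.sum_le_sum (fun s _ => ?_)
        have h6 : ((m + 1 : ℕ) : ℝ) ≤ N := by exact_mod_cast hn
        have h7 : 0 ≤ 4 * (1 / 2 ^ Λ) * (1 / 2) ^ s * r ^ (d - s) := by positivity
        calc ((m + 1 : ℕ) : ℝ) * (4 * (1 / 2 ^ Λ) * (1 / 2) ^ s * r ^ (d - s))
            ≤ N * (4 * (1 / 2 ^ Λ) * (1 / 2) ^ s * r ^ (d - s)) := by gcongr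
          _ = 4 * (N / 2 ^ Λ) * (1 / 2) ^ s * r ^ (d - s) := by ring

/-- TARGET. With high probability each of `n` independent uniform points of the two-dimensional
torus is isolated in one of the `Λ + 1` dyadic box shapes of area about `2^{-Λ}`. -/
theorem isolation (n Λ : ℕ) (h : 8 * n * (Λ + 1) ≤ 2 ^ Λ) :
    (Measure.pi (fun _ : Fin n => (volume : Measure (Fin 2 → UnitAddCircle))))
      {ω | ∃ i, ∀ l ≤ Λ, ∃ j, j ≠ i ∧ ‖ω j 0 - ω i 0‖ < 1 / 2 ^ l ∧
        ‖ω j 1 - ω i 1‖ < 1 / 2 ^ (Λ - l)} ≤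
      ENNReal.ofReal (3 * n / 2 ^ (Λ + 1)) := by
  rcases n with _ | m
  · have : {ω : Fin 0 → Fin 2 → UnitAddCircle | ∃ i, ∀ l ≤ Λ, ∃ j, j ≠ i ∧
        ‖ω j 0 - ω i 0‖ < 1 / 2 ^ l ∧ ‖ω j 1 - ω i 1‖ < 1 / 2 ^ (Λ - l)} = ∅ := by
      ext ω
      simp only [Set.mem_ofPred_eq, Set.mem_empty_iff_false, iff_false]
      rintro ⟨i, -⟩
      exact i.elim0
    rw [this, measure_empty]
    exact zero_le
  · haveI := prob2
    set r : ℝ := (1 + 8 * (((m + 1 : ℕ) : ℝ) / 2 ^ Λ)) / 2 with hr
    have hr0 : 0 ≤ r := by positivity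
    let S : Set ((Fin 2 → UnitAddCircle) × (Fin m → Fin 2 → UnitAddCircle)) :=
      {q | ∀ l' : ℕ, l' ≤ Λ → ∃ j, Blk Λ q.1 l' (q.2 j)}
    have hSm : MeasurableSet S := by
      have : S = ⋂ l' : ℕ, ⋂ _ : l' ≤ Λ, ⋃ j : Fin m,
          {q | ‖q.2 j 0 - q.1 0‖ < 1 / 2 ^ l' ∧ ‖q.2 j 1 - q.1 1‖ < 1 / 2 ^ (Λ - l')} := by
        ext q
        simp [S, Blk]
      rw [this]
      refine MeasurableSet.iInter (fun l' => MeasurableSet.iInter (fun _ =>
        MeasurableSet.iUnion (fun j => ?_)))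
      apply IsOpen.measurableSet
      apply IsOpen.and
      · exact isOpen_lt (by fun_prop) continuous_const
      · exact isOpen_lt (by fun_prop) continuous_const
    have hcover : {ω : Fin (m + 1) → Fin 2 → UnitAddCircle | ∃ i, ∀ l ≤ Λ, ∃ j, j ≠ i ∧
        ‖ω j 0 - ω i 0‖ < 1 / 2 ^ l ∧ ‖ω j 1 - ω i 1‖ < 1 / 2 ^ (Λ - l)} ⊆
        ⋃ i : Fin (m + 1),
          (MeasurableEquiv.piFinSuccAbove (fun _ : Fin (m + 1) => Fin 2 → UnitAddCircle) i) ⁻¹'
            S := by
      rintro ω ⟨i, hi⟩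
      rw [Set.mem_iUnion]
      refine ⟨i, ?_⟩
      intro l' hl'
      obtain ⟨j, hj, h1, h2⟩ := hi l' hl'
      obtain ⟨k, hk⟩ := Fin.exists_succAbove_eq hj
      refine ⟨k, ?_⟩
      show Blk Λ (ω i) l' (ω (i.succAbove k))
      rw [hk]
      exact ⟨h1, h2⟩
    refine (measure_mono hcover).trans ((measure_iUnion_fintype_le _ _).trans ?_)
    have hterm : ∀ i : Fin (m + 1), (Measure.pi (fun _ : Fin (m + 1) =>
        (volume : Measure (Fin 2 → UnitAddCircle))))
        ((MeasurableEquiv.piFinSuccAbove (fun _ : Fin (m + 1) => Fin 2 → UnitAddCircle) i) ⁻¹'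
            S) ≤ ENNReal.ofReal (r ^ (Λ + 1)) := by
      intro i
      rw [(measurePreserving_piFinSuccAbove (fun _ : Fin (m + 1) =>
            (volume : Measure (Fin 2 → UnitAddCircle))) i).measure_preimage_equiv,
            Measure.prod_apply hSm]
      have h1 : ∀ q : Fin 2 → UnitAddCircle, (Measure.pi (fun _ : Fin m =>
          (volume : Measure (Fin 2 → UnitAddCircle)))) (Prod.mk q ⁻¹' S) ≤
          ENNReal.ofReal (r ^ (Λ + 1)) := by
        intro q
        have h2 : Prod.mk q ⁻¹' S = BB Λ q m 0 := by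
          ext ω
          simp [S, BB]
        rw [h2]
        exact main_bound Λ (m + 1) q r hr (Λ + 1) 0 m (by omega) (by omega)
      refine (lintegral_mono h1).trans ?_
      rw [lintegral_const, measure_univ, mul_one]
    refine (Finset.sum_le_sum (fun j _ => hterm j)).trans ?_
    rw [Finset.sum_const, Finset.card_univ, Fintype.card_fin, nsmul_eq_mul]
    have h5 : ((m + 1 : ℕ) : ENNReal) = ENNReal.ofReal ((m + 1 : ℕ) : ℝ) := by
      rw [ENNReal.ofReal_natCast]
    rw [h5, ← ENNReal.ofReal_mul (by positivity)]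
    refine ENNReal.ofReal_le_ofReal ?_
    have h6 : r ^ (Λ + 1) ≤ 3 / 2 ^ (Λ + 1) := by
      have h7 : (1 + 8 * (((m + 1 : ℕ) : ℝ) / 2 ^ Λ)) ^ (Λ + 1) ≤ 3 := by
        have h8 : 1 + 8 * (((m + 1 : ℕ) : ℝ) / 2 ^ Λ) ≤
            Real.exp (8 * (((m + 1 : ℕ) : ℝ) / 2 ^ Λ)) := by
          rw [add_comm]
          exact Real.add_one_le_exp _
        calc (1 + 8 * (((m + 1 : ℕ) : ℝ) / 2 ^ Λ)) ^ (Λ + 1)
            ≤ (Real.exp (8 * (((m + 1 : ℕ) : ℝ) / 2 ^ Λ))) ^ (Λ + 1) :=
              pow_le_pow_left₀ (by positivity) h8 _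
          _ = Real.exp ((Λ + 1 : ℕ) * (8 * (((m + 1 : ℕ) : ℝ) / 2 ^ Λ))) := by
              rw [← Real.exp_nat_mul]
          _ ≤ Real.exp 1 := by
              apply Real.exp_le_exp.mpr
              have h9 : ((8 * (m + 1) * (Λ + 1) : ℕ) : ℝ) ≤ ((2 ^ Λ : ℕ) : ℝ) := by
                exact_mod_cast h
              push_cast at h9 ⊢
              rw [show ((Λ : ℝ) + 1) * (8 * (((m : ℝ) + 1) / 2 ^ Λ)) =
                (8 * (m + 1) * (Λ + 1)) / 2 ^ Λ by ring]
              rw [div_le_one (by positivity)]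
              exact h9
          _ ≤ 3 := by
              have := Real.exp_one_lt_d9
              linarith
      rw [hr, div_pow]
      gcongr
    calc ((m + 1 : ℕ) : ℝ) * r ^ (Λ + 1) ≤ ((m + 1 : ℕ) : ℝ) * (3 / 2 ^ (Λ + 1)) := by gcongr
      _ = 3 * ((m + 1 : ℕ) : ℝ) / 2 ^ (Λ + 1) := by ring

end Pool.Agent.Helper150.Iid.Isol
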