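import Mathlib
import Pool.Agent.Helper150.Iid.Iter

set_option autoImplicit false

namespace Pool.Agent.Helper150.Iid

open MeasureTheory
open scoped ContDiff

noncomputable section

variable {n Q : ℕ} {ι : Type} [Fintype ι]

omit [Fintype ι] in
open Classical in
theorem meas_cnt (bw : ι → UnitAddCircle → ℝ) (hbw : ∀ m, Measurable (bw m)) (cell : Fin n → ℕ)
    (a : ℕ) (m : ι) :
    Measurable fun y : Fin n → UnitAddCircle => cnt (fun m j => bw m (y j)) cell a m := by
  unfold cnt
  simp_rw [Finset.card_filter]
  refine Finset.measurable_sum _ fun j _ => ?_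
  refine Measurable.ite ?_ measurable_const measurable_const
  by_cases h : cell j = a
  · have : {y : Fin n → UnitAddCircle | cell j = a ∧ bw m (y j) ≠ 0} =
        {y | bw m (y j) = 0}ᶜ := by
      ext y; simp [h]
    rw [this]
    exact (((hbw m).comp (measurable_pi_apply j)) (measurableSet_singleton 0)).compl
  · have : {y : Fin n → UnitAddCircle | cell j = a ∧ bw m (y j) ≠ 0} = ∅ := by
      ext y; simp [h]
    rw [this]
    exact MeasurableSet.empty

theorem meas_gx (O : ℕ) (bw : ι → UnitAddCircle → ℝ) (hbw : ∀ m, Measurable (bw m))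
    (cell : Fin n → ℕ) (w : (Fin n → UnitAddCircle) → Fin n → ℝ)
    (hw : ∀ j, Measurable fun y => w y j) (a : ℕ) (m : ι) :
    Measurable fun y : Fin n → UnitAddCircle => gx O (fun m j => bw m (y j)) cell (w y) a m := by
  unfold gx
  refine Measurable.ite ?_ measurable_const ?_
  · exact measurableSet_lt measurable_const (meas_cnt bw hbw cell a m)
  · unfold Sx
    refine Finset.measurable_sum _ fun j _ => ?_
    by_cases h : cell j = a
    · simp only [h, if_true]
      exact ((hbw m).comp (measurable_pi_apply j)).mul (hw j)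
    · simp only [h, if_false]
      exact measurable_const

theorem meas_Tx (O : ℕ) (bw : ι → UnitAddCircle → ℝ) (hbw : ∀ m, Measurable (bw m))
    (cell : Fin n → ℕ) (w : (Fin n → UnitAddCircle) → Fin n → ℝ)
    (hw : ∀ j, Measurable fun y => w y j) (j : Fin n) :
    Measurable fun y : Fin n → UnitAddCircle => Tx O (fun m j => bw m (y j)) cell (w y) j := by
  unfold Tx cof
  refine Finset.measurable_sum _ fun m _ => ?_
  exact ((hbw m).comp (measurable_pi_apply j)).mul
    ((meas_gx O bw hbw cell w hw (cell j) m).div_const _)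

theorem meas_zx (O : ℕ) (bw : ℕ → ι → UnitAddCircle → ℝ) (hbw : ∀ l m, Measurable (bw l m))
    (ξ : ℕ → Fin Q → ℝ) (D : ℕ → Fin n → Fin Q) (l : ℕ) : ∀ j,
    Measurable fun y : Fin n → UnitAddCircle => zx O (fun l m j => bw l m (y j)) ξ D l j := by
  induction l with
  | zero => intro j; simp only [zx]; exact measurable_const
  | succ l ih =>
    intro j
    simp only [zx]
    refine (ih j).sub (measurable_const.mul ?_)
    exact meas_Tx O (bw l) (hbw l) (cellx D l)
      (fun y j => ξ l (D l j) * zx O (fun l m j => bw l m (y j)) ξ D l j)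
      (fun j => measurable_const.mul (ih j)) j

/-- TARGET: the stopping event and the final energy are measurable functions of the second
coordinates (digits fixed). -/
theorem meas_final (O M : ℕ) (bw : ℕ → ι → UnitAddCircle → ℝ) (hbw : ∀ l m, Measurable (bw l m))
    (ξ : ℕ → Fin Q → ℝ) (D : ℕ → Fin n → Fin Q) (R : ℕ) (τ : ℝ) :
    MeasurableSet {y : Fin n → UnitAddCircle |
      Gx M (fun l m j => bw l m (y j)) D R ∧
        τ < ∑ j, zx O (fun l m j => bw l m (y j)) ξ D R j ^ 2} := by
  have h1 : MeasurableSet {y : Fin n → UnitAddCircle | Gx M (fun l m j => bw l m (y j)) D R} := by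
    have : {y : Fin n → UnitAddCircle | Gx M (fun l m j => bw l m (y j)) D R} =
        ⋂ l : ℕ, ⋂ _ : l < R, ⋂ a : ℕ, ⋂ m : ι,
          {y | cnt (fun m j => bw (l + 1) m (y j)) (cellx D l) a m ≤ M} := by
      ext y
      simp only [Gx, Set.mem_iInter]
      rfl
    rw [this]
    refine MeasurableSet.iInter fun l => MeasurableSet.iInter fun _ => MeasurableSet.iInter fun a =>
      MeasurableSet.iInter fun m => ?_
    exact measurableSet_le (meas_cnt (bw (l + 1)) (hbw (l + 1)) (cellx D l) a m) measurable_const
  have h2 : MeasurableSet {y : Fin n → UnitAddCircle |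
      τ < ∑ j, zx O (fun l m j => bw l m (y j)) ξ D R j ^ 2} :=
    measurableSet_lt measurable_const
      (Finset.measurable_sum _ fun j _ => (meas_zx O bw hbw ξ D R j).pow_const 2)
  exact h1.inter h2

end

end Pool.Agent.Helper150.Iid
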