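import Mathlib
import Pool.Agent.Helper150.Iid.Asm2
import Pool.Agent.Helper150.Iid.Cher
import Pool.Agent.Helper150.Iid.Meas
import Pool.Agent.Helper150.Iid.Isol

set_option autoImplicit false

namespace Pool.Agent.Helper150.Iid

open MeasureTheory
open scoped ENNReal

noncomputable section

/-- First bad event: an overfull intermediate box. -/
def Bad1 (n Q : ℕ) (hQ : 0 < Q) (R μ : ℕ) : Set (Fin n → Tor 2) :=
  {w | ¬ Gx (4 * μ * Q) (fun l (m : Fin (2 * Q ^ (R + 1))) j => bw Q R l m (w j 1))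
        (fun l j => dig Q hQ l (w j 0)) R}

/-- Large final energy, as a set of second coordinates for given digits. -/
def BadY (n Q : ℕ) (hQ : 0 < Q) (R μ : ℕ) (τ : ℝ) (D : Fin R → Fin n → Fin Q) :
    Set (Fin n → UnitAddCircle) :=
  {y | Gx (4 * μ * Q) (fun l (m : Fin (2 * Q ^ (R + 1))) j => bw Q R l m (y j)) (extD hQ D) R ∧
    τ < ∑ j, zx (128 * μ) (fun l (m : Fin (2 * Q ^ (R + 1))) j => bw Q R l m (y j)) (xi Q)
      (extD hQ D) R j ^ 2}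

/-- Second bad event. -/
def Bad2 (n Q : ℕ) (hQ : 0 < Q) (R μ : ℕ) (τ : ℝ) : Set (Fin n → Tor 2) :=
  {w | (fun j => w j 1) ∈ BadY n Q hQ R μ τ (fun l j => dig Q hQ l (w j 0))}

/-- Third bad event. -/
def Bad3 (n Λ : ℕ) : Set (Fin n → Tor 2) :=
  {w | ∃ i, ∀ l ≤ Λ, ∃ j, j ≠ i ∧ ‖w j 0 - w i 0‖ < 1 / 2 ^ l ∧
        ‖w j 1 - w i 1‖ < 1 / 2 ^ (Λ - l)}

theorem bad2_small : ∃ κ : ℝ, 0 < κ ∧ κ ≤ 1 ∧ ∀ (n Q : ℕ) (hQ : 0 < Q) (R μ : ℕ) (τ : ℝ), 32 ≤ Q →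
    0 < μ → 0 < τ →
    (Measure.pi (fun _ : Fin n => (volume : Measure (Tor 2)))) (Bad2 n Q hQ R μ τ) ≤
      ENNReal.ofReal ((1 - κ / (1024 * μ)) ^ R * (2 * n) / τ) := by
  obtain ⟨κ, hκ0, hκ⟩ := xi_sq
  have hκ1 : κ ≤ 1 := by
    refine (hκ 32 0 le_rfl).trans ?_
    rw [div_le_one (by norm_num)]
    have h2 : ∑ a, xi 32 0 a ^ 2 ≤ ∑ a : Fin 32, (1 : ℝ) := by
      refine Finset.sum_le_sum fun a _ => ?_
      rw [← sq_abs]
      exact pow_le_one₀ (abs_nonneg _) (xi_le 32 0 a)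
    refine h2.trans ?_
    simp
  refine ⟨κ, hκ0, hκ1, ?_⟩
  intro n Q hQ R μ τ hQ32 hμ hτ
  classical
  refine digit_fubini hQ R (BadY n Q hQ R μ τ) ?_ _ ?_
  · intro D
    exact meas_final (128 * μ) (4 * μ * Q) (bw Q R) (fun l m => bw_measurable R l m) (xi Q)
      (extD hQ D) R τ
  · intro y
    have hps : PotStep n Q (Fin (2 * Q ^ (R + 1))) := by
      intro β β' hβ hβ' cell O hO ξ h0 h1 κ' hκ0' hκ' M hM hMO z
      exact potential_step hβ hβ' cell O hO hQ ξ h0 h1 κ' hκ0' hκ' M hM hMO z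
    have h1 := potential_iter hps (128 * μ) (by positivity) hQ R
      (fun l (m : Fin (2 * Q ^ (R + 1))) j => bw Q R l m (y j)) (fun l _ => bw_wts hQ R l y)
      (xi Q) (fun l => xi_sum Q l hQ) (fun l a => xi_le Q l a) κ hκ0 (fun l => hκ Q l hQ32)
      (4 * μ * Q) (by nlinarith)
    have h2 : ((Finset.univ.filter (fun D : Fin R → Fin n → Fin Q =>
        y ∈ BadY n Q hQ R μ τ D)).card : ℝ) * τ ≤
        ∑ D : Fin R → Fin n → Fin Q,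
        if Gx (4 * μ * Q) (fun l (m : Fin (2 * Q ^ (R + 1))) j => bw Q R l m (y j))
          (extD hQ D) R then ∑ j, zx (128 * μ)
            (fun l (m : Fin (2 * Q ^ (R + 1))) j => bw Q R l m (y j)) (xi Q)
              (extD hQ D) R j ^ 2 else 0 := by
      rw [Finset.card_filter]
      push_cast
      rw [Finset.sum_mul]
      refine Finset.sum_le_sum fun D _ => ?_
      by_cases h3 : y ∈ BadY n Q hQ R μ τ D
      · rw [if_pos h3, if_pos h3.1, one_mul]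
        exact h3.2.le
      · rw [if_neg h3, zero_mul]
        split_ifs
        · exact Finset.sum_nonneg fun _ _ => sq_nonneg _
        · exact le_rfl
    have h3 := h2.trans h1
    rw [← le_div_iff₀ hτ] at h3
    refine h3.trans (le_of_eq ?_)
    push_cast
    have : κ / (8 * (128 * (μ : ℝ))) = κ / (1024 * μ) := by
      congr 1
      ring
    rw [this]
    ring

/-- Outside the bad events: small final energy. -/
theorem good_energy {n Q : ℕ} (hQ : 0 < Q) (R μ : ℕ) (τ : ℝ) (w : Fin n → Tor 2)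
    (h1 : w ∉ Bad1 n Q hQ R μ) (h2 : w ∉ Bad2 n Q hQ R μ τ) :
    ∑ j, zz hQ R (128 * μ) (fun i => w i 0) (fun i => w i 1) R j ^ 2 ≤ τ := by
  have hG : Gx (4 * μ * Q) (fun l (m : Fin (2 * Q ^ (R + 1))) j => bw Q R l m (w j 1))
        (fun l j => dig Q hQ l (w j 0)) R := by
    by_contra h
    exact h1 h
  have hagree : ∀ l < R, extD hQ (fun (l : Fin R) j => dig Q hQ l (w j 0)) l =
      (fun l j => dig Q hQ l (w j 0)) l := by
    intro l hl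
    unfold extD
    rw [dif_pos hl]
  have hG' : Gx (4 * μ * Q) (fun l (m : Fin (2 * Q ^ (R + 1))) j => bw Q R l m (w j 1))
      (extD hQ (fun (l : Fin R) j => dig Q hQ l (w j 0))) R := by
    intro l hl a m
    rw [cellx_congr l fun l' hl' => hagree l' (hl'.trans hl)]
    exact hG l hl a m
  by_contra hcon
  push Not at hcon
  apply h2
  refine ⟨hG', ?_⟩
  rw [zx_congr _ _ _ R hagree]
  exact hcon

theorem good_iso {n Λ : ℕ} (w : Fin n → Tor 2) (h : w ∉ Bad3 n Λ) : Iso n Λ w := by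
  intro i
  by_contra hcon
  push Not at hcon
  exact h ⟨i, hcon⟩

theorem bad_total : ∃ κ : ℝ, 0 < κ ∧ κ ≤ 1 ∧ ∀ (n Q : ℕ) (hQ : 0 < Q) (R μ Λ : ℕ) (τ : ℝ), 32 ≤ Q →
    0 < μ → 0 < τ → n = μ * Q ^ (R + 1) → 8 * n * (Λ + 1) ≤ 2 ^ Λ →
    2 * R * (Q : ℝ) ^ R * Real.exp (-(μ * Q)) ≤ 1 / 6 →
    (1 - κ / (1024 * μ)) ^ R * (2 * n) / τ ≤ 1 / 6 →
    (3 * n / 2 ^ (Λ + 1) : ℝ) ≤ 1 / 6 →
    (Measure.pi (fun _ : Fin n => (volume : Measure (Tor 2))))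
      (Bad1 n Q hQ R μ ∪ Bad2 n Q hQ R μ τ ∪ Bad3 n Λ) ≤ 1 / 2 := by
  obtain ⟨κ, hκ0, hκ1, hκ⟩ := bad2_small
  refine ⟨κ, hκ0, hκ1, ?_⟩
  intro n Q hQ R μ Λ τ hQ32 hμ hτ hn hΛ a1 a2 a3
  have b1 : (Measure.pi (fun _ : Fin n => (volume : Measure (Tor 2)))) (Bad1 n Q hQ R μ) ≤
      ENNReal.ofReal (1 / 6) :=
    (Cher.M_event hQ R μ hn (fun x l j => cellx_dig hQ x l j)).trans (ENNReal.ofReal_le_ofReal a1)
  have b2 : (Measure.pi (fun _ : Fin n => (volume : Measure (Tor 2)))) (Bad2 n Q hQ R μ τ) ≤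
      ENNReal.ofReal (1 / 6) :=
    (hκ n Q hQ R μ τ hQ32 hμ hτ).trans (ENNReal.ofReal_le_ofReal a2)
  have b3 : (Measure.pi (fun _ : Fin n => (volume : Measure (Tor 2)))) (Bad3 n Λ) ≤
      ENNReal.ofReal (1 / 6) :=
    (Isol.isolation n Λ hΛ).trans (ENNReal.ofReal_le_ofReal a3)
  refine (measure_union_le _ _).trans ?_
  refine (add_le_add ((measure_union_le _ _).trans (add_le_add b1 b2)) b3).trans ?_
  rw [← ENNReal.ofReal_add (by norm_num) (by norm_num),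
    ← ENNReal.ofReal_add (by norm_num) (by norm_num)]
  have : ((1:ℝ) / 6 + 1 / 6 + 1 / 6) = 2⁻¹ := by norm_num
  rw [this, ENNReal.ofReal_inv_of_pos (by norm_num)]
  simp

/-- The lower bound with free parameters. -/
theorem lower_param (k : ℝ) (hk : 0 ≤ k) : ∃ κ C : ℝ, 0 < κ ∧ κ ≤ 1 ∧ 0 ≤ C ∧
    ∀ (n Q : ℕ) (_ : 0 < Q) (R μ Λ : ℕ) (τ : ℝ), 32 ≤ Q →
    0 < μ → 0 < τ → n = μ * Q ^ (R + 1) → 8 * n * (Λ + 1) ≤ 2 ^ Λ →
    2 * R * (Q : ℝ) ^ R * Real.exp (-(μ * Q)) ≤ 1 / 6 →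
    (1 - κ / (1024 * μ)) ^ R * (2 * n) / τ ≤ 1 / 6 →
    (3 * n / 2 ^ (Λ + 1) : ℝ) ≤ 1 / 6 →
    ∀ S : ℝ, 2 * τ + C * (R / Q) ^ 2 * n ≤ S →
    C / 2 ^ Λ * Real.sqrt (n * S) ≤ 1 / 2 →
    ∀ E : ℝ, 0 < E →
    3 * (1 + C * ((Q : ℝ) ^ (R + 1)) ^ (2 * k) + C * ((Λ : ℝ) + 1) * ((2 : ℝ) ^ Λ) ^ (2 * k) /
      (2 : ℝ) ^ Λ * S) ≤ E ^ 2 →
    ENNReal.ofReal (1 / (4 * E)) ≤ eIid 2 k n := by
  obtain ⟨κ, hκ0, hκ1, hκ⟩ := bad_total
  obtain ⟨C1, hC1, H1⟩ := fool k hk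
  obtain ⟨C2, hC2, H2⟩ := res_sum
  refine ⟨κ, C1 + C2, hκ0, hκ1, by positivity, ?_⟩
  intro n Q hQ R μ Λ τ hQ32 hμ hτ hn hΛ a1 a2 a3 S hS hsm E hE hEE
  unfold eIid
  refine le_iInf fun A => le_iInf fun hA => ?_
  have hbad := hκ n Q hQ R μ Λ τ hQ32 hμ hτ hn hΛ a1 a2 a3
  have hfin : (1:ℝ) / (4 * E) = (1 / (2 * E)) / 2 := by
    field_simp
    norm_num
  rw [hfin]
  refine err_lower A hA k _ hbad (1 / (2 * E)) ?_
  intro ω hω
  rw [Set.mem_union, Set.mem_union, not_or, not_or] at hω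
  obtain ⟨⟨g1, g2⟩, g3⟩ := hω
  obtain ⟨w, hw⟩ : ∃ w, w = A.P ω := ⟨_, rfl⟩
  rw [← hw] at g1 g2 g3
  have hen := good_energy hQ R μ τ w g1 g2
  have hiso := good_iso w g3
  have hO : 0 < 128 * μ := by positivity
  have hres := H2 n Q hQ R (128 * μ) hO w
  have hR0 : (0:ℝ) ≤ (R / Q : ℝ) ^ 2 * n := by positivity
  have hresS : ∑ j, res hQ R (128 * μ) w j ^ 2 ≤ S := by
    refine hres.trans (le_trans ?_ hS)
    have : C2 * ((R:ℝ) / Q) ^ 2 * n ≤ (C1 + C2) * ((R:ℝ) / Q) ^ 2 * n := by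
      have := mul_le_mul_of_nonneg_right (by linarith : C2 ≤ C1 + C2) hR0
      linarith
    linarith
  have hS0 : 0 ≤ S := le_trans (Finset.sum_nonneg fun _ _ => sq_nonneg _) hresS
  have habs : ∑ i, |res hQ R (128 * μ) w i| ≤ Real.sqrt (n * S) := by
    refine Real.le_sqrt_of_sq_le ?_
    have h1 := sq_sum_le_card_mul_sum_sq (s := (Finset.univ : Finset (Fin n)))
      (f := fun i => |res hQ R (128 * μ) w i|)
    simp only [sq_abs, Finset.card_univ, Fintype.card_fin] at h1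
    refine h1.trans ?_
    exact mul_le_mul_of_nonneg_left hresS (by positivity)
  have hsmall : C1 / 2 ^ Λ * ∑ i, |res hQ R (128 * μ) w i| ≤ 1 / 2 := by
    refine le_trans ?_ hsm
    refine mul_le_mul ?_ habs (Finset.sum_nonneg fun _ _ => abs_nonneg _) (by positivity)
    refine div_le_div_of_nonneg_right ?_ (by positivity)
    linarith
  obtain ⟨g, hg, hg0, hgi, hgs, hgt⟩ := H1 n Q hQ R (128 * μ) Λ w (by omega) hO hiso hsmall
  refine wce_ge A k ω g hg (by rw [← hw]; exact hg0) hgi E hE hgs (hgt.trans (le_trans ?_ hEE))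
  have hμ' : (1:ℝ) ≤ μ := by exact_mod_cast hμ
  have hQ' : (0:ℝ) < Q := by exact_mod_cast hQ
  have e1 : C1 * ((Q : ℝ) ^ (R + 1)) ^ (2 * k) / (Q : ℝ) ^ (R + 1) *
      (n / (2 * ((128 * μ : ℕ) : ℝ))) ≤ (C1 + C2) * ((Q : ℝ) ^ (R + 1)) ^ (2 * k) := by
    have hn' : (n : ℝ) = μ * (Q : ℝ) ^ (R + 1) := by
      rw [hn]; push_cast; ring
    have e2 : C1 * ((Q : ℝ) ^ (R + 1)) ^ (2 * k) / (Q : ℝ) ^ (R + 1) *
      (n / (2 * ((128 * μ : ℕ) : ℝ))) = (C1 * ((Q : ℝ) ^ (R + 1)) ^ (2 * k)) / 256 := by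
      rw [hn']
      push_cast
      field_simp
      ring
    rw [e2]
    have hp : 0 ≤ ((Q : ℝ) ^ (R + 1)) ^ (2 * k) := by positivity
    nlinarith [mul_nonneg hC1 hp, mul_nonneg hC2 hp]
  have e3 : C1 * ((Λ : ℝ) + 1) * ((2 : ℝ) ^ Λ) ^ (2 * k) / (2 : ℝ) ^ Λ *
      ∑ i, res hQ R (128 * μ) w i ^ 2 ≤
      (C1 + C2) * ((Λ : ℝ) + 1) * ((2 : ℝ) ^ Λ) ^ (2 * k) / (2 : ℝ) ^ Λ * S := by
    have hL : (0:ℝ) ≤ ((Λ : ℝ) + 1) * ((2 : ℝ) ^ Λ) ^ (2 * k) / (2 : ℝ) ^ Λ := by positivity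
    calc C1 * ((Λ : ℝ) + 1) * ((2 : ℝ) ^ Λ) ^ (2 * k) / (2 : ℝ) ^ Λ *
          ∑ i, res hQ R (128 * μ) w i ^ 2
        = C1 * (((Λ : ℝ) + 1) * ((2 : ℝ) ^ Λ) ^ (2 * k) / (2 : ℝ) ^ Λ) *
          ∑ i, res hQ R (128 * μ) w i ^ 2 := by ring
      _ ≤ (C1 + C2) * (((Λ : ℝ) + 1) * ((2 : ℝ) ^ Λ) ^ (2 * k) / (2 : ℝ) ^ Λ) * S := by
          refine mul_le_mul ?_ hresS (Finset.sum_nonneg fun _ _ => sq_nonneg _) (by positivity)
          exact mul_le_mul_of_nonneg_right (by linarith) hL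
      _ = _ := by ring
  linarith

end

end Pool.Agent.Helper150.Iid
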