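import Mathlib

set_option autoImplicit false

namespace Pool.Agent.Helper150.Iid.Lat

/-- comparison along an injection -/
theorem ls_sum_inj {α β : Type*} [DecidableEq β] (f : α → ℝ) (g : β → ℝ) (hf : ∀ a, 0 ≤ f a)
    (hg0 : ∀ b, 0 ≤ g b) (hg : Summable g) (e : α → β) (S : Set α) (hS : ∀ a ∉ S, f a = 0)
    (he : Set.InjOn e S) (hle : ∀ a ∈ S, f a ≤ g (e a)) :
    Summable f ∧ ∑' a, f a ≤ ∑' b, g b := by
  classical
  have key : ∀ s : Finset α, ∑ a ∈ s, f a ≤ ∑' b, g b := by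
    intro s
    have h1 : ∑ a ∈ s, f a = ∑ a ∈ s.filter (· ∈ S), f a := by
      rw [Finset.sum_filter]
      refine Finset.sum_congr rfl fun a _ => ?_
      by_cases h : a ∈ S
      · rw [if_pos h]
      · rw [if_neg h, hS a h]
    rw [h1]
    calc ∑ a ∈ s.filter (· ∈ S), f a ≤ ∑ a ∈ s.filter (· ∈ S), g (e a) := by
          refine Finset.sum_le_sum fun a ha => hle a ?_
          exact (Finset.mem_filter.1 ha).2
      _ = ∑ b ∈ (s.filter (· ∈ S)).image e, g b := by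
          rw [Finset.sum_image]
          intro a ha b hb hab
          exact he (Finset.mem_filter.1 ha).2 (Finset.mem_filter.1 hb).2 hab
      _ ≤ ∑' b, g b := hg.sum_le_tsum _ (fun b _ => hg0 b)
  have hs : Summable f := summable_of_sum_le hf key
  exact ⟨hs, hs.tsum_le_of_sum_le key⟩

/-- representation of lattice points in a Fibonacci basis -/
theorem ls_rep (j : ℕ) : ∀ (t : ℕ) (z y : ℤ), ∃ (a b ε : ℤ), (ε = 1 ∨ ε = -1) ∧
    y = a * Nat.fib j + b * Nat.fib (j + 1) ∧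
    (Nat.fib (j + 1 + t) : ℤ) * z - Nat.fib (j + t) * y
      = ε * (a * Nat.fib (t + 1) - b * Nat.fib t) := by
  induction j with
  | zero =>
    intro t z y
    refine ⟨z, y, 1, Or.inl rfl, by simp, ?_⟩
    rw [show 0 + 1 + t = t + 1 by ring, show 0 + t = t by ring]
    ring
  | succ j ih =>
    intro t z y
    obtain ⟨a, b, ε, hε, h1, h2⟩ := ih (t + 1) z y
    refine ⟨b - a, a, -ε, ?_, ?_, ?_⟩
    · rcases hε with rfl | rfl
      · exact Or.inr rfl
      · exact Or.inl rfl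
    · rw [h1, show j + 1 + 1 = j + 2 by ring, Nat.fib_add_two]
      push_cast
      ring
    · rw [show j + 1 + 1 + t = j + 1 + (t + 1) by ring, show j + 1 + t = j + (t + 1) by ring, h2,
        show t + 1 + 1 = t + 2 by ring, Nat.fib_add_two]
      push_cast
      ring

/-- separation -/
theorem ls_sep (m l : ℕ) (hl : l < m) (x y : ℤ)
    (hL : (Nat.fib m : ℤ) ∣ x + (Nat.fib (m - 1) : ℤ) * y) (h0 : ¬ (x = 0 ∧ y = 0))
    (hy : |y| < Nat.fib (l + 1)) : (Nat.fib (m - l) : ℤ) ≤ |x| := by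
  obtain ⟨z, hz⟩ := hL
  rcases Nat.eq_zero_or_pos l with rfl | hl0
  · have hy0 : y = 0 := by
      simp only [zero_add, Nat.fib_one, Nat.cast_one, Int.abs_lt_one_iff] at hy
      exact hy
    subst hy0
    simp only [mul_zero, add_zero] at hz
    have hz0 : z ≠ 0 := by
      rintro rfl
      exact h0 ⟨by rw [hz, mul_zero], rfl⟩
    rw [hz, abs_mul, Nat.sub_zero, Nat.abs_cast]
    have : 1 ≤ |z| := Int.one_le_abs hz0
    have hF : (0 : ℤ) ≤ Nat.fib m := Int.natCast_nonneg _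
    nlinarith
  · obtain ⟨j, rfl⟩ : ∃ j, l = j + 1 := ⟨l - 1, by omega⟩
    obtain ⟨t, rfl⟩ : ∃ t, m = j + 1 + t := ⟨m - (j + 1), by omega⟩
    obtain ⟨a, b, ε, hε, h1, h2⟩ := ls_rep j t z y
    have ht : j + 1 + t - (j + 1) = t := by omega
    have ht' : j + 1 + t - 1 = j + t := by omega
    rw [ht]
    rw [ht'] at hz
    have hx : x = ε * (a * Nat.fib (t + 1) - b * Nat.fib t) := by
      rw [← h2]; linarith
    have hab : ¬ (a = 0 ∧ b = 0) := by
      rintro ⟨rfl, rfl⟩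
      apply h0
      constructor
      · rw [hx]; ring
      · rw [h1]; ring
    have habs : |x| = |a * Nat.fib (t + 1) - b * Nat.fib t| := by
      rw [hx, abs_mul]
      rcases hε with rfl | rfl <;> simp
    rw [habs]
    have f1 : (0 : ℤ) ≤ Nat.fib j := Int.natCast_nonneg _
    have f2 : (0 : ℤ) ≤ Nat.fib (j + 1) := Int.natCast_nonneg _
    have f3 : (0 : ℤ) ≤ Nat.fib t := Int.natCast_nonneg _
    have f4 : (Nat.fib t : ℤ) ≤ Nat.fib (t + 1) := by exact_mod_cast Nat.fib_le_fib_succ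
    have f5 : (Nat.fib (j + 1 + 1) : ℤ) = Nat.fib j + Nat.fib (j + 1) := by
      rw [show j + 1 + 1 = j + 2 by ring, Nat.fib_add_two]; push_cast; rfl
    rw [f5, h1, abs_lt] at hy
    -- sign analysis
    rcases le_or_gt a 0 with ha | ha
    · rcases le_or_gt b (-1) with hb | hb
      · -- b ≤ -1, so a must be 0
        have ha0 : a = 0 := by
          by_contra hne
          have ha' : a ≤ -1 := by omega
          nlinarith [hy.1]
        subst ha0
        rw [zero_mul, zero_sub, abs_neg, abs_mul, Nat.abs_cast]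
        have : 1 ≤ |b| := Int.one_le_abs (by omega)
        nlinarith
      · -- a ≤ 0, b ≥ 0
        have hb0 : 0 ≤ b := by omega
        have h5 : a * (Nat.fib (t + 1) : ℤ) - b * Nat.fib t ≤ 0 := by nlinarith
        rw [abs_of_nonpos h5]
        rcases lt_or_eq_of_le ha with h6 | h6
        · have : a ≤ -1 := by omega
          nlinarith
        · have : 1 ≤ b := by
            rcases lt_or_eq_of_le hb0 with h7 | h7
            · omega
            · exact absurd ⟨h6, h7.symm⟩ hab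
          rw [h6]; nlinarith
    · rcases le_or_gt b 0 with hb | hb
      · have h5 : 0 ≤ a * (Nat.fib (t + 1) : ℤ) - b * Nat.fib t := by nlinarith
        rw [abs_of_nonneg h5]
        nlinarith
      · exfalso
        nlinarith [hy.2]

/-- the product bound -/
theorem ls_prod (m l : ℕ) (hl : l < m) (hl0 : 1 ≤ l) :
    Nat.fib m ≤ 3 * (Nat.fib l * Nat.fib (m - l)) := by
  obtain ⟨j, rfl⟩ : ∃ j, l = j + 1 := ⟨l - 1, by omega⟩
  obtain ⟨t, rfl⟩ : ∃ t, m = j + 1 + (t + 1) := ⟨m - (j + 1) - 1, by omega⟩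
  have ht : j + 1 + (t + 1) - (j + 1) = t + 1 := by omega
  rw [ht, show j + 1 + (t + 1) = j + (t + 1) + 1 by ring, Nat.fib_add]
  have f1 : Nat.fib j ≤ Nat.fib (j + 1) := Nat.fib_le_fib_succ
  have f2 : Nat.fib (t + 1 + 1) = Nat.fib t + Nat.fib (t + 1) := by
    rw [show t + 1 + 1 = t + 2 by ring, Nat.fib_add_two]
  have f3 : Nat.fib t ≤ Nat.fib (t + 1) := Nat.fib_le_fib_succ
  rw [f2]
  nlinarith [Nat.zero_le (Nat.fib (j+1)), Nat.zero_le (Nat.fib (t+1)),
    Nat.mul_le_mul_right (Nat.fib (t + 1)) f1, Nat.mul_le_mul_left (Nat.fib (j + 1)) f3]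

theorem ls_floor (x D : ℤ) (hD : 1 ≤ D) (hx : D ≤ |x|) : max 1 |x / D| * D ≤ 2 * |x| := by
  have h1 := Int.mul_ediv_add_emod x D
  have h2 := Int.emod_nonneg x (by omega : D ≠ 0)
  have h3 := Int.emod_lt_of_pos x (by omega : 0 < D)
  rcases max_cases (1 : ℤ) |x / D| with ⟨h, _⟩ | ⟨h, _⟩
  · rw [h]; linarith [abs_nonneg x]
  · rw [h]
    have h4 : |x / D| * D = |x - x % D| := by
      rw [← abs_of_pos (by omega : 0 < D), ← abs_mul, abs_of_pos (by omega : 0 < D)]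
      congr 1
      linarith
    rw [h4]
    have h5 : |x - x % D| ≤ |x| + |x % D| := abs_sub _ _
    rw [abs_of_nonneg h2] at h5
    linarith

/-- the one-dimensional weights -/
noncomputable def wt (k : ℝ) (j : ℤ) : ℝ := |(j : ℝ)| ^ (-(2 * k)) + if j = 0 then 1 else 0

theorem wt_nonneg (k : ℝ) (j : ℤ) : 0 ≤ wt k j := by
  unfold wt
  have : 0 ≤ |(j : ℝ)| ^ (-(2 * k)) := Real.rpow_nonneg (abs_nonneg _) _
  split_ifs <;> linarith

theorem wt_summable (k : ℝ) (hk : 1 / 2 < k) : Summable (wt k) := by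
  unfold wt
  apply Summable.add
  · exact Real.summable_abs_int_rpow (by linarith)
  · exact (hasSum_ite_eq (0 : ℤ) (1 : ℝ)).summable

theorem wt_ge (k : ℝ) (j : ℤ) : ((max 1 |j| : ℤ) : ℝ) ^ (-(2 * k)) ≤ wt k j := by
  unfold wt
  by_cases h : j = 0
  · subst h
    have : 0 ≤ |((0 : ℤ) : ℝ)| ^ (-(2 * k)) := Real.rpow_nonneg (abs_nonneg _) _
    simp only [abs_zero, if_true]
    rw [show (max 1 0 : ℤ) = 1 by rfl]
    simp only [Int.cast_one, Real.one_rpow]
    linarith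
  · rw [if_neg h, max_eq_right (Int.one_le_abs h)]
    push_cast
    linarith

theorem wt_tsum_ge (k : ℝ) (hk : 1 / 2 < k) : 1 ≤ ∑' j, wt k j := by
  have h1 := (wt_summable k hk).le_tsum 0 (fun j _ => wt_nonneg k j)
  refine le_trans ?_ h1
  have := wt_ge k 0
  simpa using this

/-- from a lower bound of the product to the weight -/
theorem ls_term (k : ℝ) (hk : 1 / 2 < k) (P u v : ℝ) (hu : 0 < u) (hv : 0 < v)
    (h : (u * v) ^ 2 ≤ P) : P ^ (-k) ≤ u ^ (-(2 * k)) * v ^ (-(2 * k)) := by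
  have h1 : P ^ (-k) ≤ ((u * v) ^ 2) ^ (-k) :=
    Real.rpow_le_rpow_of_nonpos (by positivity) h (by linarith)
  refine h1.trans (le_of_eq ?_)
  rw [← Real.rpow_natCast, ← Real.rpow_mul (by positivity), ← Real.mul_rpow hu.le hv.le]
  congr 1
  push_cast
  ring

/-- TARGET. The dual lattice of the Fibonacci lattice rule: summed weights. -/
theorem lattice_sum (k : ℝ) (hk : 1 / 2 < k) : ∃ C : ℝ, 0 < C ∧ ∀ m : ℕ, 3 ≤ m →
    (Summable fun h : ℤ × ℤ =>
      if (Nat.fib m : ℤ) ∣ h.1 + (Nat.fib (m - 1) : ℤ) * h.2 ∧ h ≠ 0 then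
        ((1 + (h.1 : ℝ) ^ 2) * (1 + (h.2 : ℝ) ^ 2)) ^ (-k) else 0) ∧
    (∑' h : ℤ × ℤ,
      if (Nat.fib m : ℤ) ∣ h.1 + (Nat.fib (m - 1) : ℤ) * h.2 ∧ h ≠ 0 then
        ((1 + (h.1 : ℝ) ^ 2) * (1 + (h.2 : ℝ) ^ 2)) ^ (-k) else 0) ≤
      C * (Nat.fib m : ℝ) ^ (-(2 * k)) * m := by
  classical
  set W : ℝ := ∑' j, wt k j with hW
  have hW1 : 1 ≤ W := wt_tsum_ge k hk
  have hws := wt_summable k hk
  have hwn : Summable (fun j => ‖wt k j‖) := by
    refine hws.congr fun j => ?_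
    rw [Real.norm_of_nonneg (wt_nonneg k j)]
  set c1 : ℝ := (1 / 6 : ℝ) ^ (-(2 * k)) with hc1
  set c2 : ℝ := (1 / 2 : ℝ) ^ (-(2 * k)) with hc2
  have hc1p : 0 < c1 := Real.rpow_pos_of_pos (by norm_num) _
  have hc2p : 0 < c2 := Real.rpow_pos_of_pos (by norm_num) _
  refine ⟨2 * c1 * W + c2 * W ^ 2, by positivity, fun m hm => ?_⟩
  set F : ℕ := Nat.fib m with hF
  have hF1 : 1 ≤ F := Nat.fib_pos.2 (by omega)
  have hFr : (0 : ℝ) < F := by exact_mod_cast hF1
  set Fk : ℝ := (F : ℝ) ^ (-(2 * k)) with hFk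
  have hFkp : 0 < Fk := Real.rpow_pos_of_pos hFr _
  -- the two parts
  set T : ℤ × ℤ → ℝ := fun h => ((1 + (h.1 : ℝ) ^ 2) * (1 + (h.2 : ℝ) ^ 2)) ^ (-k) with hT
  have hTn : ∀ h, 0 ≤ T h := fun h => Real.rpow_nonneg (by positivity) _
  set L : Set (ℤ × ℤ) := {h | (F : ℤ) ∣ h.1 + (Nat.fib (m - 1) : ℤ) * h.2 ∧ h ≠ 0} with hL
  set S1 : Set (ℤ × ℤ) := {h | h ∈ L ∧ |h.2| < F} with hS1
  set S2 : Set (ℤ × ℤ) := {h | h ∈ L ∧ ¬ |h.2| < F} with hS2
  have hdvd : ∀ h ∈ L, ∀ h' ∈ L, (F : ℤ) ∣ (h.1 - h'.1) + (Nat.fib (m - 1) : ℤ) * (h.2 - h'.2) := by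
    intro h hh h' hh'
    have := dvd_sub hh.1 hh'.1
    have e : h.1 + (Nat.fib (m - 1) : ℤ) * h.2 - (h'.1 + (Nat.fib (m - 1) : ℤ) * h'.2)
        = (h.1 - h'.1) + (Nat.fib (m - 1) : ℤ) * (h.2 - h'.2) := by ring
    rwa [e] at this
  have hne : ∀ h : ℤ × ℤ, h ≠ 0 → ¬ (h.1 = 0 ∧ h.2 = 0) := fun h hh h' => hh (Prod.ext h'.1 h'.2)
  -- part 1
  have hlev : ∀ y : ℤ, |y| < F → Nat.greatestFib y.natAbs < m := by
    intro y hy
    have h1 := Nat.fib_greatestFib_le y.natAbs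
    have h1' := Int.abs_eq_natAbs y
    have h2 : y.natAbs < F := by omega
    by_contra hcon
    have h3 : Nat.fib m ≤ Nat.fib (Nat.greatestFib y.natAbs) := Nat.fib_mono (not_lt.1 hcon)
    omega
  have hlt : ∀ y : ℤ, |y| < Nat.fib (Nat.greatestFib y.natAbs + 1) := by
    intro y
    have := Nat.lt_fib_greatestFib_add_one y.natAbs
    have h1' := Int.abs_eq_natAbs y
    omega
  have p1 : Summable (fun h => if h ∈ S1 then T h else 0) ∧
      ∑' h, (if h ∈ S1 then T h else 0) ≤ 2 * c1 * W * Fk * m := by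
    let g : (Fin m × Bool) × ℤ → ℝ := fun p => (c1 * Fk) * wt k p.2
    have hg0 : ∀ p, 0 ≤ g p := fun p => mul_nonneg (by positivity) (wt_nonneg k _)
    have hcs : Summable (fun _ : Fin m × Bool => c1 * Fk) := Summable.of_finite
    have hgs : Summable g := Summable.mul_of_nonneg hcs hws (fun _ => by positivity)
      (fun j => wt_nonneg k j)
    have hgt : ∑' p, g p = 2 * c1 * W * Fk * m := by
      have h1 := tsum_mul_tsum_of_summable_norm (f := fun _ : Fin m × Bool => c1 * Fk)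
        (g := wt k) Summable.of_finite hwn
      rw [tsum_fintype, Finset.sum_const, Finset.card_univ, Fintype.card_prod, Fintype.card_fin,
        Fintype.card_bool, nsmul_eq_mul] at h1
      show ∑' p : (Fin m × Bool) × ℤ, (c1 * Fk) * wt k p.2 = _
      rw [← h1]
      push_cast
      ring
    let e : ℤ × ℤ → (Fin m × Bool) × ℤ := fun h =>
      ((if hh : Nat.greatestFib h.2.natAbs < m then ⟨_, hh⟩ else ⟨0, by omega⟩, decide (0 ≤ h.2)),
        h.1 / (Nat.fib (m - Nat.greatestFib h.2.natAbs) : ℤ))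
    rw [← hgt]
    refine ls_sum_inj _ g (fun h => by split_ifs; exacts [hTn h, le_rfl]) hg0 hgs e S1
      (fun h hh => if_neg hh) ?_ ?_
    · intro h hh h' hh' heq
      have l1 := hlev h.2 hh.2
      have l2 := hlev h'.2 hh'.2
      simp only [e, dif_pos l1, dif_pos l2, Prod.mk.injEq, Fin.mk.injEq, decide_eq_decide] at heq
      obtain ⟨⟨e1, e2⟩, e3⟩ := heq
      rw [← e1] at e3
      set l := Nat.greatestFib h.2.natAbs with hl
      have hD1 : 1 ≤ Nat.fib (m - l) := Nat.fib_pos.2 (by omega)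
      have hy1 := hlt h.2
      have hy2 := hlt h'.2
      rw [← hl] at hy1
      rw [← e1] at hy2
      have hdy : |h.2 - h'.2| < Nat.fib (l + 1) := by
        rw [abs_lt] at hy1 hy2 ⊢
        by_cases hs : 0 ≤ h.2
        · have hs' := e2.1 hs
          constructor <;> omega
        · have hs' : ¬ 0 ≤ h'.2 := fun h => hs (e2.2 h)
          constructor <;> omega
      have hdx : |h.1 - h'.1| < Nat.fib (m - l) := by
        have a1 := Int.mul_ediv_add_emod h.1 (Nat.fib (m - l) : ℤ)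
        have a2 := Int.mul_ediv_add_emod h'.1 (Nat.fib (m - l) : ℤ)
        have b1 := Int.emod_nonneg h.1 (by omega : (Nat.fib (m - l) : ℤ) ≠ 0)
        have b2 := Int.emod_nonneg h'.1 (by omega : (Nat.fib (m - l) : ℤ) ≠ 0)
        have c1' := Int.emod_lt_of_pos h.1 (by omega : 0 < (Nat.fib (m - l) : ℤ))
        have c2' := Int.emod_lt_of_pos h'.1 (by omega : 0 < (Nat.fib (m - l) : ℤ))
        rw [← e3] at a2
        rw [abs_lt]
        constructor <;> linarith
      by_contra hcon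
      have h0 : ¬ (h.1 - h'.1 = 0 ∧ h.2 - h'.2 = 0) := by
        rintro ⟨u1, u2⟩
        exact hcon (Prod.ext (by omega) (by omega))
      have := ls_sep m l l1 _ _ (hdvd h hh.1 h' hh'.1) h0 hdy
      omega
    · intro h hh
      rw [if_pos hh]
      have l1 := hlev h.2 hh.2
      set l := Nat.greatestFib h.2.natAbs with hl
      have hD1 : 1 ≤ Nat.fib (m - l) := Nat.fib_pos.2 (by omega)
      have hx := ls_sep m l l1 _ _ hh.1.1 (hne h hh.1.2) (hlt h.2)
      have hfl := ls_floor h.1 (Nat.fib (m - l)) (by exact_mod_cast hD1) hx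
      set j := h.1 / (Nat.fib (m - l) : ℤ) with hj
      show T h ≤ (c1 * Fk) * wt k (h.1 / (Nat.fib (m - Nat.greatestFib h.2.natAbs) : ℤ))
      rw [← hl, ← hj]
      -- product bound
      have hy : (F : ℤ) ≤ 3 * (max 1 |h.2| * Nat.fib (m - l)) := by
        rcases Nat.eq_zero_or_pos l with h0 | h0
        · rw [h0, Nat.sub_zero, ← hF]
          have : (1 : ℤ) ≤ max 1 |h.2| := le_max_left _ _
          nlinarith
        · have h2 := ls_prod m l l1 h0
          rw [← hF] at h2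
          have h3 := Nat.fib_greatestFib_le h.2.natAbs
          rw [← hl] at h3
          have h3' := Int.abs_eq_natAbs h.2
          have h4 : (Nat.fib l : ℤ) ≤ max 1 |h.2| := le_trans (by omega) (le_max_right _ _)
          have h5 : (F : ℤ) ≤ 3 * (Nat.fib l * Nat.fib (m - l)) := by exact_mod_cast h2
          nlinarith
      have hyr : (F : ℝ) ≤ 3 * (((max 1 |h.2| : ℤ) : ℝ) * Nat.fib (m - l)) := by exact_mod_cast hy
      have hflr : ((max 1 |j| : ℤ) : ℝ) * (Nat.fib (m - l) : ℝ) ≤ 2 * |(h.1 : ℝ)| := by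
        exact_mod_cast hfl
      have hm1 : (1 : ℝ) ≤ ((max 1 |j| : ℤ) : ℝ) := by exact_mod_cast le_max_left _ _
      have hm2 : (1 : ℝ) ≤ ((max 1 |h.2| : ℤ) : ℝ) := by exact_mod_cast le_max_left _ _
      have hDr : (1 : ℝ) ≤ (Nat.fib (m - l) : ℝ) := by exact_mod_cast hD1
      set J : ℝ := ((max 1 |j| : ℤ) : ℝ) with hJ
      set Yv : ℝ := ((max 1 |h.2| : ℤ) : ℝ) with hYv
      set Dv : ℝ := (Nat.fib (m - l) : ℝ) with hDv
      have hYsq : Yv ^ 2 ≤ 1 + (h.2 : ℝ) ^ 2 := by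
        rw [hYv]
        rcases max_cases (1 : ℤ) |h.2| with ⟨q, _⟩ | ⟨q, _⟩
        · rw [q]; push_cast; nlinarith [sq_nonneg (h.2 : ℝ)]
        · rw [q]; push_cast; rw [sq_abs]; linarith
      have hprod : (J * (1 / 6 * (F : ℝ))) ^ 2 ≤ (1 + (h.1 : ℝ) ^ 2) * (1 + (h.2 : ℝ) ^ 2) := by
        have q1 : J * (1 / 6 * (F : ℝ)) ≤ |(h.1 : ℝ)| * Yv := by
          calc J * (1 / 6 * (F : ℝ)) ≤ J * (1 / 6 * (3 * (Yv * Dv))) := by gcongr
            _ = (J * Dv) * Yv / 2 := by ring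
            _ ≤ (2 * |(h.1 : ℝ)|) * Yv / 2 := by gcongr
            _ = _ := by ring
        have q2 : 0 ≤ J * (1 / 6 * (F : ℝ)) := by positivity
        calc (J * (1 / 6 * (F : ℝ))) ^ 2 ≤ (|(h.1 : ℝ)| * Yv) ^ 2 := pow_le_pow_left₀ q2 q1 2
          _ = (h.1 : ℝ) ^ 2 * Yv ^ 2 := by rw [mul_pow, sq_abs]
          _ ≤ (1 + (h.1 : ℝ) ^ 2) * (1 + (h.2 : ℝ) ^ 2) := by
              apply mul_le_mul (by linarith) hYsq (by positivity) (by positivity)
      have hterm := ls_term k hk _ J (1 / 6 * (F : ℝ)) (by linarith) (by positivity) hprod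
      simp only [hT]
      refine hterm.trans ?_
      rw [Real.mul_rpow (by norm_num) hFr.le, ← hc1, ← hFk, mul_comm]
      exact mul_le_mul_of_nonneg_left (wt_ge k j) (by positivity)
  -- part 2
  have p2 : Summable (fun h => if h ∈ S2 then T h else 0) ∧
      ∑' h, (if h ∈ S2 then T h else 0) ≤ c2 * W ^ 2 * Fk := by
    let g : ℤ × ℤ → ℝ := fun p => (c2 * Fk) * (wt k p.1 * wt k p.2)
    have hg0 : ∀ p, 0 ≤ g p := fun p =>
      mul_nonneg (by positivity) (mul_nonneg (wt_nonneg k _) (wt_nonneg k _))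
    have hgs : Summable g := (Summable.mul_of_nonneg hws hws (fun j => wt_nonneg k j)
      (fun j => wt_nonneg k j)).mul_left _
    have hgt : ∑' p, g p = c2 * W ^ 2 * Fk := by
      have h1 := tsum_mul_tsum_of_summable_norm (f := wt k) (g := wt k) hwn hwn
      show ∑' p : ℤ × ℤ, (c2 * Fk) * (wt k p.1 * wt k p.2) = _
      rw [tsum_mul_left, ← h1]
      ring
    let e : ℤ × ℤ → ℤ × ℤ := fun h => (h.1, h.2 / (F : ℤ))
    rw [← hgt]
    have hFz : (1 : ℤ) ≤ F := by exact_mod_cast hF1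
    refine ls_sum_inj _ g (fun h => by split_ifs; exacts [hTn h, le_rfl]) hg0 hgs e S2
      (fun h hh => if_neg hh) ?_ ?_
    · intro h hh h' hh' heq
      simp only [e, Prod.mk.injEq] at heq
      obtain ⟨e1, e2⟩ := heq
      have hd := hdvd h hh.1 h' hh'.1
      rw [e1, sub_self, zero_add] at hd
      have hcop : IsCoprime (F : ℤ) (Nat.fib (m - 1) : ℤ) := by
        rw [Nat.isCoprime_iff_coprime]
        have := Nat.fib_coprime_fib_succ (m - 1)
        rw [show m - 1 + 1 = m by omega] at this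
        exact this.symm
      have hd2 := hcop.dvd_of_dvd_mul_left hd
      have hlt2 : |h.2 - h'.2| < F := by
        have a1 := Int.mul_ediv_add_emod h.2 (F : ℤ)
        have a2 := Int.mul_ediv_add_emod h'.2 (F : ℤ)
        have b1 := Int.emod_nonneg h.2 (by omega : (F : ℤ) ≠ 0)
        have b2 := Int.emod_nonneg h'.2 (by omega : (F : ℤ) ≠ 0)
        have c1' := Int.emod_lt_of_pos h.2 (by omega : 0 < (F : ℤ))
        have c2' := Int.emod_lt_of_pos h'.2 (by omega : 0 < (F : ℤ))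
        rw [← e2] at a2
        rw [abs_lt]
        constructor <;> linarith
      have h0 := Int.eq_zero_of_abs_lt_dvd hd2 hlt2
      exact Prod.ext e1 (by omega)
    · intro h hh
      rw [if_pos hh]
      have hy : (F : ℤ) ≤ |h.2| := not_lt.1 hh.2
      have hfl := ls_floor h.2 F hFz hy
      show T h ≤ (c2 * Fk) * (wt k h.1 * wt k (h.2 / (F : ℤ)))
      set j := h.2 / (F : ℤ) with hj
      have hflr : ((max 1 |j| : ℤ) : ℝ) * (F : ℝ) ≤ 2 * |(h.2 : ℝ)| := by exact_mod_cast hfl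
      have hm1 : (1 : ℝ) ≤ ((max 1 |j| : ℤ) : ℝ) := by exact_mod_cast le_max_left _ _
      have hm2 : (1 : ℝ) ≤ ((max 1 |h.1| : ℤ) : ℝ) := by exact_mod_cast le_max_left _ _
      set J : ℝ := ((max 1 |j| : ℤ) : ℝ) with hJ
      set Xv : ℝ := ((max 1 |h.1| : ℤ) : ℝ) with hXv
      have hXsq : Xv ^ 2 ≤ 1 + (h.1 : ℝ) ^ 2 := by
        rw [hXv]
        rcases max_cases (1 : ℤ) |h.1| with ⟨q, _⟩ | ⟨q, _⟩
        · rw [q]; push_cast; nlinarith [sq_nonneg (h.1 : ℝ)]
        · rw [q]; push_cast; rw [sq_abs]; linarith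
      have hprod : ((Xv * J) * (1 / 2 * (F : ℝ))) ^ 2
          ≤ (1 + (h.1 : ℝ) ^ 2) * (1 + (h.2 : ℝ) ^ 2) := by
        have q1 : (Xv * J) * (1 / 2 * (F : ℝ)) ≤ Xv * |(h.2 : ℝ)| := by
          calc (Xv * J) * (1 / 2 * (F : ℝ)) = Xv * (J * F) / 2 := by ring
            _ ≤ Xv * (2 * |(h.2 : ℝ)|) / 2 := by gcongr
            _ = _ := by ring
        have q2 : 0 ≤ (Xv * J) * (1 / 2 * (F : ℝ)) := by positivity
        calc ((Xv * J) * (1 / 2 * (F : ℝ))) ^ 2 ≤ (Xv * |(h.2 : ℝ)|) ^ 2 :=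
              pow_le_pow_left₀ q2 q1 2
          _ = Xv ^ 2 * (h.2 : ℝ) ^ 2 := by rw [mul_pow, sq_abs]
          _ ≤ (1 + (h.1 : ℝ) ^ 2) * (1 + (h.2 : ℝ) ^ 2) := by
              apply mul_le_mul hXsq (by linarith) (by positivity) (by positivity)
      have hterm := ls_term k hk _ (Xv * J) (1 / 2 * (F : ℝ)) (by positivity) (by positivity) hprod
      simp only [hT]
      refine hterm.trans ?_
      rw [Real.mul_rpow (by norm_num) hFr.le, ← hc2, ← hFk, mul_comm,
        Real.mul_rpow (by linarith) (by linarith)]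
      apply mul_le_mul_of_nonneg_left _ (by positivity)
      exact mul_le_mul (wt_ge k h.1) (wt_ge k j) (Real.rpow_nonneg (by linarith) _)
        (wt_nonneg k _)
  -- conclusion
  have hsplit : (fun h : ℤ × ℤ => if (F : ℤ) ∣ h.1 + (Nat.fib (m - 1) : ℤ) * h.2 ∧ h ≠ 0 then
        ((1 + (h.1 : ℝ) ^ 2) * (1 + (h.2 : ℝ) ^ 2)) ^ (-k) else 0)
      = fun h => (if h ∈ S1 then T h else 0) + (if h ∈ S2 then T h else 0) := by
    funext h
    by_cases hh : (F : ℤ) ∣ h.1 + (Nat.fib (m - 1) : ℤ) * h.2 ∧ h ≠ 0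
    · rw [if_pos hh]
      have hhL : h ∈ L := hh
      by_cases h3 : |h.2| < F
      · rw [if_pos (show h ∈ S1 from ⟨hhL, h3⟩), if_neg (fun h4 : h ∈ S2 => h4.2 h3), add_zero]
      · rw [if_neg (fun h4 : h ∈ S1 => h3 h4.2), if_pos (show h ∈ S2 from ⟨hhL, h3⟩), zero_add]
    · rw [if_neg hh, if_neg (fun h4 : h ∈ S1 => hh h4.1), if_neg (fun h4 : h ∈ S2 => hh h4.1),
        add_zero]
  rw [hsplit]
  refine ⟨p1.1.add p2.1, ?_⟩
  rw [p1.1.tsum_add p2.1]
  refine (add_le_add p1.2 p2.2).trans ?_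
  have hm1 : (1 : ℝ) ≤ m := by exact_mod_cast (by omega : 1 ≤ m)
  have : c2 * W ^ 2 * Fk ≤ c2 * W ^ 2 * Fk * m := by
    have h5 : 0 ≤ c2 * W ^ 2 * Fk := by positivity
    nlinarith
  nlinarith

end Pool.Agent.Helper150.Iid.Lat
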