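import Mathlib
import Pool.Agent.Helper150.Iid.Defs

set_option autoImplicit false

namespace Pool.Agent.Helper150.Iid.Upper

open MeasureTheory
open scoped ENNReal

noncomputable section

/-- The Fibonacci lattice sum (proved elsewhere, here a hypothesis). -/
def LatSum (k : ℝ) : Prop := ∃ C : ℝ, 0 < C ∧ ∀ m : ℕ, 3 ≤ m →
    (Summable fun h : ℤ × ℤ =>
      if (Nat.fib m : ℤ) ∣ h.1 + (Nat.fib (m - 1) : ℤ) * h.2 ∧ h ≠ 0 then
        ((1 + (h.1 : ℝ) ^ 2) * (1 + (h.2 : ℝ) ^ 2)) ^ (-k) else 0) ∧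
    (∑' h : ℤ × ℤ,
      if (Nat.fib m : ℤ) ∣ h.1 + (Nat.fib (m - 1) : ℤ) * h.2 ∧ h ≠ 0 then
        ((1 + (h.1 : ℝ) ^ 2) * (1 + (h.2 : ℝ) ^ 2)) ^ (-k) else 0) ≤
      C * (Nat.fib m : ℝ) ^ (-(2 * k)) * m

theorem fib_vol : (volume : Measure UnitAddCircle) = AddCircle.haarAddCircle := by
  rw [AddCircle.volume_eq_smul_haarAddCircle]
  simp

theorem fib_vol2 : (volume : Measure (Tor 2)) =
    Measure.pi (fun _ => (AddCircle.haarAddCircle : Measure UnitAddCircle)) := by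
  rw [volume_pi, fib_vol]

/-- complexification -/
def cF (f : Tor 2 → ℝ) (hf : Continuous f) : C(UnitAddTorus (Fin 2), ℂ) :=
  ⟨fun x => (f x : ℂ), Complex.continuous_ofReal.comp hf⟩

theorem fc_eq (f : Tor 2 → ℝ) (hf : Continuous f) (h : Fin 2 → ℤ) :
    fc f h = UnitAddTorus.mFourierCoeff (cF f hf) h := by
  unfold fc UnitAddTorus.mFourierCoeff
  rw [fib_vol2]
  rfl

theorem fc_zero (f : Tor 2 → ℝ) : fc f 0 = ((∫ x, f x : ℝ) : ℂ) := by
  unfold fc
  simp only [Pi.zero_apply, neg_zero, fourier_zero, Finset.prod_const_one, one_mul]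
  exact integral_ofReal

theorem wt_two (k : ℝ) (h : Fin 2 → ℤ) :
    wt k h = ((1 + (h 0 : ℝ) ^ 2) * (1 + (h 1 : ℝ) ^ 2)) ^ k := by
  unfold wt
  rw [Fin.prod_univ_two, Real.mul_rpow (by positivity) (by positivity)]

theorem wt_pos (k : ℝ) (h : Fin 2 → ℤ) : 0 < wt k h := by
  rw [wt_two]
  positivity

theorem wt_inv (k : ℝ) (h : Fin 2 → ℤ) :
    (wt k h)⁻¹ = ((1 + (h 0 : ℝ) ^ 2) * (1 + (h 1 : ℝ) ^ 2)) ^ (-k) := by
  rw [wt_two, Real.rpow_neg (by positivity)]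

theorem sum_one (k : ℝ) (hk : 1 / 2 < k) : Summable (fun n : ℤ => (1 + (n : ℝ) ^ 2) ^ (-k)) := by
  have h := Real.summable_abs_int_rpow (b := 2 * k) (by linarith)
  refine Summable.of_norm_bounded_eventually h ?_
  have : ∀ᶠ n : ℤ in Filter.cofinite, n ≠ 0 := by
    rw [Filter.eventually_cofinite]
    simp
  filter_upwards [this] with n hn
  have hn' : (0 : ℝ) < |(n : ℝ)| := by
    rw [abs_pos]
    exact_mod_cast hn
  rw [Real.norm_of_nonneg (by positivity)]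
  have e : |(n : ℝ)| ^ (-(2 * k)) = (|(n : ℝ)| ^ 2) ^ (-k) := by
    rw [← Real.rpow_natCast |(n : ℝ)| 2, ← Real.rpow_mul hn'.le]
    congr 1
    push_cast
    ring
  rw [e]
  apply Real.rpow_le_rpow_of_nonpos (by positivity)
  · rw [sq_abs]
    linarith
  · linarith

theorem sum_two (k : ℝ) (hk : 1 / 2 < k) : Summable (fun h : Fin 2 → ℤ => (wt k h)⁻¹) := by
  have h1 := sum_one k hk
  have h2 := Summable.mul_of_nonneg h1 h1 (fun n => by positivity) (fun n => by positivity)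
  have h3 := (finTwoArrowEquiv ℤ).summable_iff.2 h2
  refine h3.congr fun h => ?_
  rw [wt_inv, Real.mul_rpow (by positivity) (by positivity)]
  rfl

theorem amgm (x W : ℝ) (hW : 0 < W) : 2 * x ≤ x ^ 2 * W + W⁻¹ := by
  have h : x ^ 2 * W + W⁻¹ - 2 * x = (x * W - 1) ^ 2 / W := by
    field_simp
    ring
  have h2 : 0 ≤ (x * W - 1) ^ 2 / W := by positivity
  linarith

theorem fc_summable (k : ℝ) (hk : 1 / 2 < k) (f : Tor 2 → ℝ) (hf : f ∈ ball 2 k) :
    Summable (fc f) := by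
  obtain ⟨_, h1, _⟩ := hf
  have h2 := h1.add (sum_two k hk)
  refine Summable.of_norm_bounded h2 fun h => ?_
  have := amgm ‖fc f h‖ (wt k h) (wt_pos k h)
  linarith [norm_nonneg (fc f h)]

theorem series (k : ℝ) (hk : 1 / 2 < k) (f : Tor 2 → ℝ) (hf : f ∈ ball 2 k) (x : Tor 2) :
    HasSum (fun h => fc f h * UnitAddTorus.mFourier h x) (f x : ℂ) := by
  have hs : Summable (UnitAddTorus.mFourierCoeff (cF f hf.1)) := by
    have := fc_summable k hk f hf
    rwa [funext (fc_eq f hf.1)] at this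
  have h := UnitAddTorus.hasSum_mFourier_series_apply_of_summable hs x
  have e : (fun h => fc f h * UnitAddTorus.mFourier h x) =
      fun i => UnitAddTorus.mFourierCoeff (cF f hf.1) i • UnitAddTorus.mFourier i x := by
    funext h
    rw [fc_eq f hf.1, smul_eq_mul]
  rw [e]
  exact h

/-- the nodes -/
def node (F G i : ℕ) : Tor 2 :=
  ![(((i : ℝ) / F : ℝ) : UnitAddCircle), (((i : ℝ) * G / F : ℝ) : UnitAddCircle)]

theorem mF_node (F G i : ℕ) (h : Fin 2 → ℤ) : UnitAddTorus.mFourier h (node F G i) =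
    Complex.exp (2 * Real.pi * Complex.I * ((h 0 + G * h 1 : ℤ) / F)) ^ i := by
  rw [← Complex.exp_nat_mul]
  change ∏ j : Fin 2, fourier (h j) (node F G i j) = _
  rw [Fin.prod_univ_two]
  change fourier (h 0) ((((i : ℝ) / F : ℝ) : UnitAddCircle)) *
    fourier (h 1) ((((i : ℝ) * G / F : ℝ) : UnitAddCircle)) = _
  rw [fourier_coe_apply, fourier_coe_apply, ← Complex.exp_add]
  congr 1
  push_cast
  ring

theorem geom (F : ℕ) (hF : 0 < F) (a : ℤ) :
    (1 / (F : ℂ)) * ∑ i ∈ Finset.range F,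
      Complex.exp (2 * Real.pi * Complex.I * ((a : ℂ) / F)) ^ i =
      if (F : ℤ) ∣ a then 1 else 0 := by
  have hF0 : (F : ℂ) ≠ 0 := by exact_mod_cast hF.ne'
  set ξ := Complex.exp (2 * Real.pi * Complex.I * ((a : ℂ) / F)) with hξ
  have hξF : ξ ^ F = 1 := by
    rw [hξ, ← Complex.exp_nat_mul, Complex.exp_eq_one_iff]
    refine ⟨a, ?_⟩
    field_simp
  have hiff : ξ = 1 ↔ (F : ℤ) ∣ a := by
    rw [hξ, Complex.exp_eq_one_iff]
    constructor
    · rintro ⟨n, hn⟩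
      refine ⟨n, ?_⟩
      have h2 : (2 * Real.pi * Complex.I : ℂ) ≠ 0 := Complex.two_pi_I_ne_zero
      have h3 : (a : ℂ) / F = n := by
        have : (2 * Real.pi * Complex.I : ℂ) * ((a : ℂ) / F) = (2 * Real.pi * Complex.I) * n := by
          rw [hn]
          ring
        exact mul_left_cancel₀ h2 this
      rw [div_eq_iff hF0] at h3
      have h4 : (a : ℂ) = ((F * n : ℤ) : ℂ) := by
        rw [h3]
        push_cast
        ring
      exact_mod_cast h4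
    · rintro ⟨n, rfl⟩
      refine ⟨n, ?_⟩
      push_cast
      field_simp
  split_ifs with h
  · rw [hiff.2 h]
    simp [hF0]
  · have hne : ξ ≠ 1 := fun h1 => h (hiff.1 h1)
    rw [geom_sum_eq hne, hξF, sub_self, zero_div, mul_zero]

/-- the quadrature rule -/
def Qd (F G : ℕ) (f : Tor 2 → ℝ) : ℝ := (1 / (F : ℝ)) * ∑ i ∈ Finset.range F, f (node F G i)

theorem Qd_hasSum (k : ℝ) (hk : 1 / 2 < k) (f : Tor 2 → ℝ) (hf : f ∈ ball 2 k) (F G : ℕ)
    (hF : 0 < F) :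
    HasSum (fun h : Fin 2 → ℤ => if (F : ℤ) ∣ h 0 + G * h 1 ∧ h ≠ 0 then fc f h else 0)
      ((Qd F G f - ∫ x, f x : ℝ) : ℂ) := by
  classical
  have h1 : HasSum (fun h : Fin 2 → ℤ => (1 / (F : ℂ)) *
      ∑ i ∈ Finset.range F, fc f h * UnitAddTorus.mFourier h (node F G i))
      ((1 / (F : ℂ)) * ∑ i ∈ Finset.range F, (f (node F G i) : ℂ)) :=
    (hasSum_sum fun i _ => series k hk f hf (node F G i)).mul_left _
  have e1 : (fun h : Fin 2 → ℤ => (1 / (F : ℂ)) *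
      ∑ i ∈ Finset.range F, fc f h * UnitAddTorus.mFourier h (node F G i)) =
      fun h : Fin 2 → ℤ => if (F : ℤ) ∣ h 0 + G * h 1 then fc f h else 0 := by
    funext h
    rw [← Finset.mul_sum, mul_left_comm]
    simp only [mF_node]
    rw [geom F hF (h 0 + G * h 1)]
    split_ifs
    · rw [mul_one]
    · rw [mul_zero]
  have e2 : ((1 / (F : ℂ)) * ∑ i ∈ Finset.range F, (f (node F G i) : ℂ)) = (Qd F G f : ℂ) := by
    unfold Qd
    push_cast
    rfl
  rw [e1, e2] at h1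
  have h2 : HasSum (fun h : Fin 2 → ℤ => if h = 0 then fc f 0 else 0) (fc f 0) :=
    hasSum_ite_eq 0 (fc f 0)
  have h3 := h1.sub h2
  rw [fc_zero, ← Complex.ofReal_sub] at h3
  have e3 : (fun h : Fin 2 → ℤ => if (F : ℤ) ∣ h 0 + G * h 1 ∧ h ≠ 0 then fc f h else 0) =
      fun b : Fin 2 → ℤ => (if (F : ℤ) ∣ b 0 + G * b 1 then fc f b else 0) -
        if b = 0 then ((∫ x, f x : ℝ) : ℂ) else 0 := by
    funext h
    by_cases h0 : h = 0
    · subst h0
      simp [fc_zero]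
    · simp [h0]
  rw [e3]
  exact h3

theorem Qd_error (k : ℝ) (hk : 1 / 2 < k) (f : Tor 2 → ℝ) (hf : f ∈ ball 2 k) (F G : ℕ)
    (hF : 0 < F) (S : ℝ) (hS : 0 < S)
    (hs1 : Summable fun h : ℤ × ℤ =>
      if (F : ℤ) ∣ h.1 + (G : ℤ) * h.2 ∧ h ≠ 0 then
        ((1 + (h.1 : ℝ) ^ 2) * (1 + (h.2 : ℝ) ^ 2)) ^ (-k) else 0)
    (hs2 : (∑' h : ℤ × ℤ,
      if (F : ℤ) ∣ h.1 + (G : ℤ) * h.2 ∧ h ≠ 0 then
        ((1 + (h.1 : ℝ) ^ 2) * (1 + (h.2 : ℝ) ^ 2)) ^ (-k) else 0) ≤ S) :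
    |(∫ x, f x) - Qd F G f| ≤ Real.sqrt S := by
  classical
  have h1 := Qd_hasSum k hk f hf F G hF
  have hsq : 0 < Real.sqrt S := Real.sqrt_pos.2 hS
  have hg1 : HasSum (fun h => ‖fc f h‖ ^ 2 * wt k h) (∑' h, ‖fc f h‖ ^ 2 * wt k h) :=
    hf.2.1.hasSum
  have hg2 : HasSum (fun h : Fin 2 → ℤ => if (F : ℤ) ∣ h 0 + (G : ℤ) * h 1 ∧ h ≠ 0 then
      (wt k h)⁻¹ else 0) (∑' h : ℤ × ℤ,
      if (F : ℤ) ∣ h.1 + (G : ℤ) * h.2 ∧ h ≠ 0 then
        ((1 + (h.1 : ℝ) ^ 2) * (1 + (h.2 : ℝ) ^ 2)) ^ (-k) else 0) := by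
    have h2 := (finTwoArrowEquiv ℤ).hasSum_iff.2 hs1.hasSum
    convert h2 using 1
    funext h
    simp only [Function.comp]
    rw [wt_inv]
    have e1 : ((finTwoArrowEquiv ℤ) h).1 = h 0 := rfl
    have e2 : ((finTwoArrowEquiv ℤ) h).2 = h 1 := rfl
    have e3 : (finTwoArrowEquiv ℤ) h ≠ 0 ↔ h ≠ 0 := by
      rw [not_iff_not]
      constructor
      · intro h0
        have h3 : h 0 = 0 := by rw [← e1, h0]; rfl
        have h4 : h 1 = 0 := by rw [← e2, h0]; rfl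
        funext j
        fin_cases j
        · exact h3
        · exact h4
      · rintro rfl
        rfl
    rw [e1, e2]
    simp only [e3]
  have hg := (hg1.mul_left (Real.sqrt S / 2)).add (hg2.mul_left ((Real.sqrt S)⁻¹ / 2))
  have hb := h1.norm_le_of_bounded hg (fun h => by
    have hw := wt_pos k h
    split_ifs with hc
    · have := amgm ‖fc f h‖ (Real.sqrt S * wt k h) (by positivity)
      rw [mul_inv] at this
      linarith
    · rw [norm_zero]
      positivity)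
  rw [Complex.norm_real, Real.norm_eq_abs, abs_sub_comm] at hb
  refine hb.trans ?_
  have h3 : Real.sqrt S / 2 * ∑' h, ‖fc f h‖ ^ 2 * wt k h ≤ Real.sqrt S / 2 * 1 := by
    apply mul_le_mul_of_nonneg_left hf.2.2
    positivity
  have h4 : (Real.sqrt S)⁻¹ / 2 * (∑' h : ℤ × ℤ,
      if (F : ℤ) ∣ h.1 + (G : ℤ) * h.2 ∧ h ≠ 0 then
        ((1 + (h.1 : ℝ) ^ 2) * (1 + (h.2 : ℝ) ^ 2)) ^ (-k) else 0) ≤ (Real.sqrt S)⁻¹ / 2 * S := by
    apply mul_le_mul_of_nonneg_left hs2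
    positivity
  have h5 : (Real.sqrt S)⁻¹ / 2 * S = Real.sqrt S / 2 := by
    have : S = Real.sqrt S * Real.sqrt S := (Real.mul_self_sqrt hS.le).symm
    nth_rewrite 2 [this]
    field_simp
  linarith

/-- the algorithm -/
def alg (F G n : ℕ) : RandAlg 2 n where
  Ω := Unit
  mΩ := inferInstance
  μ := Measure.dirac ()
  prob := inferInstance
  P := fun _ i => if i.val < F then node F G i.val else 0
  measP := measurable_const
  φ := fun _ v => (1 / (F : ℝ)) * ∑ i : Fin n, if i.val < F then v i else 0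

theorem alg_sum (F G n : ℕ) (hn : F ≤ n) (f : Tor 2 → ℝ) (ω : Unit) :
    (alg F G n).φ ω (fun i => f ((alg F G n).P ω i)) = Qd F G f := by
  unfold alg Qd
  simp only
  congr 1
  have h1 : ∀ i : Fin n, (if i.val < F then f (if i.val < F then node F G i.val else 0) else 0) =
      (fun j : ℕ => if j < F then f (node F G j) else 0) i.val := by
    intro i
    simp only
    split_ifs <;> rfl
  rw [Finset.sum_congr rfl fun i _ => h1 i,
    Fin.sum_univ_eq_sum_range (fun j : ℕ => if j < F then f (node F G j) else 0) n,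
    ← Finset.sum_filter]
  congr 1
  ext j
  simp only [Finset.mem_filter, Finset.mem_range]
  omega

/-- TARGET 1: error of the Fibonacci lattice rule. -/
theorem eOpt_fib (k : ℝ) (hk : 1 / 2 < k) (hL : LatSum k) : ∃ C : ℝ, 0 < C ∧
    ∀ m : ℕ, 3 ≤ m → ∀ n : ℕ, Nat.fib m ≤ n →
      eOpt 2 k n ≤ ENNReal.ofReal (C * (Nat.fib m : ℝ) ^ (-k) * Real.sqrt m) := by
  obtain ⟨C, hC, hL⟩ := hL
  refine ⟨Real.sqrt C, Real.sqrt_pos.2 hC, ?_⟩
  intro m hm n hn
  obtain ⟨hs1, hs2⟩ := hL m hm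
  have hF : 0 < Nat.fib m := Nat.fib_pos.2 (by omega)
  have hF' : (0 : ℝ) < Nat.fib m := by exact_mod_cast hF
  have hm' : (0 : ℝ) < m := by
    have : 0 < m := by omega
    exact_mod_cast this
  set S : ℝ := C * (Nat.fib m : ℝ) ^ (-(2 * k)) * m with hS
  have hS0 : 0 < S := by positivity
  have hsqrt : Real.sqrt S = Real.sqrt C * (Nat.fib m : ℝ) ^ (-k) * Real.sqrt m := by
    rw [hS, Real.sqrt_mul (by positivity), Real.sqrt_mul hC.le]
    congr 2
    rw [Real.sqrt_eq_rpow, ← Real.rpow_mul hF'.le]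
    congr 1
    ring
  have hmeas : eOpt 2 k n ≤ (alg (Nat.fib m) (Nat.fib (m - 1)) n).errUnif k := iInf_le _ _
  refine hmeas.trans ?_
  rw [← hsqrt]
  unfold RandAlg.errUnif upperInt
  refine (iInf₂_le (fun _ => ENNReal.ofReal (Real.sqrt S)) measurable_const).trans ?_
  refine (iInf_le _ ?_).trans ?_
  · intro ω
    unfold RandAlg.wce
    refine iSup₂_le fun f hf => ?_
    apply ENNReal.ofReal_le_ofReal
    have h1 := Qd_error k hk f hf (Nat.fib m) (Nat.fib (m - 1)) hF S hS0 hs1 hs2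
    rw [alg_sum _ _ n hn f ω]
    exact h1
  · have hp := (alg (Nat.fib m) (Nat.fib (m - 1)) n).prob
    rw [lintegral_const]
    rw [measure_univ, mul_one]

theorem fib_pow (j : ℕ) : 2 ^ j ≤ Nat.fib (2 * j + 1) := by
  induction j with
  | zero => simp
  | succ j ih =>
    have h1 : Nat.fib (2 * (j + 1) + 1) = Nat.fib (2 * j + 1) + Nat.fib (2 * j + 1 + 1) := by
      have : 2 * (j + 1) + 1 = (2 * j + 1) + 2 := by ring
      rw [this, Nat.fib_add_two]
    have h2 : Nat.fib (2 * j + 1) ≤ Nat.fib (2 * j + 1 + 1) := Nat.fib_mono (by omega)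
    rw [h1, pow_succ]
    omega

/-- TARGET 2. -/
theorem eOpt_le (k : ℝ) (hk : 1 / 2 < k) (hL : LatSum k) : ∃ C : ℝ, 0 < C ∧
    ∀ n : ℕ, 2 ≤ n → eOpt 2 k n ≤
      ENNReal.ofReal (C * (n : ℝ) ^ (-k) * Real.sqrt (Real.log n)) := by
  obtain ⟨C, hC, h⟩ := eOpt_fib k hk hL
  have hlog2 : 0 < Real.log 2 := Real.log_pos (by norm_num)
  refine ⟨C * 2 ^ k * Real.sqrt (4 / Real.log 2), by positivity, ?_⟩
  intro n hn
  have hn2 : (2 : ℝ) ≤ n := by exact_mod_cast hn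
  have hn0 : (0 : ℝ) < n := by linarith
  set m := Nat.greatestFib n with hm
  have hfm : Nat.fib m ≤ n := Nat.fib_greatestFib_le n
  have hlt : n < Nat.fib (m + 1) := Nat.lt_fib_greatestFib_add_one n
  have hm3 : 3 ≤ m := Nat.le_greatestFib.2 (by
    have : Nat.fib 3 = 2 := rfl
    omega)
  refine (h m hm3 n hfm).trans ?_
  apply ENNReal.ofReal_le_ofReal
  -- `fib m ≥ n / 2`
  have h2 : n ≤ 2 * Nat.fib m := by
    obtain ⟨m', hm'⟩ : ∃ m', m = m' + 1 := ⟨m - 1, by omega⟩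
    rw [hm'] at hlt ⊢
    have h3 : Nat.fib (m' + 1 + 1) = Nat.fib m' + Nat.fib (m' + 1) := Nat.fib_add_two
    have h4 : Nat.fib m' ≤ Nat.fib (m' + 1) := Nat.fib_mono (by omega)
    omega
  have h2' : (n : ℝ) / 2 ≤ Nat.fib m := by
    have : (n : ℝ) ≤ 2 * Nat.fib m := by exact_mod_cast h2
    linarith
  have h3 : (Nat.fib m : ℝ) ^ (-k) ≤ 2 ^ k * (n : ℝ) ^ (-k) := by
    calc (Nat.fib m : ℝ) ^ (-k) ≤ ((n : ℝ) / 2) ^ (-k) :=
          Real.rpow_le_rpow_of_nonpos (by positivity) h2' (by linarith)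
      _ = 2 ^ k * (n : ℝ) ^ (-k) := by
        rw [Real.div_rpow hn0.le (by norm_num), Real.rpow_neg (by norm_num : (0 : ℝ) ≤ 2)]
        field_simp
  have h4 : (m : ℝ) ≤ 4 / Real.log 2 * Real.log n := by
    have h5 : 2 ^ ((m - 1) / 2) ≤ n :=
      (fib_pow ((m - 1) / 2)).trans ((Nat.fib_mono (by omega)).trans hfm)
    have h6 : (((m - 1) / 2 : ℕ) : ℝ) * Real.log 2 ≤ Real.log n := by
      rw [← Real.log_pow]
      apply Real.log_le_log (by positivity)
      exact_mod_cast h5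
    have h7 : (m : ℝ) ≤ 2 * (((m - 1) / 2 : ℕ) : ℝ) + 2 := by
      have : m ≤ 2 * ((m - 1) / 2) + 2 := by omega
      exact_mod_cast this
    have h8 : Real.log 2 ≤ Real.log n := Real.log_le_log (by norm_num) hn2
    rw [div_mul_eq_mul_div, le_div_iff₀ hlog2]
    nlinarith
  calc C * (Nat.fib m : ℝ) ^ (-k) * Real.sqrt m
      ≤ C * (2 ^ k * (n : ℝ) ^ (-k)) * Real.sqrt (4 / Real.log 2 * Real.log n) := by
        gcongr
    _ = C * 2 ^ k * Real.sqrt (4 / Real.log 2) * (n : ℝ) ^ (-k) * Real.sqrt (Real.log n) := by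
        rw [Real.sqrt_mul (by positivity)]
        ring

end

end Pool.Agent.Helper150.Iid.Upper
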