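import Mathlib
import Pool.Agent.Helper150.Iid.Fin

set_option autoImplicit false

namespace Pool.Agent.Helper150.Iid

open MeasureTheory Filter Topology
open scoped ENNReal

noncomputable section

/-- The ratio along the special sequence of sample sizes. -/
theorem ratio_main (k : ℝ) (hk : 1 / 2 < k) (θ : ℝ) (hθ : θ < k - 1 / 2) (n₀ : ℕ) :
    ∃ n : ℕ, n₀ ≤ n ∧ ENNReal.ofReal ((Real.log n) ^ θ) * eOpt 2 k n < eIid 2 k n := by
  obtain ⟨θ', hθ'⟩ : ∃ θ' : ℝ, θ' = max θ 0 := ⟨_, rfl⟩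
  have h0 : 0 ≤ θ' := by rw [hθ']; exact le_max_right _ _
  have h1 : θ ≤ θ' := by rw [hθ']; exact le_max_left _ _
  have h2 : θ' < k - 1 / 2 := by rw [hθ']; exact max_lt hθ (by linarith)
  obtain ⟨b0, hb0⟩ := exists_nat_ge ((k + 1 / 2 + θ' + 1) / (k - 1 / 2 - θ'))
  obtain ⟨b, hb⟩ : ∃ b : ℕ, b = b0 + 2 := ⟨_, rfl⟩
  have hb2 : 2 ≤ b := by omega
  have hδ : (((b + 1 : ℕ) : ℝ) * (1 / 2 + θ')) + 1 ≤ k * ((b - 1 : ℕ) : ℝ) := by
    have h3 : k + 1 / 2 + θ' + 1 ≤ b0 * (k - 1 / 2 - θ') := by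
      rwa [div_le_iff₀ (by linarith)] at hb0
    have h4 : ((b - 1 : ℕ) : ℝ) = b0 + 1 := by
      rw [hb]
      have : b0 + 2 - 1 = b0 + 1 := by omega
      rw [this]
      push_cast
      ring
    have h5 : ((b + 1 : ℕ) : ℝ) = b0 + 3 := by rw [hb]; push_cast; ring
    rw [h4, h5]
    nlinarith
  obtain ⟨s, c, cL, hc, hcL, hs, H⟩ := lower_main k hk b hb2
  obtain ⟨C4, hC4, HC4⟩ := Upper.eOpt_le k hk (Lat.lattice_sum k hk)
  obtain ⟨t, Ht, ht1, ht2, ht3⟩ := (H.and ((ev_const (C4 * cL ^ (1 / 2 + θ') / c + 1)).and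
    ((eventually_ge_atTop 1).and (eventually_ge_atTop n₀)))).exists
  obtain ⟨N, hN⟩ : ∃ N : ℕ, N = (2 ^ (s * t)) ^ (2 ^ (b * t) + 1) := ⟨_, rfl⟩
  obtain ⟨n, hn⟩ : ∃ n : ℕ, n = 2 ^ ((b - 1) * t) * N := ⟨_, rfl⟩
  obtain ⟨Hlow, Hlog⟩ := Ht N n hN hn
  obtain ⟨X, hX⟩ : ∃ X : ℝ, X = (2:ℝ) ^ t := ⟨_, rfl⟩
  rw [← hX] at Hlog ht1
  have hX1 : 1 ≤ X := by rw [hX]; exact one_le_pow₀ (by norm_num)
  have hX0 : 0 < X := by linarith
  have hNpos : 0 < N := by rw [hN]; positivity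
  have hNR : (0:ℝ) < N := by exact_mod_cast hNpos
  have hN1 : 1 ≤ N := hNpos
  have ht4 : t < 2 ^ ((b - 1) * t) := by
    calc t < 2 ^ t := Nat.lt_two_pow_self
      _ ≤ 2 ^ ((b - 1) * t) := Nat.pow_le_pow_right (by norm_num) (by
          calc t = 1 * t := by ring
            _ ≤ (b - 1) * t := Nat.mul_le_mul_right _ (by omega))
  have hNt : 4 ≤ N := by
    rw [hN, ← pow_mul]
    calc 4 = 2 ^ 2 := by norm_num
      _ ≤ 2 ^ (s * t * (2 ^ (b * t) + 1)) := by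
          refine Nat.pow_le_pow_right (by norm_num) ?_
          have h5 : 1 ≤ s * t := Nat.mul_pos (Nat.pos_of_ne_zero hs) ht2
          have h6 : 1 ≤ 2 ^ (b * t) := Nat.one_le_two_pow
          calc 2 = 1 * 2 := by norm_num
            _ ≤ s * t * (2 ^ (b * t) + 1) := Nat.mul_le_mul h5 (by omega)
  have hnN : N ≤ n := by
    rw [hn]
    calc N = 1 * N := by ring
      _ ≤ 2 ^ ((b - 1) * t) * N := Nat.mul_le_mul_right _ Nat.one_le_two_pow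
  have hn0 : n₀ ≤ n := by
    calc n₀ ≤ t := ht3
      _ ≤ 2 ^ ((b - 1) * t) := ht4.le
      _ = 2 ^ ((b - 1) * t) * 1 := by ring
      _ ≤ 2 ^ ((b - 1) * t) * N := Nat.mul_le_mul_left _ hN1
      _ = n := hn.symm
  refine ⟨n, hn0, ?_⟩
  have hn4 : (4:ℝ) ≤ n := by exact_mod_cast hNt.trans hnN
  have hnR : (0:ℝ) < n := by linarith
  have hlog1 : 1 ≤ Real.log n := by
    rw [Real.le_log_iff_exp_le hnR]
    have := Real.exp_one_lt_d9
    linarith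
  have hlog0 : 0 < Real.log n := by linarith
  have hup := HC4 n (by omega)
  have hnX : (n:ℝ) = X ^ (b - 1) * N := by
    rw [hn]
    push_cast
    rw [hX, ← pow_mul, mul_comm t]
  -- the powers
  have e1 : (Real.log n) ^ θ * Real.sqrt (Real.log n) ≤ cL ^ (1 / 2 + θ') *
      X ^ (((b + 1 : ℕ) : ℝ) * (1 / 2 + θ')) := by
    calc (Real.log n) ^ θ * Real.sqrt (Real.log n)
        ≤ (Real.log n) ^ θ' * Real.sqrt (Real.log n) :=
          mul_le_mul_of_nonneg_right (Real.rpow_le_rpow_of_exponent_le hlog1 h1)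
            (Real.sqrt_nonneg _)
      _ = (Real.log n) ^ (1 / 2 + θ') := by
          rw [Real.sqrt_eq_rpow, ← Real.rpow_add hlog0]
          congr 1
          ring
      _ ≤ (cL * X ^ (b + 1)) ^ (1 / 2 + θ') :=
          Real.rpow_le_rpow hlog0.le Hlog (by linarith)
      _ = cL ^ (1 / 2 + θ') * (X ^ (b + 1)) ^ (1 / 2 + θ') := by
          rw [Real.mul_rpow hcL.le (by positivity)]
      _ = _ := by
          rw [Real.rpow_mul hX0.le, Real.rpow_natCast]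
  have e2 : C4 * ((Real.log n) ^ θ * Real.sqrt (Real.log n)) < c * X ^ (k * ((b - 1 : ℕ) : ℝ)) := by
    have h6 : C4 * cL ^ (1 / 2 + θ') < c * X := by
      have h7 : C4 * cL ^ (1 / 2 + θ') / c < X := by linarith
      rw [div_lt_iff₀ hc] at h7
      linarith
    have h7 : X ^ (((b + 1 : ℕ) : ℝ) * (1 / 2 + θ')) * X ≤ X ^ (k * ((b - 1 : ℕ) : ℝ)) := by
      have h8 : X ^ (((b + 1 : ℕ) : ℝ) * (1 / 2 + θ')) * X =
          X ^ ((((b + 1 : ℕ) : ℝ) * (1 / 2 + θ')) + 1) := by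
        rw [Real.rpow_add hX0, Real.rpow_one]
      rw [h8]
      exact Real.rpow_le_rpow_of_exponent_le hX1 hδ
    have h8 : 0 < X ^ (((b + 1 : ℕ) : ℝ) * (1 / 2 + θ')) := Real.rpow_pos_of_pos hX0 _
    calc C4 * ((Real.log n) ^ θ * Real.sqrt (Real.log n))
        ≤ C4 * (cL ^ (1 / 2 + θ') * X ^ (((b + 1 : ℕ) : ℝ) * (1 / 2 + θ'))) :=
          mul_le_mul_of_nonneg_left e1 hC4.le
      _ = (C4 * cL ^ (1 / 2 + θ')) * X ^ (((b + 1 : ℕ) : ℝ) * (1 / 2 + θ')) := by ring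
      _ < (c * X) * X ^ (((b + 1 : ℕ) : ℝ) * (1 / 2 + θ')) := mul_lt_mul_of_pos_right h6 h8
      _ = c * (X ^ (((b + 1 : ℕ) : ℝ) * (1 / 2 + θ')) * X) := by ring
      _ ≤ c * X ^ (k * ((b - 1 : ℕ) : ℝ)) := mul_le_mul_of_nonneg_left h7 hc.le
  have e3 : (Real.log n) ^ θ * (C4 * (n : ℝ) ^ (-k) * Real.sqrt (Real.log n)) <
      c * (N : ℝ) ^ (-k) := by
    have h9 : (n : ℝ) ^ (-k) = (X ^ (k * ((b - 1 : ℕ) : ℝ)))⁻¹ * (N : ℝ) ^ (-k) := by
      rw [hnX, Real.mul_rpow (by positivity) hNR.le]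
      congr 1
      rw [← Real.rpow_natCast X (b - 1), ← Real.rpow_mul hX0.le, ← Real.rpow_neg hX0.le]
      congr 1
      ring
    have h10 : 0 < X ^ (k * ((b - 1 : ℕ) : ℝ)) := Real.rpow_pos_of_pos hX0 _
    have h11 : 0 < (N : ℝ) ^ (-k) := Real.rpow_pos_of_pos hNR _
    rw [h9]
    calc (Real.log n) ^ θ * (C4 * ((X ^ (k * ((b - 1 : ℕ) : ℝ)))⁻¹ * (N : ℝ) ^ (-k)) *
          Real.sqrt (Real.log n))
        = (C4 * ((Real.log n) ^ θ * Real.sqrt (Real.log n))) *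
          ((X ^ (k * ((b - 1 : ℕ) : ℝ)))⁻¹ * (N : ℝ) ^ (-k)) := by ring
      _ < (c * X ^ (k * ((b - 1 : ℕ) : ℝ))) *
          ((X ^ (k * ((b - 1 : ℕ) : ℝ)))⁻¹ * (N : ℝ) ^ (-k)) :=
          mul_lt_mul_of_pos_right e2 (by positivity)
      _ = c * (N : ℝ) ^ (-k) := by
          field_simp
  calc ENNReal.ofReal ((Real.log n) ^ θ) * eOpt 2 k n
      ≤ ENNReal.ofReal ((Real.log n) ^ θ) *
        ENNReal.ofReal (C4 * (n : ℝ) ^ (-k) * Real.sqrt (Real.log n)) := by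
        gcongr
    _ = ENNReal.ofReal ((Real.log n) ^ θ * (C4 * (n : ℝ) ^ (-k) * Real.sqrt (Real.log n))) := by
        rw [ENNReal.ofReal_mul (Real.rpow_nonneg hlog0.le _)]
    _ < ENNReal.ofReal (c * (N : ℝ) ^ (-k)) := by
        refine (ENNReal.ofReal_lt_ofReal_iff ?_).2 e3
        exact mul_pos hc (Real.rpow_pos_of_pos hNR _)
    _ ≤ eIid 2 k n := Hlow

end

end Pool.Agent.Helper150.Iid
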